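import Mathlib
import Pool.Agent.H527.M.M4

/-! Pairs of primes `a + l q`, `a + l' q` on average over `a` and `q`. -/

set_option autoImplicit false

namespace Pool.Agent.H527.N

open Finset Pool.Agent.H527.AP Pool.Agent.H527.M

/-- the moduli -/
def Qs (Q g W : ℕ) : Finset ℕ := (Ioc Q (2 * Q)).filter (fun q => g ∣ q ∧ q.Coprime W)

/-- the number of pairs `(q, a)` for which `a + l q` and `a + l' q` are primes -/
def TT (Q g W l l' : ℕ) : ℕ :=
  ∑ q ∈ Qs Q g W, ((rows W q 0 q).filter (fun a => (a + l * q).Prime ∧ (a + l' * q).Prime)).card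

/-- the moduli with `l q < p ≤ (l + 1) q` -/
def Ip (Q l p : ℕ) : Finset ℕ := (Ioc Q (2 * Q)).filter (fun q => l * q < p ∧ p ≤ (l + 1) * q)

theorem Ip_eq {Q l p : ℕ} (hl : 1 ≤ l) (hp : 1 ≤ p) :
    Ip Q l p = Ioc (max Q ((p - 1) / (l + 1))) (min (2 * Q) ((p - 1) / l)) := by
  ext q
  unfold Ip
  simp only [mem_filter, mem_Ioc, max_lt_iff, le_min_iff]
  have h1 : q ≤ (p - 1) / l ↔ l * q < p := by
    rw [Nat.le_div_iff_mul_le (by omega), mul_comm]; omega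
  have h2 : (p - 1) / (l + 1) < q ↔ p ≤ (l + 1) * q := by
    rw [Nat.div_lt_iff_lt_mul (by omega), mul_comm]; omega
  rw [h1, h2]
  tauto

/-- the moduli for a given prime `p` -/
def Mp (Q g W l r p : ℕ) : Finset ℕ :=
  (Ip Q l p).filter (fun q => g ∣ q ∧ q.Coprime W ∧ p ≡ l * q [MOD W] ∧ (p + r * q).Prime)

theorem Mp_class {Q g W l r p q q0 : ℕ} (hgW : g.Coprime W) (hlW : l.Coprime W)
    (hq : q ∈ Mp Q g W l r p) (hq0 : q0 ∈ Mp Q g W l r p) : p + r * q ≡ p + r * q0 [MOD r * (g * W)] := by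
  unfold Mp at hq hq0
  rw [mem_filter] at hq hq0
  obtain ⟨_, hg1, _, hW1, _⟩ := hq
  obtain ⟨_, hg2, _, hW2, _⟩ := hq0
  have h1 : q ≡ q0 [MOD g] := ((Nat.modEq_zero_iff_dvd.2 hg1)).trans (Nat.modEq_zero_iff_dvd.2 hg2).symm
  have h2 : l * q ≡ l * q0 [MOD W] := hW1.symm.trans hW2
  have h3 : q ≡ q0 [MOD W] := Nat.ModEq.cancel_left_of_coprime (by rw [Nat.gcd_comm]; exact hlW) h2
  have h4 : q ≡ q0 [MOD g * W] := (Nat.modEq_and_modEq_iff_modEq_mul hgW).1 ⟨h1, h3⟩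
  exact Nat.ModEq.add_left p (Nat.ModEq.mul_left' r h4)

theorem Mp_card {Q g W l r p Y : ℕ} {Er : ℝ} (hgW : g.Coprime W) (hlW : l.Coprime W) (hl : 1 ≤ l) (hr : 1 ≤ r)
    (hlr : l + r ≤ Y) (hQ : 2 ≤ Q) (hEr : 0 ≤ Er) (hrW : r * (g * W) ≤ Q) (hp : l * Q < p) 
    (h : Hpsi (r * (g * W)) Q ((Y + 1) * Q) Er) :
    ((Mp Q g W l r p).card : ℝ) * Real.log Q ≤
      (r : ℝ) / (Nat.totient (r * (g * W)) : ℝ) * ((Ip Q l p).card : ℝ) + 2 * Er := by
  classical
  have hlQ : 1 * Q ≤ l * Q := Nat.mul_le_mul_right Q hl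
  rcases (Mp Q g W l r p).eq_empty_or_nonempty with h0 | ⟨q0, hq0⟩
  · rw [h0]
    simp only [card_empty, Nat.cast_zero, zero_mul]
    positivity
  obtain ⟨u1, hu1⟩ : ∃ u1, u1 = max Q ((p - 1) / (l + 1)) := ⟨_, rfl⟩
  obtain ⟨u2, hu2⟩ : ∃ u2, u2 = min (2 * Q) ((p - 1) / l) := ⟨_, rfl⟩
  have hI : Ip Q l p = Ioc u1 u2 := by rw [hu1, hu2]; exact Ip_eq hl (by omega)
  have hu1Q : Q ≤ u1 := by rw [hu1]; exact le_max_left _ _
  have hu2Q : u2 ≤ 2 * Q := by rw [hu2]; exact min_le_left _ _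
  have hq0' := hq0
  unfold Mp at hq0'
  rw [mem_filter, hI, mem_Ioc] at hq0'
  have hu12 : u1 ≤ u2 := by omega
  have hP0 := hq0'.2.2.2.2
  -- the prime in the class
  have hcop : (p + r * q0).Coprime (r * (g * W)) := by
    rw [Nat.Prime.coprime_iff_not_dvd hP0]
    intro hd
    rcases Nat.eq_zero_or_pos (r * (g * W)) with h3 | h3
    · have hg0 : g * W ≠ 0 := by
        intro h4
        rcases Nat.mul_eq_zero.1 h4 with h5 | h5
        · rw [h5, Nat.zero_dvd] at hq0'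
          omega
        · rw [h5, Nat.coprime_zero_right] at hq0'
          omega
      have := Nat.mul_ne_zero (show r ≠ 0 by omega) hg0
      exact this h3
    · have := Nat.le_of_dvd h3 hd
      have : 1 ≤ r * q0 := Nat.mul_pos (by omega) (by omega)
      omega
  have hinj : (Mp Q g W l r p).card ≤ ((Ioc (p + r * u1) (p + r * u2)).filter
      (fun P => P.Prime ∧ P ≡ p + r * q0 [MOD r * (g * W)])).card := by
    apply card_le_card_of_injOn (fun q => p + r * q)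
    · intro q hq
      rw [mem_coe] at hq
      have hq' := hq
      unfold Mp at hq'
      rw [mem_filter, hI, mem_Ioc] at hq'
      rw [mem_coe, mem_filter, mem_Ioc]
      beta_reduce
      refine ⟨⟨?_, ?_⟩, hq'.2.2.2.2, Mp_class hgW hlW hq hq0⟩
      · have := Nat.mul_lt_mul_of_pos_left hq'.1.1 (show 0 < r by omega)
        omega
      · have := Nat.mul_le_mul_left r hq'.1.2
        omega
    · intro q _ q' _ h1
      simp only at h1
      have h2 : r * q = r * q' := by omega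
      exact Nat.eq_of_mul_eq_mul_left (by omega) h2
  have hV : p + r * u2 ≤ 2 * ((Y + 1) * Q) := by
    have h1 : p ≤ (l + 1) * (2 * Q) := by
      have h2 : (p - 1) / (l + 1) < 2 * Q := by
        have : (p - 1) / (l + 1) ≤ u1 := by rw [hu1]; exact le_max_right _ _
        omega
      rw [Nat.div_lt_iff_lt_mul (by omega)] at h2
      rw [mul_comm (l + 1)]
      omega
    have h2 : r * u2 ≤ r * (2 * Q) := Nat.mul_le_mul_left r hu2Q
    have h3 : (l + r + 1) * (2 * Q) ≤ (Y + 1) * (2 * Q) := Nat.mul_le_mul_right _ (by omega)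
    have h4 : (l + r + 1) * (2 * Q) = (l + 1) * (2 * Q) + r * (2 * Q) := by ring
    have h5 : 2 * ((Y + 1) * Q) = (Y + 1) * (2 * Q) := by ring
    omega
  have hUV : p + r * u1 ≤ p + r * u2 := by
    have := Nat.mul_le_mul_left r hu12
    omega
  have h1 := prime_le (U := p + r * u1) (V := p + r * u2) (W := r * (g * W)) (b := p + r * q0) (by omega) hUV
  have h2 := h (p + r * u1) (by omega) (by omega) (p + r * q0) hcop
  have h3 := h (p + r * u2) (by omega) hV (p + r * q0) hcop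
  rw [abs_le] at h2 h3
  have h4 : Real.log Q ≤ Real.log ((p + r * u1 : ℕ) : ℝ) := by
    apply Real.log_le_log (by exact_mod_cast (by omega : 0 < Q))
    exact_mod_cast (by omega : Q ≤ p + r * u1)
  have h5 : ((Mp Q g W l r p).card : ℝ) ≤ (((Ioc (p + r * u1) (p + r * u2)).filter
      (fun P => P.Prime ∧ P ≡ p + r * q0 [MOD r * (g * W)])).card : ℝ) := by exact_mod_cast hinj
  have hlogQ : 0 ≤ Real.log Q := Real.log_natCast_nonneg Q
  have h6 : ((Mp Q g W l r p).card : ℝ) * Real.log Q ≤ (((Ioc (p + r * u1) (p + r * u2)).filter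
      (fun P => P.Prime ∧ P ≡ p + r * q0 [MOD r * (g * W)])).card : ℝ) * Real.log ((p + r * u1 : ℕ) : ℝ) :=
    mul_le_mul h5 h4 hlogQ (Nat.cast_nonneg _)
  have h7 : (r : ℝ) / (Nat.totient (r * (g * W)) : ℝ) * ((Ip Q l p).card : ℝ) =
      ((p + r * u2 : ℕ) : ℝ) / (Nat.totient (r * (g * W)) : ℝ) - ((p + r * u1 : ℕ) : ℝ) / (Nat.totient (r * (g * W)) : ℝ) := by
    rw [hI, Nat.card_Ioc, Nat.cast_sub hu12]
    push_cast
    ring
  linarith [h2.1, h2.2, h3.1, h3.2]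

/-- exchange of the order -/
theorem TT_eq {Q g W l l' : ℕ} (hl : l < l') :
    TT Q g W l l' ≤ ∑ p ∈ (Ioc (l * Q) ((l + 1) * (2 * Q))).filter Nat.Prime, (Mp Q g W l (l' - l) p).card := by
  classical
  have h1 : ∀ q ∈ Qs Q g W, ((rows W q 0 q).filter (fun a => (a + l * q).Prime ∧ (a + l' * q).Prime)).card ≤
      ∑ p ∈ (Ioc (l * Q) ((l + 1) * (2 * Q))).filter Nat.Prime,
        (if l * q < p ∧ p ≤ (l + 1) * q ∧ p ≡ l * q [MOD W] ∧ (p + (l' - l) * q).Prime then 1 else 0) := by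
    intro q hq
    unfold Qs at hq
    rw [mem_filter, mem_Ioc] at hq
    rw [← card_filter]
    apply card_le_card_of_injOn (fun a => a + l * q)
    · intro a ha
      rw [mem_coe, mem_filter] at ha
      unfold rows at ha
      rw [mem_filter, mem_Ioc] at ha
      rw [mem_coe, mem_filter, mem_filter, mem_Ioc]
      beta_reduce
      have h2 : l * Q ≤ l * q := Nat.mul_le_mul_left l hq.1.1.le
      have h3 : (l + 1) * q ≤ (l + 1) * (2 * Q) := Nat.mul_le_mul_left _ hq.1.2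
      have h4 : (l + 1) * q = l * q + q := by ring
      have h5 : l * q + (l' - l) * q = l' * q := by rw [← add_mul]; congr 1; omega
      refine ⟨⟨⟨by omega, by omega⟩, ha.2.1⟩, by omega, by omega, ?_, ?_⟩
      · have := (Nat.modEq_zero_iff_dvd.2 ha.1.2.1)
        have h6 := Nat.ModEq.add_right (l * q) this
        rwa [zero_add] at h6
      · rw [add_assoc, h5]
        exact ha.2.2
    · intro a _ a' _ h
      simp only at h
      omega
  unfold TT
  refine (sum_le_sum h1).trans ?_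
  rw [sum_comm]
  apply sum_le_sum
  intro p _
  rw [← card_filter]
  apply card_le_card
  intro q hq
  unfold Qs at hq
  rw [mem_filter, mem_filter] at hq
  unfold Mp Ip
  rw [mem_filter, mem_filter]
  exact ⟨⟨hq.1.1, hq.2.1, hq.2.2.1⟩, hq.1.2.1, hq.1.2.2, hq.2.2.2.1, hq.2.2.2.2⟩

theorem sum_Ip {Q l : ℕ} :
    ∑ p ∈ (Ioc (l * Q) ((l + 1) * (2 * Q))).filter Nat.Prime, (Ip Q l p).card ≤
      ∑ q ∈ Ioc Q (2 * Q), blk 1 q 0 q l := by
  classical
  have h1 : ∀ p ∈ (Ioc (l * Q) ((l + 1) * (2 * Q))).filter Nat.Prime, (Ip Q l p).card =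
      ∑ q ∈ Ioc Q (2 * Q), (if l * q < p ∧ p ≤ (l + 1) * q then 1 else 0) := by
    intro p _
    unfold Ip
    rw [card_filter]
  rw [sum_congr rfl h1, sum_comm]
  apply sum_le_sum
  intro q _
  rw [← card_filter]
  unfold blk
  apply card_le_card
  intro p hp
  rw [mem_filter, mem_filter] at hp
  rw [mem_filter, mem_Ioc]
  have : (l + 1) * q = l * q + q := by ring
  exact ⟨⟨by omega, by omega⟩, hp.1.2, Nat.modEq_one⟩

/-- the sum of the moduli -/
def SQ (Q : ℕ) : ℕ := ∑ q ∈ Ioc Q (2 * Q), q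

theorem sum_Ip_le {Q l Y : ℕ} {Er : ℝ} (h : Hpsi 1 Q ((Y + 1) * Q) Er) (hEr : 0 ≤ Er) (hQ : 2 ≤ Q) (hl : 1 ≤ l) (hlY : l ≤ Y) :
    ((∑ p ∈ (Ioc (l * Q) ((l + 1) * (2 * Q))).filter Nat.Prime, (Ip Q l p).card : ℕ) : ℝ) ≤
      ((SQ Q : ℝ) + 2 * Q * Er) / Real.log Q := by
  have h1 : ((∑ p ∈ (Ioc (l * Q) ((l + 1) * (2 * Q))).filter Nat.Prime, (Ip Q l p).card : ℕ) : ℝ) ≤
      ((∑ q ∈ Ioc Q (2 * Q), blk 1 q 0 q l : ℕ) : ℝ) := by exact_mod_cast sum_Ip
  refine h1.trans ?_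
  push_cast
  have hlogQ : 0 < Real.log Q := Real.log_pos (by exact_mod_cast (by omega : 1 < Q))
  have h2 : ∀ q ∈ Ioc Q (2 * Q), (blk 1 q 0 q l : ℝ) ≤ ((q : ℝ) + 2 * Er) / Real.log Q := by
    intro q hq
    rw [mem_Ioc] at hq
    have h3 := blk_le (W := 1) (q := q) (x := (Y + 1) * Q) (α := 0) (β := q) (l := l) (Er := Er) (fun V hV1 hV2 b hb =>
      h V (by omega) hV2 b hb) (by omega) (Nat.zero_le q) le_rfl hl (by
        have h4 : (l + 1) * q ≤ (Y + 1) * (2 * Q) := Nat.mul_le_mul (by omega) hq.2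
        have h5 : 2 * ((Y + 1) * Q) = (Y + 1) * (2 * Q) := by ring
        omega) (Nat.coprime_one_right _)
    simp only [Nat.cast_zero, sub_zero, Nat.totient_one, Nat.cast_one, div_one] at h3
    refine h3.trans ?_
    have h4 : Real.log Q ≤ Real.log ((l : ℝ) * q) := by
      apply Real.log_le_log (by exact_mod_cast (by omega : 0 < Q))
      have h5 : 1 * q ≤ l * q := Nat.mul_le_mul_right q hl
      exact_mod_cast (by omega : Q ≤ l * q)
    exact div_le_div_of_nonneg_left (by positivity) hlogQ h4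
  refine (sum_le_sum h2).trans (le_of_eq ?_)
  rw [← sum_div, sum_add_distrib, sum_const, Nat.card_Ioc, nsmul_eq_mul]
  unfold SQ
  have h3 : 2 * Q - Q = Q := by omega
  rw [h3]
  push_cast
  ring

/-- the bound for the pairs -/
theorem TT_le {Q g W l l' Y : ℕ} {Er : ℝ} (hgW : g.Coprime W) (hlW : l.Coprime W) (hl : 1 ≤ l) (hll : l < l')
    (hlY : l' ≤ Y) (hQ : 2 ≤ Q) (hEr : 0 ≤ Er) (hrW : (l' - l) * (g * W) ≤ Q)
    (h : Hpsi ((l' - l) * (g * W)) Q ((Y + 1) * Q) Er) (h1 : Hpsi 1 Q ((Y + 1) * Q) Er) :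
    (TT Q g W l l' : ℝ) ≤ (((l' - l : ℕ) : ℝ) / (Nat.totient ((l' - l) * (g * W)) : ℝ) *
      (((SQ Q : ℝ) + 2 * Q * Er) / Real.log Q) + 4 * Y * Q * Er) / Real.log Q := by
  have hlogQ : 0 < Real.log Q := Real.log_pos (by exact_mod_cast (by omega : 1 < Q))
  rw [le_div_iff₀ hlogQ]
  have h2 : (TT Q g W l l' : ℝ) ≤
      ((∑ p ∈ (Ioc (l * Q) ((l + 1) * (2 * Q))).filter Nat.Prime, (Mp Q g W l (l' - l) p).card : ℕ) : ℝ) := by
    exact_mod_cast TT_eq hll
  have h3 : ((∑ p ∈ (Ioc (l * Q) ((l + 1) * (2 * Q))).filter Nat.Prime, (Mp Q g W l (l' - l) p).card : ℕ) : ℝ) * Real.log Q ≤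
      ∑ p ∈ (Ioc (l * Q) ((l + 1) * (2 * Q))).filter Nat.Prime,
        (((l' - l : ℕ) : ℝ) / (Nat.totient ((l' - l) * (g * W)) : ℝ) * ((Ip Q l p).card : ℝ) + 2 * Er) := by
    push_cast
    rw [sum_mul]
    apply sum_le_sum
    intro p hp
    rw [mem_filter, mem_Ioc] at hp
    exact Mp_card hgW hlW hl (by omega) (by omega) hQ hEr hrW hp.1.1 h
  have h4 := sum_Ip_le h1 hEr hQ hl (by omega : l ≤ Y)
  rw [sum_add_distrib, ← mul_sum, sum_const, nsmul_eq_mul] at h3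
  have h5 : (((Ioc (l * Q) ((l + 1) * (2 * Q))).filter Nat.Prime).card : ℝ) ≤ 2 * Y * Q := by
    have h6 := card_filter_le (Ioc (l * Q) ((l + 1) * (2 * Q))) Nat.Prime
    rw [Nat.card_Ioc] at h6
    have h7 : (l + 1) * (2 * Q) ≤ Y * (2 * Q) := Nat.mul_le_mul_right _ (by omega)
    have h8 : Y * (2 * Q) = 2 * Y * Q := by ring
    exact_mod_cast (by omega : ((Ioc (l * Q) ((l + 1) * (2 * Q))).filter Nat.Prime).card ≤ 2 * Y * Q)
  have h6 : (((Ioc (l * Q) ((l + 1) * (2 * Q))).filter Nat.Prime).card : ℝ) * (2 * Er) ≤ (2 * Y * Q) * (2 * Er) := by gcongr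
  push_cast at h4
  have h7 : ((l' - l : ℕ) : ℝ) / (Nat.totient ((l' - l) * (g * W)) : ℝ) *
      (∑ p ∈ (Ioc (l * Q) ((l + 1) * (2 * Q))).filter Nat.Prime, ((Ip Q l p).card : ℝ)) ≤
      ((l' - l : ℕ) : ℝ) / (Nat.totient ((l' - l) * (g * W)) : ℝ) * (((SQ Q : ℝ) + 2 * Q * Er) / Real.log Q) := by gcongr
  calc (TT Q g W l l' : ℝ) * Real.log Q ≤ ((∑ p ∈ (Ioc (l * Q) ((l + 1) * (2 * Q))).filter Nat.Prime, (Mp Q g W l (l' - l) p).card : ℕ) : ℝ) * Real.log Q := by gcongr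
    _ ≤ _ := h3
    _ ≤ _ := by linarith

end Pool.Agent.H527.N
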