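import Mathlib
import Pool.Agent.H527.S.S1
import Pool.Agent.H527.M.M3

/-! Sifting by a set of primes, general version. -/

set_option autoImplicit false

namespace Pool.Agent.H527.N

open Finset Pool.Agent.H527.S Pool.Agent.H527.M

/-- the sifted set -/
def Ls (W Y : ℕ) : Finset ℕ := (Icc 1 Y).filter (fun l => l.Coprime W)

/-- the subsets with product at most `Y` -/
def SY (P : Finset ℕ) (Y : ℕ) : Finset (Finset ℕ) := P.powerset.filter (fun s => ∏ p ∈ s, p ≤ Y)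

/-- the truncated product -/
noncomputable def EY (P : Finset ℕ) (Y : ℕ) : ℝ := ∑ s ∈ SY P Y, (-1 : ℝ) ^ s.card * (1 / ((∏ p ∈ s, p : ℕ) : ℝ))

theorem Ls_eq {P : Finset ℕ} (hP : ∀ p ∈ P, p.Prime) (Y : ℕ) :
    Ls (∏ p ∈ P, p) Y = (Icc 1 Y).filter (fun h => ∀ p ∈ P, ¬ p ∣ h) := by
  unfold Ls
  ext l
  simp only [mem_filter, coprime_prod hP]

/-- truncated inclusion-exclusion at one integer -/
theorem ind_SY (P : Finset ℕ) (hP : ∀ p ∈ P, p.Prime) (Y h : ℕ) (h1 : 1 ≤ h) (h2 : h ≤ Y) :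
    (if (∀ p ∈ P, ¬ p ∣ h) then (1 : ℝ) else 0) =
      ∑ s ∈ SY P Y, (-1 : ℝ) ^ s.card * (if (∏ p ∈ s, p) ∣ h then (1 : ℝ) else 0) := by
  classical
  have hcop : ∀ s, s ⊆ P → ((∏ p ∈ s, p) ∣ h ↔ ∀ p ∈ s, p ∣ h) := by
    intro s hs
    constructor
    · intro h1 p hp
      exact (Finset.dvd_prod_of_mem _ hp).trans h1
    · intro h1
      refine Finset.prod_primes_dvd h (fun p hp => (hP p (hs hp)).prime) h1
  set Dh := P.filter (fun p => p ∣ h) with hDh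
  have h5 : ∑ s ∈ SY P Y, (-1 : ℝ) ^ s.card * (if (∏ p ∈ s, p) ∣ h then (1 : ℝ) else 0) =
      ∑ s ∈ Dh.powerset, (-1 : ℝ) ^ s.card := by
    simp_rw [mul_ite, mul_one, mul_zero]
    rw [← Finset.sum_filter]
    apply Finset.sum_congr _ (fun _ _ => rfl)
    ext s
    unfold SY
    simp only [Finset.mem_filter, Finset.mem_powerset]
    constructor
    · rintro ⟨⟨h6, h7⟩, h8⟩
      intro p hp
      exact Finset.mem_filter.2 ⟨h6 hp, (hcop s h6).1 h8 p hp⟩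
    · intro h6
      have h7 : s ⊆ P := h6.trans (Finset.filter_subset _ _)
      have h8 : (∏ p ∈ s, p) ∣ h := by
        rw [hcop s h7]
        intro p hp
        exact (Finset.mem_filter.1 (h6 hp)).2
      exact ⟨⟨h7, (Nat.le_of_dvd (by omega) h8).trans h2⟩, h8⟩
  rw [h5]
  have h6 := Finset.sum_powerset_neg_one_pow_card (x := Dh)
  have h7 : ∑ s ∈ Dh.powerset, (-1 : ℝ) ^ s.card = ((∑ s ∈ Dh.powerset, (-1 : ℤ) ^ s.card : ℤ) : ℝ) := by
    push_cast; rfl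
  rw [h7, h6]
  by_cases h8 : Dh = ∅
  · rw [if_pos h8, if_pos]
    · norm_num
    · intro p hp hd
      have : p ∈ Dh := Finset.mem_filter.2 ⟨hp, hd⟩
      rw [h8] at this
      exact absurd this (Finset.notMem_empty _)
  · rw [if_neg h8, if_neg]
    · norm_num
    · intro h9
      apply h8
      rw [Finset.eq_empty_iff_forall_notMem]
      intro p hp
      rw [hDh, Finset.mem_filter] at hp
      exact h9 p hp.1 hp.2

/-- the count in a class, with main term -/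
theorem count_SY (P : Finset ℕ) (hP : ∀ p ∈ P, p.Prime) (Y v c : ℕ) (hv : 0 < v) (hPv : ∀ p ∈ P, p.Coprime v) :
    |(((Ls (∏ p ∈ P, p) Y).filter (fun l => l ≡ c [MOD v])).card : ℝ) - (Y : ℝ) / v * EY P Y| ≤ (SY P Y).card := by
  classical
  have e1 : (Ls (∏ p ∈ P, p) Y).filter (fun l => l ≡ c [MOD v]) =
      (Icc 1 Y).filter (fun h => h ≡ c [MOD v] ∧ ∀ p ∈ P, ¬ p ∣ h) := by
    rw [Ls_eq hP, filter_filter]
    apply filter_congr
    intro h _
    exact and_comm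
  rw [e1]
  have h1 : (((Icc 1 Y).filter (fun h => h ≡ c [MOD v] ∧ ∀ p ∈ P, ¬ p ∣ h)).card : ℝ) =
      ∑ h ∈ (Icc 1 Y).filter (fun h => h ≡ c [MOD v]), (if (∀ p ∈ P, ¬ p ∣ h) then (1 : ℝ) else 0) := by
    rw [← filter_filter, card_filter]
    push_cast
    rfl
  have h2 : (((Icc 1 Y).filter (fun h => h ≡ c [MOD v] ∧ ∀ p ∈ P, ¬ p ∣ h)).card : ℝ) =
      ∑ s ∈ SY P Y, (-1 : ℝ) ^ s.card *
        (((Icc 1 Y).filter (fun h => h ≡ c [MOD v] ∧ (∏ p ∈ s, p) ∣ h)).card : ℝ) := by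
    rw [h1]
    have h3 : ∀ h ∈ (Icc 1 Y).filter (fun h => h ≡ c [MOD v]),
        (if (∀ p ∈ P, ¬ p ∣ h) then (1 : ℝ) else 0) =
        ∑ s ∈ SY P Y, (-1 : ℝ) ^ s.card * (if (∏ p ∈ s, p) ∣ h then (1 : ℝ) else 0) := by
      intro h hh
      rw [mem_filter, mem_Icc] at hh
      exact ind_SY P hP Y h hh.1.1 hh.1.2
    rw [sum_congr rfl h3, sum_comm]
    apply sum_congr rfl
    intro s _
    rw [← mul_sum]
    congr 1
    rw [← filter_filter, card_filter]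
    push_cast
    rfl
  rw [h2]
  have h4 : (Y : ℝ) / v * EY P Y =
      ∑ s ∈ SY P Y, (-1 : ℝ) ^ s.card * ((Y : ℝ) / (v * (∏ p ∈ s, p : ℕ))) := by
    unfold EY
    rw [mul_sum]
    apply sum_congr rfl
    intro s _
    push_cast
    ring
  rw [h4, ← sum_sub_distrib]
  refine (abs_sum_le_sum_abs _ _).trans ?_
  have h5 : ∀ s ∈ SY P Y, |(-1 : ℝ) ^ s.card *
        (((Icc 1 Y).filter (fun h => h ≡ c [MOD v] ∧ (∏ p ∈ s, p) ∣ h)).card : ℝ) -
        (-1 : ℝ) ^ s.card * ((Y : ℝ) / (v * (∏ p ∈ s, p : ℕ)))| ≤ 1 := by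
    intro s hs
    unfold SY at hs
    rw [mem_filter, mem_powerset] at hs
    rw [← mul_sub, abs_mul, abs_pow, abs_neg, abs_one, one_pow, one_mul]
    apply card_mult Y v c _ hv
    · exact Finset.prod_pos fun p hp => (hP p (hs.1 hp)).pos
    · exact Nat.Coprime.prod_left fun p hp => hPv p (hs.1 hp)
  refine (sum_le_sum h5).trans ?_
  rw [sum_const, nsmul_eq_mul, mul_one]

/-- the count, with main term -/
theorem count_all_SY (P : Finset ℕ) (hP : ∀ p ∈ P, p.Prime) (Y : ℕ) :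
    |((Ls (∏ p ∈ P, p) Y).card : ℝ) - (Y : ℝ) * EY P Y| ≤ (SY P Y).card := by
  have h := count_SY P hP Y 1 0 one_pos (fun p _ => Nat.coprime_one_right p)
  have h1 : (Ls (∏ p ∈ P, p) Y).filter (fun l => l ≡ 0 [MOD 1]) = Ls (∏ p ∈ P, p) Y := by
    rw [filter_true_of_mem]
    intro h _
    exact Nat.modEq_one
  rw [h1] at h
  simpa using h

/-- equidistribution of the sifted set in classes, upper bound with the error `2 k` -/
def Cls (P : Finset ℕ) (Y k : ℕ) : Prop := ∀ d c : ℕ, 0 < d → (∀ p ∈ P, p.Coprime d) →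
  (((Ls (∏ p ∈ P, p) Y).filter (fun l => l ≡ c [MOD d])).card : ℝ) ≤ ((Ls (∏ p ∈ P, p) Y).card : ℝ) / d + 2 * k

theorem cls_SY (P : Finset ℕ) (hP : ∀ p ∈ P, p.Prime) (Y : ℕ) : Cls P Y (SY P Y).card := by
  intro d c hd hPd
  have h1 := count_SY P hP Y d c hd hPd
  have h2 := count_all_SY P hP Y
  rw [abs_le] at h1 h2
  have hd1 : (1 : ℝ) ≤ d := by exact_mod_cast hd
  have hd0 : (0 : ℝ) < d := by linarith
  have h3 : (Y : ℝ) / d * EY P Y = (Y * EY P Y) / d := by ring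
  have h4 : (Y * EY P Y) / d ≤ (((Ls (∏ p ∈ P, p) Y).card : ℝ) + (SY P Y).card) / d := by
    apply div_le_div_of_nonneg_right _ hd0.le
    linarith [h2.1]
  have h5 : ((SY P Y).card : ℝ) / d ≤ (SY P Y).card := div_le_self (Nat.cast_nonneg _) hd1
  rw [add_div] at h4
  linarith [h1.2]

end Pool.Agent.H527.N
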