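import Mathlib

/-! The function `n / φ(n)` and its truncation. -/

set_option autoImplicit false

namespace Pool.Agent.H527.N

open Finset

/-- `μ²(d) / φ(d)` for `d` prime to `W` -/
noncomputable def hh (W d : ℕ) : ℝ := if Squarefree d ∧ d.Coprime W then 1 / (Nat.totient d : ℝ) else 0

theorem hh_nonneg (W d : ℕ) : 0 ≤ hh W d := by
  unfold hh; split_ifs <;> positivity

/-- the part of `n / φ(n)` prime to `W` -/
noncomputable def rho (W n : ℕ) : ℝ := ∏ p ∈ n.primeFactors.filter (fun p => ¬ p ∣ W), (1 - 1 / (p : ℝ))⁻¹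

theorem tot_prod_set (s : Finset ℕ) (hs : ∀ p ∈ s, p.Prime) :
    (Nat.totient (∏ p ∈ s, p) : ℝ) = ∏ p ∈ s, ((p : ℝ) - 1) := by
  classical
  induction s using Finset.induction_on with
  | empty => simp
  | insert p s hp ih =>
    have hpp := hs p (mem_insert_self _ _)
    rw [prod_insert hp, prod_insert hp, Nat.totient_mul, Nat.totient_prime hpp]
    · push_cast
      rw [ih (fun p' h => hs p' (mem_insert_of_mem h)), Nat.cast_sub hpp.one_lt.le]
      push_cast
      ring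
    · rw [Nat.coprime_prod_right_iff]
      intro p' hp'
      rw [Nat.coprime_primes hpp (hs p' (mem_insert_of_mem hp'))]
      rintro rfl
      exact hp hp'

theorem primeFactors_prod_set (s : Finset ℕ) (hs : ∀ p ∈ s, p.Prime) : (∏ p ∈ s, p).primeFactors = s :=
  Nat.primeFactors_prod hs

theorem squarefree_prod_set (s : Finset ℕ) (hs : ∀ p ∈ s, p.Prime) : Squarefree (∏ p ∈ s, p) := by
  refine Finset.squarefree_prod_of_pairwise_isCoprime (fun p hp r hr hpr => ?_) fun p hp => (hs p hp).squarefree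
  have h1 := (Nat.coprime_primes (hs p hp) (hs r hr)).2 hpr
  exact Nat.coprime_iff_isRelPrime.1 h1

theorem rho_eq (W n : ℕ) (hn : 0 < n) : rho W n = ∑ d ∈ n.divisors, hh W d := by
  classical
  unfold rho
  have hpr : ∀ p ∈ n.primeFactors.filter (fun p => ¬ p ∣ W), p.Prime := fun p hp =>
    Nat.prime_of_mem_primeFactors (mem_filter.1 hp).1
  have h1 : ∏ p ∈ n.primeFactors.filter (fun p => ¬ p ∣ W), (1 - 1 / (p : ℝ))⁻¹ =
      ∏ p ∈ n.primeFactors.filter (fun p => ¬ p ∣ W), (1 + 1 / ((p : ℝ) - 1)) := by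
    apply prod_congr rfl
    intro p hp
    have h2 : (2 : ℝ) ≤ p := by exact_mod_cast (hpr p hp).two_le
    have h3 : (p : ℝ) - 1 ≠ 0 := by linarith
    have h4 : (p : ℝ) ≠ 0 := by linarith
    field_simp
    ring
  rw [h1, prod_one_add]
  unfold hh
  rw [← sum_filter]
  refine sum_bij' (fun s _ => ∏ p ∈ s, p) (fun d _ => d.primeFactors) ?_ ?_ ?_ ?_ ?_
  · intro s hs
    rw [mem_powerset] at hs
    have hs' : ∀ p ∈ s, p.Prime := fun p hp => hpr p (hs hp)
    rw [mem_filter, Nat.mem_divisors]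
    refine ⟨⟨?_, hn.ne'⟩, squarefree_prod_set s hs', ?_⟩
    · exact Finset.prod_primes_dvd n (fun p hp => (hs' p hp).prime)
        (fun p hp => Nat.dvd_of_mem_primeFactors (mem_filter.1 (hs hp)).1)
    · apply Nat.Coprime.prod_left
      intro p hp
      exact (Nat.Prime.coprime_iff_not_dvd (hs' p hp)).2 (mem_filter.1 (hs hp)).2
  · intro d hd
    rw [mem_filter, Nat.mem_divisors] at hd
    rw [mem_powerset]
    intro p hp
    rw [mem_filter]
    refine ⟨Nat.primeFactors_mono hd.1.1 hn.ne' hp, ?_⟩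
    intro hpW
    have h2 := Nat.prime_of_mem_primeFactors hp
    have h3 := Nat.dvd_of_mem_primeFactors hp
    exact (Nat.Prime.coprime_iff_not_dvd h2).1 (hd.2.2.coprime_dvd_left h3) hpW
  · intro s hs
    rw [mem_powerset] at hs
    exact primeFactors_prod_set s (fun p hp => hpr p (hs hp))
  · intro d hd
    rw [mem_filter] at hd
    exact Nat.prod_primeFactors_of_squarefree hd.2.1
  · intro s hs
    rw [mem_powerset] at hs
    rw [tot_prod_set s (fun p hp => hpr p (hs hp)), prod_div_distrib, prod_const_one]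

theorem tot_div (n : ℕ) (hn : 0 < n) : (Nat.totient n : ℝ) / n = ∏ p ∈ n.primeFactors, (1 - 1 / (p : ℝ)) := by
  have h4 := Nat.totient_eq_mul_prod_factors n
  have h5 : ((Nat.totient n : ℚ) : ℝ) = ((n * ∏ p ∈ n.primeFactors, (1 - (p : ℚ)⁻¹) : ℚ) : ℝ) := by rw [h4]
  push_cast at h5
  have hq0 : (n : ℝ) ≠ 0 := by exact_mod_cast hn.ne'
  rw [h5]
  field_simp

theorem one_sub_pos {p : ℕ} (hp : p.Prime) : 0 < 1 - 1 / (p : ℝ) := by
  have h2 : (2 : ℝ) ≤ p := by exact_mod_cast hp.two_le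
  have : 1 / (p : ℝ) ≤ 1 / 2 := one_div_le_one_div_of_le (by norm_num) h2
  linarith

/-- `r / φ(r W) = ρ(r) / φ(W)` -/
theorem ratio_W (W r : ℕ) (hW : 0 < W) (hr : 0 < r) :
    (r : ℝ) / (Nat.totient (r * W) : ℝ) = rho W r / (Nat.totient W : ℝ) := by
  classical
  have h1 := tot_div (r * W) (Nat.mul_pos hr hW)
  have h2 := tot_div W hW
  have h3 : (r * W).primeFactors = W.primeFactors ∪ r.primeFactors.filter (fun p => ¬ p ∣ W) := by
    rw [Nat.primeFactors_mul hr.ne' hW.ne']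
    ext p
    simp only [mem_union, mem_filter, Nat.mem_primeFactors]
    constructor
    · rintro (⟨h4, h5, h6⟩ | ⟨h4, h5, h6⟩)
      · by_cases h7 : p ∣ W
        · exact Or.inl ⟨h4, h7, hW.ne'⟩
        · exact Or.inr ⟨⟨h4, h5, h6⟩, h7⟩
      · exact Or.inl ⟨h4, h5, h6⟩
    · rintro (h4 | ⟨h4, h5⟩)
      · exact Or.inr h4
      · exact Or.inl h4
  have h4 : Disjoint W.primeFactors (r.primeFactors.filter (fun p => ¬ p ∣ W)) := by
    rw [disjoint_left]
    intro p h5 h6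
    exact (mem_filter.1 h6).2 (Nat.dvd_of_mem_primeFactors h5)
  rw [h3, prod_union h4, ← h2] at h1
  have h5 : ∏ p ∈ r.primeFactors.filter (fun p => ¬ p ∣ W), (1 - 1 / (p : ℝ)) = (rho W r)⁻¹ := by
    unfold rho
    rw [prod_inv_distrib, inv_inv]
  rw [h5] at h1
  have h6 : 0 < rho W r := by
    unfold rho
    apply prod_pos
    intro p hp
    exact inv_pos.2 (one_sub_pos (Nat.prime_of_mem_primeFactors (mem_filter.1 hp).1))
  have hW0 : (0 : ℝ) < W := by exact_mod_cast hW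
  have hr0 : (0 : ℝ) < r := by exact_mod_cast hr
  have hφ1 : (0 : ℝ) < (Nat.totient W : ℝ) := by exact_mod_cast Nat.totient_pos.2 hW
  have hφ2 : (0 : ℝ) < (Nat.totient (r * W) : ℝ) := by exact_mod_cast Nat.totient_pos.2 (Nat.mul_pos hr hW)
  push_cast at h1
  rw [div_eq_div_iff hφ2.ne' hφ1.ne']
  field_simp at h1
  linarith

/-- `q / φ(q) = (g / φ(g)) ρ(q)` -/
theorem ratio_q (g W' q : ℕ) (hg : 0 < g) (hq : 0 < q) (hgq : g ∣ q) (hqW : q.Coprime W') :
    (q : ℝ) / (Nat.totient q : ℝ) = (g : ℝ) / (Nat.totient g : ℝ) * rho (g * W') q := by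
  classical
  have h1 := tot_div q hq
  have h2 := tot_div g hg
  have h3 : q.primeFactors = g.primeFactors ∪ q.primeFactors.filter (fun p => ¬ p ∣ g * W') := by
    ext p
    simp only [mem_union, mem_filter, Nat.mem_primeFactors]
    constructor
    · rintro ⟨h4, h5, h6⟩
      by_cases h7 : p ∣ g * W'
      · left
        rcases (Nat.Prime.dvd_mul h4).1 h7 with h8 | h8
        · exact ⟨h4, h8, hg.ne'⟩
        · exact absurd h8 ((Nat.Prime.coprime_iff_not_dvd h4).1 (hqW.coprime_dvd_left h5))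
      · exact Or.inr ⟨⟨h4, h5, h6⟩, h7⟩
    · rintro (⟨h4, h5, h6⟩ | ⟨h4, h5⟩)
      · exact ⟨h4, h5.trans hgq, hq.ne'⟩
      · exact h4
  have h4 : Disjoint g.primeFactors (q.primeFactors.filter (fun p => ¬ p ∣ g * W')) := by
    rw [disjoint_left]
    intro p h5 h6
    exact (mem_filter.1 h6).2 (Dvd.dvd.mul_right (Nat.dvd_of_mem_primeFactors h5) W')
  have e1 : ∏ p ∈ q.primeFactors, (1 - 1 / (p : ℝ)) = (∏ p ∈ g.primeFactors, (1 - 1 / (p : ℝ))) *
      ∏ p ∈ q.primeFactors.filter (fun p => ¬ p ∣ g * W'), (1 - 1 / (p : ℝ)) := by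
    conv_lhs => rw [h3]
    rw [prod_union h4]
  rw [e1, ← h2] at h1
  have h5 : ∏ p ∈ q.primeFactors.filter (fun p => ¬ p ∣ g * W'), (1 - 1 / (p : ℝ)) = (rho (g * W') q)⁻¹ := by
    unfold rho
    rw [prod_inv_distrib, inv_inv]
  rw [h5] at h1
  have h6 : 0 < rho (g * W') q := by
    unfold rho
    apply prod_pos
    intro p hp
    exact inv_pos.2 (one_sub_pos (Nat.prime_of_mem_primeFactors (mem_filter.1 hp).1))
  have hg0 : (0 : ℝ) < g := by exact_mod_cast hg
  have hq0 : (0 : ℝ) < q := by exact_mod_cast hq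
  have hφ1 : (0 : ℝ) < (Nat.totient g : ℝ) := by exact_mod_cast Nat.totient_pos.2 hg
  have hφ2 : (0 : ℝ) < (Nat.totient q : ℝ) := by exact_mod_cast Nat.totient_pos.2 hq
  rw [div_mul_eq_mul_div, div_eq_div_iff hφ2.ne' hφ1.ne']
  field_simp at h1
  linarith

/-- `φ(d) ≥ √(d / 2)`, squared -/
theorem tot_sq_ge (d : ℕ) (hd : 0 < d) : (d : ℝ) ≤ 2 * (Nat.totient d : ℝ) ^ 2 := by
  classical
  have h1 := tot_div d hd
  have hd0 : (0 : ℝ) < d := by exact_mod_cast hd
  have h2 : (Nat.totient d : ℝ) = d * ∏ p ∈ d.primeFactors, (1 - 1 / (p : ℝ)) := by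
    rw [← h1]; field_simp
  have h3 : (∏ p ∈ d.primeFactors, (p : ℝ)) ≤ d := by
    have := Nat.le_of_dvd hd (Nat.prod_primeFactors_dvd d)
    have h4 : ((∏ p ∈ d.primeFactors, p : ℕ) : ℝ) ≤ d := by exact_mod_cast this
    rwa [Nat.cast_prod] at h4
  have hf : ∀ p ∈ d.primeFactors, p ≠ 2 → 1 ≤ (p : ℝ) * (1 - 1 / (p : ℝ)) ^ 2 := by
    intro p hp hp2
    have h4 := Nat.prime_of_mem_primeFactors hp
    have h5 : 3 ≤ p := by have := h4.two_le; omega
    have h6 : (3 : ℝ) ≤ p := by exact_mod_cast h5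
    have h7 : (p : ℝ) * (1 - 1 / (p : ℝ)) ^ 2 = ((p : ℝ) - 1) ^ 2 / p := by field_simp
    rw [h7, le_div_iff₀ (by linarith)]
    nlinarith
  have h4 : 1 / 2 ≤ ∏ p ∈ d.primeFactors, ((p : ℝ) * (1 - 1 / (p : ℝ)) ^ 2) := by
    by_cases h5 : 2 ∈ d.primeFactors
    · rw [← mul_prod_erase _ _ h5]
      have h6 : 1 ≤ ∏ p ∈ d.primeFactors.erase 2, ((p : ℝ) * (1 - 1 / (p : ℝ)) ^ 2) := by
        have : ∏ _p ∈ d.primeFactors.erase 2, (1 : ℝ) ≤ ∏ p ∈ d.primeFactors.erase 2, ((p : ℝ) * (1 - 1 / (p : ℝ)) ^ 2) := by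
          apply prod_le_prod
          · intro p _; norm_num
          · intro p hp
            rw [mem_erase] at hp
            exact hf p hp.2 hp.1
        simpa using this
      push_cast
      have h7 : (2 : ℝ) * (1 - 1 / 2) ^ 2 = 1 / 2 := by norm_num
      rw [h7]; linarith
    · have : ∏ _p ∈ d.primeFactors, (1 : ℝ) ≤ ∏ p ∈ d.primeFactors, ((p : ℝ) * (1 - 1 / (p : ℝ)) ^ 2) := by
        apply prod_le_prod
        · intro p _; norm_num
        · intro p hp
          exact hf p hp (by rintro rfl; exact h5 hp)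
      simp only [prod_const_one] at this
      linarith
  rw [prod_mul_distrib, prod_pow] at h4
  rw [h2, mul_pow]
  have h5 : 0 ≤ (∏ p ∈ d.primeFactors, (1 - 1 / (p : ℝ))) ^ 2 := by positivity
  have h6 : (∏ p ∈ d.primeFactors, (p : ℝ)) * (∏ p ∈ d.primeFactors, (1 - 1 / (p : ℝ))) ^ 2 ≤
      d * (∏ p ∈ d.primeFactors, (1 - 1 / (p : ℝ))) ^ 2 := by gcongr
  nlinarith

theorem hh_le (W d : ℕ) (hd : 0 < d) : hh W d ≤ 2 / Real.sqrt d := by
  have h1 := tot_sq_ge d hd
  have hd0 : (0 : ℝ) < d := by exact_mod_cast hd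
  have hφ : (0 : ℝ) < (Nat.totient d : ℝ) := by exact_mod_cast Nat.totient_pos.2 hd
  have hs : 0 < Real.sqrt d := Real.sqrt_pos.2 hd0
  have h2 : 1 / (Nat.totient d : ℝ) ≤ 2 / Real.sqrt d := by
    rw [div_le_div_iff₀ hφ hs, one_mul]
    apply Real.sqrt_le_iff.2
    constructor
    · positivity
    · nlinarith
  unfold hh
  split_ifs
  · exact h2
  · positivity

/-- the sum of `1 / (d φ(d))` -/
theorem sum_tail (W D : ℕ) (hD : 1 ≤ D) (N : ℕ) : ∑ d ∈ Ioc D N, hh W d / d ≤ 4 / Real.sqrt D := by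
  have h1 : ∀ n : ℕ, D ≤ n → ∑ d ∈ Ioc D n, hh W d / d ≤ 4 / Real.sqrt D - 4 / Real.sqrt n := by
    intro n hn
    induction n, hn using Nat.le_induction with
    | base => simp
    | succ n hn ih =>
      rw [sum_Ioc_succ_top (by omega)]
      have hn0 : (0 : ℝ) < n := by exact_mod_cast (by omega : 0 < n)
      have e1 := hh_le W (n + 1) (by omega)
      have hs0 : 0 < Real.sqrt n := Real.sqrt_pos.2 hn0
      have hs1 : 0 < Real.sqrt ((n + 1 : ℕ) : ℝ) := Real.sqrt_pos.2 (by positivity)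
      have e2 : hh W (n + 1) / ((n + 1 : ℕ) : ℝ) ≤ 2 / Real.sqrt ((n + 1 : ℕ) : ℝ) / ((n + 1 : ℕ) : ℝ) := by gcongr
      have e3 : 2 / Real.sqrt ((n + 1 : ℕ) : ℝ) / ((n + 1 : ℕ) : ℝ) ≤ 4 / Real.sqrt n - 4 / Real.sqrt ((n + 1 : ℕ) : ℝ) := by
        have q0 : Real.sqrt n ^ 2 = n := Real.sq_sqrt hn0.le
        have q1 : Real.sqrt ((n + 1 : ℕ) : ℝ) ^ 2 = (n : ℝ) + 1 := by
          rw [Real.sq_sqrt (by positivity)]; push_cast; ring
        have q2 : ((n + 1 : ℕ) : ℝ) = Real.sqrt ((n + 1 : ℕ) : ℝ) ^ 2 := by rw [q1]; push_cast; ring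
        set a := Real.sqrt (n : ℝ) with ha
        set b := Real.sqrt ((n + 1 : ℕ) : ℝ) with hb
        rw [q2]
        have hab : a ≤ b := by
          apply Real.sqrt_le_sqrt; push_cast; linarith
        have hbb : b * b = a * a + 1 := by nlinarith
        rw [div_div, div_sub_div _ _ hs0.ne' hs1.ne', div_le_div_iff₀ (by positivity) (by positivity)]
        have k1 : 0 ≤ (b - a) := by linarith
        have k2 : (b - a) * (b + a) = 1 := by nlinarith
        have k3 : 1 ≤ (b - a) * (2 * b) := by nlinarith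
        have k4 : a * b ≤ b * b := by nlinarith
        have k5 : 2 * (a * b) ≤ 2 * (a * b) * ((b - a) * (2 * b)) := by
          apply le_mul_of_one_le_right (by positivity) k3
        nlinarith [mul_nonneg (mul_nonneg hs0.le hs1.le) k1, mul_nonneg (mul_nonneg (mul_nonneg hs1.le hs1.le) hs1.le) k1]
      linarith
  rcases Nat.lt_or_ge N D with h | h
  · rw [Ioc_eq_empty (by omega)]
    simp only [sum_empty]
    positivity
  · have h2 := h1 N h
    have h3 : 0 ≤ 4 / Real.sqrt N := by positivity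
    linarith

end Pool.Agent.H527.N
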