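import Mathlib
import Pool.Agent.H527.N.N0
import Pool.Agent.H527.N.N1

/-! The sum of the singular series over the differences of the sifted set. -/

set_option autoImplicit false

namespace Pool.Agent.H527.N

open Finset Pool.Agent.H527.S Pool.Agent.H527.M

/-- the pairs of the sifted set -/
def PL (W Y : ℕ) : Finset (ℕ × ℕ) := ((Ls W Y) ×ˢ (Ls W Y)).filter (fun x => x.1 < x.2)

theorem PL_mem {W Y : ℕ} {x : ℕ × ℕ} (h : x ∈ PL W Y) :
    1 ≤ x.1 ∧ x.1 < x.2 ∧ x.2 ≤ Y ∧ x.1.Coprime W ∧ x.2.Coprime W := by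
  unfold PL Ls at h
  rw [mem_filter, mem_product, mem_filter, mem_filter, mem_Icc, mem_Icc] at h
  exact ⟨h.1.1.1.1, h.2, h.1.2.1.2, h.1.1.2, h.1.2.2⟩

/-- the number of pairs with `d ∣ l' - l` -/
theorem pairs_le (P : Finset ℕ) (Y k d : ℕ) (hd : 0 < d)
    (hPd : ∀ p ∈ P, p.Coprime d) (hk : Cls P Y k) :
    2 * (((PL (∏ p ∈ P, p) Y).filter (fun x => d ∣ x.2 - x.1)).card : ℝ) ≤
      ((Ls (∏ p ∈ P, p) Y).card : ℝ) * (((Ls (∏ p ∈ P, p) Y).card : ℝ) / d + 2 * k) := by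
  classical
  set L := Ls (∏ p ∈ P, p) Y with hL
  have h1 : 2 * ((PL (∏ p ∈ P, p) Y).filter (fun x => d ∣ x.2 - x.1)).card ≤
      ((L ×ˢ L).filter (fun x => x.2 ≡ x.1 [MOD d])).card := by
    have e1 : ((PL (∏ p ∈ P, p) Y).filter (fun x => d ∣ x.2 - x.1)) ⊆
        ((L ×ˢ L).filter (fun x => x.2 ≡ x.1 [MOD d])).filter (fun x => x.1 < x.2) := by
      intro x hx
      unfold PL at hx
      rw [mem_filter, mem_filter] at hx
      rw [mem_filter, mem_filter]
      exact ⟨⟨hx.1.1, ((Nat.modEq_iff_dvd' hx.1.2.le).2 hx.2).symm⟩, hx.1.2⟩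
    have e2 : (((L ×ˢ L).filter (fun x => x.2 ≡ x.1 [MOD d])).filter (fun x => x.1 < x.2)).card ≤
        (((L ×ˢ L).filter (fun x => x.2 ≡ x.1 [MOD d])).filter (fun x => ¬ x.1 < x.2)).card := by
      apply card_le_card_of_injOn (fun x => (x.2, x.1))
      · intro x hx
        rw [mem_coe, mem_filter, mem_filter, mem_product] at hx
        rw [mem_coe, mem_filter, mem_filter, mem_product]
        exact ⟨⟨⟨hx.1.1.2, hx.1.1.1⟩, hx.1.2.symm⟩, by simp only; omega⟩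
      · intro x _ y _ h
        simp only [Prod.mk.injEq] at h
        exact Prod.ext h.2 h.1
    have e3 := card_filter_add_card_filter_not (s := (L ×ˢ L).filter (fun x => x.2 ≡ x.1 [MOD d])) (fun x => x.1 < x.2)
    have e4 := card_le_card e1
    omega
  have h2 : ((L ×ˢ L).filter (fun x => x.2 ≡ x.1 [MOD d])).card =
      ∑ l ∈ L, (L.filter (fun l' => l' ≡ l [MOD d])).card := by
    rw [card_filter, sum_product]
    apply sum_congr rfl
    intro l _
    rw [card_filter]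
  have h3 : (2 * ((PL (∏ p ∈ P, p) Y).filter (fun x => d ∣ x.2 - x.1)).card : ℝ) ≤
      ∑ l ∈ L, ((L.filter (fun l' => l' ≡ l [MOD d])).card : ℝ) := by
    rw [h2] at h1
    exact_mod_cast h1
  refine h3.trans ?_
  rw [← nsmul_eq_mul]
  apply sum_le_card_nsmul
  intro l _
  exact hk d l hd hPd

theorem pairs_trivial (W Y d : ℕ) (hd : 0 < d) :
    (((PL W Y).filter (fun x => d ∣ x.2 - x.1)).card : ℝ) ≤ (Y : ℝ) * ((Y : ℝ) / d) := by
  classical
  have h1 : ((PL W Y).filter (fun x => d ∣ x.2 - x.1)).card ≤ ((Icc 1 Y) ×ˢ (Icc 1 (Y / d))).card := by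
    apply card_le_card_of_injOn (fun x => (x.1, (x.2 - x.1) / d))
    · intro x hx
      rw [mem_coe, mem_filter] at hx
      obtain ⟨a1, a2, a3, _, _⟩ := PL_mem hx.1
      rw [mem_coe, mem_product, mem_Icc, mem_Icc]
      refine ⟨⟨a1, by simp only; omega⟩, ?_, ?_⟩
      · exact (Nat.one_le_div_iff hd).2 (Nat.le_of_dvd (by omega) hx.2)
      · exact Nat.div_le_div_right (by omega)
    · intro x hx y hy h
      rw [mem_coe, mem_filter] at hx hy
      simp only [Prod.mk.injEq] at h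
      obtain ⟨a1, a2, a3, _, _⟩ := PL_mem hx.1
      obtain ⟨b1, b2, b3, _, _⟩ := PL_mem hy.1
      obtain ⟨i, hi⟩ := hx.2
      obtain ⟨j, hj⟩ := hy.2
      rw [hi, hj, Nat.mul_div_cancel_left _ hd, Nat.mul_div_cancel_left _ hd] at h
      apply Prod.ext h.1
      have : d * i = d * j := by rw [h.2]
      omega
  rw [card_product, Nat.card_Icc, Nat.card_Icc, Nat.add_sub_cancel, Nat.add_sub_cancel] at h1
  have h2 : (((PL W Y).filter (fun x => d ∣ x.2 - x.1)).card : ℝ) ≤ ((Y * (Y / d) : ℕ) : ℝ) := by exact_mod_cast h1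
  refine h2.trans ?_
  push_cast
  have : ((Y / d : ℕ) : ℝ) ≤ (Y : ℝ) / d := Nat.cast_div_le
  gcongr

theorem hh_le_one (V d : ℕ) : hh V d ≤ 1 := by
  unfold hh
  split_ifs
  · rcases Nat.eq_zero_or_pos (Nat.totient d) with h | h
    · rw [h]; simp
    · rw [div_le_one (by exact_mod_cast h)]
      exact_mod_cast h
  · exact zero_le_one

/-- the truncated constant -/
noncomputable def cc (V D : ℕ) : ℝ := ∑ d ∈ Icc 1 D, hh V d / d

/-- the sum over the pairs -/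
theorem pair_sum (P : Finset ℕ) (V Y k D : ℕ) (hD : 1 ≤ D)
    (hPV : ∀ p ∈ P, p ∣ V) (hk : Cls P Y k) :
    2 * ∑ x ∈ PL (∏ p ∈ P, p) Y, rho V (x.2 - x.1) ≤
      ((Ls (∏ p ∈ P, p) Y).card : ℝ) ^ 2 * cc V D +
        (2 * k * (Ls (∏ p ∈ P, p) Y).card * D + 8 * (Y : ℝ) ^ 2 / Real.sqrt D) := by
  classical
  set W := ∏ p ∈ P, p with hW
  set L := ((Ls W Y).card : ℝ) with hL
  have h1 : ∑ x ∈ PL W Y, rho V (x.2 - x.1) =
      ∑ d ∈ Icc 1 Y, hh V d * (((PL W Y).filter (fun x => d ∣ x.2 - x.1)).card : ℝ) := by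
    have e1 : ∀ x ∈ PL W Y, rho V (x.2 - x.1) = ∑ d ∈ Icc 1 Y, (if d ∣ x.2 - x.1 then hh V d else 0) := by
      intro x hx
      obtain ⟨a1, a2, a3, _, _⟩ := PL_mem hx
      rw [rho_eq V _ (by omega), ← sum_filter]
      apply sum_congr _ (fun _ _ => rfl)
      ext d
      simp only [Nat.mem_divisors, mem_filter, mem_Icc]
      constructor
      · rintro ⟨b1, b2⟩
        exact ⟨⟨Nat.pos_of_dvd_of_pos b1 (by omega), (Nat.le_of_dvd (by omega) b1).trans (by omega)⟩, b1⟩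
      · rintro ⟨_, b2⟩
        exact ⟨b2, by omega⟩
    rw [sum_congr rfl e1, sum_comm]
    apply sum_congr rfl
    intro d _
    rw [← sum_filter, sum_const, nsmul_eq_mul, mul_comm]
  rw [h1, mul_sum]
  have h2 : Icc 1 Y ⊆ Icc 1 D ∪ Ioc D Y := by
    intro d hd
    rw [mem_Icc] at hd
    rw [mem_union, mem_Icc, mem_Ioc]
    omega
  have h3 : ∑ d ∈ Icc 1 Y, 2 * (hh V d * (((PL W Y).filter (fun x => d ∣ x.2 - x.1)).card : ℝ)) ≤
      ∑ d ∈ Icc 1 D ∪ Ioc D Y, 2 * (hh V d * (((PL W Y).filter (fun x => d ∣ x.2 - x.1)).card : ℝ)) := by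
    apply sum_le_sum_of_subset_of_nonneg h2
    intro d _ _
    have := hh_nonneg V d
    positivity
  refine h3.trans ?_
  rw [sum_union (by rw [disjoint_left]; intro d; simp only [mem_Icc, mem_Ioc]; omega)]
  have hcop : ∀ d, hh V d ≠ 0 → ∀ p ∈ P, p.Coprime d := by
    intro d hd p hp
    unfold hh at hd
    rw [ne_eq, ite_eq_right_iff, Classical.not_imp] at hd
    exact (hd.1.2.coprime_dvd_right (hPV p hp)).symm
  have hA : ∑ d ∈ Icc 1 D, 2 * (hh V d * (((PL W Y).filter (fun x => d ∣ x.2 - x.1)).card : ℝ)) ≤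
      L ^ 2 * cc V D + 2 * k * L * D := by
    have h4 : ∀ d ∈ Icc 1 D, 2 * (hh V d * (((PL W Y).filter (fun x => d ∣ x.2 - x.1)).card : ℝ)) ≤
        L ^ 2 * (hh V d / d) + 2 * k * L := by
      intro d hd
      rw [mem_Icc] at hd
      have h5 := hh_nonneg V d
      have h6 := hh_le_one V d
      by_cases h7 : hh V d = 0
      · rw [h7]
        simp only [zero_mul, mul_zero, zero_div, zero_add]
        positivity
      · have h8 := pairs_le P Y k d (by omega) (hcop d h7) hk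
        calc 2 * (hh V d * (((PL W Y).filter (fun x => d ∣ x.2 - x.1)).card : ℝ)) =
            hh V d * (2 * (((PL W Y).filter (fun x => d ∣ x.2 - x.1)).card : ℝ)) := by ring
          _ ≤ hh V d * (L * (L / d + 2 * k)) := by gcongr
          _ = L ^ 2 * (hh V d / d) + hh V d * (2 * k * L) := by ring
          _ ≤ L ^ 2 * (hh V d / d) + 1 * (2 * k * L) := by gcongr
          _ = _ := by ring
    refine (sum_le_sum h4).trans (le_of_eq ?_)
    rw [sum_add_distrib, ← mul_sum, sum_const, Nat.card_Icc, nsmul_eq_mul]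
    unfold cc
    push_cast
    ring
  have hB : ∑ d ∈ Ioc D Y, 2 * (hh V d * (((PL W Y).filter (fun x => d ∣ x.2 - x.1)).card : ℝ)) ≤
      8 * (Y : ℝ) ^ 2 / Real.sqrt D := by
    have h4 : ∀ d ∈ Ioc D Y, 2 * (hh V d * (((PL W Y).filter (fun x => d ∣ x.2 - x.1)).card : ℝ)) ≤
        2 * (Y : ℝ) ^ 2 * (hh V d / d) := by
      intro d hd
      rw [mem_Ioc] at hd
      have := pairs_trivial W Y d (by omega)
      have h5 := hh_nonneg V d
      calc 2 * (hh V d * (((PL W Y).filter (fun x => d ∣ x.2 - x.1)).card : ℝ)) ≤ 2 * (hh V d * ((Y : ℝ) * ((Y : ℝ) / d))) := by gcongr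
        _ = _ := by ring
    refine (sum_le_sum h4).trans ?_
    rw [← mul_sum]
    calc 2 * (Y : ℝ) ^ 2 * ∑ d ∈ Ioc D Y, hh V d / d ≤ 2 * (Y : ℝ) ^ 2 * (4 / Real.sqrt D) := by
          gcongr; exact sum_tail V D hD Y
      _ = _ := by ring
  linarith

theorem rho_le_one (V n : ℕ) : rho V n ≤ rho 1 n := by
  unfold rho
  have e : n.primeFactors.filter (fun p => ¬ p ∣ 1) = n.primeFactors := by
    apply filter_true_of_mem
    intro p hp hd
    have := (Nat.prime_of_mem_primeFactors hp).one_lt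
    have := Nat.le_of_dvd one_pos hd
    omega
  rw [e]
  apply prod_le_prod_of_subset_of_one_le (filter_subset _ _)
  · intro p hp
    exact (inv_pos.2 (one_sub_pos (Nat.prime_of_mem_primeFactors (mem_filter.1 hp).1))).le
  · intro p hp _
    have h1 := one_sub_pos (Nat.prime_of_mem_primeFactors hp)
    rw [one_le_inv₀ h1]
    have : 0 ≤ 1 / (p : ℝ) := by positivity
    linarith

theorem rho_one (n : ℕ) (hn : 0 < n) : rho 1 n = (n : ℝ) / (Nat.totient n : ℝ) := by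
  have h1 := ratio_W 1 n one_pos hn
  rw [mul_one, Nat.totient_one, Nat.cast_one, div_one] at h1
  exact h1.symm

theorem sum_rho (S : ℕ) : ∑ s ∈ Icc 1 S, rho 1 s ≤ 5 * (S : ℝ) := by
  classical
  rcases Nat.eq_zero_or_pos S with h0 | h0
  · rw [h0]; simp
  have e1 : ∀ s ∈ Icc 1 S, rho 1 s = ∑ d ∈ Icc 1 S, (if d ∣ s then hh 1 d else 0) := by
    intro s hs
    rw [mem_Icc] at hs
    rw [rho_eq 1 _ (by omega), ← sum_filter]
    apply sum_congr _ (fun _ _ => rfl)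
    ext d
    simp only [Nat.mem_divisors, mem_filter, mem_Icc]
    constructor
    · rintro ⟨b1, b2⟩
      exact ⟨⟨Nat.pos_of_dvd_of_pos b1 (by omega), (Nat.le_of_dvd (by omega) b1).trans (by omega)⟩, b1⟩
    · rintro ⟨_, b2⟩
      exact ⟨b2, by omega⟩
  rw [sum_congr rfl e1, sum_comm]
  have h1 : ∀ d ∈ Icc 1 S, ∑ s ∈ Icc 1 S, (if d ∣ s then hh 1 d else 0) ≤ (S : ℝ) * (hh 1 d / d) := by
    intro d hd
    rw [mem_Icc] at hd
    rw [← sum_filter, sum_const, nsmul_eq_mul]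
    have h2 : (((Icc 1 S).filter (fun s => d ∣ s)).card : ℝ) ≤ (S : ℝ) / d := by
      have e : (Icc 1 S).filter (fun s => d ∣ s) = (Ioc 0 S).filter (fun s => d ∣ s) := by
        ext s; simp only [mem_filter, mem_Icc, mem_Ioc]; constructor <;> rintro ⟨a, b⟩ <;> exact ⟨by omega, b⟩
      rw [e, Nat.Ioc_filter_dvd_card_eq_div]
      exact Nat.cast_div_le
    have h3 := hh_nonneg 1 d
    calc _ ≤ (S : ℝ) / d * hh 1 d := by gcongr
      _ = _ := by ring
  refine (sum_le_sum h1).trans ?_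
  rw [← mul_sum]
  have h2 : Icc 1 S = insert 1 (Ioc 1 S) := by
    ext d; simp only [mem_insert, mem_Icc, mem_Ioc]; omega
  rw [h2, sum_insert (by simp)]
  have h3 := sum_tail 1 1 le_rfl S
  have h4 : hh 1 1 / ((1 : ℕ) : ℝ) ≤ 1 := by
    rw [Nat.cast_one, div_one]; exact hh_le_one 1 1
  rw [Nat.cast_one, Real.sqrt_one, div_one] at h3
  calc (S : ℝ) * (hh 1 1 / ((1 : ℕ) : ℝ) + ∑ d ∈ Ioc 1 S, hh 1 d / (d : ℝ)) ≤ (S : ℝ) * (1 + 4) := by gcongr
    _ = _ := by ring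

theorem sum_rho_mult (f Y : ℕ) (hf : 0 < f) :
    ∑ r ∈ (Icc 1 Y).filter (fun r => f ∣ r), rho 1 r ≤ 10 * (Y : ℝ) / Real.sqrt f := by
  classical
  have hf0 : (0 : ℝ) < f := by exact_mod_cast hf
  have hφ : (0 : ℝ) < (Nat.totient f : ℝ) := by exact_mod_cast Nat.totient_pos.2 hf
  have h1 : ∑ r ∈ (Icc 1 Y).filter (fun r => f ∣ r), rho 1 r ≤ ∑ s ∈ Icc 1 (Y / f), (f : ℝ) / (Nat.totient f : ℝ) * rho 1 s := by
    have e : (Icc 1 Y).filter (fun r => f ∣ r) = (Icc 1 (Y / f)).image (fun s => f * s) := by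
      ext r
      simp only [mem_filter, mem_Icc, mem_image]
      constructor
      · rintro ⟨⟨a1, a2⟩, ⟨s, rfl⟩⟩
        refine ⟨s, ⟨Nat.pos_of_ne_zero (by rintro rfl; simp at a1), ?_⟩, rfl⟩
        rw [Nat.le_div_iff_mul_le hf, mul_comm]; exact a2
      · rintro ⟨s, ⟨a1, a2⟩, rfl⟩
        rw [Nat.le_div_iff_mul_le hf, mul_comm] at a2
        exact ⟨⟨Nat.mul_pos hf a1, a2⟩, Dvd.intro s rfl⟩
    rw [e, sum_image (fun a _ b _ h => Nat.eq_of_mul_eq_mul_left hf h)]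
    apply sum_le_sum
    intro s hs
    rw [mem_Icc] at hs
    have hs0 : (0 : ℝ) < s := by exact_mod_cast hs.1
    have hφs : (0 : ℝ) < (Nat.totient s : ℝ) := by exact_mod_cast Nat.totient_pos.2 hs.1
    rw [rho_one _ (Nat.mul_pos hf hs.1), rho_one _ hs.1]
    have h2 : ((Nat.totient f * Nat.totient s : ℕ) : ℝ) ≤ (Nat.totient (f * s) : ℝ) := by
      exact_mod_cast Nat.totient_super_multiplicative f s
    push_cast at h2 ⊢
    calc (f : ℝ) * s / (Nat.totient (f * s) : ℝ) ≤ (f : ℝ) * s / ((Nat.totient f : ℝ) * Nat.totient s) := by gcongr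
      _ = _ := by field_simp
  refine h1.trans ?_
  rw [← mul_sum]
  have h2 := sum_rho (Y / f)
  have h3 : ((Y / f : ℕ) : ℝ) ≤ (Y : ℝ) / f := Nat.cast_div_le
  have h4 := hh_le 1 f hf
  have h5 : 1 / (Nat.totient f : ℝ) ≤ 2 / Real.sqrt f := by
    have h6 := tot_sq_ge f hf
    have hs : 0 < Real.sqrt f := Real.sqrt_pos.2 hf0
    rw [div_le_div_iff₀ hφ hs, one_mul]
    apply Real.sqrt_le_iff.2
    constructor
    · positivity
    · nlinarith
  calc (f : ℝ) / (Nat.totient f : ℝ) * ∑ s ∈ Icc 1 (Y / f), rho 1 s ≤ (f : ℝ) / (Nat.totient f : ℝ) * (5 * ((Y : ℝ) / f)) := by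
        gcongr
        linarith
    _ = 5 * Y * (1 / (Nat.totient f : ℝ)) := by field_simp
    _ ≤ 5 * Y * (2 / Real.sqrt f) := by gcongr
    _ = _ := by ring

theorem exc_sum (W V Y f : ℕ) (hf : 0 < f) :
    ∑ x ∈ (PL W Y).filter (fun x => f ∣ x.2 - x.1), rho V (x.2 - x.1) ≤ 10 * (Y : ℝ) ^ 2 / Real.sqrt f := by
  classical
  have hr0 : ∀ n, 0 ≤ rho 1 n := by
    intro n
    unfold rho
    apply prod_nonneg
    intro p hp
    exact (inv_pos.2 (one_sub_pos (Nat.prime_of_mem_primeFactors (mem_filter.1 hp).1))).le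
  have h1 : ∑ x ∈ (PL W Y).filter (fun x => f ∣ x.2 - x.1), rho V (x.2 - x.1) ≤
      ∑ x ∈ (PL W Y).filter (fun x => f ∣ x.2 - x.1), rho 1 (x.2 - x.1) :=
    sum_le_sum fun x _ => rho_le_one V _
  refine h1.trans ?_
  have h2 : ∑ x ∈ (PL W Y).filter (fun x => f ∣ x.2 - x.1), rho 1 (x.2 - x.1) ≤
      ∑ y ∈ (Icc 1 Y) ×ˢ ((Icc 1 Y).filter (fun r => f ∣ r)), rho 1 y.2 := by
    have e : ∑ x ∈ (PL W Y).filter (fun x => f ∣ x.2 - x.1), rho 1 (x.2 - x.1) =
        ∑ y ∈ ((PL W Y).filter (fun x => f ∣ x.2 - x.1)).image (fun x => (x.1, x.2 - x.1)), rho 1 y.2 := by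
      rw [sum_image]
      intro x hx y hy h
      rw [mem_coe, mem_filter] at hx hy
      simp only [Prod.mk.injEq] at h
      obtain ⟨a1, a2, a3, _, _⟩ := PL_mem hx.1
      obtain ⟨b1, b2, b3, _, _⟩ := PL_mem hy.1
      exact Prod.ext h.1 (by omega)
    rw [e]
    apply sum_le_sum_of_subset_of_nonneg
    · intro y hy
      rw [mem_image] at hy
      obtain ⟨x, hx, rfl⟩ := hy
      rw [mem_filter] at hx
      obtain ⟨a1, a2, a3, _, _⟩ := PL_mem hx.1
      rw [mem_product, mem_filter, mem_Icc, mem_Icc]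
      exact ⟨⟨a1, by simp only; omega⟩, ⟨by simp only; omega, by simp only; omega⟩, hx.2⟩
    · intro y _ _
      exact hr0 _
  refine h2.trans ?_
  rw [sum_product]
  simp only
  rw [sum_const, Nat.card_Icc, nsmul_eq_mul, Nat.add_sub_cancel]
  have h3 := sum_rho_mult f Y hf
  calc (Y : ℝ) * ∑ r ∈ (Icc 1 Y).filter (fun r => f ∣ r), rho 1 r ≤ (Y : ℝ) * (10 * (Y : ℝ) / Real.sqrt f) := by gcongr
    _ = _ := by ring

end Pool.Agent.H527.N
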