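import Mathlib
import Pool.Agent.H527.M.M4
import Pool.Agent.H527.N.N2
import Pool.Agent.H527.N.N4

/-! The sum of `q² / φ(q)` over the moduli. -/

set_option autoImplicit false

namespace Pool.Agent.H527.N

open Finset Pool.Agent.H527.S Pool.Agent.H527.M

/-- summation by parts with the weights `m` -/
theorem weight_sum (c : ℕ → ℝ) (E0 : ℝ) (hc : ∀ n, |∑ m ∈ Icc 1 n, c m| ≤ E0) (T1 T2 : ℕ) (h : T1 ≤ T2) :
    |∑ m ∈ Ioc T1 T2, c m * m| ≤ 2 * E0 * T2 := by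
  obtain ⟨s, hs⟩ : ∃ s : ℕ → ℝ, s = fun n => ∑ m ∈ Icc 1 n, c m := ⟨_, rfl⟩
  have hs1 : ∀ n, |s n| ≤ E0 := by intro n; rw [hs]; exact hc n
  have key : ∑ m ∈ Ioc T1 T2, c m * m = T2 * s T2 - T1 * s T1 - ∑ j ∈ Ico T1 T2, s j := by
    induction T2, h using Nat.le_induction with
    | base => simp
    | succ n hn ih =>
      rw [sum_Ioc_succ_top hn, ih, sum_Ico_succ_top hn]
      have e1 : s (n + 1) = s n + c (n + 1) := by
        rw [hs]
        simp only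
        rw [sum_Icc_succ_top (by omega)]
      rw [e1]
      push_cast
      ring
  rw [key]
  have hE0 : 0 ≤ E0 := (abs_nonneg _).trans (hs1 0)
  have h1 : |(T2 : ℝ) * s T2| ≤ T2 * E0 := by
    rw [abs_mul, abs_of_nonneg (Nat.cast_nonneg _)]
    exact mul_le_mul_of_nonneg_left (hs1 _) (Nat.cast_nonneg _)
  have h2 : |(T1 : ℝ) * s T1| ≤ T1 * E0 := by
    rw [abs_mul, abs_of_nonneg (Nat.cast_nonneg _)]
    exact mul_le_mul_of_nonneg_left (hs1 _) (Nat.cast_nonneg _)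
  have h3 : |∑ j ∈ Ico T1 T2, s j| ≤ (T2 - T1 : ℝ) * E0 := by
    refine (abs_sum_le_sum_abs _ _).trans ?_
    refine (sum_le_card_nsmul _ _ _ (fun j _ => hs1 j)).trans (le_of_eq ?_)
    rw [Nat.card_Ico, nsmul_eq_mul, Nat.cast_sub h]
  have h4 := abs_sub (T2 * s T2 - T1 * s T1) (∑ j ∈ Ico T1 T2, s j)
  have h5 := abs_sub ((T2 : ℝ) * s T2) (T1 * s T1)
  calc |T2 * s T2 - T1 * s T1 - ∑ j ∈ Ico T1 T2, s j| ≤ |T2 * s T2 - T1 * s T1| + |∑ j ∈ Ico T1 T2, s j| := h4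
    _ ≤ (T2 * E0 + T1 * E0) + (T2 - T1) * E0 := by linarith
    _ = 2 * E0 * T2 := by ring

/-- the sum of the integers prime to `W` -/
theorem coprime_wsum (W T1 T2 : ℕ) (hW : 0 < W) (h : T1 ≤ T2) :
    (Nat.totient W : ℝ) / W * ((∑ m ∈ Ioc T1 T2, m : ℕ) : ℝ) - 2 * (2 : ℝ) ^ W.primeFactors.card * T2 ≤
      ((∑ m ∈ (Ioc T1 T2).filter (fun m => m.Coprime W), m : ℕ) : ℝ) := by
  have h1 := weight_sum (fun m => (if m.Coprime W then (1 : ℝ) else 0) - (Nat.totient W : ℝ) / W)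
    ((2 : ℝ) ^ W.primeFactors.card) (by
      intro n
      have h2 := coprime_count W n hW
      rw [sum_sub_distrib, sum_const, Nat.card_Icc, nsmul_eq_mul, Nat.add_sub_cancel, ← sum_filter, sum_const,
        nsmul_eq_mul, mul_one]
      exact h2) T1 T2 h
  rw [abs_le] at h1
  have h2 : ∑ m ∈ Ioc T1 T2, ((if m.Coprime W then (1 : ℝ) else 0) - (Nat.totient W : ℝ) / W) * m =
      ((∑ m ∈ (Ioc T1 T2).filter (fun m => m.Coprime W), m : ℕ) : ℝ) -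
        (Nat.totient W : ℝ) / W * ((∑ m ∈ Ioc T1 T2, m : ℕ) : ℝ) := by
    push_cast
    rw [sum_filter, mul_sum, ← sum_sub_distrib]
    apply sum_congr rfl
    intro m _
    split_ifs <;> ring
  rw [h2] at h1
  linarith [h1.1]

theorem sum_Ioc_id (T1 T2 : ℕ) (h : T1 ≤ T2) :
    ((∑ m ∈ Ioc T1 T2, m : ℕ) : ℝ) = ((T2 : ℝ) * (T2 + 1) - T1 * (T1 + 1)) / 2 := by
  induction T2, h using Nat.le_induction with
  | base => simp
  | succ n hn ih =>
    rw [sum_Ioc_succ_top hn]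
    push_cast at ih ⊢
    rw [ih]
    ring

theorem SQ_eq (Q : ℕ) : (SQ Q : ℝ) = (Q : ℝ) * (3 * Q + 1) / 2 := by
  unfold SQ
  rw [sum_Ioc_id _ _ (by omega)]
  push_cast
  ring

theorem mult_sum (Q n : ℕ) (hn : 0 < n) :
    (SQ Q : ℝ) / n - 2 * Q ≤ n * ((∑ m ∈ Ioc (Q / n) (2 * Q / n), m : ℕ) : ℝ) := by
  rw [sum_Ioc_id _ _ (Nat.div_le_div_right (by omega)), SQ_eq]
  have hn0 : (0 : ℝ) < n := by exact_mod_cast hn
  have hn1 : (1 : ℝ) ≤ n := by exact_mod_cast hn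
  have hQ0 : (0 : ℝ) ≤ Q := Nat.cast_nonneg _
  have h1 : ((Q / n : ℕ) : ℝ) ≤ (Q : ℝ) / n := Nat.cast_div_le
  have h2 : 2 * (Q : ℝ) / n - 1 ≤ ((2 * Q / n : ℕ) : ℝ) := by
    have h3 : 2 * Q < (2 * Q / n + 1) * n := by
      rw [add_mul, one_mul]; exact Nat.lt_div_mul_add hn
    have h4 : (2 * (Q : ℝ)) < (((2 * Q / n : ℕ) : ℝ) + 1) * n := by exact_mod_cast h3
    rw [sub_le_iff_le_add, div_le_iff₀ hn0]
    exact h4.le
  have h3 : (0 : ℝ) ≤ ((2 * Q / n : ℕ) : ℝ) := Nat.cast_nonneg _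
  have h4 : (0 : ℝ) ≤ ((Q / n : ℕ) : ℝ) := Nat.cast_nonneg _
  obtain ⟨y, hy⟩ : ∃ y : ℝ, y = (Q : ℝ) / n := ⟨_, rfl⟩
  have hQy : (Q : ℝ) = n * y := by rw [hy]; field_simp
  have hy0 : 0 ≤ y := by rw [hy]; positivity
  have e2 : 2 * (Q : ℝ) / n = 2 * y := by rw [hy]; ring
  rw [← hy] at h1
  rw [e2] at h2
  have k1 : ((Q / n : ℕ) : ℝ) * (((Q / n : ℕ) : ℝ) + 1) ≤ y * (y + 1) := by gcongr
  have k2 : (2 * y - 1) * (2 * y) ≤ ((2 * Q / n : ℕ) : ℝ) * (((2 * Q / n : ℕ) : ℝ) + 1) := by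
    rcases le_total (2 * y) 1 with h5 | h5
    · have : (2 * y - 1) * (2 * y) ≤ 0 := mul_nonpos_of_nonpos_of_nonneg (by linarith) (by linarith)
      have : 0 ≤ ((2 * Q / n : ℕ) : ℝ) * (((2 * Q / n : ℕ) : ℝ) + 1) := by positivity
      linarith
    · exact mul_le_mul h2 (by linarith) (by linarith) h3
  have k3 : (Q : ℝ) * (3 * Q + 1) / 2 / n = y * (3 * Q + 1) / 2 := by rw [hy]; ring
  rw [k3]
  have k4 : (n : ℝ) * ((2 * y - 1) * (2 * y) - y * (y + 1)) ≤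
      n * (((2 * Q / n : ℕ) : ℝ) * (((2 * Q / n : ℕ) : ℝ) + 1) - ((Q / n : ℕ) : ℝ) * (((Q / n : ℕ) : ℝ) + 1)) := by
    apply mul_le_mul_of_nonneg_left _ hn0.le
    linarith
  have k5 : y ≤ n * y := le_mul_of_one_le_left hy0 hn1
  rw [hQy] at *
  nlinarith

/-- the sum over the moduli divisible by `d` -/
theorem Qs_mult_sum (Q g W d : ℕ) (hW : 0 < W) (hg : 0 < g) (hd : 0 < d) (hgd : g.Coprime d) (hgW : g.Coprime W)
    (hdW : d.Coprime W) :
    (Nat.totient W : ℝ) / W * ((SQ Q : ℝ) / (g * d)) - 6 * (2 : ℝ) ^ W.primeFactors.card * Q ≤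
      ((∑ q ∈ (Qs Q g W).filter (fun q => d ∣ q), q : ℕ) : ℝ) := by
  classical
  have hn : 0 < g * d := Nat.mul_pos hg hd
  have e1 : ∑ q ∈ (Qs Q g W).filter (fun q => d ∣ q), q =
      ∑ m ∈ (Ioc (Q / (g * d)) (2 * Q / (g * d))).filter (fun m => m.Coprime W), (g * d) * m := by
    symm
    apply sum_bij (fun m _ => (g * d) * m)
    · intro m hm
      rw [mem_filter, mem_Ioc, Nat.div_lt_iff_lt_mul hn, Nat.le_div_iff_mul_le hn] at hm
      unfold Qs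
      rw [mem_filter, mem_filter, mem_Ioc]
      refine ⟨⟨⟨by rw [mul_comm]; exact hm.1.1, by rw [mul_comm]; exact hm.1.2⟩, ?_, ?_⟩, ?_⟩
      · exact Dvd.dvd.mul_right (Nat.dvd_mul_right g d) m
      · exact Nat.Coprime.mul_left (Nat.Coprime.mul_left hgW hdW) hm.2
      · exact Dvd.dvd.mul_right (Nat.dvd_mul_left d g) m
    · intro m _ m' _ h
      exact Nat.eq_of_mul_eq_mul_left hn h
    · intro q hq
      unfold Qs at hq
      rw [mem_filter, mem_filter, mem_Ioc] at hq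
      obtain ⟨m, rfl⟩ := Nat.Coprime.mul_dvd_of_dvd_of_dvd hgd hq.1.2.1 hq.2
      refine ⟨m, ?_, rfl⟩
      rw [mem_filter, mem_Ioc, Nat.div_lt_iff_lt_mul hn, Nat.le_div_iff_mul_le hn]
      exact ⟨⟨by rw [mul_comm]; exact hq.1.1.1, by rw [mul_comm]; exact hq.1.1.2⟩, hq.1.2.2.coprime_mul_left⟩
    · intro m _
      rfl
  rw [e1, ← mul_sum]
  push_cast
  have h1 := coprime_wsum W (Q / (g * d)) (2 * Q / (g * d)) hW (Nat.div_le_div_right (by omega))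
  have h2 := mult_sum Q (g * d) hn
  push_cast at h1 h2
  have hgd0 : (0 : ℝ) < (g : ℝ) * d := by exact_mod_cast hn
  have hc1 : (Nat.totient W : ℝ) / W ≤ 1 := by
    rw [div_le_one (by exact_mod_cast hW)]; exact_mod_cast Nat.totient_le W
  have hc0 : 0 ≤ (Nat.totient W : ℝ) / W := by positivity
  have hE : (1 : ℝ) ≤ (2 : ℝ) ^ W.primeFactors.card := one_le_pow₀ (by norm_num)
  have h3 : ((2 * Q / (g * d) : ℕ) : ℝ) ≤ (2 * Q : ℝ) / (g * d) := by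
    have : ((2 * Q / (g * d) : ℕ) : ℝ) ≤ ((2 * Q : ℕ) : ℝ) / ((g * d : ℕ) : ℝ) := Nat.cast_div_le
    push_cast at this
    exact this
  have h4 : (g : ℝ) * d * ((2 * Q / (g * d) : ℕ) : ℝ) ≤ 2 * Q := by
    calc (g : ℝ) * d * ((2 * Q / (g * d) : ℕ) : ℝ) ≤ (g : ℝ) * d * ((2 * Q : ℝ) / (g * d)) := by gcongr
      _ = 2 * Q := by field_simp
  have h5 := mul_le_mul_of_nonneg_left h1 hgd0.le
  have h6 := mul_le_mul_of_nonneg_left h2 hc0
  have hQ0 : (0 : ℝ) ≤ Q := Nat.cast_nonneg _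
  have h7 : (Nat.totient W : ℝ) / W * (2 * Q) ≤ 1 * (2 * Q) := by gcongr
  have h8 : 2 * (2 : ℝ) ^ W.primeFactors.card * ((g : ℝ) * d * ((2 * Q / (g * d) : ℕ) : ℝ)) ≤
      2 * (2 : ℝ) ^ W.primeFactors.card * (2 * Q) := by gcongr
  have h9 : 1 * (2 * (Q : ℝ)) ≤ (2 : ℝ) ^ W.primeFactors.card * (2 * Q) := by gcongr
  nlinarith

/-- the sum of `q² / φ(q)` -/
theorem sum_sq_tot (Q g W D : ℕ) (hW : 0 < W) (hg : 0 < g) (hgW : g.Coprime W) :
    1 / (Nat.totient g : ℝ) * ((Nat.totient W : ℝ) / W * SQ Q * cc (g * W) D -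
      6 * g * (2 : ℝ) ^ W.primeFactors.card * Q * D) ≤
      ∑ q ∈ Qs Q g W, (q : ℝ) * (q / (Nat.totient q : ℝ)) := by
  classical
  have hg0 : (0 : ℝ) < g := by exact_mod_cast hg
  have hφg : (0 : ℝ) < (Nat.totient g : ℝ) := by exact_mod_cast Nat.totient_pos.2 hg
  have h1 : ∀ q ∈ Qs Q g W, (q : ℝ) * ((g : ℝ) / (Nat.totient g : ℝ) *
      ∑ d ∈ Icc 1 D, (if d ∣ q then hh (g * W) d else 0)) ≤ (q : ℝ) * (q / (Nat.totient q : ℝ)) := by
    intro q hq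
    unfold Qs at hq
    rw [mem_filter, mem_Ioc] at hq
    rw [ratio_q g W q hg (by omega) hq.2.1 hq.2.2, rho_eq _ _ (by omega)]
    have h2 : ∑ d ∈ Icc 1 D, (if d ∣ q then hh (g * W) d else 0) ≤ ∑ d ∈ q.divisors, hh (g * W) d := by
      rw [← sum_filter]
      apply sum_le_sum_of_subset_of_nonneg
      · intro d hd
        rw [mem_filter] at hd
        rw [Nat.mem_divisors]
        exact ⟨hd.2, by omega⟩
      · intro d _ _
        exact hh_nonneg _ _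
    gcongr
  refine le_trans ?_ (sum_le_sum h1)
  have h2 : ∑ q ∈ Qs Q g W, (q : ℝ) * ((g : ℝ) / (Nat.totient g : ℝ) *
      ∑ d ∈ Icc 1 D, (if d ∣ q then hh (g * W) d else 0)) =
      (g : ℝ) / (Nat.totient g : ℝ) * ∑ d ∈ Icc 1 D, hh (g * W) d * ((∑ q ∈ (Qs Q g W).filter (fun q => d ∣ q), q : ℕ) : ℝ) := by
    push_cast
    have e1 : ∀ q ∈ Qs Q g W, (q : ℝ) * ((g : ℝ) / (Nat.totient g : ℝ) *
        ∑ d ∈ Icc 1 D, (if d ∣ q then hh (g * W) d else 0)) =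
        ∑ d ∈ Icc 1 D, (g : ℝ) / (Nat.totient g : ℝ) * (hh (g * W) d * (if d ∣ q then (q : ℝ) else 0)) := by
      intro q _
      rw [mul_sum, mul_sum]
      apply sum_congr rfl
      intro d _
      split_ifs <;> ring
    rw [sum_congr rfl e1, sum_comm, mul_sum]
    apply sum_congr rfl
    intro d _
    rw [← mul_sum, ← mul_sum, sum_filter]
  rw [h2]
  have h3 : ∀ d ∈ Icc 1 D, hh (g * W) d * ((Nat.totient W : ℝ) / W * ((SQ Q : ℝ) / (g * d))) -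
      6 * (2 : ℝ) ^ W.primeFactors.card * Q ≤ hh (g * W) d * ((∑ q ∈ (Qs Q g W).filter (fun q => d ∣ q), q : ℕ) : ℝ) := by
    intro d hd
    rw [mem_Icc] at hd
    by_cases h4 : hh (g * W) d = 0
    · rw [h4, zero_mul, zero_mul, zero_sub]
      have : 0 ≤ 6 * (2 : ℝ) ^ W.primeFactors.card * Q := by positivity
      linarith
    · have h5 : d.Coprime (g * W) := by
        unfold hh at h4
        rw [ite_eq_right_iff, Classical.not_imp] at h4
        exact h4.1.2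
      have h6 := Qs_mult_sum Q g W d hW hg hd.1 (h5.coprime_mul_right_right).symm hgW h5.coprime_mul_left_right
      have h7 := hh_nonneg (g * W) d
      have h8 := hh_le_one (g * W) d
      have h9 := mul_le_mul_of_nonneg_left h6 h7
      have h10 : hh (g * W) d * (6 * (2 : ℝ) ^ W.primeFactors.card * Q) ≤ 1 * (6 * (2 : ℝ) ^ W.primeFactors.card * Q) := by gcongr
      linarith
  have h4 := mul_le_mul_of_nonneg_left (sum_le_sum h3) (show 0 ≤ (g : ℝ) / (Nat.totient g : ℝ) by positivity)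
  refine le_trans (le_of_eq ?_) h4
  rw [sum_sub_distrib, sum_const, Nat.card_Icc, nsmul_eq_mul]
  unfold cc
  have e2 : ∑ d ∈ Icc 1 D, hh (g * W) d * ((Nat.totient W : ℝ) / W * ((SQ Q : ℝ) / (g * d))) =
      ((Nat.totient W : ℝ) / W * SQ Q / g) * ∑ d ∈ Icc 1 D, hh (g * W) d / d := by
    rw [mul_sum]
    apply sum_congr rfl
    intro d _
    rw [← div_div]
    ring
  rw [e2]
  push_cast
  field_simp

end Pool.Agent.H527.N
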