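import Mathlib
import Pool.Agent.H527.N.N3
import Pool.Agent.H527.N.N5

/-! The first two moments of the number of primes in the class. -/

set_option autoImplicit false

namespace Pool.Agent.H527.N

open Finset Pool.Agent.H527.AP Pool.Agent.H527.S Pool.Agent.H527.M

/-- the number of the `l ≤ Y` with `a + l q` prime -/
def Nn (Y q a : ℕ) : ℕ := ((Icc 1 Y).filter (fun l => (a + l * q).Prime)).card

theorem prime_cop {W q a l : ℕ} (hWa : W ∣ a) (hl : 1 ≤ l) (ha : 0 < a) (hWq : W ≤ q) (hp : (a + l * q).Prime) :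
    l.Coprime W := by
  rw [Nat.coprime_iff_gcd_eq_one]
  by_contra hg
  have h1 : Nat.gcd l W ∣ a + l * q :=
    dvd_add ((Nat.gcd_dvd_right l W).trans hWa) (Dvd.dvd.mul_right (Nat.gcd_dvd_left l W) q)
  rcases (Nat.dvd_prime hp).1 h1 with h2 | h2
  · exact hg h2
  · have h3 : a + l * q ∣ W := by rw [← h2]; exact Nat.gcd_dvd_right l W
    have h6 : 1 * q ≤ l * q := Nat.mul_le_mul_right q hl
    rcases Nat.eq_zero_or_pos W with h4 | h4
    · rw [h4, Nat.zero_dvd] at hWa
      omega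
    · have := Nat.le_of_dvd h4 h3
      omega

theorem row_count {W q l : ℕ} (hl : l.Coprime W) (hl1 : 1 ≤ l) (hq : 0 < q) :
    ((rows W q 0 q).filter (fun a => (a + l * q).Prime)).card = blk W q 0 q l := by
  unfold blk
  have hlq : 1 * q ≤ l * q := Nat.mul_le_mul_right q hl1
  apply card_bij (fun a _ => a + l * q)
  · intro a ha
    unfold rows at ha
    rw [mem_filter, mem_filter, mem_Ioc] at ha
    rw [mem_filter, mem_Ioc]
    refine ⟨⟨by omega, by omega⟩, ha.2, ?_⟩
    have := Nat.ModEq.add_right (l * q) (Nat.modEq_zero_iff_dvd.2 ha.1.2.1)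
    rwa [zero_add] at this
  · intro a _ a' _ h
    omega
  · intro p hp
    rw [mem_filter, mem_Ioc] at hp
    obtain ⟨⟨h1, h2⟩, hpp, hpW⟩ := hp
    refine ⟨p - l * q, ?_, by omega⟩
    unfold rows
    have hpe : p - l * q + l * q = p := by omega
    rw [mem_filter, mem_filter, mem_Ioc, hpe]
    refine ⟨⟨⟨by omega, by omega⟩, ?_, ?_⟩, hpp⟩
    · exact (Nat.modEq_iff_dvd' (by omega)).1 hpW.symm
    · rw [Nat.coprime_iff_gcd_eq_one]
      by_contra hg
      have h3 : Nat.gcd (p - l * q) q ∣ p := by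
        conv_rhs => rw [← hpe]
        exact dvd_add (Nat.gcd_dvd_left _ _) (Dvd.dvd.mul_left (Nat.gcd_dvd_right _ _) l)
      rcases (Nat.dvd_prime hpp).1 h3 with h4 | h4
      · exact hg h4
      · have h5 : p ∣ q := by rw [← h4]; exact Nat.gcd_dvd_right _ _
        have := Nat.le_of_dvd hq h5
        omega

/-- the first moment for one modulus -/
theorem first_moment {W q Y : ℕ} (hq : 0 < q) (hWq : W ≤ q) :
    ∑ a ∈ rows W q 0 q, Nn Y q a = ∑ l ∈ Ls W Y, blk W q 0 q l := by
  classical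
  unfold Nn
  have e1 : ∀ a ∈ rows W q 0 q, ((Icc 1 Y).filter (fun l => (a + l * q).Prime)).card =
      ∑ l ∈ Icc 1 Y, (if (a + l * q).Prime then 1 else 0) := fun a _ => by rw [card_filter]
  rw [sum_congr rfl e1, sum_comm]
  unfold Ls
  rw [sum_filter]
  apply sum_congr rfl
  intro l hl
  rw [mem_Icc] at hl
  rw [← card_filter]
  split_ifs with hc
  · exact row_count hc hl.1 hq
  · rw [card_eq_zero, filter_eq_empty_iff]
    intro a ha hp
    unfold rows at ha
    rw [mem_filter, mem_Ioc] at ha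
    exact hc (prime_cop ha.2.1 hl.1 ha.1.1 hWq hp)

theorem Nn_sq {W q Y a : ℕ} (ha : a ∈ rows W q 0 q) (hWq : W ≤ q) :
    (Nn Y q a) ^ 2 ≤ Nn Y q a + 2 * ((PL W Y).filter (fun x => (a + x.1 * q).Prime ∧ (a + x.2 * q).Prime)).card := by
  classical
  unfold rows at ha
  rw [mem_filter, mem_Ioc] at ha
  set A := (Icc 1 Y).filter (fun l => (a + l * q).Prime) with hA
  have hN : Nn Y q a = A.card := rfl
  have hAL : A ⊆ Ls W Y := by
    intro l hl
    rw [hA, mem_filter, mem_Icc] at hl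
    unfold Ls
    rw [mem_filter, mem_Icc]
    exact ⟨hl.1, prime_cop ha.2.1 hl.1.1 ha.1.1 hWq hl.2⟩
  have h1 : (A ×ˢ A).card ≤ A.card + 2 * ((PL W Y).filter (fun x => (a + x.1 * q).Prime ∧ (a + x.2 * q).Prime)).card := by
    have e1 : (A ×ˢ A) ⊆ A.image (fun l => (l, l)) ∪
        (((PL W Y).filter (fun x => (a + x.1 * q).Prime ∧ (a + x.2 * q).Prime)) ∪
        ((PL W Y).filter (fun x => (a + x.1 * q).Prime ∧ (a + x.2 * q).Prime)).image (fun x => (x.2, x.1))) := by
      intro x hx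
      rw [mem_product] at hx
      have hx1 := hAL hx.1
      have hx2 := hAL hx.2
      have hp1 : (a + x.1 * q).Prime := (mem_filter.1 hx.1).2
      have hp2 : (a + x.2 * q).Prime := (mem_filter.1 hx.2).2
      rw [mem_union, mem_union, mem_image, mem_image, mem_filter]
      rcases lt_trichotomy x.1 x.2 with h | h | h
      · right; left
        unfold PL
        rw [mem_filter, mem_product]
        exact ⟨⟨⟨hx1, hx2⟩, h⟩, hp1, hp2⟩
      · left
        exact ⟨x.1, hx.1, Prod.ext rfl h⟩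
      · right; right
        refine ⟨(x.2, x.1), ?_, rfl⟩
        unfold PL
        rw [mem_filter, mem_filter, mem_product]
        exact ⟨⟨⟨hx2, hx1⟩, h⟩, hp2, hp1⟩
    refine (card_le_card e1).trans ((card_union_le _ _).trans ?_)
    have e2 : (A.image (fun l => (l, l))).card ≤ A.card := card_image_le
    have e3 := card_union_le ((PL W Y).filter (fun x => (a + x.1 * q).Prime ∧ (a + x.2 * q).Prime))
      (((PL W Y).filter (fun x => (a + x.1 * q).Prime ∧ (a + x.2 * q).Prime)).image (fun x => (x.2, x.1)))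
    have e4 : (((PL W Y).filter (fun x => (a + x.1 * q).Prime ∧ (a + x.2 * q).Prime)).image (fun x => (x.2, x.1))).card ≤
        ((PL W Y).filter (fun x => (a + x.1 * q).Prime ∧ (a + x.2 * q).Prime)).card := card_image_le
    omega
  rw [card_product] at h1
  rw [hN, pow_two]
  exact h1

/-- the second moment -/
theorem second_moment {Q g W Y : ℕ} (hWQ : W ≤ Q) :
    ∑ q ∈ Qs Q g W, ∑ a ∈ rows W q 0 q, (Nn Y q a) ^ 2 ≤
      ∑ q ∈ Qs Q g W, ∑ a ∈ rows W q 0 q, Nn Y q a + 2 * ∑ x ∈ PL W Y, TT Q g W x.1 x.2 := by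
  classical
  have h1 : ∀ q ∈ Qs Q g W, ∑ a ∈ rows W q 0 q, (Nn Y q a) ^ 2 ≤
      ∑ a ∈ rows W q 0 q, (Nn Y q a + 2 * ((PL W Y).filter (fun x => (a + x.1 * q).Prime ∧ (a + x.2 * q).Prime)).card) := by
    intro q hq
    unfold Qs at hq
    rw [mem_filter, mem_Ioc] at hq
    apply sum_le_sum
    intro a ha
    exact Nn_sq ha (by omega)
  refine (sum_le_sum h1).trans (le_of_eq ?_)
  have e1 : ∀ q ∈ Qs Q g W, ∑ a ∈ rows W q 0 q, (Nn Y q a + 2 * ((PL W Y).filter (fun x => (a + x.1 * q).Prime ∧ (a + x.2 * q).Prime)).card) =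
      ∑ a ∈ rows W q 0 q, Nn Y q a + 2 * ∑ x ∈ PL W Y, ((rows W q 0 q).filter (fun a => (a + x.1 * q).Prime ∧ (a + x.2 * q).Prime)).card := by
    intro q _
    rw [sum_add_distrib, ← mul_sum]
    congr 2
    simp_rw [card_filter]
    rw [sum_comm]
  rw [sum_congr rfl e1, sum_add_distrib, ← mul_sum]
  congr 2
  unfold TT
  rw [sum_comm]

end Pool.Agent.H527.N
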