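import Mathlib
import Pool.Agent.H527.N.N6

/-! The variance of the number of primes in the class. -/

set_option autoImplicit false

namespace Pool.Agent.H527.N

open Finset Pool.Agent.H527.AP Pool.Agent.H527.S Pool.Agent.H527.M

/-- the hypotheses for the variance -/
structure Var (Q g Y k D f N₀ : ℕ) (P : Finset ℕ) (Er e : ℝ) : Prop where
  hP : ∀ p ∈ P, p.Prime
  hg : 0 < g
  hgP : g.Coprime (∏ p ∈ P, p)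
  hgQ : g ≤ Q
  hQ : 2 ≤ Q
  hD : 1 ≤ D
  hf : 0 < f
  he : 0 < e
  he1 : e ≤ 1 / 3
  hEr : 0 ≤ Er
  hk : Cls P Y k
  hVQ : Y * (g * ∏ p ∈ P, p) ≤ Q
  hWQ : ∏ p ∈ P, p ≤ Q
  hbt : ∀ a q N : ℕ, 1 ≤ q → N₀ ≤ N → (((range N).filter (fun t => (a + t * q).Prime)).card : ℝ) ≤
      3 * ((q : ℝ) / Nat.totient q) * N / Real.log N
  hN0 : N₀ ≤ Nat.sqrt Q
  hH1 : Hpsi 1 Q ((Y + 1) * Q) Er
  hHW : Hpsi (∏ p ∈ P, p) Q ((Y + 1) * Q) Er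
  hHr : ∀ r : ℕ, 1 ≤ r → r ≤ Y → ¬ f ∣ r → Hpsi (r * (g * ∏ p ∈ P, p)) Q ((Y + 1) * Q) Er
  hl0 : 0 < (Ls (∏ p ∈ P, p) Y).card
  k0 : 6 * Real.log Q ≤ e * (Ls (∏ p ∈ P, p) Y).card
  k1 : 2 * (k : ℝ) * (Ls (∏ p ∈ P, p) Y).card * D + 8 * (Y : ℝ) ^ 2 / Real.sqrt D ≤
    e * ((Ls (∏ p ∈ P, p) Y).card : ℝ) ^ 2
  k2 : 4 * (Y : ℝ) * Er * (Nat.totient (g * ∏ p ∈ P, p)) * Real.log Q ≤ e / 2 * Q
  k3 : 120 * (Y : ℝ) ^ 2 / Real.sqrt f ≤ e * ((Ls (∏ p ∈ P, p) Y).card : ℝ) ^ 2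
  k3' : 2 * (Y : ℝ) * (g * (∏ p ∈ P, p : ℕ) * (Nat.sqrt Q + 2)) * Real.log Q ≤ Q
  k4 : 2 * Er + R2 ((Y + 1) * Q) ≤ e / 2 * (Q / (Nat.totient (∏ p ∈ P, p) : ℝ))
  k5 : Real.log (2 * ((Y + 1) * Q)) ≤ (1 + e / 2) * Real.log Q
  k6 : ∀ q ∈ Ioc Q (2 * Q), 3 * (2 : ℝ) ^ q.primeFactors.card ≤ e * ((Nat.totient q : ℝ) / (∏ p ∈ P, p : ℕ))
  k7 : 6 * (((∏ p ∈ P, p : ℕ) : ℝ) / (Nat.totient (∏ p ∈ P, p) : ℝ)) * (g * (2 : ℝ) ^ (∏ p ∈ P, p).primeFactors.card * D) ≤ e * Q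

/-- the normalisation -/
noncomputable def KK (Q g Y : ℕ) (P : Finset ℕ) : ℝ :=
  ((Ls (∏ p ∈ P, p) Y).card : ℝ) ^ 2 / ((Nat.totient (g * ∏ p ∈ P, p) : ℝ) * Real.log Q ^ 2)

/-- the mean -/
noncomputable def hm (Q Y : ℕ) (P : Finset ℕ) : ℝ :=
  ((Ls (∏ p ∈ P, p) Y).card : ℝ) / ((Nat.totient (∏ p ∈ P, p) : ℝ) * Real.log Q)

theorem cc_le (V D : ℕ) : cc V D ≤ 5 := by
  unfold cc
  have h2 : Icc 1 D ⊆ insert 1 (Ioc 1 D) := by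
    intro d; simp only [mem_insert, mem_Icc, mem_Ioc]; omega
  have h3 := sum_tail V 1 le_rfl D
  have h4 : hh V 1 / ((1 : ℕ) : ℝ) ≤ 1 := by
    rw [Nat.cast_one, div_one]; exact hh_le_one V 1
  rw [Nat.cast_one, Real.sqrt_one, div_one] at h3
  calc ∑ d ∈ Icc 1 D, hh V d / (d : ℝ) ≤ ∑ d ∈ insert 1 (Ioc 1 D), hh V d / (d : ℝ) := by
        apply sum_le_sum_of_subset_of_nonneg h2
        intro d _ _
        have := hh_nonneg V d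
        positivity
    _ = hh V 1 / ((1 : ℕ) : ℝ) + ∑ d ∈ Ioc 1 D, hh V d / (d : ℝ) := by
        rw [sum_insert (by simp)]
    _ ≤ 5 := by linarith

theorem cc_nonneg (V D : ℕ) : 0 ≤ cc V D := sum_nonneg fun d _ => div_nonneg (hh_nonneg V d) (Nat.cast_nonneg _)

theorem rho_nonneg (V n : ℕ) : 0 ≤ rho V n := by
  unfold rho
  apply prod_nonneg
  intro p hp
  exact (inv_pos.2 (one_sub_pos (Nat.prime_of_mem_primeFactors (mem_filter.1 hp).1))).le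

theorem PL_card (W Y : ℕ) : 2 * (PL W Y).card ≤ (Ls W Y).card ^ 2 := by
  classical
  have e2 : (((Ls W Y) ×ˢ (Ls W Y)).filter (fun x => x.1 < x.2)).card ≤
      (((Ls W Y) ×ˢ (Ls W Y)).filter (fun x => ¬ x.1 < x.2)).card := by
    apply card_le_card_of_injOn (fun x => (x.2, x.1))
    · intro x hx
      rw [mem_coe, mem_filter, mem_product] at hx
      rw [mem_coe, mem_filter, mem_product]
      exact ⟨⟨hx.1.2, hx.1.1⟩, by simp only; omega⟩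
    · intro x _ y _ h
      simp only [Prod.mk.injEq] at h
      exact Prod.ext h.2 h.1
  have e3 := card_filter_add_card_filter_not (s := (Ls W Y) ×ˢ (Ls W Y)) (fun x => x.1 < x.2)
  rw [card_product] at e3
  unfold PL
  rw [pow_two]
  omega

section
variable {Q g Y k D f N₀ : ℕ} {P : Finset ℕ} {Er e : ℝ}

theorem Var.basic (V : Var Q g Y k D f N₀ P Er e) : 0 < Real.log Q ∧ (0 : ℝ) < Q ∧
    (0 : ℝ) < (Nat.totient (∏ p ∈ P, p) : ℝ) ∧ (0 : ℝ) < (Nat.totient g : ℝ) ∧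
    (Nat.totient (g * ∏ p ∈ P, p) : ℝ) = (Nat.totient g : ℝ) * (Nat.totient (∏ p ∈ P, p) : ℝ) ∧
    (0 : ℝ) < ((∏ p ∈ P, p : ℕ) : ℝ) ∧ (0 : ℝ) < ((Ls (∏ p ∈ P, p) Y).card : ℝ) ∧
    2 * (Q : ℝ) * Er ≤ e * SQ Q ∧ (SQ Q : ℝ) ≤ 2 * (Q : ℝ) ^ 2 ∧ 3 / 2 * (Q : ℝ) ^ 2 ≤ SQ Q := by
  have hQ := V.hQ
  have hQ2 : (2 : ℝ) ≤ Q := by exact_mod_cast hQ
  have hW : 0 < ∏ p ∈ P, p := Finset.prod_pos fun p hp => (V.hP p hp).pos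
  have hφ : (0 : ℝ) < (Nat.totient (∏ p ∈ P, p) : ℝ) := by exact_mod_cast Nat.totient_pos.2 hW
  have hφ1 : (1 : ℝ) ≤ (Nat.totient (∏ p ∈ P, p) : ℝ) := by exact_mod_cast Nat.totient_pos.2 hW
  have hS := SQ_eq Q
  have h32 : 3 / 2 * (Q : ℝ) ^ 2 ≤ SQ Q := by rw [hS]; nlinarith
  refine ⟨Real.log_pos (by linarith), by linarith, hφ, by exact_mod_cast Nat.totient_pos.2 V.hg, ?_,
    by exact_mod_cast hW, by exact_mod_cast V.hl0, ?_, ?_, h32⟩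
  · rw [Nat.totient_mul V.hgP]; push_cast; ring
  · have h4 := V.k4
    have hR : 0 ≤ R2 ((Y + 1) * Q) := by unfold R2; positivity
    have he := V.he
    have h5 : e / 2 * (Q / (Nat.totient (∏ p ∈ P, p) : ℝ)) ≤ e / 2 * Q := by
      apply mul_le_mul_of_nonneg_left (div_le_self (by linarith) hφ1) (by linarith)
    have h6 : 2 * Er ≤ e / 2 * Q := by linarith
    have h7 : (Q : ℝ) * (2 * Er) ≤ Q * (e / 2 * Q) := mul_le_mul_of_nonneg_left h6 (by linarith)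
    have h8 : e * (3 / 2 * (Q : ℝ) ^ 2) ≤ e * SQ Q := mul_le_mul_of_nonneg_left h32 he.le
    have h9 : 0 ≤ e * (Q : ℝ) ^ 2 := by positivity
    linarith
  · rw [hS]; nlinarith

theorem Var.KQ (V : Var Q g Y k D f N₀ P Er e) : 0 < KK Q g Y P ∧ 0 < hm Q Y P ∧
    hm Q Y P ^ 2 * (Nat.totient (∏ p ∈ P, p) : ℝ) / (Nat.totient g : ℝ) = KK Q g Y P := by
  obtain ⟨b1, b2, b3, b4, b5, b6, b7, b8, b9, b10⟩ := V.basic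
  unfold KK hm
  rw [b5]
  refine ⟨by positivity, by positivity, ?_⟩
  field_simp

/-- the off-diagonal terms -/
theorem Var.off (V : Var Q g Y k D f N₀ P Er e) :
    2 * ((∑ x ∈ PL (∏ p ∈ P, p) Y, TT Q g (∏ p ∈ P, p) x.1 x.2 : ℕ) : ℝ) ≤
      KK Q g Y P * ((1 + e) * SQ Q * cc (g * ∏ p ∈ P, p) D) + 10 * e * (KK Q g Y P * (Q : ℝ) ^ 2) := by
  classical
  obtain ⟨b1, b2, b3, b4, b5, b6, b7, b8, b9, b10⟩ := V.basic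
  have hW : 0 < ∏ p ∈ P, p := Finset.prod_pos fun p hp => (V.hP p hp).pos
  have he := V.he
  have he1 := V.he1
  obtain ⟨W, hWd⟩ : ∃ W, W = ∏ p ∈ P, p := ⟨_, rfl⟩
  obtain ⟨K, hK⟩ : ∃ K, K = KK Q g Y P := ⟨_, rfl⟩
  obtain ⟨G, hG⟩ : ∃ G, G = Real.log Q := ⟨_, rfl⟩
  obtain ⟨L, hL⟩ : ∃ L : ℝ, L = ((Ls (∏ p ∈ P, p) Y).card : ℝ) := ⟨_, rfl⟩
  obtain ⟨S1, hS1⟩ : ∃ S1 : ℝ, S1 = (SQ Q : ℝ) + 2 * Q * Er := ⟨_, rfl⟩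
  have hKdef : K = L ^ 2 / ((Nat.totient (g * ∏ p ∈ P, p) : ℝ) * G ^ 2) := by rw [hK, hL, hG]; rfl
  have hφV : (0 : ℝ) < (Nat.totient (g * ∏ p ∈ P, p) : ℝ) := by rw [b5]; positivity
  have hS10 : 0 ≤ S1 := by
    rw [hS1]
    have := V.hEr
    positivity
  have hrho : ∀ x ∈ PL (∏ p ∈ P, p) Y, (((x.2 - x.1 : ℕ) : ℝ) / (Nat.totient ((x.2 - x.1) * (g * ∏ p ∈ P, p)) : ℝ)) =
      rho (g * ∏ p ∈ P, p) (x.2 - x.1) / (Nat.totient (g * ∏ p ∈ P, p) : ℝ) := by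
    intro x hx
    obtain ⟨a1, a2, a3, _, _⟩ := PL_mem hx
    exact ratio_W _ _ (Nat.mul_pos V.hg hW) (by omega)
  have hone : ∀ x ∈ PL (∏ p ∈ P, p) Y, (TT Q g (∏ p ∈ P, p) x.1 x.2 : ℝ) ≤
      (rho (g * ∏ p ∈ P, p) (x.2 - x.1) * (S1 / ((Nat.totient (g * ∏ p ∈ P, p) : ℝ) * G ^ 2)) + 4 * Y * Q * Er / G) +
      (if f ∣ x.2 - x.1 then rho (g * ∏ p ∈ P, p) (x.2 - x.1) *
        (6 / (Nat.totient (g * ∏ p ∈ P, p) : ℝ) * (S1 / G ^ 2 + 2 * Y * Q * (g * (∏ p ∈ P, p : ℕ) * (Nat.sqrt Q + 2)) / G)) else 0) := by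
    intro x hx
    obtain ⟨a1, a2, a3, a4, a5⟩ := PL_mem hx
    have hr0 := rho_nonneg (g * ∏ p ∈ P, p) (x.2 - x.1)
    have hEr := V.hEr
    have hrVQ : (x.2 - x.1) * (g * ∏ p ∈ P, p) ≤ Q :=
      (Nat.mul_le_mul_right _ (by omega : x.2 - x.1 ≤ Y)).trans V.hVQ
    split_ifs with hf
    · have h1 := TT_le_bt V.hbt V.hgP a4 a1 a2 V.hg hW a3 V.hQ V.hN0 V.hEr V.hH1
      rw [hrho x hx, ← hG, ← hS1] at h1
      have h2 : 0 ≤ rho (g * ∏ p ∈ P, p) (x.2 - x.1) * (S1 / ((Nat.totient (g * ∏ p ∈ P, p) : ℝ) * G ^ 2)) + 4 * Y * Q * Er / G := by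
        rw [hG]; positivity
      refine h1.trans (le_trans (le_of_eq ?_) (le_add_of_nonneg_left h2))
      rw [hG]
      field_simp
    · have h1 := TT_le V.hgP a4 a1 a2 a3 V.hQ V.hEr hrVQ (V.hHr _ (by omega) (by omega) hf) V.hH1
      rw [hrho x hx, ← hG, ← hS1] at h1
      rw [add_zero]
      refine h1.trans (le_of_eq ?_)
      rw [hG]
      field_simp
  have h1 : ((∑ x ∈ PL (∏ p ∈ P, p) Y, TT Q g (∏ p ∈ P, p) x.1 x.2 : ℕ) : ℝ) ≤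
      (∑ x ∈ PL (∏ p ∈ P, p) Y, rho (g * ∏ p ∈ P, p) (x.2 - x.1)) * (S1 / ((Nat.totient (g * ∏ p ∈ P, p) : ℝ) * G ^ 2)) +
      ((PL (∏ p ∈ P, p) Y).card : ℝ) * (4 * Y * Q * Er / G) +
      (∑ x ∈ (PL (∏ p ∈ P, p) Y).filter (fun x => f ∣ x.2 - x.1), rho (g * ∏ p ∈ P, p) (x.2 - x.1)) *
        (6 / (Nat.totient (g * ∏ p ∈ P, p) : ℝ) * (S1 / G ^ 2 + 2 * Y * Q * (g * (∏ p ∈ P, p : ℕ) * (Nat.sqrt Q + 2)) / G)) := by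
    push_cast
    refine (sum_le_sum hone).trans (le_of_eq ?_)
    rw [sum_add_distrib, sum_add_distrib, ← sum_mul, sum_const, nsmul_eq_mul, ← sum_filter, ← sum_mul]
    push_cast
    ring
  have h2 := pair_sum P (g * ∏ p ∈ P, p) Y k D V.hD (fun p hp => Dvd.dvd.mul_left (dvd_prod_of_mem _ hp) g) V.hk
  have h3 := exc_sum (∏ p ∈ P, p) (g * ∏ p ∈ P, p) Y f V.hf
  have hk1 := V.k1
  have hk3 := V.k3
  have hk3' := V.k3'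
  have hk2 := V.k2
  rw [← hL] at h2 hk1 hk3
  rw [← hG] at hk3' hk2 b1
  have hccn := cc_nonneg (g * ∏ p ∈ P, p) D
  have hcc5 := cc_le (g * ∏ p ∈ P, p) D
  have hL0 : 0 < L := by rw [hL]; exact b7
  have hK0 : 0 < K := by rw [hKdef]; positivity
  have hS1le : S1 ≤ (1 + e) * SQ Q := by rw [hS1]; linarith
  -- first part
  have p1 : 2 * ((∑ x ∈ PL (∏ p ∈ P, p) Y, rho (g * ∏ p ∈ P, p) (x.2 - x.1)) * (S1 / ((Nat.totient (g * ∏ p ∈ P, p) : ℝ) * G ^ 2))) ≤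
      K * ((1 + e) * SQ Q * cc (g * ∏ p ∈ P, p) D) + K * (e * ((1 + e) * SQ Q)) := by
    have h4 : 2 * (∑ x ∈ PL (∏ p ∈ P, p) Y, rho (g * ∏ p ∈ P, p) (x.2 - x.1)) ≤ L ^ 2 * (cc (g * ∏ p ∈ P, p) D + e) := by
      refine h2.trans ?_
      have : 2 * (k : ℝ) * L * D + 8 * (Y : ℝ) ^ 2 / Real.sqrt D ≤ e * L ^ 2 := hk1
      linarith
    calc 2 * ((∑ x ∈ PL (∏ p ∈ P, p) Y, rho (g * ∏ p ∈ P, p) (x.2 - x.1)) * (S1 / ((Nat.totient (g * ∏ p ∈ P, p) : ℝ) * G ^ 2))) =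
        (2 * (∑ x ∈ PL (∏ p ∈ P, p) Y, rho (g * ∏ p ∈ P, p) (x.2 - x.1))) * (S1 / ((Nat.totient (g * ∏ p ∈ P, p) : ℝ) * G ^ 2)) := by ring
      _ ≤ (L ^ 2 * (cc (g * ∏ p ∈ P, p) D + e)) * (S1 / ((Nat.totient (g * ∏ p ∈ P, p) : ℝ) * G ^ 2)) := by gcongr
      _ = K * (S1 * (cc (g * ∏ p ∈ P, p) D + e)) := by rw [hKdef]; ring
      _ ≤ K * (((1 + e) * SQ Q) * (cc (g * ∏ p ∈ P, p) D + e)) := by gcongr
      _ = _ := by ring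
  -- second part
  have p2 : 2 * (((PL (∏ p ∈ P, p) Y).card : ℝ) * (4 * Y * Q * Er / G)) ≤ e / 2 * (K * (Q : ℝ) ^ 2) := by
    have h4 : 2 * ((PL (∏ p ∈ P, p) Y).card : ℝ) ≤ L ^ 2 := by
      rw [hL]; exact_mod_cast PL_card (∏ p ∈ P, p) Y
    have hEr := V.hEr
    calc 2 * (((PL (∏ p ∈ P, p) Y).card : ℝ) * (4 * Y * Q * Er / G)) =
        (2 * ((PL (∏ p ∈ P, p) Y).card : ℝ)) * (4 * Y * Q * Er / G) := by ring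
      _ ≤ L ^ 2 * (4 * Y * Q * Er / G) := by gcongr
      _ = K * Q * (4 * (Y : ℝ) * Er * (Nat.totient (g * ∏ p ∈ P, p)) * G) := by rw [hKdef]; field_simp
      _ ≤ K * Q * (e / 2 * Q) := by gcongr
      _ = _ := by ring
  -- third part
  have p3 : 2 * ((∑ x ∈ (PL (∏ p ∈ P, p) Y).filter (fun x => f ∣ x.2 - x.1), rho (g * ∏ p ∈ P, p) (x.2 - x.1)) *
        (6 / (Nat.totient (g * ∏ p ∈ P, p) : ℝ) * (S1 / G ^ 2 + 2 * Y * Q * (g * (∏ p ∈ P, p : ℕ) * (Nat.sqrt Q + 2)) / G))) ≤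
      K * (e * (S1 + (Q : ℝ) ^ 2)) := by
    have h4 : 12 * (∑ x ∈ (PL (∏ p ∈ P, p) Y).filter (fun x => f ∣ x.2 - x.1), rho (g * ∏ p ∈ P, p) (x.2 - x.1)) ≤ e * L ^ 2 := by
      refine le_trans ?_ hk3
      calc 12 * (∑ x ∈ (PL (∏ p ∈ P, p) Y).filter (fun x => f ∣ x.2 - x.1), rho (g * ∏ p ∈ P, p) (x.2 - x.1)) ≤
            12 * (10 * (Y : ℝ) ^ 2 / Real.sqrt f) := by gcongr
        _ = _ := by ring
    have h5 : 2 * (Y : ℝ) * Q * (g * (∏ p ∈ P, p : ℕ) * (Nat.sqrt Q + 2)) / G ≤ (Q : ℝ) ^ 2 / G ^ 2 := by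
      rw [div_le_div_iff₀ b1 (by positivity)]
      calc 2 * (Y : ℝ) * Q * (g * (∏ p ∈ P, p : ℕ) * (Nat.sqrt Q + 2)) * G ^ 2 =
          (2 * (Y : ℝ) * (g * (∏ p ∈ P, p : ℕ) * (Nat.sqrt Q + 2)) * G) * (Q * G) := by ring
        _ ≤ Q * (Q * G) := by gcongr
        _ = _ := by ring
    calc 2 * ((∑ x ∈ (PL (∏ p ∈ P, p) Y).filter (fun x => f ∣ x.2 - x.1), rho (g * ∏ p ∈ P, p) (x.2 - x.1)) *
        (6 / (Nat.totient (g * ∏ p ∈ P, p) : ℝ) * (S1 / G ^ 2 + 2 * Y * Q * (g * (∏ p ∈ P, p : ℕ) * (Nat.sqrt Q + 2)) / G))) =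
        (12 * (∑ x ∈ (PL (∏ p ∈ P, p) Y).filter (fun x => f ∣ x.2 - x.1), rho (g * ∏ p ∈ P, p) (x.2 - x.1))) *
        (1 / (Nat.totient (g * ∏ p ∈ P, p) : ℝ) * (S1 / G ^ 2 + 2 * Y * Q * (g * (∏ p ∈ P, p : ℕ) * (Nat.sqrt Q + 2)) / G)) := by ring
      _ ≤ (e * L ^ 2) * (1 / (Nat.totient (g * ∏ p ∈ P, p) : ℝ) * (S1 / G ^ 2 + (Q : ℝ) ^ 2 / G ^ 2)) := by gcongr
      _ = _ := by rw [hKdef]; field_simp
  rw [← hK]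
  have hKQ : 0 < K * (Q : ℝ) ^ 2 := by positivity
  have q1 : K * (e * ((1 + e) * SQ Q)) ≤ 4 * e * (K * (Q : ℝ) ^ 2) := by
    calc K * (e * ((1 + e) * SQ Q)) ≤ K * (e * (2 * (2 * (Q : ℝ) ^ 2))) := by gcongr; linarith
      _ = _ := by ring
  have q2 : K * (e * (S1 + (Q : ℝ) ^ 2)) ≤ 5 * e * (K * (Q : ℝ) ^ 2) := by
    calc K * (e * (S1 + (Q : ℝ) ^ 2)) ≤ K * (e * ((1 + e) * SQ Q + (Q : ℝ) ^ 2)) := by gcongr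
      _ ≤ K * (e * (2 * (2 * (Q : ℝ) ^ 2) + (Q : ℝ) ^ 2)) := by gcongr; linarith
      _ = _ := by ring
  have heKQ : 0 ≤ e * (K * (Q : ℝ) ^ 2) := by positivity
  linarith

end

end Pool.Agent.H527.N
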