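import Mathlib
import Pool.Agent.H527.N.N8
import Pool.Agent.H527.M.M6

/-! Typical classes of typical moduli. -/

set_option autoImplicit false

namespace Pool.Agent.H527.N

open Finset Pool.Agent.H527.AP Pool.Agent.H527.S Pool.Agent.H527.M

/-- the primes of the window which do not divide `q` -/
def Pq (P0 : Finset ℕ) (q : ℕ) : Finset ℕ := P0.filter (fun p => ¬ p ∣ q)

/-- the classes whose number of primes is not near the mean -/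
noncomputable def Bad (Q Y : ℕ) (P0 : Finset ℕ) (η : ℝ) (q : ℕ) : Finset ℕ :=
  (rows (∏ p ∈ Pq P0 q, p) q 0 q).filter
    (fun a => ¬ |(Nn Y q a : ℝ) - mu Q Y (Pq P0 q) q| ≤ η * mu Q Y (Pq P0 q) q)

theorem Pq_gcd {P0 : Finset ℕ} (q : ℕ) : Pq P0 (Nat.gcd q (∏ p ∈ P0, p)) = Pq P0 q := by
  unfold Pq
  apply filter_congr
  intro p hp
  rw [not_iff_not]
  constructor
  · intro h; exact h.trans (Nat.gcd_dvd_left _ _)
  · intro h; exact Nat.dvd_gcd h (dvd_prod_of_mem _ hp)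

theorem mul_Pq {P0 : Finset ℕ} (hP0 : ∀ p ∈ P0, p.Prime) {g : ℕ} (hg : g ∣ ∏ p ∈ P0, p) :
    g * ∏ p ∈ Pq P0 g, p = ∏ p ∈ P0, p := by
  have hsq : Squarefree g := (squarefree_prod_set P0 hP0).squarefree_of_dvd hg
  have h1 : g = ∏ p ∈ P0.filter (fun p => p ∣ g), p := by
    have h2 : P0.filter (fun p => p ∣ g) = g.primeFactors := by
      ext p
      rw [mem_filter, Nat.mem_primeFactors]
      constructor
      · rintro ⟨h3, h4⟩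
        exact ⟨hP0 p h3, h4, hsq.ne_zero⟩
      · rintro ⟨h3, h4, _⟩
        have h5 : p ∣ ∏ p ∈ P0, p := h4.trans hg
        rw [Prime.dvd_finsetProd_iff h3.prime] at h5
        obtain ⟨r, hr, hpr⟩ := h5
        have : p = r := (Nat.prime_dvd_prime_iff_eq h3 (hP0 r hr)).1 hpr
        rw [this]
        exact ⟨hr, by rw [← this]; exact h4⟩
    rw [h2]
    exact (Nat.prod_primeFactors_of_squarefree hsq).symm
  conv_lhs => rw [h1]
  unfold Pq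
  conv_lhs => rw [← h1]
  conv_lhs =>
    enter [1]
    rw [h1]
  exact prod_filter_mul_prod_filter_not P0 (fun p => p ∣ g) (fun p => p)

theorem Qs_gcd {P0 : Finset ℕ} (hP0 : ∀ p ∈ P0, p.Prime) {Q g : ℕ} (hg : g ∣ ∏ p ∈ P0, p) :
    Qs Q g (∏ p ∈ Pq P0 g, p) = (Ioc Q (2 * Q)).filter (fun q => Nat.gcd q (∏ p ∈ P0, p) = g) := by
  have hm := mul_Pq hP0 hg
  have hV0 : 0 < ∏ p ∈ P0, p := Finset.prod_pos fun p hp => (hP0 p hp).pos
  have hg0 : 0 < g := Nat.pos_of_dvd_of_pos hg hV0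
  unfold Qs
  apply filter_congr
  intro q _
  constructor
  · rintro ⟨h1, h2⟩
    rw [← hm]
    rw [Nat.Coprime.gcd_mul_right_cancel_right g h2.symm]
    exact Nat.gcd_eq_right h1
  · intro h1
    refine ⟨by rw [← h1]; exact Nat.gcd_dvd_left _ _, ?_⟩
    rw [Nat.coprime_comm]
    apply Nat.Coprime.prod_left
    intro p hp
    unfold Pq at hp
    rw [mem_filter] at hp
    rw [Nat.Prime.coprime_iff_not_dvd (hP0 p hp.1)]
    intro h2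
    apply hp.2
    rw [← h1]
    exact Nat.dvd_gcd h2 (dvd_prod_of_mem _ hp.1)

theorem mu_ge {Q g Y k D f N₀ : ℕ} {P : Finset ℕ} {Er e : ℝ} (V : Var Q g Y k D f N₀ P Er e) {q : ℕ} (hq : 0 < q) :
    hm Q Y P * (∏ p ∈ P, p : ℕ) ≤ mu Q Y P q := by
  obtain ⟨hK, hh, _⟩ := V.KQ
  have hφq : (0 : ℝ) < (Nat.totient q : ℝ) := by exact_mod_cast Nat.totient_pos.2 hq
  unfold mu
  apply le_mul_of_one_le_right (by positivity)
  rw [one_le_div hφq]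
  exact_mod_cast Nat.totient_le q

/-- Chebyshev's inequality for one `g` -/
theorem cheb {Q g Y k D f N₀ : ℕ} {P0 : Finset ℕ} {Er e η : ℝ} (hP0 : ∀ p ∈ P0, p.Prime) (hg : g ∣ ∏ p ∈ P0, p)
    (V : Var Q g Y k D f N₀ (Pq P0 g) Er e) (hη : 0 < η) :
    ∑ q ∈ (Ioc Q (2 * Q)).filter (fun q => Nat.gcd q (∏ p ∈ P0, p) = g),
      ((∏ p ∈ Pq P0 q, p : ℕ) : ℝ) * ((Bad Q Y P0 η q).card : ℝ) ≤
      60 * e / η ^ 2 * (Q : ℝ) ^ 2 * (1 / (Nat.totient g : ℝ)) := by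
  classical
  obtain ⟨b1, b2, b3, b4, b5, b6, b7, b8, b9, b10⟩ := V.basic
  obtain ⟨hK, hh, hKh⟩ := V.KQ
  have hvar := V.variance
  rw [Qs_gcd hP0 hg] at hvar
  obtain ⟨W, hW⟩ : ∃ W : ℝ, W = ((∏ p ∈ Pq P0 g, p : ℕ) : ℝ) := ⟨_, rfl⟩
  have hW0 : 0 < W := by rw [hW]; exact b6
  have hφW : (Nat.totient (∏ p ∈ Pq P0 g, p) : ℝ) ≤ W := by rw [hW]; exact_mod_cast Nat.totient_le _
  have h1 : ∀ q ∈ (Ioc Q (2 * Q)).filter (fun q => Nat.gcd q (∏ p ∈ P0, p) = g),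
      ((∏ p ∈ Pq P0 q, p : ℕ) : ℝ) * ((Bad Q Y P0 η q).card : ℝ) * (η ^ 2 * (hm Q Y (Pq P0 g) ^ 2 * W)) ≤
      ∑ a ∈ rows (∏ p ∈ Pq P0 g, p) q 0 q, ((Nn Y q a : ℝ) - mu Q Y (Pq P0 g) q) ^ 2 := by
    intro q hq
    rw [mem_filter, mem_Ioc] at hq
    have e1 : Pq P0 q = Pq P0 g := by rw [← hq.2, Pq_gcd]
    have hmu := mu_ge V (show 0 < q by omega)
    have hmu0 : 0 ≤ hm Q Y (Pq P0 g) * (∏ p ∈ Pq P0 g, p : ℕ) := by positivity
    unfold Bad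
    rw [e1]
    have h2 : ∑ a ∈ (rows (∏ p ∈ Pq P0 g, p) q 0 q).filter
        (fun a => ¬ |(Nn Y q a : ℝ) - mu Q Y (Pq P0 g) q| ≤ η * mu Q Y (Pq P0 g) q), (η * mu Q Y (Pq P0 g) q) ^ 2 ≤
        ∑ a ∈ rows (∏ p ∈ Pq P0 g, p) q 0 q, ((Nn Y q a : ℝ) - mu Q Y (Pq P0 g) q) ^ 2 := by
      refine le_trans (sum_le_sum ?_) (sum_le_sum_of_subset_of_nonneg (filter_subset _ _) (fun a _ _ => sq_nonneg _))
      intro a ha
      rw [mem_filter, not_le] at ha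
      rw [← sq_abs ((Nn Y q a : ℝ) - mu Q Y (Pq P0 g) q)]
      have : 0 ≤ mu Q Y (Pq P0 g) q := hmu0.trans hmu
      exact pow_le_pow_left₀ (by positivity) ha.2.le 2
    refine le_trans ?_ h2
    rw [sum_const, nsmul_eq_mul, ← hW]
    obtain ⟨c, hc⟩ : ∃ c : ℝ, c = (((rows (∏ p ∈ Pq P0 g, p) q 0 q).filter
        (fun a => ¬ |(Nn Y q a : ℝ) - mu Q Y (Pq P0 g) q| ≤ η * mu Q Y (Pq P0 g) q)).card : ℝ) := ⟨_, rfl⟩
    rw [← hc]
    have hc0 : 0 ≤ c := by rw [hc]; positivity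
    rw [← hW] at hmu hmu0
    calc W * c * (η ^ 2 * (hm Q Y (Pq P0 g) ^ 2 * W)) = c * (η * (hm Q Y (Pq P0 g) * W)) ^ 2 := by ring
      _ ≤ c * (η * mu Q Y (Pq P0 g) q) ^ 2 := by gcongr
  have h2 := (sum_le_sum h1).trans hvar
  rw [← sum_mul] at h2
  have h3 : 0 < η ^ 2 * (hm Q Y (Pq P0 g) ^ 2 * W) := by positivity
  rw [← le_div_iff₀ h3] at h2
  refine h2.trans ?_
  rw [← hKh, div_le_iff₀ h3]
  have he := V.he
  calc 60 * e * (hm Q Y (Pq P0 g) ^ 2 * (Nat.totient (∏ p ∈ Pq P0 g, p) : ℝ) / (Nat.totient g : ℝ) * (Q : ℝ) ^ 2) ≤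
      60 * e * (hm Q Y (Pq P0 g) ^ 2 * W / (Nat.totient g : ℝ) * (Q : ℝ) ^ 2) := by gcongr
    _ = _ := by field_simp

/-- the sum over all moduli -/
theorem cheb_all {Q Y k D f N₀ : ℕ} {P0 : Finset ℕ} {Er e η : ℝ} (hP0 : ∀ p ∈ P0, p.Prime)
    (hV : ∀ g, g ∣ ∏ p ∈ P0, p → Var Q g Y k D f N₀ (Pq P0 g) Er e) (hη : 0 < η)
    (h2 : 1 / 2 ≤ ∏ p ∈ P0, (1 - 1 / (p : ℝ))) :
    ∑ q ∈ Ioc Q (2 * Q), ((∏ p ∈ Pq P0 q, p : ℕ) : ℝ) * ((Bad Q Y P0 η q).card : ℝ) ≤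
      120 * e / η ^ 2 * (Q : ℝ) ^ 2 := by
  classical
  have hV0 : 0 < ∏ p ∈ P0, p := Finset.prod_pos fun p hp => (hP0 p hp).pos
  have he : 0 < e := (hV 1 (one_dvd _)).he
  have h3 : ∑ q ∈ Ioc Q (2 * Q), ((∏ p ∈ Pq P0 q, p : ℕ) : ℝ) * ((Bad Q Y P0 η q).card : ℝ) =
      ∑ g ∈ (∏ p ∈ P0, p).divisors, ∑ q ∈ (Ioc Q (2 * Q)).filter (fun q => Nat.gcd q (∏ p ∈ P0, p) = g),
        ((∏ p ∈ Pq P0 q, p : ℕ) : ℝ) * ((Bad Q Y P0 η q).card : ℝ) := by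
    rw [sum_fiberwise_of_maps_to]
    intro q _
    rw [Nat.mem_divisors]
    exact ⟨Nat.gcd_dvd_right _ _, hV0.ne'⟩
  rw [h3]
  have h4 : ∀ g ∈ (∏ p ∈ P0, p).divisors, ∑ q ∈ (Ioc Q (2 * Q)).filter (fun q => Nat.gcd q (∏ p ∈ P0, p) = g),
        ((∏ p ∈ Pq P0 q, p : ℕ) : ℝ) * ((Bad Q Y P0 η q).card : ℝ) ≤ 60 * e / η ^ 2 * (Q : ℝ) ^ 2 * hh 1 g := by
    intro g hg
    have hg1 := Nat.dvd_of_mem_divisors hg
    have h5 := cheb hP0 hg1 (hV g hg1) hη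
    have h6 : hh 1 g = 1 / (Nat.totient g : ℝ) := by
      unfold hh
      rw [if_pos ⟨(squarefree_prod_set P0 hP0).squarefree_of_dvd hg1, Nat.coprime_one_right g⟩]
    rw [h6]
    exact h5
  refine (sum_le_sum h4).trans ?_
  rw [← mul_sum, ← rho_eq 1 _ hV0, rho_one _ hV0]
  have h5 : ((∏ p ∈ P0, p : ℕ) : ℝ) / (Nat.totient (∏ p ∈ P0, p) : ℝ) ≤ 2 := by
    have h6 := tot_prod P0 hP0
    have h7 : (0 : ℝ) < ((∏ p ∈ P0, p : ℕ) : ℝ) := by exact_mod_cast hV0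
    rw [h6, div_le_iff₀ (by positivity)]
    nlinarith
  calc 60 * e / η ^ 2 * (Q : ℝ) ^ 2 * (((∏ p ∈ P0, p : ℕ) : ℝ) / (Nat.totient (∏ p ∈ P0, p) : ℝ)) ≤
      60 * e / η ^ 2 * (Q : ℝ) ^ 2 * 2 := by gcongr
    _ = _ := by ring

/-- **typical classes** -/
theorem typical {Q Y k D f N₀ : ℕ} {P0 : Finset ℕ} {Er e η κ : ℝ} (hP0 : ∀ p ∈ P0, p.Prime)
    (hV : ∀ g, g ∣ ∏ p ∈ P0, p → Var Q g Y k D f N₀ (Pq P0 g) Er e) (hη : 0 < η) (hκ : 0 < κ)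
    (h2 : 1 / 2 ≤ ∏ p ∈ P0, (1 - 1 / (p : ℝ))) (he : 14400 * e ≤ η ^ 2 * κ ^ 3) :
    (((Ioc Q (2 * Q)).filter (fun q => ¬ ((Bad Q Y P0 η q).card : ℝ) ≤
      κ * ((rows (∏ p ∈ Pq P0 q, p) q 0 q).card : ℝ))).card : ℝ) ≤ κ * Q := by
  classical
  have hall := cheb_all hP0 hV hη h2
  have V1 := hV 1 (one_dvd _)
  have he0 := V1.he
  have hQ : 2 ≤ Q := V1.hQ
  have hQ0 : (0 : ℝ) < Q := by exact_mod_cast (by omega : 0 < Q)
  obtain ⟨A, hA⟩ : ∃ A, A = (Ioc Q (2 * Q)).filter (fun q => ¬ ((Bad Q Y P0 η q).card : ℝ) ≤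
      κ * ((rows (∏ p ∈ Pq P0 q, p) q 0 q).card : ℝ)) := ⟨_, rfl⟩
  rw [← hA]
  -- the moduli with small totient
  obtain ⟨c, hc⟩ : ∃ c : ℝ, c = κ / 20 := ⟨_, rfl⟩
  have hc0 : 0 < c := by rw [hc]; positivity
  have hA1 : ((A.filter (fun q => (Nat.totient q : ℝ) < c * q)).card : ℝ) ≤ κ / 2 * Q := by
    have h3 : ∀ q ∈ A.filter (fun q => (Nat.totient q : ℝ) < c * q), 1 / c ≤ rho 1 q := by
      intro q hq
      rw [hA, mem_filter, mem_filter, mem_Ioc] at hq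
      have hq0 : 0 < q := by omega
      rw [rho_one q hq0]
      have hφq : (0 : ℝ) < (Nat.totient q : ℝ) := by exact_mod_cast Nat.totient_pos.2 hq0
      rw [div_le_div_iff₀ hc0 hφq, one_mul, mul_comm]
      exact hq.2.le
    have h4 := card_nsmul_le_sum _ _ _ h3
    rw [nsmul_eq_mul] at h4
    have h5 : ∑ q ∈ A.filter (fun q => (Nat.totient q : ℝ) < c * q), rho 1 q ≤ ∑ q ∈ Icc 1 (2 * Q), rho 1 q := by
      apply sum_le_sum_of_subset_of_nonneg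
      · intro q hq
        rw [hA, mem_filter, mem_filter, mem_Ioc] at hq
        rw [mem_Icc]
        omega
      · intro q _ _
        exact rho_nonneg 1 q
    have h6 := sum_rho (2 * Q)
    push_cast at h6
    have h7 : ((A.filter (fun q => (Nat.totient q : ℝ) < c * q)).card : ℝ) * (1 / c) ≤ 10 * Q := by linarith
    rw [mul_one_div, div_le_iff₀ hc0] at h7
    have h8 : 10 * (Q : ℝ) * c = κ / 2 * Q := by rw [hc]; ring
    linarith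
  have hA2 : ((A.filter (fun q => ¬ (Nat.totient q : ℝ) < c * q)).card : ℝ) ≤ κ / 2 * Q := by
    have h3 : ∀ q ∈ A.filter (fun q => ¬ (Nat.totient q : ℝ) < c * q), κ * c * Q / 2 ≤
        ((∏ p ∈ Pq P0 q, p : ℕ) : ℝ) * ((Bad Q Y P0 η q).card : ℝ) := by
      intro q hq
      rw [hA, mem_filter, mem_filter, mem_Ioc] at hq
      obtain ⟨⟨⟨hq1, hq2⟩, hbad⟩, hφ⟩ := hq
      have hgV : Nat.gcd q (∏ p ∈ P0, p) ∣ ∏ p ∈ P0, p := Nat.gcd_dvd_right _ _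
      have Vg := hV _ hgV
      rw [Pq_gcd] at Vg
      have hcop : q.Coprime (∏ p ∈ Pq P0 q, p) := by
        rw [Nat.coprime_comm]
        apply Nat.Coprime.prod_left
        intro p hp
        unfold Pq at hp
        rw [mem_filter] at hp
        exact (Nat.Prime.coprime_iff_not_dvd (hP0 p hp.1)).2 hp.2
      have hR := (Vg.Rbd (mem_Ioc.2 ⟨hq1, hq2⟩) hcop).2
      obtain ⟨b1, b2, b3, b4, b5, b6, b7, b8, b9, b10⟩ := Vg.basic
      have he1 := Vg.he1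
      obtain ⟨W, hW⟩ : ∃ W : ℝ, W = ((∏ p ∈ Pq P0 q, p : ℕ) : ℝ) := ⟨_, rfl⟩
      rw [← hW] at hR b6 ⊢
      rw [not_le] at hbad
      rw [not_lt] at hφ
      have hqQ : (Q : ℝ) ≤ q := by exact_mod_cast hq1.le
      have h4 : c * Q ≤ (Nat.totient q : ℝ) := le_trans (by gcongr) hφ
      have h5 : c * Q / 2 ≤ W * ((rows (∏ p ∈ Pq P0 q, p) q 0 q).card : ℝ) := by
        have h6 : W * ((1 - e) * ((Nat.totient q : ℝ) / W)) ≤ W * ((rows (∏ p ∈ Pq P0 q, p) q 0 q).card : ℝ) := by gcongr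
        have h7 : W * ((1 - e) * ((Nat.totient q : ℝ) / W)) = (1 - e) * (Nat.totient q : ℝ) := by field_simp
        rw [h7] at h6
        have h8 : 0 ≤ c * Q := by positivity
        nlinarith
      calc κ * c * Q / 2 = κ * (c * Q / 2) := by ring
        _ ≤ κ * (W * ((rows (∏ p ∈ Pq P0 q, p) q 0 q).card : ℝ)) := by gcongr
        _ = W * (κ * ((rows (∏ p ∈ Pq P0 q, p) q 0 q).card : ℝ)) := by ring
        _ ≤ _ := by gcongr
    have h4 := card_nsmul_le_sum _ _ _ h3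
    rw [nsmul_eq_mul] at h4
    have h5 : ∑ q ∈ A.filter (fun q => ¬ (Nat.totient q : ℝ) < c * q), ((∏ p ∈ Pq P0 q, p : ℕ) : ℝ) * ((Bad Q Y P0 η q).card : ℝ) ≤
        ∑ q ∈ Ioc Q (2 * Q), ((∏ p ∈ Pq P0 q, p : ℕ) : ℝ) * ((Bad Q Y P0 η q).card : ℝ) := by
      apply sum_le_sum_of_subset_of_nonneg
      · intro q hq
        rw [hA, mem_filter, mem_filter] at hq
        exact hq.1.1
      · intro q _ _
        positivity
    have h6 := (h4.trans h5).trans hall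
    have h7 : 120 * e / η ^ 2 * (Q : ℝ) ^ 2 ≤ (κ / 2 * Q) * (κ * c * Q / 2) := by
      rw [hc, div_mul_eq_mul_div, div_le_iff₀ (by positivity)]
      have h8 : 14400 * e * (Q : ℝ) ^ 2 ≤ η ^ 2 * κ ^ 3 * (Q : ℝ) ^ 2 := by gcongr
      have h9 : 0 ≤ η ^ 2 * κ ^ 3 * (Q : ℝ) ^ 2 := by positivity
      have h10 : κ / 2 * Q * (κ * (κ / 20) * Q / 2) * η ^ 2 = η ^ 2 * κ ^ 3 * (Q : ℝ) ^ 2 / 80 := by ring
      rw [h10]
      linarith
    exact le_of_mul_le_mul_right (h6.trans h7) (by positivity)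
  have h3 : (A.card : ℝ) = ((A.filter (fun q => (Nat.totient q : ℝ) < c * q)).card : ℝ) +
      ((A.filter (fun q => ¬ (Nat.totient q : ℝ) < c * q)).card : ℝ) := by
    exact_mod_cast (card_filter_add_card_filter_not (s := A) (fun q => (Nat.totient q : ℝ) < c * q)).symm
  rw [h3]
  linarith

end Pool.Agent.H527.N
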