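import Mathlib
import Pool.Agent.H527.M.M8

/-! Asymptotic inequalities for the second moment. -/

set_option autoImplicit false

namespace Pool.Agent.H527.N

open Filter Asymptotics Pool.Agent.H527.M

set_option maxHeartbeats 4000000 in
/-- the conditions on the size of `L = log Q` -/
theorem asym2 (c1 v A β e l0 D N0 Z C : ℝ) (hc1 : 0 < c1) (hv : 0 < v) (hv1 : v ≤ 1 / 40) (hβ : 0 < β) (he : 0 < e)
    (hA : 0 < A) :
    ∀ᶠ L : ℝ in atTop, 1 ≤ Real.log L ∧ 2 ≤ L ∧ l0 ≤ L ^ (1 / 20 : ℝ) / 2 ∧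
      Real.log 4 + A * Real.log L ≤ L ∧
      2 * L ≤ Real.exp (L ^ (1 / 20 : ℝ) / 2 / 48) ∧
      A * Real.log L + 3 / 2 * L ^ v ≤ L ^ (1 / 20 : ℝ) / 2 / 8 ∧
      12 * L ≤ e * L ^ (1 + β) ∧
      8 * D * C ≤ e * L ^ β ∧
      Real.log (64 / e) + 3 * (A * Real.log L) + Real.log L + 2 * L ^ v ≤ L ^ (1 / 20 : ℝ) / 2 / 4 ∧
      Z ≤ L ^ c1 ∧
      Real.log 4 + A * Real.log L + Real.log L + 2 * L ^ v ≤ L / 2 ∧
      Real.log 4 + A * Real.log L ≤ e / 2 * L ∧
      Real.log (64 / e) + 3 * (A * Real.log L) + Real.log L + 2 * L ^ v ≤ L / 4 ∧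
      Real.log (18 / e) + 257 * Real.log 2 + Real.log L + 2 * L ^ v ≤ L / 2 ∧
      Real.log (6 / e) + Real.log D + 5 * L ^ v ≤ L ∧
      N0 ≤ Real.exp (L / 4) ∧ 2 ≤ L ^ v := by
  have hlog := Real.tendsto_log_atTop
  have t20 : Tendsto (fun L : ℝ => L ^ (1 / 20 : ℝ)) atTop atTop := tendsto_rpow_atTop (by norm_num)
  have tβ : Tendsto (fun L : ℝ => L ^ β) atTop atTop := tendsto_rpow_atTop hβ
  have tv : Tendsto (fun L : ℝ => L ^ v) atTop atTop := tendsto_rpow_atTop hv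
  have tc : Tendsto (fun L : ℝ => L ^ c1) atTop atTop := tendsto_rpow_atTop hc1
  have t4 : Tendsto (fun L : ℝ => Real.exp (1 / 4 * L)) atTop atTop :=
    Real.tendsto_exp_atTop.comp (tendsto_id.const_mul_atTop (by norm_num))
  have e6 : ∀ᶠ L : ℝ in atTop, 2 * (L ^ (1 / 20 : ℝ)) ^ 20 ≤ Real.exp (1 / 96 * L ^ (1 / 20 : ℝ)) :=
    t20.eventually (as_pow_exp (1 / 96) 2 (by norm_num) 20)
  have hlog1 : ∀ c : ℝ, ∀ D : ℝ, 0 < c → ∀ᶠ L : ℝ in atTop, D * Real.log L ≤ L ^ c := by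
    intro c D hc
    have := as_log_pow c D hc 1
    simpa using this
  filter_upwards [hlog.eventually_ge_atTop 1, eventually_ge_atTop (2 : ℝ), t20.eventually_ge_atTop (2 * l0),
    hlog1 1 (8 * A) one_pos, eventually_ge_atTop (8 * Real.log 4), e6, hlog1 (1 / 20) (128 * A) (by norm_num),
    as_pow_pow v (1 / 20) (128 * 2) (by linarith), as_pow_pow 1 (1 + β) (12 / e) (by linarith),
    tβ.eventually_ge_atTop (8 * D * C / e),
    t20.eventually_ge_atTop (32 * Real.log (64 / e)), hlog1 (1 / 20) (32 * (3 * A + 1)) (by norm_num),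
    tc.eventually_ge_atTop Z, hlog1 1 (64 * (3 * A + 2)) one_pos, as_pow_pow v 1 64 (by linarith),
    hlog1 1 (4 * A / e) one_pos, eventually_ge_atTop (4 * Real.log 4 / e),
    eventually_ge_atTop (32 * Real.log (64 / e)), eventually_ge_atTop (32 * (Real.log (18 / e) + 257 * Real.log 2)),
    eventually_ge_atTop (32 * (Real.log (6 / e) + Real.log D)), t4.eventually_ge_atTop N0,
    tv.eventually_ge_atTop 2] with L a1 a2 a3 a4 a5 a6 a7 a8 a9 a10 a12 a13 a14 a15 a16 a17 a18 a19 a20 a21 a22 a23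
  have hL0 : 0 < L := by linarith
  have hpow : (L ^ (1 / 20 : ℝ)) ^ 20 = L := by
    rw [← Real.rpow_natCast, ← Real.rpow_mul hL0.le]
    norm_num
  rw [hpow] at a6
  rw [Real.rpow_one] at a4 a9 a15 a16 a17
  have hlL : 0 < Real.log L := by linarith
  have hAl : 0 < A * Real.log L := by positivity
  have hLv : 0 < L ^ v := Real.rpow_pos_of_pos hL0 v
  have e4 : Real.exp (L / 4) = Real.exp (1 / 4 * L) := by congr 1; ring
  have e5 : Real.exp (L ^ (1 / 20 : ℝ) / 2 / 48) = Real.exp (1 / 96 * L ^ (1 / 20 : ℝ)) := by congr 1; ring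
  rw [div_mul_eq_mul_div, div_le_iff₀ he] at a9 a17
  rw [div_le_iff₀ he] at a10 a18
  rw [e4, e5]
  refine ⟨a1, a2, by linarith, by linarith, a6, by linarith, by linarith, by linarith, ?_, a14, ?_, ?_, ?_, ?_,
    ?_, a22, a23⟩
  all_goals linarith

end Pool.Agent.H527.N
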