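import Mathlib
import Pool.Agent.H527.AP.A4
import Pool.Agent.H527.M.M7
import Pool.Agent.H527.N.N9
import Pool.Agent.H527.N.N10

/-! The hypotheses of the variance bound hold for large `Q`. -/

set_option autoImplicit false

namespace Pool.Agent.H527.N

open Finset Filter Pool.Agent.H527.AP Pool.Agent.H527.S Pool.Agent.H527.M

/-- the window of primes -/
noncomputable def win (c1 v : ℝ) (Q : ℕ) : Finset ℕ :=
  (Ioc ⌊(Real.log Q) ^ c1⌋₊ ⌊(Real.log Q) ^ v⌋₊).filter Nat.Prime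

theorem Ls_card_ge (P : Finset ℕ) (hP : ∀ p ∈ P, p.Prime) (Y : ℕ) (h : ∑ p ∈ P, 1 / (p : ℝ) ≤ 1 / 2) :
    (Y : ℝ) / 2 ≤ ((Ls (∏ p ∈ P, p) Y).card : ℝ) := by
  classical
  have h1 : Icc 1 Y ⊆ Ls (∏ p ∈ P, p) Y ∪ P.biUnion (fun p => (Ioc 0 Y).filter (fun l => p ∣ l)) := by
    intro l hl
    rw [mem_union, mem_biUnion]
    by_cases h2 : l.Coprime (∏ p ∈ P, p)
    · left
      unfold Ls
      rw [mem_filter]
      exact ⟨hl, h2⟩
    · right
      rw [coprime_prod hP] at h2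
      push Not at h2
      obtain ⟨p, hp, hpl⟩ := h2
      refine ⟨p, hp, ?_⟩
      rw [mem_Icc] at hl
      rw [mem_filter, mem_Ioc]
      exact ⟨⟨by omega, hl.2⟩, hpl⟩
  have h2 := (card_le_card h1).trans ((card_union_le _ _).trans (Nat.add_le_add_left card_biUnion_le _))
  rw [Nat.card_Icc, Nat.add_sub_cancel] at h2
  have h3 : (Y : ℝ) ≤ ((Ls (∏ p ∈ P, p) Y).card : ℝ) + ∑ p ∈ P, (((Ioc 0 Y).filter (fun l => p ∣ l)).card : ℝ) := by
    exact_mod_cast h2
  have h4 : ∑ p ∈ P, (((Ioc 0 Y).filter (fun l => p ∣ l)).card : ℝ) ≤ ∑ p ∈ P, (Y : ℝ) * (1 / (p : ℝ)) := by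
    apply sum_le_sum
    intro p _
    rw [Nat.Ioc_filter_dvd_card_eq_div, mul_one_div]
    exact Nat.cast_div_le
  rw [← mul_sum] at h4
  have h5 : (Y : ℝ) * ∑ p ∈ P, 1 / (p : ℝ) ≤ Y * (1 / 2) := by gcongr
  linarith

set_option maxHeartbeats 4000000 in
/-- numerical part, I -/
theorem num1 (e L l Yr Vr Wr Qr lY A v : ℝ) (he : 0 < e) (hL : 2 ≤ L) (hY : 1 ≤ Yr) (hW : 1 ≤ Wr) (hWV : Wr ≤ Vr)
    (hQ : Qr = Real.exp L) (hYe : Yr = Real.exp lY) (hlY : lY ≤ A * Real.log L)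
    (hlY0 : 0 ≤ lY) (hV : Vr ≤ Real.exp (3 / 2 * L ^ v)) (hLv : 0 ≤ L ^ v)
    (a1 : Real.log (64 / e) + 3 * (A * Real.log L) + Real.log L + 2 * L ^ v ≤ l / 4)
    (a2 : Real.log (64 / e) + 3 * (A * Real.log L) + Real.log L + 2 * L ^ v ≤ L / 4) 
    (a3 : Real.log 4 + A * Real.log L + Real.log L + 2 * L ^ v ≤ L / 2) 
    (a4 : Real.log 4 + A * Real.log L ≤ L) :
    4 * Yr * (2 * (Yr + 1) * Qr * Real.exp (-(l / 4))) * Vr * L ≤ e / 2 * Qr ∧
    2 * (2 * (Yr + 1) * Qr * Real.exp (-(l / 4))) + 2 * Real.sqrt (2 * ((Yr + 1) * Qr)) * Real.log (2 * ((Yr + 1) * Qr)) ≤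
      e / 2 * (Qr / Wr) ∧
    4 * Yr * Vr * Real.sqrt Qr * L ≤ Qr ∧ 2 ≤ Real.sqrt Qr := by
  have hL0 : 0 < L := by linarith
  have hlL : 0 ≤ Real.log L := Real.log_nonneg (by linarith)
  have hQ0 : 0 < Qr := by rw [hQ]; exact Real.exp_pos _
  have hLe : L = Real.exp (Real.log L) := (Real.exp_log hL0).symm
  have hV0 : 0 < Vr := by linarith
  have he64 : 64 / e = Real.exp (Real.log (64 / e)) := (Real.exp_log (by positivity)).symm
  have hsq : Real.sqrt Qr = Real.exp (L / 2) := by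
    rw [hQ, show L = L / 2 + L / 2 by ring, Real.exp_add, Real.sqrt_mul_self (Real.exp_pos _).le]
    congr 1; ring
  have h4 : (4 : ℝ) = Real.exp (Real.log 4) := (Real.exp_log (by norm_num)).symm
  -- the master inequality
  have m1 : 64 / e * (Yr * Yr) * Vr * L ≤ Real.exp (l / 4) := by
    calc 64 / e * (Yr * Yr) * Vr * L ≤ Real.exp (Real.log (64 / e)) * (Real.exp lY * Real.exp lY) * Real.exp (3 / 2 * L ^ v) * Real.exp (Real.log L) := by
          rw [← he64, ← hYe, ← hLe]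
          gcongr
      _ = Real.exp (Real.log (64 / e) + (lY + lY) + 3 / 2 * L ^ v + Real.log L) := by
          rw [Real.exp_add, Real.exp_add, Real.exp_add, Real.exp_add]
      _ ≤ _ := by
          apply Real.exp_le_exp.2
          nlinarith
  have m2 : 64 / e * (Yr * Yr) * Vr * L ≤ Real.exp (L / 4) := by
    calc 64 / e * (Yr * Yr) * Vr * L ≤ Real.exp (Real.log (64 / e)) * (Real.exp lY * Real.exp lY) * Real.exp (3 / 2 * L ^ v) * Real.exp (Real.log L) := by
          rw [← he64, ← hYe, ← hLe]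
          gcongr
      _ = Real.exp (Real.log (64 / e) + (lY + lY) + 3 / 2 * L ^ v + Real.log L) := by
          rw [Real.exp_add, Real.exp_add, Real.exp_add, Real.exp_add]
      _ ≤ _ := by
          apply Real.exp_le_exp.2
          nlinarith
  have m3 : 4 * Yr * Vr * L ≤ Real.exp (L / 2) := by
    calc 4 * Yr * Vr * L ≤ Real.exp (Real.log 4) * Real.exp lY * Real.exp (3 / 2 * L ^ v) * Real.exp (Real.log L) := by
          rw [← h4, ← hYe, ← hLe]
          gcongr
      _ = Real.exp (Real.log 4 + lY + 3 / 2 * L ^ v + Real.log L) := by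
          rw [Real.exp_add, Real.exp_add, Real.exp_add]
      _ ≤ _ := by
          apply Real.exp_le_exp.2
          linarith
  have hEl : Real.exp (l / 4) * Real.exp (-(l / 4)) = 1 := by rw [← Real.exp_add]; simp
  have hY1 : Yr + 1 ≤ 2 * Yr := by linarith
  have hYY : Yr ≤ Yr * Yr := le_mul_of_one_le_left (by linarith) hY
  refine ⟨?_, ?_, ?_, ?_⟩
  · have h5 : 32 / e * (Yr * Yr) * Vr * L * Real.exp (-(l / 4)) ≤ 1 := by
      calc 32 / e * (Yr * Yr) * Vr * L * Real.exp (-(l / 4)) ≤ (64 / e * (Yr * Yr) * Vr * L) * Real.exp (-(l / 4)) := by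
            gcongr
            norm_num
        _ ≤ Real.exp (l / 4) * Real.exp (-(l / 4)) := by gcongr
        _ = 1 := hEl
    calc 4 * Yr * (2 * (Yr + 1) * Qr * Real.exp (-(l / 4))) * Vr * L ≤
          4 * Yr * (2 * (2 * Yr) * Qr * Real.exp (-(l / 4))) * Vr * L := by gcongr
      _ = (32 / e * (Yr * Yr) * Vr * L * Real.exp (-(l / 4))) * (e / 2 * Qr) := by field_simp; ring
      _ ≤ 1 * (e / 2 * Qr) := by gcongr
      _ = _ := by ring
  · have hp1 : 2 * (2 * (Yr + 1) * Qr * Real.exp (-(l / 4))) ≤ e / 4 * (Qr / Wr) := by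
      have h5 : 32 / e * Yr * Wr * Real.exp (-(l / 4)) ≤ 1 := by
        calc 32 / e * Yr * Wr * Real.exp (-(l / 4)) ≤ (64 / e * (Yr * Yr) * Vr * L) * Real.exp (-(l / 4)) := by
              have : 32 / e * Yr * Wr ≤ 64 / e * (Yr * Yr) * Vr * L := by
                calc 32 / e * Yr * Wr ≤ 64 / e * (Yr * Yr) * Vr := by gcongr; norm_num
                  _ ≤ 64 / e * (Yr * Yr) * Vr * L := le_mul_of_one_le_right (by positivity) (by linarith)
              gcongr
          _ ≤ Real.exp (l / 4) * Real.exp (-(l / 4)) := by gcongr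
          _ = 1 := hEl
      calc 2 * (2 * (Yr + 1) * Qr * Real.exp (-(l / 4))) ≤ 2 * (2 * (2 * Yr) * Qr * Real.exp (-(l / 4))) := by gcongr
        _ = (32 / e * Yr * Wr * Real.exp (-(l / 4))) * (e / 4 * (Qr / Wr)) := by field_simp; ring
        _ ≤ 1 * (e / 4 * (Qr / Wr)) := by
            have : 0 < Wr := by linarith
            gcongr
        _ = _ := by ring
    have hp2 : 2 * Real.sqrt (2 * ((Yr + 1) * Qr)) * Real.log (2 * ((Yr + 1) * Qr)) ≤ e / 4 * (Qr / Wr) := by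
      have h5 : Real.sqrt (2 * ((Yr + 1) * Qr)) ≤ 2 * Yr * Real.sqrt Qr := by
        apply Real.sqrt_le_iff.2
        refine ⟨by positivity, ?_⟩
        rw [mul_pow, Real.sq_sqrt hQ0.le]
        have : 2 * (Yr + 1) ≤ (2 * Yr) ^ 2 := by nlinarith
        nlinarith
      have h6 : Real.log (2 * ((Yr + 1) * Qr)) ≤ 2 * L := by
        have h7 : 2 * ((Yr + 1) * Qr) ≤ 4 * Yr * Qr := by nlinarith
        have h8 := Real.log_le_log (by positivity) h7
        have h9 : Real.log (4 * Yr * Qr) = Real.log 4 + lY + L := by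
          rw [Real.log_mul (by positivity) hQ0.ne', Real.log_mul (by norm_num) (by positivity), hYe, Real.log_exp,
            hQ, Real.log_exp]
        rw [h9] at h8
        linarith
      have h7 : 0 ≤ Real.log (2 * ((Yr + 1) * Qr)) := by
        apply Real.log_nonneg
        have : 1 ≤ Qr := by rw [hQ]; exact Real.one_le_exp hL0.le
        nlinarith
      have h8 : 32 / e * Yr * Wr * L ≤ Real.exp (L / 2) := by
        calc 32 / e * Yr * Wr * L ≤ 64 / e * (Yr * Yr) * Vr * L := by gcongr; norm_num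
          _ ≤ Real.exp (L / 4) := m2
          _ ≤ _ := Real.exp_le_exp.2 (by linarith)
      have hW0 : 0 < Wr := by linarith
      have hs0 : 0 < Real.sqrt Qr := Real.sqrt_pos.2 hQ0
      calc 2 * Real.sqrt (2 * ((Yr + 1) * Qr)) * Real.log (2 * ((Yr + 1) * Qr)) ≤ 2 * (2 * Yr * Real.sqrt Qr) * (2 * L) := by gcongr
        _ = (32 / e * Yr * Wr * L) * (e / 4 * (Real.sqrt Qr / Wr)) := by field_simp; ring
        _ ≤ Real.exp (L / 2) * (e / 4 * (Real.sqrt Qr / Wr)) := by gcongr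
        _ = e / 4 * ((Real.sqrt Qr * Real.sqrt Qr) / Wr) := by rw [← hsq]; ring
        _ = _ := by rw [Real.mul_self_sqrt hQ0.le]
    linarith
  · calc 4 * Yr * Vr * Real.sqrt Qr * L = (4 * Yr * Vr * L) * Real.sqrt Qr := by ring
      _ ≤ Real.exp (L / 2) * Real.sqrt Qr := by gcongr
      _ = Real.sqrt Qr * Real.sqrt Qr := by rw [← hsq]
      _ = _ := Real.mul_self_sqrt hQ0.le
  · rw [hsq]
    have := Real.add_one_le_exp (L / 2)
    linarith

end Pool.Agent.H527.N
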