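import Mathlib
import Pool.Agent.H527.N.N11

/-! The hypotheses of the variance bound hold for large `Q`. -/

set_option autoImplicit false

namespace Pool.Agent.H527.N

open Finset Filter Pool.Agent.H527.AP Pool.Agent.H527.S Pool.Agent.H527.M

set_option maxHeartbeats 4000000 in
/-- numerical part, II -/
theorem num2 (e L Wr v om φ qr lq : ℝ) (he : 0 < e) (hL : 2 ≤ L) (hW : 0 < Wr)
    (hWv : Wr ≤ Real.exp (3 / 2 * L ^ v)) (hLv : 0 ≤ L ^ v) (hq : qr = Real.exp lq) (hlq : L ≤ lq) (hlq2 : lq ≤ 2 * L)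
    (hom : om ^ 8 ≤ 256 ^ 257 * qr) (hφ : 1 / (3 * lq) ≤ φ / qr)
    (a : Real.log (18 / e) + 257 * Real.log 2 + Real.log L + 2 * L ^ v ≤ L / 2) : 3 * om ≤ e * (φ / Wr) := by
  have hL0 : 0 < L := by linarith
  have hlq0 : 0 < lq := by linarith
  have hq0 : 0 < qr := by rw [hq]; exact Real.exp_pos _
  have e1 : om ≤ 2 ^ 257 * Real.exp (lq / 8) := by
    have : om ^ 8 ≤ (2 ^ 257 * Real.exp (lq / 8)) ^ 8 := by
      refine hom.trans ?_
      rw [mul_pow, ← Real.exp_nat_mul]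
      have e2 : (((8 : ℕ) : ℝ) * (lq / 8)) = lq := by push_cast; ring
      rw [e2, ← hq, ← pow_mul]
      have e3 : (256 : ℝ) ^ 257 = 2 ^ (257 * 8) := by
        rw [show (256 : ℝ) = 2 ^ 8 by norm_num, ← pow_mul]
      rw [e3]
    exact le_of_pow_le_pow_left₀ (by norm_num) (by positivity) this
  have h1 : qr / (6 * L) ≤ φ := by
    rw [div_le_div_iff₀ (by positivity) hq0] at hφ
    rw [div_le_iff₀ (by positivity)]
    have hφ0 : 0 ≤ φ := by
      by_contra h
      push Not at h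
      nlinarith
    nlinarith
  have h2 : 18 / e * 2 ^ 257 * L * Wr ≤ Real.exp (lq - lq / 8) := by
    have k1 : 18 / e = Real.exp (Real.log (18 / e)) := (Real.exp_log (by positivity)).symm
    have k2 : (2 : ℝ) ^ 257 = Real.exp (257 * Real.log 2) := by
      rw [show (257 : ℝ) * Real.log 2 = ((257 : ℕ) : ℝ) * Real.log 2 by norm_num, Real.exp_nat_mul, Real.exp_log (by norm_num)]
    have k3 : L = Real.exp (Real.log L) := (Real.exp_log hL0).symm
    calc 18 / e * 2 ^ 257 * L * Wr ≤ Real.exp (Real.log (18 / e)) * Real.exp (257 * Real.log 2) * Real.exp (Real.log L) * Real.exp (3 / 2 * L ^ v) := by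
          rw [← k1, ← k2, ← k3]
          gcongr
      _ = Real.exp (Real.log (18 / e) + 257 * Real.log 2 + Real.log L + 3 / 2 * L ^ v) := by
          rw [Real.exp_add, Real.exp_add, Real.exp_add]
      _ ≤ _ := by
          apply Real.exp_le_exp.2
          linarith
  have h3 : Real.exp (lq - lq / 8) * Real.exp (lq / 8) = qr := by
    rw [← Real.exp_add, hq]; congr 1; ring
  have h4 : 3 * om * (Wr * (6 * L)) ≤ e * qr := by
    calc 3 * om * (Wr * (6 * L)) ≤ 3 * (2 ^ 257 * Real.exp (lq / 8)) * (Wr * (6 * L)) := by gcongr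
      _ = e * ((18 / e * 2 ^ 257 * L * Wr) * Real.exp (lq / 8)) := by
          field_simp
          ring
      _ ≤ e * (Real.exp (lq - lq / 8) * Real.exp (lq / 8)) := by gcongr
      _ = _ := by rw [h3]
  calc 3 * om = 3 * om * (Wr * (6 * L)) / (Wr * (6 * L)) := by field_simp
    _ ≤ e * qr / (Wr * (6 * L)) := by gcongr
    _ = e * ((qr / (6 * L)) / Wr) := by field_simp
    _ ≤ _ := by gcongr

theorem num3 (e L v Vr Wr φ gr om Dr Qr : ℝ) (he : 0 < e) (hD : 1 ≤ Dr) (hg : 0 ≤ gr) (hgV : gr ≤ Vr)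
    (hW : 1 ≤ Wr) (hWV : Wr ≤ Vr) (hφ : 1 ≤ φ) (hom0 : 0 ≤ om) (hom : om ≤ Wr) (hV : Vr ≤ Real.exp (3 / 2 * L ^ v))
    (hLv : 0 ≤ L ^ v) (hQ : Qr = Real.exp L)
    (a : Real.log (6 / e) + Real.log Dr + 5 * L ^ v ≤ L) : 6 * (Wr / φ) * (gr * om * Dr) ≤ e * Qr := by
  have h0 : Wr / φ ≤ Vr := (div_le_self (by linarith) hφ).trans hWV
  have hV0 : 0 < Vr := by linarith
  have hφ0 : 0 < φ := by linarith
  have hEV : 0 < Real.exp (3 / 2 * L ^ v) := Real.exp_pos _
  calc 6 * (Wr / φ) * (gr * om * Dr) ≤ 6 * Vr * (Vr * Vr * Dr) := by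
        have : om ≤ Vr := hom.trans hWV
        gcongr
    _ ≤ 6 * Real.exp (3 / 2 * L ^ v) * (Real.exp (3 / 2 * L ^ v) * Real.exp (3 / 2 * L ^ v) * Dr) := by gcongr
    _ = e * ((6 / e) * Dr * (Real.exp (3 / 2 * L ^ v) * Real.exp (3 / 2 * L ^ v) * Real.exp (3 / 2 * L ^ v))) := by
        field_simp
    _ = e * Real.exp (Real.log (6 / e) + Real.log Dr + (3 / 2 * L ^ v + 3 / 2 * L ^ v + 3 / 2 * L ^ v)) := by
        rw [Real.exp_add, Real.exp_add, Real.exp_add, Real.exp_add, Real.exp_log (by positivity), Real.exp_log (by linarith)]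
    _ ≤ e * Qr := by
        rw [hQ]
        apply mul_le_mul_of_nonneg_left _ he.le
        apply Real.exp_le_exp.2
        linarith

/-- the removed prime and the exceptional modulus -/
theorem exc_choice (win : Finset ℕ) (hwin : ∀ p ∈ win, p.Prime) (fs Z : ℕ) (hfs : fs = 0 ∨ Z < fs) :
    ∃ ps f : ℕ, (Z < f ∨ f ∈ win) ∧ 0 < f ∧ ∀ P0 : Finset ℕ, P0 ⊆ win → ps ∉ P0 → ∀ r : ℕ, ¬ f ∣ r →
      (fs = 0 ∨ ¬ fs ∣ r * ∏ p ∈ P0, p) := by
  classical
  by_cases h0 : fs = 0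
  · exact ⟨0, Z + 1, Or.inl (by omega), by omega, fun _ _ _ _ _ => Or.inl h0⟩
  by_cases h1 : ∃ p ∈ win, p ∣ fs
  · obtain ⟨p, hp, hpf⟩ := h1
    refine ⟨p, p, Or.inr hp, (hwin p hp).pos, fun P0 hP0 hpP r hr => Or.inr ?_⟩
    intro hd
    have h2 : p ∣ r * ∏ p ∈ P0, p := hpf.trans hd
    rcases (Nat.Prime.dvd_mul (hwin p hp)).1 h2 with h3 | h3
    · exact hr h3
    · rw [Prime.dvd_finsetProd_iff (hwin p hp).prime] at h3
      obtain ⟨r', hr', hpr⟩ := h3
      have : p = r' := (Nat.prime_dvd_prime_iff_eq (hwin p hp) (hwin r' (hP0 hr'))).1 hpr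
      rw [← this] at hr'
      exact hpP hr'
  · push Not at h1
    have hfs' : Z < fs := hfs.resolve_left h0
    refine ⟨0, fs, Or.inl hfs', by omega, fun P0 hP0 _ r hr => Or.inr ?_⟩
    intro hd
    apply hr
    have h2 : fs.Coprime (∏ p ∈ P0, p) := by
      rw [Nat.coprime_comm]
      apply Nat.Coprime.prod_left
      intro p hp
      exact (Nat.Prime.coprime_iff_not_dvd (hwin p (hP0 hp))).2 (h1 p (hP0 hp))
    exact h2.dvd_of_dvd_mul_right hd

theorem win_facts (c1 v : ℝ) (Q : ℕ) (hL : 1 ≤ Real.log Q) (P0 : Finset ℕ) (hP0 : P0 ⊆ win c1 v Q) (hv : 0 < v) :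
    (∀ p ∈ P0, p.Prime) ∧ (∀ p ∈ P0, (Real.log Q) ^ c1 < (p : ℝ)) ∧ ((P0.card : ℝ) ≤ (Real.log Q) ^ v) ∧
      ((∏ p ∈ P0, p : ℕ) : ℝ) ≤ Real.exp (3 / 2 * (Real.log Q) ^ v) := by
  have hL0 : 0 < Real.log Q := by linarith
  have hLv : 0 ≤ (Real.log Q) ^ v := Real.rpow_nonneg hL0.le _
  refine ⟨?_, ?_, ?_, ?_⟩
  · intro p hp
    have := hP0 hp
    unfold win at this
    rw [mem_filter] at this
    exact this.2
  · intro p hp
    have := hP0 hp
    unfold win at this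
    rw [mem_filter, mem_Ioc] at this
    exact (Nat.floor_lt (Real.rpow_nonneg hL0.le _)).1 this.1.1
  · have h1 : P0.card ≤ ⌊(Real.log Q) ^ v⌋₊ := by
      have h2 : P0 ⊆ Ioc 0 ⌊(Real.log Q) ^ v⌋₊ := by
        intro p hp
        have := hP0 hp
        unfold win at this
        rw [mem_filter, mem_Ioc] at this
        rw [mem_Ioc]
        exact ⟨this.2.pos, this.1.2⟩
      have h3 := card_le_card h2
      rwa [Nat.card_Ioc, Nat.sub_zero] at h3
    exact (Nat.cast_le.2 h1).trans (Nat.floor_le hLv)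
  · have h1 : ∏ p ∈ P0, p ≤ primorial ⌊(Real.log Q) ^ v⌋₊ := by
      unfold primorial
      apply prod_le_prod_of_subset_of_one_le'
      · intro p hp
        have := hP0 hp
        unfold win at this
        rw [mem_filter, mem_Ioc] at this
        rw [mem_filter, mem_range]
        exact ⟨by omega, this.2⟩
      · intro p hp _
        rw [mem_filter] at hp
        exact hp.2.one_lt.le
    have h2 := h1.trans (primorial_le_four_pow _)
    have h3 : ((∏ p ∈ P0, p : ℕ) : ℝ) ≤ (4 : ℝ) ^ ⌊(Real.log Q) ^ v⌋₊ := by exact_mod_cast h2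
    refine h3.trans ?_
    have h4 : (4 : ℝ) ^ ⌊(Real.log Q) ^ v⌋₊ = Real.exp (⌊(Real.log Q) ^ v⌋₊ * Real.log 4) := by
      rw [Real.exp_nat_mul, Real.exp_log (by norm_num)]
    rw [h4]
    apply Real.exp_le_exp.2
    have h5 : Real.log 4 ≤ 3 / 2 := by
      rw [show (4 : ℝ) = 2 ^ 2 by norm_num, Real.log_pow]
      have := Real.log_two_lt_d9
      push_cast
      linarith
    have h6 : (⌊(Real.log Q) ^ v⌋₊ : ℝ) ≤ (Real.log Q) ^ v := Nat.floor_le hLv
    have h7 : 0 ≤ Real.log 4 := Real.log_nonneg (by norm_num)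
    calc (⌊(Real.log Q) ^ v⌋₊ : ℝ) * Real.log 4 ≤ (Real.log Q) ^ v * (3 / 2) := by gcongr
      _ = _ := by ring

end Pool.Agent.H527.N
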