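import Mathlib
import Pool.Agent.H527.N.N12

/-! The hypotheses of the variance bound hold for large `Q`. -/

set_option autoImplicit false

namespace Pool.Agent.H527.N

open Finset Filter Pool.Agent.H527.AP Pool.Agent.H527.S Pool.Agent.H527.M

/-- the conditions on the size of `L = log Q` -/
structure As (c1 v A β e l0 D N0 Z C L : ℝ) : Prop where
  b1 : 1 ≤ Real.log L
  b2 : 2 ≤ L
  b3 : l0 ≤ L ^ (1 / 20 : ℝ) / 2
  b4 : Real.log 4 + A * Real.log L ≤ L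
  b5 : 2 * L ≤ Real.exp (L ^ (1 / 20 : ℝ) / 2 / 48)
  b6 : A * Real.log L + 3 / 2 * L ^ v ≤ L ^ (1 / 20 : ℝ) / 2 / 8
  b7 : 12 * L ≤ e * L ^ (1 + β)
  b8 : 8 * D * C ≤ e * L ^ β
  b10 : Real.log (64 / e) + 3 * (A * Real.log L) + Real.log L + 2 * L ^ v ≤ L ^ (1 / 20 : ℝ) / 2 / 4
  b11 : Z ≤ L ^ c1
  b12 : Real.log 4 + A * Real.log L + Real.log L + 2 * L ^ v ≤ L / 2
  b13 : Real.log 4 + A * Real.log L ≤ e / 2 * L
  b14 : Real.log (64 / e) + 3 * (A * Real.log L) + Real.log L + 2 * L ^ v ≤ L / 4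
  b15 : Real.log (18 / e) + 257 * Real.log 2 + Real.log L + 2 * L ^ v ≤ L / 2
  b16 : Real.log (6 / e) + Real.log D + 5 * L ^ v ≤ L
  b17 : N0 ≤ Real.exp (L / 4)
  b18 : 2 ≤ L ^ v

theorem As_ev (c1 v A β e l0 D N0 Z C : ℝ) (hc1 : 0 < c1) (hv : 0 < v) (hv1 : v ≤ 1 / 40) (hβ : 0 < β) (he : 0 < e)
    (hA : 0 < A) : ∀ᶠ L : ℝ in atTop, As c1 v A β e l0 D N0 Z C L := by
  filter_upwards [asym2 c1 v A β e l0 D N0 Z C hc1 hv hv1 hβ he hA] with L h
  obtain ⟨b1, b2, b3, b4, b5, b6, b7, b8, b10, b11, b12, b13, b14, b15, b16, b17, b18⟩ := h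
  exact ⟨b1, b2, b3, b4, b5, b6, b7, b8, b10, b11, b12, b13, b14, b15, b16, b17, b18⟩

/-- the conditions on the scale `Y` -/
structure Sc (A β L C : ℝ) (P0 : Finset ℕ) (Y : ℕ) : Prop where
  y1 : L ^ (1 + β) ≤ (Y : ℝ)
  y3 : (Y : ℝ) ≤ L ^ A
  y5 : ((SY P0 Y).card : ℝ) * L ^ β ≤ C * Y

section
variable {c1 v A β e l0 D N0 Z C L : ℝ} {Y : ℕ} {P0 : Finset ℕ}

theorem Sc.y0 (h : Sc A β L C P0 Y) (hL : 2 ≤ L) (hβ : 0 < β) : 1 ≤ (Y : ℝ) :=
  le_trans (Real.one_le_rpow (by linarith) (by linarith)) h.y1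

theorem Sc.logY (h : Sc A β L C P0 Y) (hL : 2 ≤ L) (hβ : 0 < β) : Real.log Y ≤ A * Real.log L := by
  have h0 := h.y0 hL hβ
  have := Real.log_le_log (by linarith) h.y3
  rwa [Real.log_rpow (by linarith)] at this

theorem logYQ {Q : ℕ} (hY : 1 ≤ (Y : ℝ)) (hQ : (0 : ℝ) < Q) :
    Real.log (2 * (((Y : ℝ) + 1) * Q)) ≤ Real.log 4 + Real.log Y + Real.log Q := by
  have hY0 : (0 : ℝ) < Y := by linarith
  have h4 : 2 * (((Y : ℝ) + 1) * Q) ≤ 4 * Y * Q := by nlinarith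
  have h5 := Real.log_le_log (by positivity) h4
  have h6 : Real.log (4 * Y * Q) = Real.log 4 + Real.log Y + Real.log Q := by
    rw [Real.log_mul (by positivity) hQ.ne', Real.log_mul (by norm_num) (by positivity)]
  rwa [h6] at h5

/-- the prime number theorem in the range which is used -/
theorem psi_ok (has : As c1 v A β e l0 D N0 Z C L) (hs : Sc A β L C P0 Y) (hβ : 0 < β) {Q : ℕ} (hL : L = Real.log Q)
    {l : ℝ} (hl : l = L ^ (1 / 20 : ℝ) / 2) {fs : ℕ}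
    (hAP : ∀ X : ℝ, 0 < X → 8 * l ^ 20 ≤ Real.log X → Real.log X ≤ Real.exp (l / 48) →
      ∀ m : ℕ, 1 ≤ m → Real.log m ≤ l / 8 → (fs = 0 ∨ ¬ fs ∣ m) → ∀ a : ℕ, a.Coprime m →
        |psiA X m a - X / (Nat.totient m : ℝ)| ≤ X * Real.exp (-(l / 4))) (m : ℕ) (hm : 1 ≤ m)
    (hml : Real.log m ≤ l / 8) (hmf : fs = 0 ∨ ¬ fs ∣ m) :
    Hpsi m Q ((Y + 1) * Q) (2 * ((Y : ℝ) + 1) * Q * Real.exp (-(l / 4))) := by
  have b2 := has.b2
  have b4 := has.b4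
  have b5 := has.b5
  rw [← hl] at b5
  have hY1 := hs.y0 b2 hβ
  have hlY := hs.logY b2 hβ
  clear has hs
  have hL0 : 0 < L := by linarith
  have hQ0 : (0 : ℝ) < Q := by
    rcases Nat.eq_zero_or_pos Q with h | h
    · rw [h, Nat.cast_zero, Real.log_zero] at hL
      linarith
    · exact_mod_cast h
  have hpow : (L ^ (1 / 20 : ℝ)) ^ 20 = L := by
    rw [← Real.rpow_natCast, ← Real.rpow_mul hL0.le]
    norm_num
  have hl20 : 8 * l ^ 20 ≤ L := by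
    rw [hl, div_pow, hpow]
    norm_num
    linarith
  intro V hqV hVx c hc
  have hVr : (Q : ℝ) ≤ V := by exact_mod_cast hqV
  have hV2 : (V : ℝ) ≤ 2 * (((Y : ℝ) + 1) * Q) := by
    have : (V : ℝ) ≤ ((2 * ((Y + 1) * Q) : ℕ) : ℝ) := by exact_mod_cast hVx
    push_cast at this
    linarith
  have hV0 : (0 : ℝ) < V := by linarith
  have h1 : 8 * l ^ 20 ≤ Real.log V := by
    have := Real.log_le_log hQ0 hVr
    rw [← hL] at this
    linarith
  have h2 : Real.log V ≤ Real.exp (l / 48) := by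
    have h3 := Real.log_le_log hV0 hV2
    have h5 := logYQ hY1 hQ0
    rw [← hL] at h5
    linarith
  refine (hAP V hV0 h1 h2 m hm hml hmf c hc).trans ?_
  have h6 : (V : ℝ) ≤ 2 * ((Y : ℝ) + 1) * Q := by linarith
  gcongr

theorem tot_low {q : ℕ} (hq : 0 < q) (h1 : 1 ≤ Real.log q) : 1 / (3 * Real.log q) ≤ (Nat.totient q : ℝ) / q := by
  refine le_trans ?_ (tot_ge hq)
  have hom := omega_le_log hq
  obtain ⟨m, hm⟩ : ∃ m : ℝ, m = (q.primeFactors.card : ℝ) := ⟨_, rfl⟩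
  rw [← hm] at hom ⊢
  have hm0 : 0 ≤ m := by rw [hm]; exact Nat.cast_nonneg _
  obtain ⟨y, hy⟩ : ∃ y : ℝ, y = Real.log q := ⟨_, rfl⟩
  rw [← hy] at hom h1 ⊢
  have h2 := Real.log_two_gt_d9
  apply one_div_le_one_div_of_le (by linarith)
  nlinarith

theorem k6_ok (has : As c1 v A β e l0 D N0 Z C L) {Q q : ℕ} (hL : L = Real.log Q) (he : 0 < e) {W : ℕ} (hW : 0 < W)
    (hWv : (W : ℝ) ≤ Real.exp (3 / 2 * L ^ v)) (hq : q ∈ Ioc Q (2 * Q)) :
    3 * (2 : ℝ) ^ q.primeFactors.card ≤ e * ((Nat.totient q : ℝ) / W) := by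
  have b2 := has.b2
  have b15 := has.b15
  have b18 := has.b18
  clear has
  rw [mem_Ioc] at hq
  have hq0 : 0 < q := by omega
  have hQ0 : (0 : ℝ) < Q := by
    rcases Nat.eq_zero_or_pos Q with h | h
    · omega
    · exact_mod_cast h
  have hq0r : (0 : ℝ) < q := by exact_mod_cast hq0
  have h1 := pow_omega_le hq0
  have h2 : ((2 : ℝ) ^ q.primeFactors.card) ^ 8 ≤ 256 ^ 257 * (q : ℝ) := by exact_mod_cast h1
  have hlq : L ≤ Real.log q := by
    rw [hL]; apply Real.log_le_log hQ0; exact_mod_cast hq.1.le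
  have hlq2 : Real.log q ≤ 2 * L := by
    have h3 : Real.log q ≤ Real.log (2 * Q) := by
      apply Real.log_le_log hq0r; exact_mod_cast hq.2
    rw [Real.log_mul (by norm_num) hQ0.ne', ← hL] at h3
    have h4 := Real.log_two_lt_d9
    linarith
  have h3 := tot_low hq0 (by linarith)
  have hW0 : (0 : ℝ) < W := by exact_mod_cast hW
  exact num2 e L W v _ _ q (Real.log q) he b2 hW0 hWv (by linarith) (Real.exp_log hq0r).symm hlq hlq2 h2 h3 b15

theorem k1_ok {e Y' ell D' sk : ℝ} (he : 0 < e) (hD : (64 / e) ^ 2 ≤ D') (hY : 0 < Y') (hell : Y' / 2 ≤ ell)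
    (h : 8 * D' * sk ≤ e * Y') :
    2 * sk * ell * D' + 8 * Y' ^ 2 / Real.sqrt D' ≤ e * ell ^ 2 := by
  have hsqD : 64 / e ≤ Real.sqrt D' := Real.le_sqrt_of_sq_le hD
  have h64 : 0 < 64 / e := by positivity
  have hell0 : 0 < ell := by linarith
  have h1 : 8 * Y' ^ 2 / Real.sqrt D' ≤ e / 2 * ell ^ 2 := by
    rw [div_le_iff₀ (by linarith)]
    have h2 : Y' ^ 2 ≤ 4 * ell ^ 2 := by nlinarith
    calc 8 * Y' ^ 2 ≤ 8 * (4 * ell ^ 2) := by linarith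
      _ = e / 2 * ell ^ 2 * (64 / e) := by field_simp; ring
      _ ≤ _ := by gcongr
  have h2 : 2 * sk * ell * D' ≤ e / 2 * ell ^ 2 := by
    have h3 : 2 * sk * D' ≤ e / 2 * ell := by
      have : e * Y' ≤ e * (2 * ell) := by apply mul_le_mul_of_nonneg_left _ he.le; linarith
      linarith
    calc 2 * sk * ell * D' = (2 * sk * D') * ell := by ring
      _ ≤ (e / 2 * ell) * ell := mul_le_mul_of_nonneg_right h3 hell0.le
      _ = _ := by ring
  linarith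

theorem k3_ok {e Y' ell f' : ℝ} (he : 0 < e) (hf : 480 / e ≤ Real.sqrt f') (hY : 0 < Y') (hell : Y' / 2 ≤ ell) :
    120 * Y' ^ 2 / Real.sqrt f' ≤ e * ell ^ 2 := by
  have h480 : 0 < 480 / e := by positivity
  rw [div_le_iff₀ (by linarith)]
  have h2 : Y' ^ 2 ≤ 4 * ell ^ 2 := by nlinarith
  calc 120 * Y' ^ 2 ≤ 120 * (4 * ell ^ 2) := by linarith
    _ = e * ell ^ 2 * (480 / e) := by field_simp; ring
    _ ≤ _ := by gcongr

theorem SY_mono {P : Finset ℕ} (hP : P ⊆ P0) (Y : ℕ) : (SY P Y).card ≤ (SY P0 Y).card := by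
  apply card_le_card
  intro s hs
  unfold SY at hs ⊢
  rw [mem_filter, mem_powerset] at hs ⊢
  exact ⟨hs.1.trans hP, hs.2⟩

theorem SY_ok {D : ℕ} (has : As c1 v A β e l0 D N0 Z C L) (hs : Sc A β L C P0 Y) {P : Finset ℕ} (hP : P ⊆ P0) :
    8 * D * ((SY P Y).card : ℝ) ≤ e * Y := by
  have b2 := has.b2
  have b8 := has.b8
  have y5 := hs.y5
  clear has hs
  have hL0 : 0 < L := by linarith
  have hLβ : 0 < L ^ β := Real.rpow_pos_of_pos hL0 _
  have h1 : ((SY P Y).card : ℝ) ≤ (SY P0 Y).card := by exact_mod_cast SY_mono hP Y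
  have h2 : 8 * D * ((SY P Y).card : ℝ) * L ^ β ≤ e * Y * L ^ β := by
    calc 8 * D * ((SY P Y).card : ℝ) * L ^ β ≤ 8 * D * ((SY P0 Y).card : ℝ) * L ^ β := by gcongr
      _ = 8 * D * (((SY P0 Y).card : ℝ) * L ^ β) := by ring
      _ ≤ 8 * D * (C * Y) := by gcongr
      _ = (8 * D * C) * Y := by ring
      _ ≤ (e * L ^ β) * Y := by gcongr
      _ = _ := by ring
  exact le_of_mul_le_mul_right h2 hLβ

end

end Pool.Agent.H527.N
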