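import Mathlib
import Pool.Agent.H527.N.N13

/-! The hypotheses of the variance bound hold for large `Q`. -/

set_option autoImplicit false

namespace Pool.Agent.H527.N

open Finset Filter Pool.Agent.H527.AP Pool.Agent.H527.S Pool.Agent.H527.M

/-- the setting -/
structure Stg (c1 v A β e l0 C L l : ℝ) (D N₀ Z Q fs f : ℕ) (P0 : Finset ℕ) (Y : ℕ) : Prop where
  hv : 0 < v
  hβ : 0 < β
  he : 0 < e
  he1 : e ≤ 1 / 3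
  hA : 0 < A
  hL : L = Real.log Q
  hl : l = L ^ (1 / 20 : ℝ) / 2
  hQ2 : 2 ≤ Q
  has : As c1 v A β e l0 D (N₀ + 1) Z C L
  hs : Sc A β L C P0 Y
  hD : (64 / e) ^ 2 ≤ (D : ℝ)
  hD1 : 1 ≤ D
  hf0 : 0 < f
  hf1 : ¬ f ∣ 1
  hfsq : 480 / e ≤ Real.sqrt f
  hsum : ∑ p ∈ P0, 1 / (p : ℝ) ≤ 1 / 2
  hpr : ∀ p ∈ P0, p.Prime
  hprod : ((∏ p ∈ P0, p : ℕ) : ℝ) ≤ Real.exp (3 / 2 * L ^ v)
  hpsi : ∀ m : ℕ, 1 ≤ m → Real.log m ≤ l / 8 → (fs = 0 ∨ ¬ fs ∣ m) →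
    Hpsi m Q ((Y + 1) * Q) (2 * ((Y : ℝ) + 1) * Q * Real.exp (-(l / 4)))
  hexc : ∀ r : ℕ, ¬ f ∣ r → (fs = 0 ∨ ¬ fs ∣ r * ∏ p ∈ P0, p)
  hbt : ∀ a q N : ℕ, 1 ≤ q → N₀ ≤ N → (((range N).filter (fun t => (a + t * q).Prime)).card : ℝ) ≤
      3 * ((q : ℝ) / Nat.totient q) * N / Real.log N

section
variable {c1 v A β e l0 C L l : ℝ} {D N₀ Z Q fs f : ℕ} {P0 : Finset ℕ} {Y : ℕ}

theorem Stg.bas (S : Stg c1 v A β e l0 C L l D N₀ Z Q fs f P0 Y) : 2 ≤ L ∧ (0 : ℝ) < Q ∧ 1 ≤ (Y : ℝ) ∧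
    Real.log Y ≤ A * Real.log L ∧ 0 < L ^ v ∧ (Q : ℝ) = Real.exp L ∧ 0 < ∏ p ∈ P0, p ∧ 0 ≤ l := by
  have b2 := S.has.b2
  have hQ0 : (0 : ℝ) < Q := by exact_mod_cast (by have := S.hQ2; omega : 0 < Q)
  have hLv := S.has.b18
  refine ⟨b2, hQ0, S.hs.y0 b2 S.hβ, S.hs.logY b2 S.hβ, by linarith, ?_, Finset.prod_pos fun p hp => (S.hpr p hp).pos, ?_⟩
  · rw [S.hL, Real.exp_log hQ0]
  · rw [S.hl]
    have : 0 ≤ L ^ (1 / 20 : ℝ) := Real.rpow_nonneg (by linarith) _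
    linarith

/-- numerical consequences -/
theorem Stg.num (S : Stg c1 v A β e l0 C L l D N₀ Z Q fs f P0 Y) {W : ℕ} (hW : 0 < W) (hWV : W ∣ ∏ p ∈ P0, p) :
    4 * (Y : ℝ) * (2 * ((Y : ℝ) + 1) * Q * Real.exp (-(l / 4))) * ((∏ p ∈ P0, p : ℕ) : ℝ) * L ≤ e / 2 * Q ∧
    2 * (2 * ((Y : ℝ) + 1) * Q * Real.exp (-(l / 4))) + 2 * Real.sqrt (2 * (((Y : ℝ) + 1) * Q)) * Real.log (2 * (((Y : ℝ) + 1) * Q)) ≤
      e / 2 * (Q / W) ∧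
    4 * (Y : ℝ) * ((∏ p ∈ P0, p : ℕ) : ℝ) * Real.sqrt Q * L ≤ Q ∧ 2 ≤ Real.sqrt Q := by
  obtain ⟨b2, hQ0, hY1, hlY, hLv, hQe, hV0, hl0⟩ := S.bas
  have hWr1 : (1 : ℝ) ≤ (W : ℝ) := by exact_mod_cast hW
  have hWV' : (W : ℝ) ≤ ((∏ p ∈ P0, p : ℕ) : ℝ) := by exact_mod_cast Nat.le_of_dvd hV0 hWV
  have hY0 : (0 : ℝ) < Y := by linarith
  have b10 := S.has.b10
  rw [← S.hl] at b10
  exact num1 e L l Y _ W Q (Real.log Y) A v S.he b2 hY1 hWr1 hWV' hQe (Real.exp_log hY0).symm hlY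
    (Real.log_nonneg hY1) S.hprod hLv.le b10 S.has.b14 S.has.b12 S.has.b4

theorem Stg.VQ (S : Stg c1 v A β e l0 C L l D N₀ Z Q fs f P0 Y) : (Y : ℝ) * ((∏ p ∈ P0, p : ℕ) : ℝ) ≤ Q ∧
    ((∏ p ∈ P0, p : ℕ) : ℝ) ≤ Q := by
  obtain ⟨b2, hQ0, hY1, hlY, hLv, hQe, hV0, hl0⟩ := S.bas
  obtain ⟨n1, n2, n3, n4⟩ := S.num hV0 dvd_rfl
  obtain ⟨Vr, hVr⟩ : ∃ Vr : ℝ, Vr = ((∏ p ∈ P0, p : ℕ) : ℝ) := ⟨_, rfl⟩
  have hV1 : 1 ≤ Vr := by rw [hVr]; exact_mod_cast hV0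
  rw [← hVr] at n3 ⊢
  have h1 : (1 : ℝ) ≤ Real.sqrt Q * L := by nlinarith
  have h2 : 0 ≤ (Y : ℝ) * Vr := by positivity
  have h3 : (Y : ℝ) * Vr ≤ Q := by
    calc (Y : ℝ) * Vr ≤ 4 * (Y * Vr) := by linarith
      _ ≤ 4 * (Y * Vr) * (Real.sqrt Q * L) := le_mul_of_one_le_right (by linarith) h1
      _ = 4 * Y * Vr * Real.sqrt Q * L := by ring
      _ ≤ Q := n3
  refine ⟨h3, le_trans ?_ h3⟩
  exact le_mul_of_one_le_left (by linarith) hY1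

theorem Stg.logV (S : Stg c1 v A β e l0 C L l D N₀ Z Q fs f P0 Y) {W : ℕ} (hW : 0 < W) (hWV : W ∣ ∏ p ∈ P0, p) :
    Real.log Y + Real.log W ≤ l / 8 := by
  obtain ⟨b2, hQ0, hY1, hlY, hLv, hQe, hV0, hl0⟩ := S.bas
  have b6 := S.has.b6
  rw [← S.hl] at b6
  have h1 : (W : ℝ) ≤ Real.exp (3 / 2 * L ^ v) := by
    have : (W : ℝ) ≤ ((∏ p ∈ P0, p : ℕ) : ℝ) := by exact_mod_cast Nat.le_of_dvd hV0 hWV
    exact this.trans S.hprod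
  have hW0 : (0 : ℝ) < W := by exact_mod_cast hW
  have h2 := Real.log_le_log hW0 h1
  rw [Real.log_exp] at h2
  linarith

theorem Stg.psiR (S : Stg c1 v A β e l0 C L l D N₀ Z Q fs f P0 Y) {W : ℕ} (hW : 0 < W) (hWV : W ∣ ∏ p ∈ P0, p)
    {r : ℕ} (hr : 1 ≤ r) (hrY : r ≤ Y) (hfr : ¬ f ∣ r) :
    Hpsi (r * W) Q ((Y + 1) * Q) (2 * ((Y : ℝ) + 1) * Q * Real.exp (-(l / 4))) := by
  apply S.hpsi _ (Nat.mul_pos (by omega) hW)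
  · have hr0 : (0 : ℝ) < r := by exact_mod_cast (by omega : 0 < r)
    have hW0 : (0 : ℝ) < W := by exact_mod_cast hW
    rw [Nat.cast_mul, Real.log_mul hr0.ne' hW0.ne']
    have h2 : Real.log r ≤ Real.log Y := by
      apply Real.log_le_log hr0
      exact_mod_cast hrY
    have h3 := S.logV hW hWV
    linarith
  · rcases S.hexc r hfr with h | h
    · exact Or.inl h
    · exact Or.inr fun h2 => h (h2.trans (Nat.mul_dvd_mul_left r hWV))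

set_option maxHeartbeats 4000000 in
theorem Stg.var (S : Stg c1 v A β e l0 C L l D N₀ Z Q fs f P0 Y) {g : ℕ} (hg : g ∣ ∏ p ∈ P0, p) :
    Var Q g Y (SY P0 Y).card D f N₀ (Pq P0 g) (2 * ((Y : ℝ) + 1) * Q * Real.exp (-(l / 4))) e := by
  classical
  obtain ⟨b2, hQ0, hY1, hlY, hLv, hQe, hVpos, hl0⟩ := S.bas
  have hg0 : 0 < g := Nat.pos_of_dvd_of_pos hg hVpos
  have hmul := mul_Pq S.hpr hg
  have hPsub : Pq P0 g ⊆ P0 := filter_subset _ _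
  have hPpr : ∀ p ∈ Pq P0 g, p.Prime := fun p hp => S.hpr p (hPsub hp)
  have hWpos : 0 < ∏ p ∈ Pq P0 g, p := Finset.prod_pos fun p hp => (hPpr p hp).pos
  have hgV : g ≤ ∏ p ∈ P0, p := Nat.le_of_dvd hVpos hg
  have hWdvd : ∏ p ∈ Pq P0 g, p ∣ ∏ p ∈ P0, p := by
    rw [← hmul]; exact Nat.dvd_mul_left _ _
  have hWV : ∏ p ∈ Pq P0 g, p ≤ ∏ p ∈ P0, p := Nat.le_of_dvd hVpos hWdvd
  have hgP : g.Coprime (∏ p ∈ Pq P0 g, p) := by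
    rw [Nat.coprime_comm]
    apply Nat.Coprime.prod_left
    intro p hp
    unfold Pq at hp
    rw [mem_filter] at hp
    exact (Nat.Prime.coprime_iff_not_dvd (S.hpr p hp.1)).2 hp.2
  obtain ⟨Wn, hWn⟩ : ∃ Wn, Wn = ∏ p ∈ Pq P0 g, p := ⟨_, rfl⟩
  obtain ⟨n1, n2, n3, n4⟩ := S.num hWpos hWdvd
  have hVQ := S.VQ
  have hsP : ∑ p ∈ Pq P0 g, 1 / (p : ℝ) ≤ 1 / 2 := by
    refine le_trans ?_ S.hsum
    apply sum_le_sum_of_subset_of_nonneg hPsub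
    intro p _ _
    positivity
  have hell := Ls_card_ge (Pq P0 g) hPpr Y hsP
  have hSk := SY_ok S.has S.hs (subset_refl P0)
  have hφV : (Nat.totient (g * ∏ p ∈ Pq P0 g, p) : ℝ) ≤ ((∏ p ∈ P0, p : ℕ) : ℝ) := by
    rw [hmul]; exact_mod_cast Nat.totient_le _
  have hφW1 : (1 : ℝ) ≤ (Nat.totient (∏ p ∈ Pq P0 g, p) : ℝ) := by exact_mod_cast Nat.totient_pos.2 hWpos
  have hφWW : (Nat.totient (∏ p ∈ Pq P0 g, p) : ℝ) ≤ ((∏ p ∈ Pq P0 g, p : ℕ) : ℝ) := by exact_mod_cast Nat.totient_le _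
  have hprodW : ((∏ p ∈ Pq P0 g, p : ℕ) : ℝ) ≤ Real.exp (3 / 2 * L ^ v) :=
    le_trans (by exact_mod_cast hWV) S.hprod
  have hL0 : 0 < L := by linarith
  have hY0 : (0 : ℝ) < Y := by linarith
  have he := S.he
  have hEr : 0 ≤ 2 * ((Y : ℝ) + 1) * Q * Real.exp (-(l / 4)) := by positivity
  refine ⟨hPpr, hg0, hgP, ?_, S.hQ2, S.hD1, S.hf0, he, S.he1, hEr, ?_, ?_, ?_, S.hbt, ?_, ?_, ?_, ?_, ?_, ?_, ?_, ?_,
    ?_, ?_, ?_, ?_, ?_, ?_⟩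
  · -- g ≤ Q
    have h1 : (g : ℝ) ≤ ((∏ p ∈ P0, p : ℕ) : ℝ) := by exact_mod_cast hgV
    exact_mod_cast h1.trans hVQ.2
  · intro d c hd hPd
    refine (cls_SY _ hPpr Y d c hd hPd).trans ?_
    have : ((SY (Pq P0 g) Y).card : ℝ) ≤ (SY P0 Y).card := by exact_mod_cast SY_mono hPsub Y
    linarith
  · -- Y V ≤ Q
    rw [hmul]
    exact_mod_cast hVQ.1
  · have h2 : ((∏ p ∈ Pq P0 g, p : ℕ) : ℝ) ≤ ((∏ p ∈ P0, p : ℕ) : ℝ) := by exact_mod_cast hWV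
    exact_mod_cast h2.trans hVQ.2
  · -- N₀ ≤ sqrt Q
    rw [Nat.le_sqrt']
    have b17 := S.has.b17
    have h1 : ((N₀ : ℝ)) ^ 2 ≤ Q := by
      have h2 : (N₀ : ℝ) ≤ Real.exp (L / 4) := by linarith
      calc ((N₀ : ℝ)) ^ 2 ≤ (Real.exp (L / 4)) ^ 2 := by gcongr
        _ = Real.exp (L / 2) := by rw [← Real.exp_nat_mul]; congr 1; push_cast; ring
        _ ≤ Q := by rw [hQe]; exact Real.exp_le_exp.2 (by linarith)
    exact_mod_cast h1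
  · -- modulus 1
    have h := S.psiR one_pos (one_dvd _) le_rfl (by exact_mod_cast hY1) S.hf1
    rwa [one_mul] at h
  · -- modulus W
    have h := S.psiR hWpos hWdvd le_rfl (by exact_mod_cast hY1) S.hf1
    rwa [one_mul] at h
  · -- modulus r V
    intro r hr1 hrY hfr
    rw [hmul]
    exact S.psiR hVpos dvd_rfl hr1 hrY hfr
  · -- the sifted set is not empty
    have : (0 : ℝ) < ((Ls (∏ p ∈ Pq P0 g, p) Y).card : ℝ) := by linarith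
    exact_mod_cast this
  · -- k0
    rw [← S.hL]
    have b7 := S.has.b7
    have y1 := S.hs.y1
    obtain ⟨ell, hellr⟩ : ∃ ell : ℝ, ell = ((Ls (∏ p ∈ Pq P0 g, p) Y).card : ℝ) := ⟨_, rfl⟩
    rw [← hellr] at hell ⊢
    have h1 : e * (Y / 2) ≤ e * ell := mul_le_mul_of_nonneg_left hell he.le
    have h2 : e * L ^ (1 + β) ≤ e * Y := mul_le_mul_of_nonneg_left y1 he.le
    linarith
  · -- k1
    exact k1_ok he S.hD hY0 hell hSk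
  · -- k2
    rw [← S.hL]
    refine le_trans ?_ n1
    gcongr
  · -- k3
    exact k3_ok he S.hfsq hY0 hell
  · -- k3'
    rw [← S.hL]
    have h1 : (g : ℝ) * ((∏ p ∈ Pq P0 g, p : ℕ) : ℝ) = ((∏ p ∈ P0, p : ℕ) : ℝ) := by rw [← Nat.cast_mul, hmul]
    rw [h1]
    have h2 : ((Nat.sqrt Q : ℕ) : ℝ) + 2 ≤ 2 * Real.sqrt Q := by
      have := Real.nat_sqrt_le_real_sqrt (a := Q)
      linarith
    calc 2 * (Y : ℝ) * (((∏ p ∈ P0, p : ℕ) : ℝ) * (((Nat.sqrt Q : ℕ) : ℝ) + 2)) * L ≤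
          2 * (Y : ℝ) * (((∏ p ∈ P0, p : ℕ) : ℝ) * (2 * Real.sqrt Q)) * L := by gcongr
      _ = 4 * Y * ((∏ p ∈ P0, p : ℕ) : ℝ) * Real.sqrt Q * L := by ring
      _ ≤ Q := n3
  · -- k4
    have hφ0 : (0 : ℝ) < (Nat.totient (∏ p ∈ Pq P0 g, p) : ℝ) := by linarith
    have h1 : e / 2 * (Q / ((∏ p ∈ Pq P0 g, p : ℕ) : ℝ)) ≤ e / 2 * (Q / (Nat.totient (∏ p ∈ Pq P0 g, p) : ℝ)) := by gcongr
    refine le_trans ?_ h1
    refine le_trans (le_of_eq ?_) n2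
    unfold R2
    push_cast
    ring
  · -- k5
    rw [← S.hL]
    have h5 := logYQ hY1 hQ0
    rw [← S.hL] at h5
    have b13 := S.has.b13
    have h6 : (1 + e / 2) * L = L + e / 2 * L := by ring
    rw [h6]
    linarith
  · -- k6
    intro q hq
    exact k6_ok S.has S.hL he hWpos hprodW hq
  · -- k7
    have hom : ((2 : ℝ) ^ (∏ p ∈ Pq P0 g, p).primeFactors.card) ≤ ((∏ p ∈ Pq P0 g, p : ℕ) : ℝ) := by
      exact_mod_cast pow_omega_le_self hWpos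
    have h2 : (1 : ℝ) ≤ ((∏ p ∈ Pq P0 g, p : ℕ) : ℝ) := by exact_mod_cast hWpos
    exact num3 e L v ((∏ p ∈ P0, p : ℕ) : ℝ) _ _ g _ D Q he (by exact_mod_cast S.hD1) (Nat.cast_nonneg _)
      (by exact_mod_cast hgV) h2 (by exact_mod_cast hWV) hφW1 (by positivity) hom S.hprod hLv.le hQe S.has.b16

end

end Pool.Agent.H527.N
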