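import Mathlib
import Pool.Agent.H527.N.N14

/-! The hypotheses of the variance bound hold for large `Q`, conclusion. -/

set_option autoImplicit false

namespace Pool.Agent.H527.N

open Finset Filter Pool.Agent.H527.AP Pool.Agent.H527.S Pool.Agent.H527.M

theorem exists_var (c1 v A β C e : ℝ) (hc1 : 0 < c1) (hcv : c1 ≤ v) (hv1 : v ≤ 1 / 40) (hβ : 0 < β) (hA : 0 < A)
    (he : 0 < e) (he1 : e ≤ 1 / 3) :
    ∃ D N₀ : ℕ, ∀ᶠ Q : ℕ in atTop, ∃ ps f : ℕ, ∀ P0 : Finset ℕ, P0 ⊆ win c1 v Q → ps ∉ P0 →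
      ∑ p ∈ P0, 1 / (p : ℝ) ≤ 1 / 2 → ∀ Y : ℕ, Sc A β (Real.log Q) C P0 Y →
      ∃ Er : ℝ, ∀ g, g ∣ ∏ p ∈ P0, p → Var Q g Y (SY P0 Y).card D f N₀ (Pq P0 g) Er e := by
  classical
  have hv : 0 < v := by linarith
  obtain ⟨N₀, hN₀3, hbt⟩ := bt3
  obtain ⟨D, hD⟩ : ∃ D : ℕ, D = ⌈(64 / e) ^ 2⌉₊ := ⟨_, rfl⟩
  obtain ⟨Z, hZ⟩ : ∃ Z : ℕ, Z = ⌈(480 / e) ^ 2⌉₊ := ⟨_, rfl⟩
  obtain ⟨l0, hl04, hpap⟩ := pap Z
  have hDr : (64 / e) ^ 2 ≤ (D : ℝ) := by rw [hD]; exact Nat.le_ceil _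
  have hZr : (480 / e) ^ 2 ≤ (Z : ℝ) := by rw [hZ]; exact Nat.le_ceil _
  have hD1 : 1 ≤ D := by rw [hD]; exact Nat.one_le_iff_ne_zero.2 (Nat.ceil_pos.2 (by positivity)).ne'
  have hZ1 : 1 ≤ Z := by rw [hZ]; exact Nat.one_le_iff_ne_zero.2 (Nat.ceil_pos.2 (by positivity)).ne'
  clear hD hZ
  have tL : Tendsto (fun x : ℕ => Real.log (x : ℝ)) atTop atTop :=
    Real.tendsto_log_atTop.comp tendsto_natCast_atTop_atTop
  refine ⟨D, N₀, ?_⟩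
  filter_upwards [tL.eventually (As_ev c1 v A β e l0 D (N₀ + 1) Z C hc1 hv hv1 hβ he hA), eventually_ge_atTop 2] with Q has hQ2
  have hwinprime : ∀ p ∈ win c1 v Q, p.Prime := by
    intro p hp
    unfold win at hp
    exact (mem_filter.1 hp).2
  have b2 := has.b2
  obtain ⟨fs, hfs, hAP⟩ := hpap _ has.b3
  obtain ⟨ps, f, hfZ, hf0, hexc⟩ := exc_choice (win c1 v Q) hwinprime fs Z hfs
  refine ⟨ps, f, ?_⟩
  intro P0 hP0 hps hsP Y hsc
  obtain ⟨w1, w2, w3, w4⟩ := win_facts c1 v Q (by linarith) P0 hP0 hv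
  have hf1 : ¬ f ∣ 1 := by
    intro h
    have h2 := Nat.le_of_dvd one_pos h
    rcases hfZ with h1 | h1
    · omega
    · have := (hwinprime f h1).one_lt
      omega
  have hfsqrt : 480 / e ≤ Real.sqrt f := by
    apply Real.le_sqrt_of_sq_le
    rcases hfZ with h1 | h1
    · have : (Z : ℝ) ≤ f := by exact_mod_cast h1.le
      linarith
    · unfold win at h1
      rw [mem_filter, mem_Ioc] at h1
      have h3 : (Real.log Q) ^ c1 < (f : ℝ) := (Nat.floor_lt (Real.rpow_nonneg (by linarith) _)).1 h1.1.1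
      have := has.b11
      linarith
  have S : Stg c1 v A β e l0 C (Real.log Q) ((Real.log Q) ^ (1 / 20 : ℝ) / 2) D N₀ Z Q fs f P0 Y :=
    { hv := hv, hβ := hβ, he := he, he1 := he1, hA := hA, hL := rfl, hl := rfl, hQ2 := hQ2, has := has, hs := hsc,
      hD := hDr, hD1 := hD1, hf0 := hf0, hf1 := hf1, hfsq := hfsqrt, hsum := hsP, hpr := w1,
      hprod := w4, hpsi := fun m hm hml hmf => psi_ok has hsc hβ rfl rfl hAP m hm hml hmf,
      hexc := fun r hr => hexc P0 hP0 hps r hr, hbt := hbt }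
  exact ⟨_, fun g hg => S.var hg⟩

end Pool.Agent.H527.N
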