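import Mathlib
import Pool.Agent.H527.N.N0

/-! Elementary symmetric sums and the sign of the truncation error. -/

set_option autoImplicit false

namespace Pool.Agent.H527.N

open Finset

/-- elementary symmetric sums -/
noncomputable def ek (x : ℕ → ℝ) (P : Finset ℕ) (k : ℕ) : ℝ := ∑ s ∈ P.powersetCard k, ∏ p ∈ s, x p

theorem ek_zero (x : ℕ → ℝ) (P : Finset ℕ) : ek x P 0 = 1 := by
  unfold ek
  rw [powersetCard_zero, sum_singleton, prod_empty]

theorem ek_insert (x : ℕ → ℝ) (P : Finset ℕ) (y : ℕ) (hy : y ∉ P) (k : ℕ) :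
    ek x (insert y P) (k + 1) = ek x P (k + 1) + x y * ek x P k := by
  classical
  unfold ek
  rw [powersetCard_succ_insert hy, sum_union, sum_image]
  · congr 1
    rw [mul_sum]
    apply sum_congr rfl
    intro s hs
    rw [mem_powersetCard] at hs
    rw [prod_insert (fun h => hy (hs.1 h))]
  · intro s hs t ht h
    rw [mem_coe, mem_powersetCard] at hs ht
    have h1 : y ∉ s := fun h => hy (hs.1 h)
    have h2 : y ∉ t := fun h => hy (ht.1 h)
    calc s = (insert y s).erase y := (erase_insert h1).symm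
      _ = (insert y t).erase y := by rw [h]
      _ = t := erase_insert h2
  · rw [disjoint_left]
    intro s hs hs2
    rw [mem_powersetCard] at hs
    rw [mem_image] at hs2
    obtain ⟨t, _, rfl⟩ := hs2
    exact hy (hs.1 (mem_insert_self _ _))

theorem ek_nonneg (x : ℕ → ℝ) (P : Finset ℕ) (h0 : ∀ p ∈ P, 0 ≤ x p) (k : ℕ) : 0 ≤ ek x P k := by
  unfold ek
  apply sum_nonneg
  intro s hs
  rw [mem_powersetCard] at hs
  exact prod_nonneg fun p hp => h0 p (hs.1 hp)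

theorem ek_union (x : ℕ → ℝ) (P Q : Finset ℕ) (hd : Disjoint P Q) (h0 : ∀ p ∈ P ∪ Q, 0 ≤ x p) (k : ℕ) :
    ek x P k ≤ ek x (P ∪ Q) k ∧ ek x P (k + 1) + (∑ p ∈ Q, x p) * ek x P k ≤ ek x (P ∪ Q) (k + 1) := by
  classical
  induction Q using Finset.induction_on generalizing k with
  | empty => simp
  | insert y Q hy ih =>
    have hyP : y ∉ P := fun h => Finset.disjoint_left.1 hd h (Finset.mem_insert_self _ _)
    have hd' : Disjoint P Q := by
      rw [disjoint_left] at hd ⊢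
      intro a ha ha2
      exact hd ha (mem_insert_of_mem ha2)
    have h0' : ∀ p ∈ P ∪ Q, 0 ≤ x p := fun p hp => h0 p (by
      rw [union_insert]; exact mem_insert_of_mem hp)
    have hy0 : 0 ≤ x y := h0 y (by rw [union_insert]; exact mem_insert_self _ _)
    have hyPQ : y ∉ P ∪ Q := by
      rw [mem_union]; push Not; exact ⟨hyP, hy⟩
    have hP0 : ∀ p ∈ P, 0 ≤ x p := fun p hp => h0' p (mem_union_left _ hp)
    have i1 := ih hd' h0' k
    rw [union_insert]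
    constructor
    · cases k with
      | zero => rw [ek_zero, ek_zero]
      | succ k =>
        rw [ek_insert x _ y hyPQ]
        have i2 := ek_nonneg x (P ∪ Q) h0' k
        have i3 := mul_nonneg hy0 i2
        linarith [i1.1]
    · rw [ek_insert x _ y hyPQ, sum_insert hy]
      have i4 := mul_le_mul_of_nonneg_left i1.1 hy0
      linarith [i1.2]

theorem ek_lower (x : ℕ → ℝ) (m lam : ℝ) (hm0 : 0 ≤ m) (hl : 0 ≤ lam) (k : ℕ) :
    ∀ P : Finset ℕ, (∀ p ∈ P, 0 ≤ x p) → (∀ p ∈ P, x p ≤ m) → k * (lam + m) ≤ ∑ p ∈ P, x p → lam ^ k ≤ ek x P k := by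
  classical
  induction k with
  | zero =>
    intro P _ _ _
    rw [ek_zero, pow_zero]
  | succ k ih =>
    intro P h0 h1 h2
    have hk : (0 : ℝ) ≤ k := Nat.cast_nonneg k
    push_cast at h2
    have hlm : 0 ≤ k * (lam + m) := by positivity
    obtain ⟨Q, hQ, q1, q2⟩ := Pool.Agent.X30.MF.exists_sub' x m hm0 P h0 h1 lam hl (by nlinarith)
    have hPQ : (P \ Q) ∪ Q = P := sdiff_union_of_subset hQ
    have hsum : ∑ p ∈ P, x p = ∑ p ∈ P \ Q, x p + ∑ p ∈ Q, x p := by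
      rw [← sum_union sdiff_disjoint, hPQ]
    have i1 := ih (P \ Q) (fun p hp => h0 p (sdiff_subset hp)) (fun p hp => h1 p (sdiff_subset hp)) (by linarith)
    have i2 := (ek_union x (P \ Q) Q sdiff_disjoint (by rw [hPQ]; exact h0) k).2
    rw [hPQ] at i2
    have i3 := ek_nonneg x (P \ Q) (fun p hp => h0 p (sdiff_subset hp)) (k + 1)
    have q0 : 0 ≤ ∑ p ∈ Q, x p := by linarith
    have i4 : lam * lam ^ k ≤ (∑ p ∈ Q, x p) * ek x (P \ Q) k := by gcongr
    rw [pow_succ, mul_comm]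
    linarith

theorem prod_one_sub_eq (x : ℕ → ℝ) (P : Finset ℕ) :
    ∏ p ∈ P, (1 - x p) = ∑ s ∈ P.powerset, (-1 : ℝ) ^ s.card * ∏ p ∈ s, x p := by
  classical
  have h1 : ∏ p ∈ P, (1 - x p) = ∏ p ∈ P, (1 + (-1) * x p) := by
    apply prod_congr rfl
    intro p _
    ring
  rw [h1, prod_one_add]
  apply sum_congr rfl
  intro s _
  rw [prod_mul_distrib, prod_const]

/-- **the sign of the truncation error** -/
theorem dev_general (P : Finset ℕ) (x w : ℕ → ℝ) (hx : ∀ p ∈ P, 0 ≤ x p) (T Mn : Finset (Finset ℕ))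
    (hT : T ⊆ P.powerset) (hM : Mn ⊆ P.powerset \ T) (n : ℕ) (hn : ∀ s ∈ Mn, s.card % 2 = n % 2) (z C R : ℝ)
    (hz : 0 < z) (hz1 : z ≤ 1) (hw : ∀ s, s ⊆ P → s ∉ T → s ∉ Mn → C ≤ ∑ p ∈ s, w p)
    (hR : ∑ p ∈ P, z ^ (-(w p)) * x p ≤ R) :
    ∑ s ∈ Mn, ∏ p ∈ s, x p - z ^ C * Real.exp R ≤
      (-1) ^ n * (∏ p ∈ P, (1 - x p) - ∑ s ∈ T, (-1 : ℝ) ^ s.card * ∏ p ∈ s, x p) := by
  classical
  rw [prod_one_sub_eq]
  have h1 : ∑ s ∈ P.powerset, (-1 : ℝ) ^ s.card * ∏ p ∈ s, x p - ∑ s ∈ T, (-1 : ℝ) ^ s.card * ∏ p ∈ s, x p =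
      ∑ s ∈ P.powerset \ T, (-1 : ℝ) ^ s.card * ∏ p ∈ s, x p := by
    rw [← sum_sdiff hT]; ring
  have h2 : ∑ s ∈ P.powerset \ T, (-1 : ℝ) ^ s.card * ∏ p ∈ s, x p =
      ∑ s ∈ (P.powerset \ T) \ Mn, (-1 : ℝ) ^ s.card * ∏ p ∈ s, x p + ∑ s ∈ Mn, (-1 : ℝ) ^ s.card * ∏ p ∈ s, x p :=
    (sum_sdiff hM).symm
  rw [h1, h2, mul_add]
  have h3 : (-1 : ℝ) ^ n * ∑ s ∈ Mn, (-1 : ℝ) ^ s.card * ∏ p ∈ s, x p = ∑ s ∈ Mn, ∏ p ∈ s, x p := by
    rw [mul_sum]
    apply sum_congr rfl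
    intro s hs
    have e1 : (-1 : ℝ) ^ n * (-1 : ℝ) ^ s.card = 1 := by
      rw [← pow_add]
      apply Even.neg_one_pow
      have := hn s hs
      rw [Nat.even_iff]
      omega
    rw [← mul_assoc, e1, one_mul]
  rw [h3]
  have h4 : |(-1 : ℝ) ^ n * ∑ s ∈ (P.powerset \ T) \ Mn, (-1 : ℝ) ^ s.card * ∏ p ∈ s, x p| ≤ z ^ C * Real.exp R := by
    rw [abs_mul, abs_pow, abs_neg, abs_one, one_pow, one_mul]
    refine (abs_sum_le_sum_abs _ _).trans ?_
    have h5 : ∀ s ∈ (P.powerset \ T) \ Mn, |(-1 : ℝ) ^ s.card * ∏ p ∈ s, x p| ≤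
        z ^ C * ∏ p ∈ s, (z ^ (-(w p)) * x p) := by
      intro s hs
      rw [mem_sdiff, mem_sdiff, mem_powerset] at hs
      have hx' : 0 ≤ ∏ p ∈ s, x p := prod_nonneg fun p hp => hx p (hs.1.1 hp)
      rw [abs_mul, abs_pow, abs_neg, abs_one, one_pow, one_mul, abs_of_nonneg hx', prod_mul_distrib]
      have h6 : ∏ p ∈ s, z ^ (-(w p)) = z ^ (-(∑ p ∈ s, w p)) := by
        rw [← Real.rpow_sum_of_pos hz, sum_neg_distrib]
      rw [h6, ← mul_assoc, ← Real.rpow_add hz]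
      have h7 : 1 ≤ z ^ (C + -(∑ p ∈ s, w p)) := by
        apply Real.one_le_rpow_of_pos_of_le_one_of_nonpos hz hz1
        have := hw s hs.1.1 hs.1.2 hs.2
        linarith
      exact le_mul_of_one_le_left hx' h7
    refine (sum_le_sum h5).trans ?_
    rw [← mul_sum]
    apply mul_le_mul_of_nonneg_left _ (Real.rpow_nonneg hz.le _)
    have h6 : ∑ s ∈ (P.powerset \ T) \ Mn, ∏ p ∈ s, (z ^ (-(w p)) * x p) ≤
        ∑ s ∈ P.powerset, ∏ p ∈ s, (z ^ (-(w p)) * x p) := by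
      apply sum_le_sum_of_subset_of_nonneg (sdiff_subset.trans sdiff_subset)
      intro s hs _
      rw [mem_powerset] at hs
      exact prod_nonneg fun p hp => mul_nonneg (Real.rpow_nonneg hz.le _) (hx p (hs hp))
    refine h6.trans ?_
    rw [← prod_one_add]
    calc ∏ p ∈ P, (1 + z ^ (-(w p)) * x p) ≤ ∏ p ∈ P, Real.exp (z ^ (-(w p)) * x p) := by
          apply prod_le_prod
          · intro p hp
            have := mul_nonneg (Real.rpow_nonneg hz.le (-(w p))) (hx p hp)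
            linarith
          · intro p _
            have := Real.add_one_le_exp (z ^ (-(w p)) * x p)
            linarith
      _ = Real.exp (∑ p ∈ P, z ^ (-(w p)) * x p) := by rw [Real.exp_sum]
      _ ≤ _ := Real.exp_le_exp.2 hR
  have := (abs_le.1 h4).1
  linarith

end Pool.Agent.H527.N
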