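import Mathlib
import Pool.Agent.H527.N.N16

/-! Several windows: the main family and counting by weights. -/

set_option autoImplicit false

namespace Pool.Agent.H527.N

open Finset

section
variable {ι : Type} [Fintype ι] [DecidableEq ι]

/-- the union of the windows -/
def PU (Pi : ι → Finset ℕ) : Finset ℕ := univ.biUnion Pi

/-- the weight -/
noncomputable def wt (Pi : ι → Finset ℕ) (u : ι → ℝ) (p : ℕ) : ℝ := ∑ i, if p ∈ Pi i then u i else 0

theorem wt_eq {Pi : ι → Finset ℕ} (hd : ∀ i j, i ≠ j → Disjoint (Pi i) (Pi j)) (u : ι → ℝ) {i : ι} {p : ℕ}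
    (hp : p ∈ Pi i) : wt Pi u p = u i := by
  unfold wt
  rw [sum_eq_single i, if_pos hp]
  · intro j _ hji
    rw [if_neg]
    intro h
    exact disjoint_left.1 (hd j i hji) h hp
  · intro h
    exact absurd (mem_univ i) h

theorem sum_wt (Pi : ι → Finset ℕ) (u : ι → ℝ) (s : Finset ℕ) :
    ∑ p ∈ s, wt Pi u p = ∑ i, ((s ∩ Pi i).card : ℝ) * u i := by
  unfold wt
  rw [sum_comm]
  apply sum_congr rfl
  intro i _
  rw [← sum_filter, sum_const, nsmul_eq_mul, filter_mem_eq_inter]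

theorem inter_biUnion {Pi : ι → Finset ℕ} (hd : ∀ i j, i ≠ j → Disjoint (Pi i) (Pi j)) {f : ι → Finset ℕ}
    (hf : ∀ i, f i ⊆ Pi i) (i : ι) : (univ.biUnion f) ∩ Pi i = f i := by
  ext p
  rw [mem_inter, mem_biUnion]
  constructor
  · rintro ⟨⟨j, _, hj⟩, hp⟩
    by_cases h : j = i
    · rw [← h]; exact hj
    · exact absurd hp (disjoint_left.1 (hd j i h) (hf j hj))
  · intro h
    exact ⟨⟨i, mem_univ i, h⟩, hf i h⟩

/-- the subsets of the type `k` -/
def Ty (Pi : ι → Finset ℕ) (k : ι → ℕ) : Finset (Finset ℕ) :=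
  (PU Pi).powerset.filter (fun s => ∀ i, (s ∩ Pi i).card = k i)

theorem main_sum {Pi : ι → Finset ℕ} (hd : ∀ i j, i ≠ j → Disjoint (Pi i) (Pi j)) (x : ℕ → ℝ) (hx : ∀ p, 0 ≤ x p)
    (k : ι → ℕ) : ∏ i, ek x (Pi i) (k i) ≤ ∑ s ∈ Ty Pi k, ∏ p ∈ s, x p := by
  classical
  unfold ek
  rw [prod_univ_sum]
  have h1 : ∀ f ∈ Fintype.piFinset (fun i => (Pi i).powersetCard (k i)),
      ∏ i, ∏ p ∈ f i, x p = ∏ p ∈ univ.biUnion f, x p := by
    intro f hf
    rw [Fintype.mem_piFinset] at hf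
    rw [prod_biUnion]
    intro i _ j _ hij
    have hi := (mem_powersetCard.1 (hf i)).1
    have hj := (mem_powersetCard.1 (hf j)).1
    exact disjoint_of_subset_left hi (disjoint_of_subset_right hj (hd i j hij))
  rw [sum_congr rfl h1]
  have h2 : ∑ f ∈ Fintype.piFinset (fun i => (Pi i).powersetCard (k i)), ∏ p ∈ univ.biUnion f, x p =
      ∑ s ∈ (Fintype.piFinset (fun i => (Pi i).powersetCard (k i))).image (fun f => univ.biUnion f), ∏ p ∈ s, x p := by
    rw [sum_image]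
    intro f hf g hg h
    rw [mem_coe, Fintype.mem_piFinset] at hf hg
    funext i
    rw [← inter_biUnion hd (fun i => (mem_powersetCard.1 (hf i)).1) i,
      ← inter_biUnion hd (fun i => (mem_powersetCard.1 (hg i)).1) i]
    simp only at h
    rw [h]
  rw [h2]
  apply sum_le_sum_of_subset_of_nonneg
  · intro s hs
    rw [mem_image] at hs
    obtain ⟨f, hf, rfl⟩ := hs
    rw [Fintype.mem_piFinset] at hf
    unfold Ty PU
    rw [mem_filter, mem_powerset]
    refine ⟨?_, ?_⟩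
    · apply biUnion_subset.2
      intro i _
      exact (mem_powersetCard.1 (hf i)).1.trans (subset_biUnion_of_mem Pi (mem_univ i))
    · intro i
      rw [inter_biUnion hd (fun i => (mem_powersetCard.1 (hf i)).1) i]
      exact (mem_powersetCard.1 (hf i)).2
  · intro s _ _
    exact prod_nonneg fun p _ => hx p

theorem card_type {Pi : ι → Finset ℕ} (hd : ∀ i j, i ≠ j → Disjoint (Pi i) (Pi j)) {s : Finset ℕ}
    (hs : s ⊆ PU Pi) : s.card = ∑ i, (s ∩ Pi i).card := by
  classical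
  have h1 : s = univ.biUnion (fun i => s ∩ Pi i) := by
    ext p
    rw [mem_biUnion]
    constructor
    · intro hp
      have h2 := hs hp
      unfold PU at h2
      rw [mem_biUnion] at h2
      obtain ⟨i, _, hi⟩ := h2
      exact ⟨i, mem_univ i, mem_inter.2 ⟨hp, hi⟩⟩
    · rintro ⟨i, _, hi⟩
      exact (mem_inter.1 hi).1
  conv_lhs => rw [h1]
  rw [card_biUnion]
  intro i _ j _ hij
  exact disjoint_of_subset_left inter_subset_right (disjoint_of_subset_right inter_subset_right (hd i j hij))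

/-- counting by weights -/
theorem card_rankin (P : Finset ℕ) (w : ℕ → ℝ) (L : ℝ) (hL : 1 ≤ L) (S : Finset (Finset ℕ)) (hS : S ⊆ P.powerset)
    (M R : ℝ) (h : ∀ s ∈ S, ∑ p ∈ s, w p ≤ M) (hR : ∑ p ∈ P, L ^ (-(w p)) ≤ R) :
    (S.card : ℝ) ≤ L ^ M * Real.exp R := by
  classical
  have hL0 : 0 < L := by linarith
  have h1 : ∀ s ∈ S, (1 : ℝ) ≤ L ^ M * ∏ p ∈ s, L ^ (-(w p)) := by
    intro s hs
    rw [← Real.rpow_sum_of_pos hL0, ← Real.rpow_add hL0, sum_neg_distrib]
    apply Real.one_le_rpow hL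
    have := h s hs
    linarith
  calc (S.card : ℝ) = ∑ s ∈ S, (1 : ℝ) := by rw [sum_const, nsmul_eq_mul, mul_one]
    _ ≤ ∑ s ∈ S, L ^ M * ∏ p ∈ s, L ^ (-(w p)) := sum_le_sum h1
    _ ≤ ∑ s ∈ P.powerset, L ^ M * ∏ p ∈ s, L ^ (-(w p)) := by
        apply sum_le_sum_of_subset_of_nonneg hS
        intro s _ _
        exact mul_nonneg (Real.rpow_nonneg hL0.le _) (prod_nonneg fun p _ => Real.rpow_nonneg hL0.le _)
    _ = L ^ M * ∏ p ∈ P, (1 + L ^ (-(w p))) := by rw [← mul_sum, ← prod_one_add]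
    _ ≤ L ^ M * ∏ p ∈ P, Real.exp (L ^ (-(w p))) := by
        apply mul_le_mul_of_nonneg_left _ (Real.rpow_nonneg hL0.le _)
        apply prod_le_prod
        · intro p _
          have := Real.rpow_nonneg hL0.le (-(w p))
          linarith
        · intro p _
          have := Real.add_one_le_exp (L ^ (-(w p)))
          linarith
    _ = L ^ M * Real.exp (∑ p ∈ P, L ^ (-(w p))) := by rw [Real.exp_sum]
    _ ≤ _ := by
        apply mul_le_mul_of_nonneg_left _ (Real.rpow_nonneg hL0.le _)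
        exact Real.exp_le_exp.2 hR

theorem sum_PU {Pi : ι → Finset ℕ} (hd : ∀ i j, i ≠ j → Disjoint (Pi i) (Pi j)) (f : ℕ → ℝ) :
    ∑ p ∈ PU Pi, f p = ∑ i, ∑ p ∈ Pi i, f p := by
  unfold PU
  rw [sum_biUnion]
  intro i _ j _ hij
  exact hd i j hij

end

end Pool.Agent.H527.N
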