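import Mathlib

/-! A choice of exponents with prescribed parities. -/

set_option autoImplicit false

namespace Pool.Agent.H527.N

open Finset Filter Topology

theorem pq_exists (x : ℝ) (e : ℕ) : ∃ p q : ℕ, 1 ≤ p ∧ 1 ≤ q ∧ p.Coprime q ∧ (p + q) % 2 = e % 2 ∧ x < (p : ℝ) + q := by
  obtain ⟨N, hN⟩ := exists_nat_gt x
  rcases Nat.mod_two_eq_zero_or_one e with he | he
  · refine ⟨2 * N + 1, 2 * N + 3, by omega, by omega, ?_, by omega, ?_⟩
    · have h1 : Nat.gcd (2 * N + 1) (2 * N + 3) ∣ 2 := by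
        have h2 : Nat.gcd (2 * N + 1) (2 * N + 3) ∣ (2 * N + 3) - (2 * N + 1) :=
          Nat.dvd_sub (Nat.gcd_dvd_right _ _) (Nat.gcd_dvd_left _ _)
        have h3 : (2 * N + 3) - (2 * N + 1) = 2 := by omega
        rwa [h3] at h2
      rw [Nat.coprime_iff_gcd_eq_one]
      rcases (Nat.dvd_prime Nat.prime_two).1 h1 with h | h
      · exact h
      · have h4 : Nat.gcd (2 * N + 1) (2 * N + 3) ∣ 2 * N + 1 := Nat.gcd_dvd_left _ _
        rw [h] at h4
        omega
    · push_cast; linarith [Nat.cast_nonneg (α := ℝ) N]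
  · refine ⟨N + 1, N + 2, by omega, by omega, ?_, by omega, ?_⟩
    · exact (Nat.coprime_self_add_right (m := N + 1) (n := 1)).2 (Nat.coprime_one_right _)
    · push_cast; linarith [Nat.cast_nonneg (α := ℝ) N]

/-- a generic parameter -/
theorem generic_t (J : ℕ) (S : Set ((Fin J → ℝ) × ℝ)) (hS : S.Countable) (a b : ℝ) (hab : a < b) :
    ∃ t, a < t ∧ t < b ∧ ∀ x ∈ S, (∑ i : Fin J, x.1 i * t ^ (i.val + 1)) + x.2 = 0 → ∀ i, x.1 i = 0 := by
  classical
  obtain ⟨poly, hpoly⟩ : ∃ poly : ((Fin J → ℝ) × ℝ) → Polynomial ℝ, poly = fun x =>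
    ∑ i : Fin J, Polynomial.monomial (i.val + 1) (x.1 i) + Polynomial.C x.2 := ⟨_, rfl⟩
  have heval : ∀ x t, (poly x).eval t = (∑ i : Fin J, x.1 i * t ^ (i.val + 1)) + x.2 := by
    intro x t
    rw [hpoly]
    simp [Polynomial.eval_finsetSum]
  have hcoeff : ∀ x i, (poly x).coeff (Fin.val (n := J) i + 1) = x.1 i := by
    intro x i
    rw [hpoly]
    simp only [Polynomial.coeff_add, Polynomial.finsetSum_coeff, Polynomial.coeff_monomial, Polynomial.coeff_C]
    rw [if_neg (by omega), add_zero, Finset.sum_eq_single i]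
    · simp
    · intro j _ hj
      rw [if_neg]
      intro h
      apply hj
      exact Fin.ext (by omega)
    · intro h
      exact absurd (Finset.mem_univ i) h
  obtain ⟨bad, hbad⟩ : ∃ bad : Set ℝ, bad = ⋃ x ∈ S, {t | poly x ≠ 0 ∧ (poly x).IsRoot t} := ⟨_, rfl⟩
  have hbc : bad.Countable := by
    rw [hbad]
    apply hS.biUnion
    intro x _
    apply Set.Finite.countable
    by_cases h : poly x = 0
    · have : {t | poly x ≠ 0 ∧ (poly x).IsRoot t} = ∅ := by
        ext t; simp [h]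
      rw [this]; exact Set.finite_empty
    · apply (Polynomial.finite_setOfPred_isRoot h).subset
      intro t ht
      exact ht.2
  have hd := hbc.dense_compl ℝ
  obtain ⟨t, ht1, ht2⟩ := hd.exists_mem_open isOpen_Ioo (Set.nonempty_Ioo.2 hab)
  refine ⟨t, ht2.1, ht2.2, ?_⟩
  intro x hx hx0 i
  have h1 : poly x = 0 := by
    by_contra h
    apply ht1
    rw [hbad, Set.mem_iUnion₂]
    refine ⟨x, hx, h, ?_⟩
    rw [Polynomial.IsRoot, heval]
    exact hx0
  have h2 := hcoeff x i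
  rw [h1, Polynomial.coeff_zero] at h2
  exact h2.symm

theorem finite_le {ι : Type} [Fintype ι] (u : ι → ℝ) (hu : ∀ i, 0 < u i) (M : ℝ) :
    {m : ι → ℕ | ∑ i, (m i : ℝ) * u i ≤ M}.Finite := by
  classical
  apply (Set.finite_Icc (0 : ι → ℕ) (fun i => ⌊M / u i⌋₊ : ι → ℕ)).subset
  intro m hm
  rw [Set.mem_Icc]
  refine ⟨fun i => Nat.zero_le _, fun i => ?_⟩
  apply Nat.le_floor
  rw [le_div_iff₀ (hu i)]
  refine le_trans ?_ hm
  exact single_le_sum (f := fun i => (m i : ℝ) * u i) (fun j _ => mul_nonneg (Nat.cast_nonneg _) (hu j).le) (mem_univ i)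

/-- a linear function with nonnegative slope -/
theorem ev_lt (a c B : ℝ) (h : a < B) : ∀ᶠ τ : ℝ in 𝓝[>] 0, a + τ * c < B := by
  have h1 : Tendsto (fun τ : ℝ => a + τ * c) (𝓝[>] 0) (𝓝 (a + 0 * c)) := by
    apply Tendsto.mono_left _ nhdsWithin_le_nhds
    exact (tendsto_const_nhds.add (tendsto_id.mul_const c))
  rw [zero_mul, add_zero] at h1
  exact h1.eventually (gt_mem_nhds h)

theorem ev_ne (a c a' c' : ℝ) (h : a ≠ a') : ∀ᶠ τ : ℝ in 𝓝[>] 0, a + τ * c ≠ a' + τ * c' := by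
  rcases lt_or_gt_of_ne h with h1 | h1
  · have h2 := ev_lt (a - a') (c - c') 0 (by linarith)
    filter_upwards [h2] with τ hτ hne
    apply hτ.ne
    have : a - a' + τ * (c - c') = (a + τ * c) - (a' + τ * c') := by ring
    rw [this, hne, sub_self]
  · have h2 := ev_lt (a' - a) (c' - c) 0 (by linarith)
    filter_upwards [h2] with τ hτ hne
    apply hτ.ne
    have : a' - a + τ * (c' - c) = (a' + τ * c') - (a + τ * c) := by ring
    rw [this, hne, sub_self]

end Pool.Agent.H527.N
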