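import Mathlib
import Pool.Agent.H527.N.N18

/-! A choice of exponents with prescribed parities, conclusion. -/

set_option autoImplicit false

namespace Pool.Agent.H527.N

open Finset Filter Topology

theorem sum_pb {J : ℕ} (f : Fin J × Bool → ℝ) : ∑ i, f i = ∑ j, (f (j, true) + f (j, false)) := by
  rw [Fintype.sum_prod_type]
  apply sum_congr rfl
  intro j _
  rw [Fintype.sum_bool]

theorem sum_pb_nat {J : ℕ} (f : Fin J × Bool → ℕ) : ∑ i, f i = ∑ j, (f (j, true) + f (j, false)) := by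
  rw [Fintype.sum_prod_type]
  apply sum_congr rfl
  intro j _
  rw [Fintype.sum_bool]

/-- the exponents before the last perturbation -/
theorem conf0 (J : ℕ) (B : Fin J → ℝ) (hB0 : ∀ j, 0 < B j) (p q : Fin J → ℕ) (hp : ∀ j, 1 ≤ p j) (hq : ∀ j, 1 ≤ q j)
    (v : ℝ) (hv : 0 < v) (hx : ∀ j, 2 * B j / v < (p j : ℝ) + q j) :
    ∃ u : Fin J × Bool → ℝ, (∀ i, 0 < u i ∧ u i < v) ∧ Function.Injective u ∧
      (∀ j, (p j : ℝ) * u (j, true) + q j * u (j, false) = B j) ∧
      ∀ (m : Fin J × Bool → ℕ) (j : Fin J), ∑ i, (m i : ℝ) * u i = B j →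
        ∀ l, m (l, true) * q l = m (l, false) * p l := by
  classical
  obtain ⟨b, hb⟩ : ∃ b : Fin J → ℝ, b = fun j => B j / (p j + q j) := ⟨_, rfl⟩
  obtain ⟨ρ, hρ⟩ : ∃ ρ : Fin J → ℝ, ρ = fun j => (p j : ℝ) / q j := ⟨_, rfl⟩
  have hp0 : ∀ j, (0 : ℝ) < p j := fun j => by exact_mod_cast hp j
  have hq0 : ∀ j, (0 : ℝ) < q j := fun j => by exact_mod_cast hq j
  have hpq0 : ∀ j, (0 : ℝ) < (p j : ℝ) + q j := fun j => add_pos (hp0 j) (hq0 j)
  have hbpos : ∀ j, 0 < b j := fun j => by rw [hb]; exact div_pos (hB0 j) (hpq0 j)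
  have hbv : ∀ j, b j < v / 2 := by
    intro j
    rw [hb]
    simp only
    have := hx j
    rw [div_lt_iff₀ hv] at this
    rw [div_lt_div_iff₀ (hpq0 j) (by norm_num)]
    linarith
  have hρpos : ∀ j, 0 < ρ j := fun j => by rw [hρ]; exact div_pos (hp0 j) (hq0 j)
  have hρq : ∀ j, ρ j * q j = p j := fun j => by rw [hρ]; simp only; rw [div_mul_cancel₀ _ (hq0 j).ne']
  have hbB : ∀ j, ((p j : ℝ) + q j) * b j = B j := fun j => by
    rw [hb]; simp only; rw [mul_div_cancel₀ _ (hpq0 j).ne']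
  -- a bound for the parameter
  have hev : ∀ᶠ t : ℝ in 𝓝[>] 0, 0 < t ∧ t < 1 ∧ t < v / 2 ∧ ∀ j, ρ j * t < b j := by
    have h1 : ∀ᶠ t : ℝ in 𝓝[>] 0, ∀ j, 0 + t * ρ j < b j := eventually_all.2 fun j => ev_lt 0 (ρ j) (b j) (hbpos j)
    filter_upwards [self_mem_nhdsWithin, ev_lt 0 1 1 one_pos, ev_lt 0 1 (v / 2) (by linarith), h1] with t a1 a2 a3 a4
    refine ⟨a1, by linarith, by linarith, fun j => ?_⟩
    have := a4 j
    linarith
  obtain ⟨t0, ht0, ht01, ht0v, ht0b⟩ := hev.exists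
  -- the generic parameter
  obtain ⟨Φ, hΦ⟩ : ∃ Φ : ((Fin J × Bool → ℤ) × Option (Fin J)) → ((Fin J → ℝ) × ℝ), Φ = fun x =>
    (fun i => (x.1 (i, true) : ℝ) - x.1 (i, false) * ρ i,
      ∑ i, ((x.1 (i, true) : ℝ) + x.1 (i, false)) * b i - (x.2.elim 0 B)) := ⟨_, rfl⟩
  obtain ⟨t, ht, htt, hgen⟩ := generic_t J (Set.range Φ) (Set.countable_range Φ) 0 t0 ht0
  have htpow : ∀ i : Fin J, 0 < t ^ (i.val + 1) ∧ t ^ (i.val + 1) ≤ t := by
    intro i
    refine ⟨pow_pos ht _, ?_⟩
    rw [pow_succ]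
    exact mul_le_of_le_one_left ht.le (pow_le_one₀ ht.le (by linarith))
  obtain ⟨u, hu⟩ : ∃ u : Fin J × Bool → ℝ, u = fun i => if i.2 then b i.1 + t ^ (i.1.val + 1) else
    b i.1 - ρ i.1 * t ^ (i.1.val + 1) := ⟨_, rfl⟩
  have hu1 : ∀ j, u (j, true) = b j + t ^ (j.val + 1) := fun j => by rw [hu]; simp
  have hu2 : ∀ j, u (j, false) = b j - ρ j * t ^ (j.val + 1) := fun j => by rw [hu]; simp
  have hkey : ∀ (m : Fin J × Bool → ℤ) (o : Option (Fin J)), ∑ i, (m i : ℝ) * u i = o.elim 0 B →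
      ∀ l, m (l, true) * q l = m (l, false) * p l := by
    intro m o h l
    have h1 := hgen (Φ (m, o)) (Set.mem_range_self _) (by
      rw [sum_pb] at h
      rw [hΦ]
      simp only
      rw [← h, ← sum_sub_distrib, ← sum_add_distrib]
      apply sum_eq_zero
      intro i _
      rw [hu1, hu2]
      ring) l
    rw [hΦ] at h1
    simp only at h1
    have h2 : ((m (l, true) : ℝ) - m (l, false) * ρ l) * q l = 0 := by rw [h1, zero_mul]
    rw [sub_mul, mul_assoc, hρq, sub_eq_zero] at h2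
    exact_mod_cast h2
  refine ⟨u, ?_, ?_, ?_, ?_⟩
  · rintro ⟨j, c⟩
    have h1 := htpow j
    have h2 := hbpos j
    have h3 := hbv j
    have h4 := ht0b j
    have h5 := hρpos j
    cases c
    · rw [hu2]
      have h6 : ρ j * t ^ (j.val + 1) ≤ ρ j * t0 := mul_le_mul_of_nonneg_left (h1.2.trans htt.le) h5.le
      have h7 : 0 < ρ j * t ^ (j.val + 1) := mul_pos h5 h1.1
      constructor <;> linarith
    · rw [hu1]
      constructor <;> linarith
  · intro i i' hii
    by_contra hne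
    have h1 := hkey (fun l => (if l = i then 1 else 0) - (if l = i' then 1 else 0)) none (by
      push_cast
      simp only [sub_mul, ite_mul, one_mul, zero_mul, sum_sub_distrib, sum_ite_eq', mem_univ, if_true, Option.elim]
      rw [hii, sub_self]) i.1
    have hpi := hp i.1
    have hqi := hq i.1
    obtain ⟨j, c⟩ := i
    obtain ⟨j', c'⟩ := i'
    simp only [Prod.mk.injEq, true_and] at h1 hpi hqi
    have hpi' := hp j'
    have hqi' := hq j'
    have hne' : ¬ (j = j' ∧ c = c') := by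
      rintro ⟨rfl, rfl⟩; exact hne rfl
    cases c <;> cases c' <;> by_cases hj : j = j' <;> simp [hj] at h1 hne' <;> omega
  · intro j
    rw [hu1, hu2]
    have h1 := hbB j
    have h2 := hρq j
    calc (p j : ℝ) * (b j + t ^ (j.val + 1)) + q j * (b j - ρ j * t ^ (j.val + 1)) =
        ((p j : ℝ) + q j) * b j + ((p j : ℝ) - ρ j * q j) * t ^ (j.val + 1) := by ring
      _ = B j := by rw [h1, h2]; ring
  · intro m j h l
    have h1 := hkey (fun i => (m i : ℤ)) (some j) (by
      simp only [Int.cast_natCast, Option.elim]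
      exact h) l
    exact_mod_cast h1

/-- **the choice of the exponents** -/
theorem conf (J : ℕ) (B : Fin J → ℝ) (hB0 : ∀ j, 0 < B j) (hB : StrictMono B) (par : Fin J → ℕ) (v : ℝ) (hv : 0 < v) :
    ∃ (u : Fin J × Bool → ℝ) (k : Fin J → Fin J × Bool → ℕ), (∀ i, 0 < u i ∧ u i ≤ v) ∧ Function.Injective u ∧
      (∀ j, (∑ i, k j i) % 2 = par j % 2) ∧ ∀ j, B j < ∑ i, (k j i : ℝ) * u i ∧
        ∀ m : Fin J × Bool → ℕ, m ≠ k j → B j ≤ ∑ i, (m i : ℝ) * u i →
          ∑ i, (k j i : ℝ) * u i < ∑ i, (m i : ℝ) * u i := by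
  classical
  choose p q hp hq hpq hpar hx using fun j => pq_exists (2 * B j / v) (par j)
  obtain ⟨u0, hu0, hinj0, hval0, hrel⟩ := conf0 J B hB0 p q hp hq v hv hx
  have hp0 : ∀ j, (0 : ℝ) < p j := fun j => by exact_mod_cast hp j
  have hq0 : ∀ j, (0 : ℝ) < q j := fun j => by exact_mod_cast hq j
  obtain ⟨D, hD⟩ : ∃ D : Fin J → ℝ, D = fun j => (J : ℝ) - j.val := ⟨_, rfl⟩
  have hD1 : ∀ j, 0 < D j := fun j => by
    rw [hD]; simp only; have : (j.val : ℝ) < J := by exact_mod_cast j.isLt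
    linarith
  have hDJ : ∀ j, D j ≤ J := fun j => by
    rw [hD]; simp only; have : (0 : ℝ) ≤ j.val := Nat.cast_nonneg _
    linarith
  have hDm : ∀ i j, i < j → D j < D i := fun i j hij => by
    rw [hD]; simp only
    have : (i.val : ℝ) < j.val := by exact_mod_cast hij
    linarith
  obtain ⟨c, hc⟩ : ∃ c : Fin J × Bool → ℝ, c = fun i => if i.2 then 0 else D i.1 / q i.1 := ⟨_, rfl⟩
  have hc1 : ∀ j, c (j, true) = 0 := fun j => by rw [hc]; simp
  have hc2 : ∀ j, c (j, false) = D j / q j := fun j => by rw [hc]; simp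
  have hc0 : ∀ i, 0 ≤ c i := by
    rintro ⟨j, e⟩
    cases e
    · rw [hc2]; exact (div_pos (hD1 j) (hq0 j)).le
    · rw [hc1]
  obtain ⟨k, hk⟩ : ∃ k : Fin J → Fin J × Bool → ℕ, k = fun j i => if i.1 = j then (if i.2 then p j else q j) else 0 := ⟨_, rfl⟩
  have hk1 : ∀ j l, k j (l, true) = if l = j then p j else 0 := fun j l => by rw [hk]; simp
  have hk2 : ∀ j l, k j (l, false) = if l = j then q j else 0 := fun j l => by rw [hk]; simp
  have hlin : ∀ (m : Fin J × Bool → ℕ) (τ : ℝ), ∑ i, (m i : ℝ) * (u0 i + τ * c i) =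
      ∑ i, (m i : ℝ) * u0 i + τ * ∑ i, (m i : ℝ) * c i := by
    intro m τ
    rw [mul_sum, ← sum_add_distrib]
    apply sum_congr rfl
    intro i _
    ring
  have hkval : ∀ j, ∑ i, (k j i : ℝ) * u0 i = B j := by
    intro j
    rw [sum_pb]
    simp only [hk1, hk2]
    rw [sum_eq_single j]
    · simp only [if_true]; exact hval0 j
    · intro l _ hl
      simp [hl]
    · intro h; exact absurd (mem_univ j) h
  have hkc : ∀ j, ∑ i, (k j i : ℝ) * c i = D j := by
    intro j
    rw [sum_pb]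
    simp only [hk1, hk2, hc1, hc2]
    rw [sum_eq_single j]
    · simp only [if_true, mul_zero, zero_add]
      rw [mul_div_cancel₀ _ (hq0 j).ne']
    · intro l _ hl
      simp [hl]
    · intro h; exact absurd (mem_univ j) h
  have hmc0 : ∀ m : Fin J × Bool → ℕ, 0 ≤ ∑ i, (m i : ℝ) * c i :=
    fun m => sum_nonneg fun i _ => mul_nonneg (Nat.cast_nonneg _) (hc0 i)
  -- the values equal to `B j`
  have hexact : ∀ (m : Fin J × Bool → ℕ) (j : Fin J), ∑ i, (m i : ℝ) * u0 i = B j → m ≠ k j →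
      D j < ∑ i, (m i : ℝ) * c i := by
    intro m j hm hne
    have h1 := hrel m j hm
    have h2 : ∀ l, ∃ r : ℕ, m (l, true) = p l * r ∧ m (l, false) = q l * r := by
      intro l
      have h3 : p l ∣ m (l, true) := by
        apply (hpq l).dvd_of_dvd_mul_right
        rw [h1 l]; exact Nat.dvd_mul_left _ _
      obtain ⟨r, hr⟩ := h3
      refine ⟨r, hr, ?_⟩
      have h4 := h1 l
      rw [hr] at h4
      have h5 : p l * (q l * r) = p l * m (l, false) := by
        calc p l * (q l * r) = p l * r * q l := by ring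
          _ = m (l, false) * p l := h4
          _ = _ := mul_comm _ _
      exact (Nat.eq_of_mul_eq_mul_left (hp l) h5).symm
    choose r hr1 hr2 using h2
    have h3 : ∑ l, (r l : ℝ) * B l = B j := by
      rw [← hm, sum_pb]
      apply sum_congr rfl
      intro l _
      rw [hr1, hr2, ← hval0 l]
      push_cast
      ring
    have h4 : ∑ i, (m i : ℝ) * c i = ∑ l, (r l : ℝ) * D l := by
      rw [sum_pb]
      apply sum_congr rfl
      intro l _
      rw [hr2, hc1, hc2, mul_zero, zero_add]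
      push_cast
      have := (hq0 l).ne'
      field_simp
    rw [h4]
    -- some `r i` with `i < j` is positive
    have h5 : ∃ i, i < j ∧ 1 ≤ r i := by
      by_contra hcon
      push Not at hcon
      have h6 : ∀ i, i < j → r i = 0 := fun i hi => by have := hcon i hi; omega
      have hterm : ∀ i, (r i : ℝ) * B i ≤ B j := fun i => by
        rw [← h3]
        exact single_le_sum (f := fun l => (r l : ℝ) * B l) (fun l _ => mul_nonneg (Nat.cast_nonneg _) (hB0 l).le) (mem_univ i)
      have h7 : ∀ i, j < i → r i = 0 := by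
        intro i hi
        by_contra h
        have h8 : (1 : ℝ) ≤ r i := by exact_mod_cast Nat.one_le_iff_ne_zero.2 h
        have h9 := hterm i
        have h10 := hB hi
        have h11 := hB0 i
        nlinarith
      have h8 : (r j : ℝ) * B j = B j := by
        have h8' : ∑ l, (r l : ℝ) * B l = (r j : ℝ) * B j := by
          apply sum_eq_single j
          · intro l _ hl
            rcases lt_or_gt_of_ne hl with h9 | h9
            · rw [h6 l h9]; simp
            · rw [h7 l h9]; simp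
          · intro h; exact absurd (mem_univ j) h
        rw [← h8', h3]
      have h9 : r j = 1 := by
        have : (r j : ℝ) = 1 := by
          have h10 := (hB0 j).ne'
          field_simp at h8
          exact h8
        exact_mod_cast this
      apply hne
      funext i
      obtain ⟨l, e⟩ := i
      cases e
      · rw [hk2, hr2]
        split_ifs with h10
        · rw [h10, h9, mul_one]
        · rcases lt_or_gt_of_ne h10 with h11 | h11
          · rw [h6 l h11, mul_zero]
          · rw [h7 l h11, mul_zero]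
      · rw [hk1, hr1]
        split_ifs with h10
        · rw [h10, h9, mul_one]
        · rcases lt_or_gt_of_ne h10 with h11 | h11
          · rw [h6 l h11, mul_zero]
          · rw [h7 l h11, mul_zero]
    obtain ⟨i, hij, hri⟩ := h5
    have h6 : (r i : ℝ) * D i ≤ ∑ l, (r l : ℝ) * D l :=
      single_le_sum (f := fun l => (r l : ℝ) * D l) (fun l _ => mul_nonneg (Nat.cast_nonneg _) (hD1 l).le) (mem_univ i)
    have h7 : (1 : ℝ) ≤ r i := by exact_mod_cast hri
    have h8 := hDm i j hij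
    have h9 := hD1 i
    nlinarith
  -- the last perturbation
  have hfin : ∀ j, {m : Fin J × Bool → ℕ | ∑ i, (m i : ℝ) * u0 i ≤ B j + 1}.Finite :=
    fun j => finite_le u0 (fun i => (hu0 i).1) (B j + 1)
  have e1 : ∀ᶠ τ : ℝ in 𝓝[>] 0, ∀ j, ∀ m ∈ {m : Fin J × Bool → ℕ | ∑ i, (m i : ℝ) * u0 i ≤ B j + 1},
      m ≠ k j → B j ≤ ∑ i, (m i : ℝ) * (u0 i + τ * c i) →
        ∑ i, (k j i : ℝ) * (u0 i + τ * c i) < ∑ i, (m i : ℝ) * (u0 i + τ * c i) := by
    rw [eventually_all]
    intro j
    rw [eventually_all_finite (hfin j)]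
    intro m _
    rcases lt_trichotomy (∑ i, (m i : ℝ) * u0 i) (B j) with h | h | h
    · filter_upwards [ev_lt _ (∑ i, (m i : ℝ) * c i) _ h] with τ hτ _ h2
      rw [hlin] at h2
      linarith
    · filter_upwards [self_mem_nhdsWithin] with τ hτ hne _
      have hτ' : 0 < τ := hτ
      rw [hlin, hlin, hkval, hkc, h]
      have := hexact m j h hne
      nlinarith
    · filter_upwards [ev_lt _ (D j) _ h, self_mem_nhdsWithin] with τ hτ hτ0 _ _
      have hτ' : 0 < τ := hτ0
      rw [hlin, hlin, hkval, hkc]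
      have h2 := mul_nonneg hτ'.le (hmc0 m)
      linarith
  have e2 : ∀ᶠ τ : ℝ in 𝓝[>] 0, ∀ i, u0 i + τ * c i < v := eventually_all.2 fun i => ev_lt _ _ _ (hu0 i).2
  have e3 : ∀ᶠ τ : ℝ in 𝓝[>] 0, ∀ i i', i ≠ i' → u0 i + τ * c i ≠ u0 i' + τ * c i' := by
    rw [eventually_all]; intro i
    rw [eventually_all]; intro i'
    by_cases h : i = i'
    · exact Eventually.of_forall fun τ h2 => absurd h h2
    · filter_upwards [ev_ne _ (c i) _ (c i') (fun h2 => h (hinj0 h2))] with τ hτ _
      exact hτ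
  have e4 : ∀ᶠ τ : ℝ in 𝓝[>] 0, 0 + τ * (J : ℝ) < 1 := ev_lt 0 _ _ one_pos
  obtain ⟨τ, f1, f2, f3, f4, f5⟩ := (e1.and (e2.and (e3.and (e4.and self_mem_nhdsWithin)))).exists
  have hτ : 0 < τ := f5
  refine ⟨fun i => u0 i + τ * c i, k, ?_, ?_, ?_, ?_⟩
  · intro i
    have h1 := (hu0 i).1
    have h2 := mul_nonneg hτ.le (hc0 i)
    exact ⟨by linarith, (f2 i).le⟩
  · intro i i' h
    by_contra hne
    exact f3 i i' hne h
  · intro j
    rw [sum_pb_nat]
    simp only [hk1, hk2]
    rw [sum_eq_single j]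
    · simp only [if_true]; exact hpar j
    · intro l _ hl
      simp [hl]
    · intro h; exact absurd (mem_univ j) h
  · intro j
    have hkj : ∑ i, (k j i : ℝ) * (u0 i + τ * c i) = B j + τ * D j := by rw [hlin, hkval, hkc]
    refine ⟨?_, ?_⟩
    · rw [hkj]
      have := mul_pos hτ (hD1 j)
      linarith
    · intro m hne hm
      by_cases h : ∑ i, (m i : ℝ) * u0 i ≤ B j + 1
      · exact f1 j m h hne hm
      · push Not at h
        rw [hkj, hlin]
        have h2 := mul_nonneg hτ.le (hmc0 m)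
        have h3 := mul_le_mul_of_nonneg_left (hDJ j) hτ.le
        linarith

end Pool.Agent.H527.N
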