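import Mathlib
import Pool.Graph.R_seed8.Helper923.HMertens
import Pool.Agent.H527.S.S3
import Pool.Agent.H527.N.N17
import Pool.Agent.H527.N.N19

/-! The windows. -/

set_option autoImplicit false

namespace Pool.Agent.H527.N

open Finset Filter Topology

theorem fin_gap {α : Type} (S : Set α) (hS : S.Finite) (f : α → ℝ) (h : ∀ m ∈ S, 0 < f m) :
    ∃ g : ℝ, 0 < g ∧ ∀ m ∈ S, g ≤ f m := by
  classical
  rcases S.eq_empty_or_nonempty with h0 | h0
  · exact ⟨1, one_pos, fun m hm => by rw [h0] at hm; exact absurd hm (Set.notMem_empty _)⟩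
  · obtain ⟨a, ha, hmin⟩ := Set.exists_min_image S f hS h0
    exact ⟨f a, h a ha, hmin⟩

/-- the gaps -/
theorem gaps {ι : Type} [Fintype ι] {J : ℕ} (B : Fin J → ℝ) (u : ι → ℝ) (hu : ∀ i, 0 < u i) (k : Fin J → ι → ℕ)
    (h1 : ∀ j, B j < ∑ i, (k j i : ℝ) * u i)
    (h2 : ∀ j, ∀ m : ι → ℕ, m ≠ k j → B j ≤ ∑ i, (m i : ℝ) * u i → ∑ i, (k j i : ℝ) * u i < ∑ i, (m i : ℝ) * u i) :
    ∃ g : ℝ, 0 < g ∧ ∀ j, B j + g ≤ ∑ i, (k j i : ℝ) * u i ∧ ∀ m : ι → ℕ,
      (∑ i, (m i : ℝ) * u i ≤ B j - g) ∨ m = k j ∨ ∑ i, (k j i : ℝ) * u i + g ≤ ∑ i, (m i : ℝ) * u i := by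
  classical
  have key : ∀ j, ∃ g : ℝ, 0 < g ∧ B j + g ≤ ∑ i, (k j i : ℝ) * u i ∧ ∀ m : ι → ℕ,
      (∑ i, (m i : ℝ) * u i ≤ B j - g) ∨ m = k j ∨ ∑ i, (k j i : ℝ) * u i + g ≤ ∑ i, (m i : ℝ) * u i := by
    intro j
    obtain ⟨K, hK⟩ : ∃ K : ℝ, K = ∑ i, (k j i : ℝ) * u i := ⟨_, rfl⟩
    have hfin := finite_le u hu (K + 1)
    obtain ⟨g1, hg1, hg1'⟩ := fin_gap {m : ι → ℕ | ∑ i, (m i : ℝ) * u i ≤ K + 1 ∧ ∑ i, (m i : ℝ) * u i < B j}
      (hfin.subset fun m hm => hm.1) (fun m => B j - ∑ i, (m i : ℝ) * u i) (fun m hm => by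
        have := hm.2; linarith)
    obtain ⟨g2, hg2, hg2'⟩ := fin_gap {m : ι → ℕ | ∑ i, (m i : ℝ) * u i ≤ K + 1 ∧ (m ≠ k j ∧ B j ≤ ∑ i, (m i : ℝ) * u i)}
      (hfin.subset fun m hm => hm.1) (fun m => ∑ i, (m i : ℝ) * u i - K) (fun m hm => by
        have := h2 j m hm.2.1 hm.2.2
        rw [← hK] at this
        linarith)
    have h1j := h1 j
    rw [← hK] at h1j ⊢
    refine ⟨min (min g1 g2) (min 1 (K - B j)), by
      apply lt_min (lt_min hg1 hg2) (lt_min one_pos (by linarith)), ?_, ?_⟩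
    · have : min (min g1 g2) (min 1 (K - B j)) ≤ K - B j := (min_le_right _ _).trans (min_le_right _ _)
      linarith
    · intro m
      have c1 : min (min g1 g2) (min 1 (K - B j)) ≤ g1 := (min_le_left _ _).trans (min_le_left _ _)
      have c2 : min (min g1 g2) (min 1 (K - B j)) ≤ g2 := (min_le_left _ _).trans (min_le_right _ _)
      have c3 : min (min g1 g2) (min 1 (K - B j)) ≤ 1 := (min_le_right _ _).trans (min_le_left _ _)
      by_cases hm1 : ∑ i, (m i : ℝ) * u i ≤ K + 1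
      · by_cases hm2 : ∑ i, (m i : ℝ) * u i < B j
        · left
          have := hg1' m ⟨hm1, hm2⟩
          linarith
        · right
          by_cases hm3 : m = k j
          · exact Or.inl hm3
          · right
            push Not at hm2
            have := hg2' m ⟨hm1, hm3, hm2⟩
            linarith
      · right; right
        push Not at hm1
        linarith
  choose g hg hg1 hg2 using key
  rcases Nat.eq_zero_or_pos J with hJ | hJ
  · subst hJ
    exact ⟨1, one_pos, fun j => j.elim0⟩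
  · have : Nonempty (Fin J) := ⟨⟨0, hJ⟩⟩
    obtain ⟨j0, hj0⟩ := Finite.exists_min g
    refine ⟨g j0, hg j0, fun j => ?_⟩
    have h3 := hj0 j
    refine ⟨by linarith [hg1 j], fun m => ?_⟩
    rcases hg2 j m with h | h | h
    · left; linarith
    · right; left; exact h
    · right; right; linarith

theorem tendsto_log_floor (a : ℝ) (ha : 0 < a) :
    Tendsto (fun T : ℝ => Real.log (⌊T ^ a⌋₊ : ℝ) / Real.log T) atTop (𝓝 a) := by
  have t1 : Tendsto (fun T : ℝ => T ^ a) atTop atTop := tendsto_rpow_atTop ha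
  have t2 : Tendsto (fun T : ℝ => a - 2 / T ^ a) atTop (𝓝 (a - 0)) :=
    tendsto_const_nhds.sub (Tendsto.const_div_atTop t1 2)
  rw [sub_zero] at t2
  apply tendsto_of_tendsto_of_tendsto_of_le_of_le' t2 tendsto_const_nhds
  · filter_upwards [t1.eventually_ge_atTop 2, Real.tendsto_log_atTop.eventually_ge_atTop 1, eventually_gt_atTop 0] with T h1 h2 h3
    rw [le_div_iff₀ (by linarith)]
    have h4 := Pool.Agent.H527.S.log_floor (T ^ a) (⌊T ^ a⌋₊ : ℝ) h1 (by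
      have := Nat.lt_floor_add_one (T ^ a); linarith)
    rw [Real.log_rpow h3] at h4
    have h5 : 0 < 2 / T ^ a := by positivity
    nlinarith
  · filter_upwards [t1.eventually_ge_atTop 2, Real.tendsto_log_atTop.eventually_ge_atTop 1, eventually_gt_atTop 0] with T h1 h2 h3
    rw [div_le_iff₀ (by linarith)]
    have h4 : (⌊T ^ a⌋₊ : ℝ) ≤ T ^ a := Nat.floor_le (by linarith)
    have h5 : (0 : ℝ) < (⌊T ^ a⌋₊ : ℝ) := by
      have : 2 ≤ ⌊T ^ a⌋₊ := Nat.le_floor (by exact_mod_cast h1)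
      exact_mod_cast (by omega : 0 < ⌊T ^ a⌋₊)
    have h6 := Real.log_le_log h5 h4
    rwa [Real.log_rpow h3] at h6

/-- Mertens' theorem in a window -/
theorem win_sum (a b : ℝ) (ha : 0 < a) (hab : a < b) :
    Tendsto (fun T : ℝ => ∑ p ∈ (Ioc ⌊T ^ a⌋₊ ⌊T ^ b⌋₊).filter Nat.Prime, (1 : ℝ) / p) atTop (𝓝 (Real.log (b / a))) := by
  obtain ⟨C, hC0, hC⟩ := Pool.Agent.Helper923.HMertens.mertens_ratio
  have hb : 0 < b := by linarith
  have ta := tendsto_log_floor a ha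
  have tb := tendsto_log_floor b hb
  have t0 : Tendsto (fun T : ℝ => (Real.log (⌊T ^ b⌋₊ : ℝ) / Real.log T) / (Real.log (⌊T ^ a⌋₊ : ℝ) / Real.log T)) atTop (𝓝 (b / a)) :=
    tb.div ta ha.ne'
  have t1 : Tendsto (fun T : ℝ => Real.log (Real.log (⌊T ^ b⌋₊ : ℝ) / Real.log (⌊T ^ a⌋₊ : ℝ))) atTop (𝓝 (Real.log (b / a))) := by
    apply (t0.log (by positivity)).congr'
    filter_upwards [Real.tendsto_log_atTop.eventually_ge_atTop 1] with T hT
    congr 1
    rw [div_div_div_cancel_right₀ (by linarith)]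
  have tp : Tendsto (fun T : ℝ => T ^ a) atTop atTop := tendsto_rpow_atTop ha
  have tf : Tendsto (fun T : ℝ => Real.log (⌊T ^ a⌋₊ : ℝ)) atTop atTop :=
    Real.tendsto_log_atTop.comp (tendsto_natCast_atTop_atTop.comp (tendsto_nat_floor_atTop.comp tp))
  have t2 : Tendsto (fun T : ℝ => C / Real.log (⌊T ^ a⌋₊ : ℝ)) atTop (𝓝 0) := Tendsto.const_div_atTop tf C
  have t3 : Tendsto (fun T : ℝ => ∑ p ∈ (Ioc ⌊T ^ a⌋₊ ⌊T ^ b⌋₊).filter Nat.Prime, (1 : ℝ) / p -
      Real.log (Real.log (⌊T ^ b⌋₊ : ℝ) / Real.log (⌊T ^ a⌋₊ : ℝ))) atTop (𝓝 0) := by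
    apply squeeze_zero_norm' _ t2
    filter_upwards [tp.eventually_ge_atTop 2, eventually_ge_atTop 1] with T h1 h2
    rw [Real.norm_eq_abs]
    apply hC
    · exact Nat.le_floor (by exact_mod_cast h1)
    · apply Nat.floor_le_floor
      exact Real.rpow_le_rpow_of_exponent_le h2 hab.le
  have t4 := t3.add t1
  rw [zero_add] at t4
  apply t4.congr
  intro T
  ring

end Pool.Agent.H527.N
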