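import Mathlib
import Pool.Agent.H527.N.N20

/-! The deviation for the union of the windows. -/

set_option autoImplicit false

namespace Pool.Agent.H527.N

open Finset Filter Topology

section
variable {ι : Type} [Fintype ι] [DecidableEq ι]

/-- reduced windows -/
structure RW (u a : ι → ℝ) (L z : ℝ) (Pi : ι → Finset ℕ) : Prop where
  hd : ∀ i j, i ≠ j → Disjoint (Pi i) (Pi j)
  hpr : ∀ i, ∀ p ∈ Pi i, p.Prime
  hlo : ∀ i, ∀ p ∈ Pi i, L ^ a i ≤ (p : ℝ)
  hup : ∀ i, ∀ p ∈ Pi i, (p : ℝ) ≤ L ^ u i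
  hcard : ∀ i, ((Pi i).card : ℝ) ≤ L ^ u i
  sup : ∀ i, ∑ p ∈ Pi i, 1 / (p : ℝ) ≤ 2 * z ^ u i

theorem prod_type {Pi : ι → Finset ℕ} (hd : ∀ i j, i ≠ j → Disjoint (Pi i) (Pi j)) {s : Finset ℕ}
    (hs : s ⊆ PU Pi) (f : ℕ → ℝ) : ∏ p ∈ s, f p = ∏ i, ∏ p ∈ s ∩ Pi i, f p := by
  classical
  have h1 : s = univ.biUnion (fun i => s ∩ Pi i) := by
    ext p
    rw [mem_biUnion]
    constructor
    · intro hp
      have h2 := hs hp
      unfold PU at h2
      rw [mem_biUnion] at h2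
      obtain ⟨i, _, hi⟩ := h2
      exact ⟨i, mem_univ i, mem_inter.2 ⟨hp, hi⟩⟩
    · rintro ⟨i, _, hi⟩
      exact (mem_inter.1 hi).1
  conv_lhs => rw [h1]
  rw [prod_biUnion]
  intro i _ j _ hij
  exact disjoint_of_subset_left inter_subset_right (disjoint_of_subset_right inter_subset_right (hd i j hij))

variable {u a : ι → ℝ} {L z : ℝ} {Pi : ι → Finset ℕ}

/-- size of the products -/
theorem RW.prod_bd (H : RW u a L z Pi) (hL : 1 ≤ L) {s : Finset ℕ} (hs : s ⊆ PU Pi) :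
    L ^ (∑ i, ((s ∩ Pi i).card : ℝ) * a i) ≤ ((∏ p ∈ s, p : ℕ) : ℝ) ∧
    ((∏ p ∈ s, p : ℕ) : ℝ) ≤ L ^ (∑ i, ((s ∩ Pi i).card : ℝ) * u i) := by
  have hL0 : 0 < L := by linarith
  have h1 : ((∏ p ∈ s, p : ℕ) : ℝ) = ∏ i, ∏ p ∈ s ∩ Pi i, (p : ℝ) := by
    rw [← prod_type H.hd hs]; push_cast; rfl
  rw [h1, Real.rpow_sum_of_pos hL0, Real.rpow_sum_of_pos hL0]
  constructor
  · apply Finset.prod_le_prod
    · intro i _
      exact Real.rpow_nonneg hL0.le _
    · intro i _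
      rw [mul_comm, Real.rpow_mul hL0.le, Real.rpow_natCast, ← prod_const]
      apply Finset.prod_le_prod
      · intro p _
        exact Real.rpow_nonneg hL0.le _
      · intro p hp
        exact H.hlo i p (mem_inter.1 hp).2
  · apply Finset.prod_le_prod
    · intro i _
      exact prod_nonneg fun p _ => Nat.cast_nonneg _
    · intro i _
      rw [mul_comm, Real.rpow_mul hL0.le, Real.rpow_natCast, ← prod_const]
      apply Finset.prod_le_prod
      · intro p _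
        exact Nat.cast_nonneg _
      · intro p hp
        exact H.hup i p (mem_inter.1 hp).2

/-- a scale for the windows -/
structure SC (u a : ι → ℝ) (L B g : ℝ) (k : ι → ℕ) (Y : ℕ) : Prop where
  hg : 0 < g
  hB : 0 < B
  kB : B + g ≤ ∑ i, (k i : ℝ) * u i
  gap : ∀ m : ι → ℕ, (∑ i, (m i : ℝ) * u i ≤ B - g) ∨ m = k ∨ ∑ i, (k i : ℝ) * u i + g ≤ ∑ i, (m i : ℝ) * u i
  ha : ∀ m : ι → ℕ, B + g ≤ ∑ i, (m i : ℝ) * u i → B + g / 2 ≤ ∑ i, (m i : ℝ) * a i
  Ylo : L ^ (B - g / 2) ≤ (Y : ℝ)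
  Yup : (Y : ℝ) ≤ L ^ (B + g / 4)

/-- the subsets with small product -/
theorem RW.mem_SY (H : RW u a L z Pi) (hL : 1 < L) {B g : ℝ} {k : ι → ℕ} {Y : ℕ} (S : SC u a L B g k Y)
    {s : Finset ℕ} (hs : s ⊆ PU Pi) : s ∈ SY (PU Pi) Y ↔ ∑ i, ((s ∩ Pi i).card : ℝ) * u i ≤ B - g := by
  have hb := H.prod_bd hL.le hs
  have hg := S.hg
  unfold SY
  rw [mem_filter, mem_powerset]
  constructor
  · rintro ⟨_, h⟩
    by_contra hcon
    have h1 : B + g ≤ ∑ i, ((s ∩ Pi i).card : ℝ) * u i := by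
      rcases S.gap (fun i => (s ∩ Pi i).card) with h2 | h2 | h2
      · exact absurd h2 hcon
      · have h3 := S.kB
        have h4 : ∀ i, k i = (s ∩ Pi i).card := fun i => (congrFun h2 i).symm
        simp_rw [h4] at h3
        exact h3
      · linarith [S.kB]
    have h2 := S.ha _ h1
    have h3 : L ^ (B + g / 2) ≤ (Y : ℝ) := by
      calc L ^ (B + g / 2) ≤ L ^ (∑ i, ((s ∩ Pi i).card : ℝ) * a i) := Real.rpow_le_rpow_of_exponent_le hL.le h2
        _ ≤ ((∏ p ∈ s, p : ℕ) : ℝ) := hb.1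
        _ ≤ Y := by exact_mod_cast h
    have h4 : L ^ (B + g / 4) < L ^ (B + g / 2) := Real.rpow_lt_rpow_of_exponent_lt hL (by linarith)
    linarith [S.Yup]
  · intro h
    refine ⟨hs, ?_⟩
    have h3 : ((∏ p ∈ s, p : ℕ) : ℝ) ≤ Y := by
      calc ((∏ p ∈ s, p : ℕ) : ℝ) ≤ L ^ (∑ i, ((s ∩ Pi i).card : ℝ) * u i) := hb.2
        _ ≤ L ^ (B - g / 2) := Real.rpow_le_rpow_of_exponent_le hL.le (by linarith)
        _ ≤ Y := S.Ylo
    exact_mod_cast h3

/-- the number of the subsets -/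
theorem RW.card_SY (H : RW u a L z Pi) (hL : 1 < L) {B g : ℝ} {k : ι → ℕ} {Y : ℕ} (S : SC u a L B g k Y) :
    ((SY (PU Pi) Y).card : ℝ) ≤ L ^ (B - g) * Real.exp (Fintype.card ι) := by
  have hL0 : 0 < L := by linarith
  apply card_rankin (PU Pi) (wt Pi u) L hL.le (SY (PU Pi) Y) (filter_subset _ _)
  · intro s hs
    rw [sum_wt]
    have hs' : s ⊆ PU Pi := by
      unfold SY at hs
      rw [mem_filter, mem_powerset] at hs
      exact hs.1
    exact (H.mem_SY hL S hs').1 hs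
  · rw [sum_PU H.hd]
    have h1 : ∀ i ∈ (univ : Finset ι), ∑ p ∈ Pi i, L ^ (-(wt Pi u p)) ≤ 1 := by
      intro i _
      have h2 : ∀ p ∈ Pi i, L ^ (-(wt Pi u p)) = L ^ (-(u i)) := fun p hp => by rw [wt_eq H.hd u hp]
      rw [sum_congr rfl h2, sum_const, nsmul_eq_mul]
      calc ((Pi i).card : ℝ) * L ^ (-(u i)) ≤ L ^ (u i) * L ^ (-(u i)) :=
            mul_le_mul_of_nonneg_right (H.hcard i) (Real.rpow_nonneg hL0.le _)
        _ = 1 := by rw [← Real.rpow_add hL0]; simp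
    refine (sum_le_sum h1).trans ?_
    rw [sum_const, nsmul_eq_mul, mul_one, card_univ]

/-- **the deviation** -/
theorem RW.dev (H : RW u a L z Pi) (hL : 1 < L) (hz : 0 < z) (hz1 : z ≤ 1) {B g : ℝ} {k : ι → ℕ} {Y : ℕ}
    (S : SC u a L B g k Y) (m0 : ℝ) (hm0 : 0 ≤ m0) (hm : ∀ p ∈ PU Pi, 1 / (p : ℝ) ≤ m0)
    (hkm : ∀ i, (k i : ℝ) * m0 ≤ z ^ u i / 4) (slo : ∀ i, z ^ u i / 2 ≤ ∑ p ∈ Pi i, 1 / (p : ℝ)) (cst : ℝ)
    (hcst : cst ≤ ∏ i, (1 / (4 * (k i : ℝ))) ^ k i)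
    (hzg : 2 * (z ^ g * Real.exp (2 * Fintype.card ι)) ≤ cst) :
    cst / 2 * z ^ (∑ i, (k i : ℝ) * u i) ≤
      (-1) ^ (∑ i, k i) * (∏ p ∈ PU Pi, (1 - 1 / (p : ℝ)) - EY (PU Pi) Y) := by
  classical
  obtain ⟨K, hK⟩ : ∃ K : ℝ, K = ∑ i, (k i : ℝ) * u i := ⟨_, rfl⟩
  have h1 := dev_general (PU Pi) (fun p => 1 / (p : ℝ)) (wt Pi u) (fun p _ => by positivity) (SY (PU Pi) Y) (Ty Pi k)
    (filter_subset _ _) (by
      intro s hs
      unfold Ty at hs
      rw [mem_filter, mem_powerset] at hs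
      rw [Finset.mem_sdiff, mem_powerset]
      refine ⟨hs.1, fun h2 => ?_⟩
      have h3 := (H.mem_SY hL S hs.1).1 h2
      have h4 := S.kB
      have h5 : ∀ i, ((s ∩ Pi i).card : ℝ) = k i := fun i => by rw [hs.2 i]
      simp_rw [h5] at h3
      linarith [S.hg]) (∑ i, k i) (by
      intro s hs
      unfold Ty at hs
      rw [mem_filter, mem_powerset] at hs
      rw [card_type H.hd hs.1]
      simp_rw [hs.2]) z (K + g) (2 * Fintype.card ι) hz hz1 (by
      intro s hs hs1 hs2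
      rw [sum_wt]
      rcases S.gap (fun i => (s ∩ Pi i).card) with h2 | h2 | h2
      · exact absurd ((H.mem_SY hL S hs).2 h2) hs1
      · exfalso
        apply hs2
        unfold Ty
        rw [mem_filter, mem_powerset]
        exact ⟨hs, fun i => congrFun h2 i⟩
      · rw [hK]; exact h2) (by
      rw [sum_PU H.hd]
      have h2 : ∀ i ∈ (univ : Finset ι), ∑ p ∈ Pi i, z ^ (-(wt Pi u p)) * (1 / (p : ℝ)) ≤ 2 := by
        intro i _
        have h3 : ∀ p ∈ Pi i, z ^ (-(wt Pi u p)) * (1 / (p : ℝ)) = z ^ (-(u i)) * (1 / (p : ℝ)) :=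
          fun p hp => by rw [wt_eq H.hd u hp]
        rw [sum_congr rfl h3, ← mul_sum]
        calc z ^ (-(u i)) * ∑ p ∈ Pi i, 1 / (p : ℝ) ≤ z ^ (-(u i)) * (2 * z ^ u i) :=
              mul_le_mul_of_nonneg_left (H.sup i) (Real.rpow_nonneg hz.le _)
          _ = 2 * (z ^ (-(u i)) * z ^ u i) := by ring
          _ = 2 := by rw [← Real.rpow_add hz]; simp
      refine (sum_le_sum h2).trans ?_
      rw [sum_const, nsmul_eq_mul, card_univ, mul_comm])
  have h2 := main_sum H.hd (fun p => 1 / (p : ℝ)) (fun p => by positivity) k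
  have h3 : z ^ K * ∏ i, (1 / (4 * (k i : ℝ))) ^ k i ≤ ∏ i, ek (fun p => 1 / (p : ℝ)) (Pi i) (k i) := by
    rw [hK, Real.rpow_sum_of_pos hz, ← prod_mul_distrib]
    apply Finset.prod_le_prod
    · intro i _
      positivity
    · intro i _
      have e1 : z ^ ((k i : ℝ) * u i) * (1 / (4 * (k i : ℝ))) ^ k i = (z ^ u i * (1 / (4 * (k i : ℝ)))) ^ k i := by
        rw [mul_comm (k i : ℝ), Real.rpow_mul hz.le, Real.rpow_natCast, ← mul_pow]
      rw [e1]
      apply ek_lower _ m0 _ hm0 (by positivity) _ (Pi i) (fun p _ => by positivity)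
      · intro p hp
        apply hm
        unfold PU
        rw [mem_biUnion]
        exact ⟨i, mem_univ i, hp⟩
      · rcases Nat.eq_zero_or_pos (k i) with h4 | h4
        · rw [h4]
          simp only [Nat.cast_zero, zero_mul]
          exact sum_nonneg fun p _ => by positivity
        · have h5 : (0 : ℝ) < k i := by exact_mod_cast h4
          have h6 : (k i : ℝ) * (z ^ u i * (1 / (4 * (k i : ℝ))) + m0) = z ^ u i / 4 + k i * m0 := by
            field_simp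
          rw [h6]
          have h7 := hkm i
          have h8 := slo i
          linarith
  have h4 : z ^ (K + g) * Real.exp (2 * Fintype.card ι) = z ^ K * (z ^ g * Real.exp (2 * Fintype.card ι)) := by
    rw [Real.rpow_add hz]; ring
  have h5 : EY (PU Pi) Y = ∑ s ∈ SY (PU Pi) Y, (-1 : ℝ) ^ s.card * ∏ p ∈ s, 1 / (p : ℝ) := by
    unfold EY
    apply sum_congr rfl
    intro s _
    push_cast
    rw [prod_div_distrib, prod_const_one]
  rw [h5, ← hK]
  rw [h4] at h1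
  have hzK : 0 < z ^ K := Real.rpow_pos_of_pos hz K
  have h6 : z ^ K * (z ^ g * Real.exp (2 * Fintype.card ι)) ≤ z ^ K * (cst / 2) := by
    apply mul_le_mul_of_nonneg_left _ hzK.le
    linarith
  have h7 : z ^ K * cst ≤ z ^ K * ∏ i, (1 / (4 * (k i : ℝ))) ^ k i := mul_le_mul_of_nonneg_left hcst hzK.le
  have h8 : cst / 2 * z ^ K = z ^ K * cst - z ^ K * (cst / 2) := by ring
  rw [h8]
  linarith

end

end Pool.Agent.H527.N
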