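import Mathlib
import Pool.Agent.H527.N.N15
import Pool.Agent.H527.N.N21

/-! The windows for a given modulus. -/

set_option autoImplicit false

namespace Pool.Agent.H527.N

open Finset Filter Topology

theorem tz (a : ℝ) (ha : 0 < a) : Tendsto (fun z : ℝ => z ^ a) (𝓝[>] 0) (𝓝 0) := by
  have h := (Real.continuousAt_rpow_const (0 : ℝ) a (Or.inr ha.le)).tendsto.mono_left
    (nhdsWithin_le_nhds (s := Set.Ioi (0 : ℝ)))
  rwa [Real.zero_rpow ha.ne'] at h

section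
variable {ι : Type} [Fintype ι] [DecidableEq ι]

/-- the lower exponents -/
noncomputable def lo (u : ι → ℝ) (z : ℝ) (i : ι) : ℝ := u i * Real.exp (-(z ^ u i))

theorem lo_pos {u : ι → ℝ} (hu : ∀ i, 0 < u i) (z : ℝ) (i : ι) : 0 < lo u z i := mul_pos (hu i) (Real.exp_pos _)

theorem lo_lt {u : ι → ℝ} (hu : ∀ i, 0 < u i) {z : ℝ} (hz : 0 < z) (i : ι) : lo u z i < u i := by
  unfold lo
  have h1 : Real.exp (-(z ^ u i)) < 1 := by
    rw [Real.exp_lt_one_iff]
    have := Real.rpow_pos_of_pos hz (u i)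
    linarith
  have := hu i
  nlinarith

theorem exists_z {J : ℕ} (B : Fin J → ℝ) (hB : ∀ j, 0 < B j) (u : ι → ℝ) (hu : ∀ i, 0 < u i)
    (k : Fin J → ι → ℕ) (g : ℝ) (hg : 0 < g) :
    ∃ z : ℝ, 0 < z ∧ z < 1 ∧ (∀ i i', u i < u i' → u i < lo u z i') ∧ ∑ i, 2 * z ^ u i ≤ 1 / 2 ∧
      (∀ j, ∀ m : ι → ℕ, B j + g ≤ ∑ i, (m i : ℝ) * u i → B j + g / 2 ≤ ∑ i, (m i : ℝ) * lo u z i) ∧
      ∀ j, 2 * (z ^ g * Real.exp (2 * Fintype.card ι)) ≤ ∏ i, (1 / (4 * (k j i : ℝ))) ^ k j i := by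
  classical
  have texp : ∀ i, Tendsto (fun z : ℝ => Real.exp (-(z ^ u i))) (𝓝[>] 0) (𝓝 1) := by
    intro i
    have h1 : Tendsto (fun z : ℝ => -(z ^ u i)) (𝓝[>] 0) (𝓝 (-0)) := (tz (u i) (hu i)).neg
    have h2 := (Real.continuous_exp.tendsto _).comp h1
    rw [neg_zero, Real.exp_zero] at h2
    exact h2
  have e1 : ∀ᶠ z : ℝ in 𝓝[>] 0, ∀ i i', u i < u i' → u i < lo u z i' := by
    rw [eventually_all]; intro i
    rw [eventually_all]; intro i'
    by_cases h : u i < u i'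
    · have h1 : Tendsto (fun z : ℝ => lo u z i') (𝓝[>] 0) (𝓝 (u i' * 1)) := (texp i').const_mul (u i')
      rw [mul_one] at h1
      filter_upwards [h1.eventually (lt_mem_nhds h)] with z hz _
      exact hz
    · exact Eventually.of_forall fun z h2 => absurd h2 h
  have e2 : ∀ᶠ z : ℝ in 𝓝[>] 0, ∑ i, 2 * z ^ u i < 1 / 2 := by
    have h1 : Tendsto (fun z : ℝ => ∑ i, 2 * z ^ u i) (𝓝[>] 0) (𝓝 (∑ i : ι, 2 * (0 : ℝ))) := by
      apply tendsto_finsetSum
      intro i _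
      exact (tz (u i) (hu i)).const_mul 2
    simp only [mul_zero, sum_const_zero] at h1
    exact h1.eventually (gt_mem_nhds (by norm_num))
  have e3 : ∀ᶠ z : ℝ in 𝓝[>] 0, ∀ (j : Fin J) (i : ι), B j + g / 2 < (B j + g) * Real.exp (-(z ^ u i)) := by
    rw [eventually_all]; intro j
    rw [eventually_all]; intro i
    have h1 : Tendsto (fun z : ℝ => (B j + g) * Real.exp (-(z ^ u i))) (𝓝[>] 0) (𝓝 ((B j + g) * 1)) :=
      (texp i).const_mul _
    exact h1.eventually (lt_mem_nhds (by linarith))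
  have e4 : ∀ᶠ z : ℝ in 𝓝[>] 0, ∀ j : Fin J, 2 * (z ^ g * Real.exp (2 * Fintype.card ι)) < ∏ i, (1 / (4 * (k j i : ℝ))) ^ k j i := by
    rw [eventually_all]; intro j
    have h1 : Tendsto (fun z : ℝ => 2 * (z ^ g * Real.exp (2 * Fintype.card ι))) (𝓝[>] 0)
        (𝓝 (2 * (0 * Real.exp (2 * Fintype.card ι)))) := ((tz g hg).mul_const _).const_mul 2
    rw [zero_mul, mul_zero] at h1
    apply h1.eventually (gt_mem_nhds _)
    apply prod_pos
    intro i _
    rcases Nat.eq_zero_or_pos (k j i) with h | h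
    · rw [h, pow_zero]; exact one_pos
    · have : (0 : ℝ) < k j i := by exact_mod_cast h
      positivity
  have e5 : ∀ᶠ z : ℝ in 𝓝[>] 0, z < 1 := by
    have h1 : Tendsto (fun z : ℝ => z) (𝓝[>] 0) (𝓝 0) := nhdsWithin_le_nhds
    exact h1.eventually (gt_mem_nhds one_pos)
  obtain ⟨z, f1, f2, f3, f4, f5, f6⟩ := (e1.and (e2.and (e3.and (e4.and (e5.and self_mem_nhdsWithin))))).exists
  refine ⟨z, f6, f5, f1, f2.le, ?_, fun j => (f4 j).le⟩
  intro j m hm
  have hBg : 0 < B j + g := by linarith [hB j]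
  have h1 : ∀ i ∈ (univ : Finset ι), (m i : ℝ) * u i * ((B j + g / 2) / (B j + g)) ≤ (m i : ℝ) * lo u z i := by
    intro i _
    unfold lo
    have h2 : (B j + g / 2) / (B j + g) ≤ Real.exp (-(z ^ u i)) := by
      rw [div_le_iff₀ hBg, mul_comm]
      exact (f3 j i).le
    have h3 := (hu i).le
    calc (m i : ℝ) * u i * ((B j + g / 2) / (B j + g)) ≤ (m i : ℝ) * u i * Real.exp (-(z ^ u i)) := by gcongr
      _ = _ := by ring
  refine le_trans ?_ (sum_le_sum h1)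
  rw [← sum_mul]
  have h2 : 0 ≤ (B j + g / 2) / (B j + g) := by
    have := hB j
    positivity
  calc B j + g / 2 = (B j + g) * ((B j + g / 2) / (B j + g)) := by field_simp
    _ ≤ _ := mul_le_mul_of_nonneg_right hm h2

/-- the window, without the removed prime -/
noncomputable def Wn (u : ι → ℝ) (z : ℝ) (Q ps : ℕ) (i : ι) : Finset ℕ := (win (lo u z i) (u i) Q).filter (fun p => p ≠ ps)

/-- the window, without the divisors of `q` -/
noncomputable def Wq (u : ι → ℝ) (z : ℝ) (Q ps q : ℕ) (i : ι) : Finset ℕ := (Wn u z Q ps i).filter (fun p => ¬ p ∣ q)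

theorem Pq_PU (u : ι → ℝ) (z : ℝ) (Q ps q : ℕ) : Pq (PU (Wn u z Q ps)) q = PU (Wq u z Q ps q) := by
  unfold Pq PU Wq
  ext p
  simp only [mem_filter, mem_biUnion]
  constructor
  · rintro ⟨⟨i, hi, hp⟩, h⟩
    exact ⟨i, hi, hp, h⟩
  · rintro ⟨i, hi, hp, h⟩
    exact ⟨⟨i, hi, hp⟩, h⟩

theorem RW.sub {u a : ι → ℝ} {L z : ℝ} {Pi Pi' : ι → Finset ℕ} (H : RW u a L z Pi) (h : ∀ i, Pi' i ⊆ Pi i) :
    RW u a L z Pi' where
  hd := fun i j hij => disjoint_of_subset_left (h i) (disjoint_of_subset_right (h j) (H.hd i j hij))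
  hpr := fun i p hp => H.hpr i p (h i hp)
  hlo := fun i p hp => H.hlo i p (h i hp)
  hup := fun i p hp => H.hup i p (h i hp)
  hcard := fun i => le_trans (by exact_mod_cast card_le_card (h i)) (H.hcard i)
  sup := fun i => le_trans (sum_le_sum_of_subset_of_nonneg (h i) fun p _ _ => by positivity) (H.sup i)

theorem win_mem {a b : ℝ} {Q p : ℕ} (hL : 0 < Real.log Q) (hp : p ∈ win a b Q) :
    p.Prime ∧ (Real.log Q) ^ a < (p : ℝ) ∧ (p : ℝ) ≤ (Real.log Q) ^ b := by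
  unfold win at hp
  rw [mem_filter, mem_Ioc] at hp
  refine ⟨hp.2, (Nat.floor_lt (Real.rpow_nonneg hL.le _)).1 hp.1.1, ?_⟩
  exact (Nat.le_floor_iff (Real.rpow_nonneg hL.le _)).1 hp.1.2

theorem win_card {a b : ℝ} {Q : ℕ} (hL : 0 < Real.log Q) : ((win a b Q).card : ℝ) ≤ (Real.log Q) ^ b := by
  have h1 : (win a b Q).card ≤ ⌊(Real.log Q) ^ b⌋₊ := by
    have h2 : win a b Q ⊆ Ioc 0 ⌊(Real.log Q) ^ b⌋₊ := by
      intro p hp
      unfold win at hp
      rw [mem_filter, mem_Ioc] at hp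
      rw [mem_Ioc]
      exact ⟨hp.2.pos, hp.1.2⟩
    have h3 := card_le_card h2
    rwa [Nat.card_Ioc, Nat.sub_zero] at h3
  exact (Nat.cast_le.2 h1).trans (Nat.floor_le (Real.rpow_nonneg hL.le _))

/-- the windows satisfy the conditions -/
theorem RW_Wn {u : ι → ℝ} (hinj : Function.Injective u) {z : ℝ}
    (hz1 : ∀ i i', u i < u i' → u i < lo u z i') {Q : ℕ} (hL : 1 ≤ Real.log Q)
    (hs : ∀ i, ∑ p ∈ win (lo u z i) (u i) Q, 1 / (p : ℝ) ≤ 2 * z ^ u i) (ps : ℕ) :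
    RW u (lo u z) (Real.log Q) z (Wn u z Q ps) := by
  have hL0 : 0 < Real.log Q := by linarith
  have H : RW u (lo u z) (Real.log Q) z (fun i => win (lo u z i) (u i) Q) := by
    refine ⟨?_, fun i p hp => (win_mem hL0 hp).1, fun i p hp => (win_mem hL0 hp).2.1.le,
      fun i p hp => (win_mem hL0 hp).2.2, fun i => win_card hL0, hs⟩
    intro i j hij
    rw [disjoint_left]
    intro p hp hp2
    have h1 := win_mem hL0 hp
    have h2 := win_mem hL0 hp2
    rcases lt_trichotomy (u i) (u j) with h | h | h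
    · have h3 := Real.rpow_le_rpow_of_exponent_le hL (hz1 i j h).le
      linarith [h1.2.2, h2.2.1]
    · exact hij (hinj h)
    · have h3 := Real.rpow_le_rpow_of_exponent_le hL (hz1 j i h).le
      linarith [h1.2.1, h2.2.2]
  exact H.sub fun i => filter_subset _ _

end

/-- few moduli have many small prime factors in `P` -/
theorem few_div (P : Finset ℕ) (Q : ℕ) (m0 η : ℝ) (hm : ∀ p ∈ P, 1 / (p : ℝ) ≤ m0)
    (hs : ∑ p ∈ P, 1 / (p : ℝ) ≤ 1 / 2) (hη : 0 < η) (hm0 : 0 ≤ m0) :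
    (((Ioc Q (2 * Q)).filter (fun q => η < ∑ p ∈ P.filter (fun p => p ∣ q), 1 / (p : ℝ))).card : ℝ) ≤ m0 / η * Q := by
  classical
  have h1 : ∑ q ∈ Ioc Q (2 * Q), ∑ p ∈ P.filter (fun p => p ∣ q), 1 / (p : ℝ) ≤ m0 * Q := by
    have e1 : ∑ q ∈ Ioc Q (2 * Q), ∑ p ∈ P.filter (fun p => p ∣ q), 1 / (p : ℝ) =
        ∑ p ∈ P, (1 / (p : ℝ)) * (((Ioc Q (2 * Q)).filter (fun q => p ∣ q)).card : ℝ) := by
      have e2 : ∀ q ∈ Ioc Q (2 * Q), ∑ p ∈ P.filter (fun p => p ∣ q), 1 / (p : ℝ) =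
          ∑ p ∈ P, if p ∣ q then 1 / (p : ℝ) else 0 := fun q _ => by rw [sum_filter]
      rw [sum_congr rfl e2, sum_comm]
      apply sum_congr rfl
      intro p _
      rw [← sum_filter, sum_const, nsmul_eq_mul, mul_comm]
    rw [e1]
    have e3 : ∀ p ∈ P, (1 / (p : ℝ)) * (((Ioc Q (2 * Q)).filter (fun q => p ∣ q)).card : ℝ) ≤ 2 * Q * m0 * (1 / (p : ℝ)) := by
      intro p hp
      have h2 : ((Ioc Q (2 * Q)).filter (fun q => p ∣ q)).card ≤ 2 * Q / p := by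
        have h3 : (Ioc Q (2 * Q)).filter (fun q => p ∣ q) ⊆ (Ioc 0 (2 * Q)).filter (fun q => p ∣ q) := by
          apply filter_subset_filter
          intro q hq
          rw [mem_Ioc] at hq ⊢
          omega
        have h4 := card_le_card h3
        rwa [Nat.Ioc_filter_dvd_card_eq_div] at h4
      have h3 : (((Ioc Q (2 * Q)).filter (fun q => p ∣ q)).card : ℝ) ≤ 2 * Q * (1 / (p : ℝ)) := by
        have h4 : (((Ioc Q (2 * Q)).filter (fun q => p ∣ q)).card : ℝ) ≤ ((2 * Q / p : ℕ) : ℝ) := by exact_mod_cast h2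
        refine h4.trans (Nat.cast_div_le.trans (le_of_eq ?_))
        push_cast
        ring
      have h4 := hm p hp
      have h5 : 0 ≤ 1 / (p : ℝ) := by positivity
      calc (1 / (p : ℝ)) * (((Ioc Q (2 * Q)).filter (fun q => p ∣ q)).card : ℝ) ≤ (1 / (p : ℝ)) * (2 * Q * (1 / (p : ℝ))) := by gcongr
        _ = 2 * Q * (1 / (p : ℝ)) * (1 / (p : ℝ)) := by ring
        _ ≤ 2 * Q * m0 * (1 / (p : ℝ)) := by gcongr
    refine (sum_le_sum e3).trans ?_
    rw [← mul_sum]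
    have h6 : 0 ≤ 2 * (Q : ℝ) * m0 := by positivity
    calc 2 * (Q : ℝ) * m0 * ∑ p ∈ P, 1 / (p : ℝ) ≤ 2 * (Q : ℝ) * m0 * (1 / 2) := by gcongr
      _ = _ := by ring
  have h2 : (((Ioc Q (2 * Q)).filter (fun q => η < ∑ p ∈ P.filter (fun p => p ∣ q), 1 / (p : ℝ))).card : ℝ) * η ≤ m0 * Q := by
    refine le_trans ?_ h1
    rw [← nsmul_eq_mul]
    refine le_trans (card_nsmul_le_sum _ (fun q => ∑ p ∈ P.filter (fun p => p ∣ q), 1 / (p : ℝ)) η ?_) ?_
    · intro q hq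
      exact (mem_filter.1 hq).2.le
    · apply sum_le_sum_of_subset_of_nonneg (filter_subset _ _)
      intro q _ _
      exact sum_nonneg fun p _ => by positivity
  rw [div_mul_eq_mul_div, le_div_iff₀ hη]
  exact h2

end Pool.Agent.H527.N
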