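import Mathlib
import Pool.Agent.H527.N.N22

/-! Several scales at once. -/

set_option autoImplicit false

namespace Pool.Agent.H527.N

open Finset Pool.Agent.H527.AP Pool.Agent.H527.S Pool.Agent.H527.M

/-- the classes which are typical at all the scales -/
noncomputable def Gd (Q : ℕ) (Ys : Finset ℕ) (P0 : Finset ℕ) (η : ℝ) (q : ℕ) : Finset ℕ :=
  (rows (∏ p ∈ Pq P0 q, p) q 0 q).filter
    (fun a => ∀ Y ∈ Ys, |(Nn Y q a : ℝ) - mu Q Y (Pq P0 q) q| ≤ η * mu Q Y (Pq P0 q) q)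

theorem multi {Q D f N₀ : ℕ} {P0 Ys : Finset ℕ} {k : ℕ → ℕ} {Er : ℕ → ℝ} {e η κ : ℝ} (hP0 : ∀ p ∈ P0, p.Prime)
    (hV : ∀ Y ∈ Ys, ∀ g, g ∣ ∏ p ∈ P0, p → Var Q g Y (k Y) D f N₀ (Pq P0 g) (Er Y) e) (hη : 0 < η) (hκ : 0 < κ)
    (h2 : 1 / 2 ≤ ∏ p ∈ P0, (1 - 1 / (p : ℝ))) (he : 14400 * e ≤ η ^ 2 * κ ^ 3) (hκY : κ * Ys.card ≤ 1 / 2) :
    (((Ioc Q (2 * Q)).filter (fun q => ¬ ((rows (∏ p ∈ Pq P0 q, p) q 0 q).card : ℝ) / 2 ≤ (Gd Q Ys P0 η q).card)).card : ℝ) ≤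
      κ * Ys.card * Q := by
  classical
  have hsub : (Ioc Q (2 * Q)).filter (fun q => ¬ ((rows (∏ p ∈ Pq P0 q, p) q 0 q).card : ℝ) / 2 ≤ (Gd Q Ys P0 η q).card) ⊆
      Ys.biUnion (fun Y => (Ioc Q (2 * Q)).filter (fun q => ¬ ((Bad Q Y P0 η q).card : ℝ) ≤
        κ * ((rows (∏ p ∈ Pq P0 q, p) q 0 q).card : ℝ))) := by
    intro q hq
    rw [mem_filter] at hq
    rw [mem_biUnion]
    by_contra hcon
    apply hq.2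
    have h3 : ∀ Y ∈ Ys, ((Bad Q Y P0 η q).card : ℝ) ≤ κ * ((rows (∏ p ∈ Pq P0 q, p) q 0 q).card : ℝ) := by
      intro Y hY
      by_contra h4
      exact hcon ⟨Y, hY, mem_filter.2 ⟨hq.1, h4⟩⟩
    have h4 : rows (∏ p ∈ Pq P0 q, p) q 0 q ⊆ Gd Q Ys P0 η q ∪ Ys.biUnion (fun Y => Bad Q Y P0 η q) := by
      intro a ha
      rw [mem_union, mem_biUnion]
      by_cases h5 : ∀ Y ∈ Ys, |(Nn Y q a : ℝ) - mu Q Y (Pq P0 q) q| ≤ η * mu Q Y (Pq P0 q) q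
      · left
        unfold Gd
        exact mem_filter.2 ⟨ha, h5⟩
      · right
        push Not at h5
        obtain ⟨Y, hY, h6⟩ := h5
        refine ⟨Y, hY, ?_⟩
        unfold Bad
        exact mem_filter.2 ⟨ha, not_le.2 h6⟩
    have h5 := (card_le_card h4).trans ((card_union_le _ _).trans (Nat.add_le_add_left card_biUnion_le _))
    have h6 : ((rows (∏ p ∈ Pq P0 q, p) q 0 q).card : ℝ) ≤ ((Gd Q Ys P0 η q).card : ℝ) + ∑ Y ∈ Ys, ((Bad Q Y P0 η q).card : ℝ) := by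
      exact_mod_cast h5
    have h7 : ∑ Y ∈ Ys, ((Bad Q Y P0 η q).card : ℝ) ≤ ∑ _Y ∈ Ys, κ * ((rows (∏ p ∈ Pq P0 q, p) q 0 q).card : ℝ) := sum_le_sum h3
    rw [sum_const, nsmul_eq_mul] at h7
    have h8 : (Ys.card : ℝ) * (κ * ((rows (∏ p ∈ Pq P0 q, p) q 0 q).card : ℝ)) ≤
        1 / 2 * ((rows (∏ p ∈ Pq P0 q, p) q 0 q).card : ℝ) := by
      rw [← mul_assoc, mul_comm (Ys.card : ℝ) κ]
      exact mul_le_mul_of_nonneg_right hκY (Nat.cast_nonneg _)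
    linarith
  have h3 : (((Ioc Q (2 * Q)).filter (fun q => ¬ ((rows (∏ p ∈ Pq P0 q, p) q 0 q).card : ℝ) / 2 ≤ (Gd Q Ys P0 η q).card)).card : ℝ) ≤
      ∑ Y ∈ Ys, (((Ioc Q (2 * Q)).filter (fun q => ¬ ((Bad Q Y P0 η q).card : ℝ) ≤
        κ * ((rows (∏ p ∈ Pq P0 q, p) q 0 q).card : ℝ))).card : ℝ) := by
    have := (card_le_card hsub).trans card_biUnion_le
    exact_mod_cast this
  refine h3.trans ?_
  have h4 : ∀ Y ∈ Ys, (((Ioc Q (2 * Q)).filter (fun q => ¬ ((Bad Q Y P0 η q).card : ℝ) ≤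
        κ * ((rows (∏ p ∈ Pq P0 q, p) q 0 q).card : ℝ))).card : ℝ) ≤ κ * Q := by
    intro Y hY
    exact typical hP0 (hV Y hY) hη hκ h2 he
  refine (sum_le_sum h4).trans (le_of_eq ?_)
  rw [sum_const, nsmul_eq_mul]
  ring

theorem mu_eq {P : Finset ℕ} (hP : ∀ p ∈ P, p.Prime) (Q Y q : ℕ) :
    mu Q Y P q = ((Ls (∏ p ∈ P, p) Y).card : ℝ) / (∏ p ∈ P, (1 - 1 / (p : ℝ))) * ((q : ℝ) / (Nat.totient q * Real.log Q)) := by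
  have hW : 0 < ∏ p ∈ P, p := Finset.prod_pos fun p hp => (hP p hp).pos
  have hW0 : (0 : ℝ) < ((∏ p ∈ P, p : ℕ) : ℝ) := by exact_mod_cast hW
  have hφ : (0 : ℝ) < (Nat.totient (∏ p ∈ P, p) : ℝ) := by exact_mod_cast Nat.totient_pos.2 hW
  have h1 := tot_prod P hP
  unfold mu hm
  obtain ⟨W, hWe⟩ : ∃ W : ℝ, W = ((∏ p ∈ P, p : ℕ) : ℝ) := ⟨_, rfl⟩
  obtain ⟨Pr, hPr⟩ : ∃ Pr : ℝ, Pr = ∏ p ∈ P, (1 - 1 / (p : ℝ)) := ⟨_, rfl⟩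
  obtain ⟨l, hl⟩ : ∃ l : ℝ, l = ((Ls (∏ p ∈ P, p) Y).card : ℝ) := ⟨_, rfl⟩
  obtain ⟨φ, hφe⟩ : ∃ φ : ℝ, φ = (Nat.totient q : ℝ) := ⟨_, rfl⟩
  obtain ⟨G, hG⟩ : ∃ G : ℝ, G = Real.log Q := ⟨_, rfl⟩
  rw [← hl, ← hWe, ← hPr, ← hφe, ← hG]
  rw [← hWe, ← hPr] at h1
  rw [h1] at hφ ⊢
  rw [← hWe] at hW0
  have hPr0 : Pr ≠ 0 := by
    intro h
    rw [h, zero_mul] at hφ
    exact lt_irrefl _ hφ
  rcases eq_or_ne φ 0 with h0 | h0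
  · rw [h0]; simp
  rcases eq_or_ne G 0 with h3 | h3
  · rw [h3]; simp
  field_simp

end Pool.Agent.H527.N
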