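import Mathlib
import Pool.Agent.H527.N.N23

/-! The profile: a choice of all the parameters, and the deviation for one modulus. -/

set_option autoImplicit false

namespace Pool.Agent.H527.N

open Finset Filter Topology

/-- the parameters -/
structure Pf {J : ℕ} (B : Fin J → ℝ) (par : Fin J → ℕ) (v : ℝ) (u : Fin J × Bool → ℝ) (k : Fin J → Fin J × Bool → ℕ)
    (g z c1 β δ1 : ℝ) : Prop where
  hv : 0 < v
  hv1 : v ≤ 1 / 40
  hB1 : ∀ j, 1 < B j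
  hu : ∀ i, 0 < u i
  huv : ∀ i, u i ≤ v
  hinj : Function.Injective u
  hpar : ∀ j, (∑ i, k j i) % 2 = par j % 2
  hg : 0 < g
  kB : ∀ j, B j + g ≤ ∑ i, (k j i : ℝ) * u i
  gap : ∀ j, ∀ m : Fin J × Bool → ℕ, (∑ i, (m i : ℝ) * u i ≤ B j - g) ∨ m = k j ∨
    ∑ i, (k j i : ℝ) * u i + g ≤ ∑ i, (m i : ℝ) * u i
  hz0 : 0 < z
  hz1 : z < 1
  hdis : ∀ i i', u i < u i' → u i < lo u z i'
  hsum : ∑ i, 2 * z ^ u i ≤ 1 / 2
  hlo : ∀ j, ∀ m : Fin J × Bool → ℕ, B j + g ≤ ∑ i, (m i : ℝ) * u i → B j + g / 2 ≤ ∑ i, (m i : ℝ) * lo u z i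
  hcst : ∀ j, 2 * (z ^ g * Real.exp (2 * Fintype.card (Fin J × Bool))) ≤ ∏ i, (1 / (4 * (k j i : ℝ))) ^ k j i
  hc1 : 0 < c1
  c1v : c1 ≤ v
  c1lo : ∀ i, c1 ≤ lo u z i
  hβ : 0 < β
  hβB : ∀ j, 1 + β < B j
  hβg : β ≤ g / 2
  hδ : 0 < δ1
  hδ1 : δ1 ≤ 1
  hδj : ∀ j, δ1 ≤ (∏ i, (1 / (4 * (k j i : ℝ))) ^ k j i) / 2 * z ^ (∑ i, (k j i : ℝ) * u i)

theorem exists_Pf {J : ℕ} (B : Fin J → ℝ) (hB1 : ∀ j, 1 < B j) (hB : StrictMono B) (par : Fin J → ℕ) (v : ℝ)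
    (hv : 0 < v) (hv1 : v ≤ 1 / 40) : ∃ u k g z c1 β δ1, Pf B par v u k g z c1 β δ1 := by
  classical
  have hB0 : ∀ j, 0 < B j := fun j => by linarith [hB1 j]
  obtain ⟨u, k, hu, hinj, hpar, hk⟩ := conf J B hB0 hB par v hv
  have hu0 : ∀ i, 0 < u i := fun i => (hu i).1
  obtain ⟨g, hg, hgap⟩ := gaps B u hu0 k (fun j => (hk j).1) (fun j => (hk j).2)
  obtain ⟨z, hz0, hz1, hdis, hsum, hlo, hcst⟩ := exists_z B hB0 u hu0 k g hg
  obtain ⟨c1, hc1, hc1'⟩ := fin_gap (Set.univ : Set (Fin J × Bool)) Set.finite_univ (fun i => lo u z i)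
    (fun i _ => lo_pos hu0 z i)
  obtain ⟨β, hβ, hβ'⟩ := fin_gap (Set.univ : Set (Fin J)) Set.finite_univ (fun j => (B j - 1) / 2)
    (fun j _ => by have := hB1 j; linarith)
  have hprod : ∀ j, 0 < ∏ i, (1 / (4 * (k j i : ℝ))) ^ k j i := by
    intro j
    apply prod_pos
    intro i _
    rcases Nat.eq_zero_or_pos (k j i) with h | h
    · rw [h, pow_zero]; exact one_pos
    · have : (0 : ℝ) < k j i := by exact_mod_cast h
      positivity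
  obtain ⟨δ1, hδ, hδ'⟩ := fin_gap (Set.univ : Set (Fin J)) Set.finite_univ
    (fun j => (∏ i, (1 / (4 * (k j i : ℝ))) ^ k j i) / 2 * z ^ (∑ i, (k j i : ℝ) * u i))
    (fun j _ => mul_pos (half_pos (hprod j)) (Real.rpow_pos_of_pos hz0 _))
  refine ⟨u, k, g, z, min c1 v, min β (g / 2), min δ1 1, ?_⟩
  exact
    { hv := hv, hv1 := hv1, hB1 := hB1, hu := hu0, huv := fun i => (hu i).2, hinj := hinj, hpar := hpar, hg := hg,
      kB := fun j => (hgap j).1, gap := fun j => (hgap j).2, hz0 := hz0, hz1 := hz1, hdis := hdis, hsum := hsum,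
      hlo := hlo, hcst := hcst, hc1 := lt_min hc1 hv, c1v := min_le_right _ _,
      c1lo := fun i => (min_le_left _ _).trans (hc1' i (Set.mem_univ i)), hβ := lt_min hβ (half_pos hg),
      hβB := fun j => by
        have h1 := hβ' j (Set.mem_univ j)
        have h2 := min_le_left β (g / 2)
        have h3 := hB1 j
        linarith
      hβg := min_le_right _ _, hδ := lt_min hδ one_pos, hδ1 := min_le_right _ _,
      hδj := fun j => (min_le_left _ _).trans (hδ' j (Set.mem_univ j)) }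

theorem fin_pos (N l Y E Pr S δ q' : ℝ) (hY : 0 < Y) (hP0 : 0 < Pr) (hP1 : Pr ≤ 1) (hδ : 0 < δ) (hδ1 : δ ≤ 1)
    (hE : δ ≤ E - Pr) (hl : Y * E - S ≤ l) (hS : S ≤ δ / 8 * Y) (hq : 0 ≤ q')
    (hN : (1 - δ / 8) * (l / Pr * q') ≤ N) : (1 + δ / 2) * (Y * q') ≤ N := by
  have h1 : Y * (1 + 7 / 8 * δ) ≤ l / Pr := by
    rw [le_div_iff₀ hP0]
    have h2 : Y * (Pr + 7 / 8 * δ) ≤ l := by nlinarith
    have h3 : Y * (1 + 7 / 8 * δ) * Pr ≤ Y * (Pr + 7 / 8 * δ) := by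
      have : 0 ≤ Y * δ * (1 - Pr) := by
        have : 0 ≤ 1 - Pr := by linarith
        positivity
      nlinarith
    linarith
  have h4 : (1 - δ / 8) * (Y * (1 + 7 / 8 * δ) * q') ≤ N := by
    refine le_trans ?_ hN
    have : 0 ≤ 1 - δ / 8 := by linarith
    gcongr
  refine le_trans ?_ h4
  have h5 : (1 + δ / 2) ≤ (1 - δ / 8) * (1 + 7 / 8 * δ) := by nlinarith
  have h6 : 0 ≤ Y * q' := by positivity
  calc (1 + δ / 2) * (Y * q') ≤ ((1 - δ / 8) * (1 + 7 / 8 * δ)) * (Y * q') := by gcongr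
    _ = _ := by ring

theorem fin_neg (N l Y E Pr S δ q' : ℝ) (hY : 0 < Y) (hP0 : 0 < Pr) (hP1 : Pr ≤ 1) (hδ : 0 < δ)
    (hE : δ ≤ Pr - E) (hl : l ≤ Y * E + S) (hS : S ≤ δ / 8 * Y) (hq : 0 ≤ q')
    (hN : N ≤ (1 + δ / 8) * (l / Pr * q')) : N ≤ (1 - δ / 2) * (Y * q') := by
  have h1 : l / Pr ≤ Y * (1 - 7 / 8 * δ) := by
    rw [div_le_iff₀ hP0]
    have h2 : l ≤ Y * (Pr - 7 / 8 * δ) := by nlinarith
    have h3 : Y * (Pr - 7 / 8 * δ) ≤ Y * (1 - 7 / 8 * δ) * Pr := by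
      have : 0 ≤ Y * δ * (1 - Pr) := by
        have : 0 ≤ 1 - Pr := by linarith
        positivity
      nlinarith
    linarith
  have h4 : N ≤ (1 + δ / 8) * (Y * (1 - 7 / 8 * δ) * q') := by
    refine hN.trans ?_
    gcongr
  refine h4.trans ?_
  have h5 : (1 + δ / 8) * (1 - 7 / 8 * δ) ≤ 1 - δ / 2 := by nlinarith
  have h6 : 0 ≤ Y * q' := by positivity
  calc (1 + δ / 8) * (Y * (1 - 7 / 8 * δ) * q') = ((1 + δ / 8) * (1 - 7 / 8 * δ)) * (Y * q') := by ring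
    _ ≤ _ := by gcongr

end Pool.Agent.H527.N
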