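import Mathlib
import Pool.Agent.H527.N.N24

/-! The facts for a large `Q`. -/

set_option autoImplicit false

namespace Pool.Agent.H527.N

open Finset Filter Topology Pool.Agent.H527.M Pool.Agent.H527.S

/-- the scale -/
noncomputable def Ysc (c b : ℝ) (Q : ℕ) : ℕ := ⌊c * (Real.log Q) ^ b⌋₊

/-- the facts for a large `Q` -/
structure Lq {J : ℕ} (B : Fin J → ℝ) (u : Fin J × Bool → ℝ) (k : Fin J → Fin J × Bool → ℕ)
    (g z c1 β δ1 η0 A : ℝ) (C : Finset ℝ) (Q : ℕ) : Prop where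
  hL : 2 ≤ Real.log Q
  slo : ∀ i, 3 / 4 * z ^ u i ≤ ∑ p ∈ win (lo u z i) (u i) Q, 1 / (p : ℝ)
  sup : ∀ i, ∑ p ∈ win (lo u z i) (u i) Q, 1 / (p : ℝ) ≤ 3 / 2 * z ^ u i
  hm : ∀ i, (Real.log Q) ^ (-c1) ≤ z ^ u i / 8
  hη : ∀ i, η0 ≤ z ^ u i / 8
  hkm : ∀ j i, (k j i : ℝ) * (Real.log Q) ^ (-c1) ≤ z ^ u i / 4
  y1 : ∀ j, ∀ c ∈ C, (Real.log Q) ^ (B j - g / 2) ≤ (Ysc c (B j) Q : ℝ)
  y2 : ∀ j, ∀ c ∈ C, (Ysc c (B j) Q : ℝ) ≤ (Real.log Q) ^ (B j + g / 4)
  y3 : ∀ j, ∀ c ∈ C, (Real.log Q) ^ (1 + β) ≤ (Ysc c (B j) Q : ℝ)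
  y4 : ∀ j, ∀ c ∈ C, (Ysc c (B j) Q : ℝ) ≤ (Real.log Q) ^ A
  y5 : ∀ j, Real.exp (Fintype.card (Fin J × Bool)) * (Real.log Q) ^ (B j - g) ≤ δ1 / 8 * (Real.log Q) ^ (B j - g / 2)

theorem tendsto_logN : Tendsto (fun x : ℕ => Real.log (x : ℝ)) atTop atTop :=
  Real.tendsto_log_atTop.comp tendsto_natCast_atTop_atTop

theorem ev_floor (c b b1 b2 : ℝ) (hc : 0 < c) (hb : 0 < b) (h1 : b1 < b) (h2 : b < b2) :
    ∀ᶠ L : ℝ in atTop, L ^ b1 ≤ (⌊c * L ^ b⌋₊ : ℝ) ∧ (⌊c * L ^ b⌋₊ : ℝ) ≤ L ^ b2 := by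
  have tb : Tendsto (fun L : ℝ => L ^ b) atTop atTop := tendsto_rpow_atTop hb
  filter_upwards [as_pow_pow b1 b (2 / c) h1, as_pow_pow b b2 c h2, tb.eventually_ge_atTop (2 / c), eventually_gt_atTop 0]
    with L a1 a2 a3 a4
  have h3 : 0 ≤ c * L ^ b := by positivity
  refine ⟨?_, (Nat.floor_le h3).trans a2⟩
  have h4 := Nat.lt_floor_add_one (c * L ^ b)
  rw [div_le_iff₀ hc] at a3
  rw [div_mul_eq_mul_div, div_le_iff₀ hc] at a1
  linarith

theorem Pf.ev {J : ℕ} {B : Fin J → ℝ} {par : Fin J → ℕ} {v : ℝ} {u : Fin J × Bool → ℝ} {k : Fin J → Fin J × Bool → ℕ}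
    {g z c1 β δ1 : ℝ} (H : Pf B par v u k g z c1 β δ1) (C : Finset ℝ) (hC : ∀ c ∈ C, 0 < c) :
    ∃ η0 A : ℝ, 0 < η0 ∧ 0 < A ∧ ∀ᶠ Q : ℕ in atTop, Lq B u k g z c1 β δ1 η0 A C Q := by
  classical
  obtain ⟨η0, hη0, hη0'⟩ := fin_gap (Set.univ : Set (Fin J × Bool)) Set.finite_univ (fun i => z ^ u i / 8)
    (fun i _ => by have := Real.rpow_pos_of_pos H.hz0 (u i); linarith)
  obtain ⟨A, hA, hA'⟩ : ∃ A : ℝ, 0 < A ∧ ∀ j, B j < A := by
    refine ⟨∑ j, B j + 1, ?_, fun j => ?_⟩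
    · have : 0 ≤ ∑ j, B j := sum_nonneg fun j _ => by linarith [H.hB1 j]
      linarith
    · have := single_le_sum (f := B) (fun j _ => by linarith [H.hB1 j]) (mem_univ j)
      linarith
  refine ⟨η0, A, hη0, hA, ?_⟩
  have hzu : ∀ i, 0 < z ^ u i := fun i => Real.rpow_pos_of_pos H.hz0 _
  have hws : ∀ i, Tendsto (fun Q : ℕ => ∑ p ∈ win (lo u z i) (u i) Q, (1 : ℝ) / p) atTop (𝓝 (z ^ u i)) := by
    intro i
    have h1 := (win_sum (lo u z i) (u i) (lo_pos H.hu z i) (lo_lt H.hu H.hz0 i)).comp tendsto_logN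
    have h2 : Real.log (u i / lo u z i) = z ^ u i := by
      unfold lo
      rw [div_mul_cancel_left₀ (H.hu i).ne', ← Real.exp_neg, neg_neg, Real.log_exp]
    rw [h2] at h1
    exact h1
  have e1 : ∀ᶠ Q : ℕ in atTop, ∀ i, 3 / 4 * z ^ u i < ∑ p ∈ win (lo u z i) (u i) Q, 1 / (p : ℝ) := by
    rw [eventually_all]; intro i
    exact (hws i).eventually (lt_mem_nhds (by linarith [hzu i]))
  have e2 : ∀ᶠ Q : ℕ in atTop, ∀ i, ∑ p ∈ win (lo u z i) (u i) Q, 1 / (p : ℝ) < 3 / 2 * z ^ u i := by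
    rw [eventually_all]; intro i
    exact (hws i).eventually (gt_mem_nhds (by linarith [hzu i]))
  have t1 : Tendsto (fun Q : ℕ => (Real.log Q) ^ (-c1)) atTop (𝓝 0) := (tendsto_rpow_neg_atTop H.hc1).comp tendsto_logN
  have e3 : ∀ᶠ Q : ℕ in atTop, ∀ i, (Real.log Q) ^ (-c1) < z ^ u i / 8 := by
    rw [eventually_all]; intro i
    exact t1.eventually (gt_mem_nhds (by linarith [hzu i]))
  have e4 : ∀ᶠ Q : ℕ in atTop, ∀ (j : Fin J) (i : Fin J × Bool), (k j i : ℝ) * (Real.log Q) ^ (-c1) < z ^ u i / 4 := by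
    rw [eventually_all]; intro j
    rw [eventually_all]; intro i
    have t2 : Tendsto (fun Q : ℕ => (k j i : ℝ) * (Real.log Q) ^ (-c1)) atTop (𝓝 ((k j i : ℝ) * 0)) := t1.const_mul _
    rw [mul_zero] at t2
    exact t2.eventually (gt_mem_nhds (by linarith [hzu i]))
  have hfl : ∀ b1 b2 : Fin J → ℝ, (∀ j, b1 j < B j) → (∀ j, B j < b2 j) → ∀ᶠ Q : ℕ in atTop, ∀ j, ∀ c ∈ C,
      (Real.log Q) ^ b1 j ≤ (Ysc c (B j) Q : ℝ) ∧ (Ysc c (B j) Q : ℝ) ≤ (Real.log Q) ^ b2 j := by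
    intro b1 b2 h1 h2
    rw [eventually_all]; intro j
    have h3 := (eventually_all_finset C).2 (fun c hc => tendsto_logN.eventually
      (ev_floor c (B j) (b1 j) (b2 j) (hC c hc) (by linarith [H.hB1 j]) (h1 j) (h2 j)))
    exact h3
  have e5 := hfl (fun j => B j - g / 2) (fun j => B j + g / 4) (fun j => by linarith [H.hg]) (fun j => by linarith [H.hg])
  have e6 := hfl (fun _ => 1 + β) (fun _ => A) H.hβB hA'
  have e7 : ∀ᶠ Q : ℕ in atTop, ∀ j, Real.exp (Fintype.card (Fin J × Bool)) * (Real.log Q) ^ (B j - g) ≤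
      δ1 / 8 * (Real.log Q) ^ (B j - g / 2) := by
    rw [eventually_all]; intro j
    filter_upwards [tendsto_logN.eventually (as_pow_pow (B j - g) (B j - g / 2)
      (Real.exp (Fintype.card (Fin J × Bool)) / (δ1 / 8)) (by linarith [H.hg]))] with Q h
    have hδ := H.hδ
    rw [div_mul_eq_mul_div, div_le_iff₀ (by positivity)] at h
    linarith
  filter_upwards [tendsto_logN.eventually_ge_atTop 2, e1, e2, e3, e4, e5, e6, e7] with Q a0 a1 a2 a3 a4 a5 a6 a7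
  exact ⟨a0, fun i => (a1 i).le, fun i => (a2 i).le, fun i => (a3 i).le, fun i => hη0' i (Set.mem_univ i),
    fun j i => (a4 j i).le, fun j c hc => (a5 j c hc).1, fun j c hc => (a5 j c hc).2, fun j c hc => (a6 j c hc).1,
    fun j c hc => (a6 j c hc).2, a7⟩

section
variable {J : ℕ} {B : Fin J → ℝ} {par : Fin J → ℕ} {v : ℝ} {u : Fin J × Bool → ℝ} {k : Fin J → Fin J × Bool → ℕ}
    {g z c1 β δ1 η0 A : ℝ} {C : Finset ℝ} {Q : ℕ}

theorem Pf.RWn (H : Pf B par v u k g z c1 β δ1) (F : Lq B u k g z c1 β δ1 η0 A C Q) (ps : ℕ) :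
    RW u (lo u z) (Real.log Q) z (Wn u z Q ps) := by
  apply RW_Wn H.hinj H.hdis (by linarith [F.hL])
  intro i
  have h1 := F.sup i
  have h2 := Real.rpow_pos_of_pos H.hz0 (u i)
  linarith

/-- general facts on the union of the windows -/
theorem Pf.P0 (H : Pf B par v u k g z c1 β δ1) (F : Lq B u k g z c1 β δ1 η0 A C Q) (ps : ℕ) :
    PU (Wn u z Q ps) ⊆ win c1 v Q ∧ ps ∉ PU (Wn u z Q ps) ∧ ∑ p ∈ PU (Wn u z Q ps), 1 / (p : ℝ) ≤ 1 / 2 ∧
    (∀ p ∈ PU (Wn u z Q ps), p.Prime) ∧ ∀ p ∈ PU (Wn u z Q ps), 1 / (p : ℝ) ≤ (Real.log Q) ^ (-c1) := by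
  have hL := F.hL
  have hL0 : 0 < Real.log Q := by linarith
  have hsub : PU (Wn u z Q ps) ⊆ win c1 v Q := by
    intro p hp
    unfold PU Wn at hp
    rw [mem_biUnion] at hp
    obtain ⟨i, _, hi⟩ := hp
    have h1 := (mem_filter.1 hi).1
    unfold win at h1 ⊢
    rw [mem_filter, mem_Ioc] at h1 ⊢
    refine ⟨⟨lt_of_le_of_lt (Nat.floor_le_floor ?_) h1.1.1, h1.1.2.trans (Nat.floor_le_floor ?_)⟩, h1.2⟩
    · exact Real.rpow_le_rpow_of_exponent_le (by linarith) (H.c1lo i)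
    · exact Real.rpow_le_rpow_of_exponent_le (by linarith) (H.huv i)
  refine ⟨hsub, ?_, ?_, ?_, ?_⟩
  · intro hp
    unfold PU Wn at hp
    rw [mem_biUnion] at hp
    obtain ⟨i, _, hi⟩ := hp
    exact (mem_filter.1 hi).2 rfl
  · rw [sum_PU (H.RWn F ps).hd]
    refine le_trans (sum_le_sum (g := fun i => 2 * z ^ u i) ?_) H.hsum
    intro i _
    exact (H.RWn F ps).sup i
  · intro p hp
    exact (win_mem hL0 (hsub hp)).1
  · intro p hp
    have h1 := (win_mem hL0 (hsub hp)).2.1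
    rw [Real.rpow_neg hL0.le, ← one_div]
    apply one_div_le_one_div_of_le (Real.rpow_pos_of_pos hL0 _) h1.le

/-- the scale condition -/
theorem Pf.SCj (H : Pf B par v u k g z c1 β δ1) (F : Lq B u k g z c1 β δ1 η0 A C Q) (j : Fin J) {c : ℝ} (hc : c ∈ C) :
    SC u (lo u z) (Real.log Q) (B j) g (k j) (Ysc c (B j) Q) :=
  ⟨H.hg, by linarith [H.hB1 j], H.kB j, H.gap j, H.hlo j, F.y1 j c hc, F.y2 j c hc⟩

/-- **the deviation for one modulus** -/
theorem Pf.dev_q (H : Pf B par v u k g z c1 β δ1) (F : Lq B u k g z c1 β δ1 η0 A C Q) (ps q : ℕ)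
    (hq : ∑ p ∈ (PU (Wn u z Q ps)).filter (fun p => p ∣ q), 1 / (p : ℝ) ≤ η0) (j : Fin J) {c : ℝ} (hc : c ∈ C) :
    δ1 ≤ (-1) ^ (∑ i, k j i) * (∏ p ∈ Pq (PU (Wn u z Q ps)) q, (1 - 1 / (p : ℝ)) -
      EY (Pq (PU (Wn u z Q ps)) q) (Ysc c (B j) Q)) := by
  classical
  have hL := F.hL
  have hRn := H.RWn F ps
  have hRq : RW u (lo u z) (Real.log Q) z (Wq u z Q ps q) := hRn.sub fun i => filter_subset _ _
  obtain ⟨g1, g2, g3, g4, g5⟩ := H.P0 F ps
  rw [Pq_PU]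
  have hLc : 0 ≤ (Real.log Q) ^ (-c1) := Real.rpow_nonneg (by linarith) _
  have h1 := hRq.dev (by linarith) H.hz0 H.hz1.le (H.SCj F j hc) ((Real.log Q) ^ (-c1)) hLc (by
    intro p hp
    apply g5
    unfold PU Wq at hp
    rw [mem_biUnion] at hp
    obtain ⟨i, hi, hp⟩ := hp
    unfold PU
    rw [mem_biUnion]
    exact ⟨i, hi, (mem_filter.1 hp).1⟩) (F.hkm j) (by
    intro i
    -- the sum over the reduced window
    have e1 : ∑ p ∈ win (lo u z i) (u i) Q, 1 / (p : ℝ) ≤ ∑ p ∈ Wn u z Q ps i, 1 / (p : ℝ) + (Real.log Q) ^ (-c1) := by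
      unfold Wn
      rw [← sum_filter_add_sum_filter_not (win (lo u z i) (u i) Q) (fun p => p ≠ ps)]
      have e2 : ∑ p ∈ (win (lo u z i) (u i) Q).filter (fun p => ¬ p ≠ ps), 1 / (p : ℝ) ≤ (Real.log Q) ^ (-c1) := by
        by_cases hps : ps ∈ win (lo u z i) (u i) Q
        · have e3 : (win (lo u z i) (u i) Q).filter (fun p => ¬ p ≠ ps) = {ps} := by
            ext p
            simp only [mem_filter, not_not, mem_singleton]
            constructor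
            · rintro ⟨_, h⟩; exact h
            · rintro rfl; exact ⟨hps, rfl⟩
          rw [e3, sum_singleton]
          have h2 := (win_mem (by linarith) hps).2.1
          have h3 := Real.rpow_le_rpow_of_exponent_le (show 1 ≤ Real.log Q by linarith) (H.c1lo i)
          rw [Real.rpow_neg (by linarith), ← one_div]
          apply one_div_le_one_div_of_le (Real.rpow_pos_of_pos (by linarith) _)
          linarith
        · have e3 : (win (lo u z i) (u i) Q).filter (fun p => ¬ p ≠ ps) = ∅ := by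
            rw [filter_eq_empty_iff]
            intro p hp h
            rw [not_not] at h
            rw [h] at hp
            exact hps hp
          rw [e3, sum_empty]
          exact hLc
      linarith
    have e4 : ∑ p ∈ Wn u z Q ps i, 1 / (p : ℝ) ≤ ∑ p ∈ Wq u z Q ps q i, 1 / (p : ℝ) + η0 := by
      unfold Wq
      rw [← sum_filter_add_sum_filter_not (Wn u z Q ps i) (fun p => ¬ p ∣ q)]
      have e5 : ∑ p ∈ (Wn u z Q ps i).filter (fun p => ¬ ¬ p ∣ q), 1 / (p : ℝ) ≤ η0 := by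
        refine le_trans ?_ hq
        apply sum_le_sum_of_subset_of_nonneg
        · intro p hp
          rw [mem_filter, not_not] at hp
          rw [mem_filter]
          refine ⟨?_, hp.2⟩
          unfold PU
          rw [mem_biUnion]
          exact ⟨i, mem_univ i, hp.1⟩
        · intro p _ _
          positivity
      linarith
    have e6 := F.slo i
    have e7 := F.hm i
    have e8 := F.hη i
    linarith) _ le_rfl (H.hcst j)
  exact (H.hδj j).trans h1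

/-- the error term -/
theorem Pf.SY_q (H : Pf B par v u k g z c1 β δ1) (F : Lq B u k g z c1 β δ1 η0 A C Q) (ps : ℕ) (j : Fin J) {c : ℝ}
    (hc : c ∈ C) : ((SY (PU (Wn u z Q ps)) (Ysc c (B j) Q)).card : ℝ) ≤ δ1 / 8 * (Ysc c (B j) Q : ℝ) ∧
    ((SY (PU (Wn u z Q ps)) (Ysc c (B j) Q)).card : ℝ) * (Real.log Q) ^ β ≤
      Real.exp (Fintype.card (Fin J × Bool)) * (Ysc c (B j) Q : ℝ) := by
  have hL := F.hL
  have hL0 : 0 < Real.log Q := by linarith
  have h1 := (H.RWn F ps).card_SY (by linarith) (H.SCj F j hc)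
  have h2 := F.y5 j
  have h3 := F.y1 j c hc
  have hδ := H.hδ
  constructor
  · calc ((SY (PU (Wn u z Q ps)) (Ysc c (B j) Q)).card : ℝ) ≤ (Real.log Q) ^ (B j - g) * Real.exp (Fintype.card (Fin J × Bool)) := h1
      _ = Real.exp (Fintype.card (Fin J × Bool)) * (Real.log Q) ^ (B j - g) := mul_comm _ _
      _ ≤ δ1 / 8 * (Real.log Q) ^ (B j - g / 2) := h2
      _ ≤ _ := by gcongr
  · have h4 : (Real.log Q) ^ (B j - g) * (Real.log Q) ^ β ≤ (Real.log Q) ^ (B j - g / 2) := by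
      rw [← Real.rpow_add hL0]
      apply Real.rpow_le_rpow_of_exponent_le (by linarith)
      have := H.hβg
      linarith
    calc ((SY (PU (Wn u z Q ps)) (Ysc c (B j) Q)).card : ℝ) * (Real.log Q) ^ β ≤
          ((Real.log Q) ^ (B j - g) * Real.exp (Fintype.card (Fin J × Bool))) * (Real.log Q) ^ β := by gcongr
      _ = Real.exp (Fintype.card (Fin J × Bool)) * ((Real.log Q) ^ (B j - g) * (Real.log Q) ^ β) := by ring
      _ ≤ Real.exp (Fintype.card (Fin J × Bool)) * (Real.log Q) ^ (B j - g / 2) := by gcongr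
      _ ≤ _ := by gcongr

end

end Pool.Agent.H527.N
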