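import Mathlib
import Pool.Agent.H527.N.N25

/-! Classes with a prescribed profile, for almost all moduli. -/

set_option autoImplicit false

namespace Pool.Agent.H527.N

open Finset Filter Topology Pool.Agent.H527.AP Pool.Agent.H527.M Pool.Agent.H527.S

theorem size_ok {L lq W φ q v ε : ℝ} (hL : 2 ≤ L) (hW0 : 0 < W) (hW : W ≤ Real.exp (3 / 2 * L ^ v)) (hq : 0 < q)
    (hφ : 1 / (3 * lq) ≤ φ / q) (h1 : L ≤ lq) (h2 : lq ≤ 2 * L) (hε : 0 < ε)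
    (h : Real.log 18 + Real.log L + 3 / 2 * L ^ v ≤ L ^ ε) : q * Real.exp (-(lq ^ ε)) ≤ φ / (3 * W) := by
  have hlq : 0 < lq := by linarith
  have hL0 : 0 < L := by linarith
  have e1 : q / (6 * L) ≤ φ := by
    rw [div_le_div_iff₀ (by positivity) hq] at hφ
    rw [div_le_iff₀ (by positivity)]
    have hφ0 : 0 ≤ φ := by
      by_contra h
      push Not at h
      nlinarith
    nlinarith
  have e2 : 18 * L * W ≤ Real.exp (L ^ ε) := by
    calc 18 * L * W ≤ Real.exp (Real.log 18) * Real.exp (Real.log L) * Real.exp (3 / 2 * L ^ v) := by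
          rw [Real.exp_log (by norm_num), Real.exp_log hL0]
          gcongr
      _ = Real.exp (Real.log 18 + Real.log L + 3 / 2 * L ^ v) := by rw [Real.exp_add, Real.exp_add]
      _ ≤ _ := Real.exp_le_exp.2 h
  have e3 : Real.exp (L ^ ε) ≤ Real.exp (lq ^ ε) := Real.exp_le_exp.2 (Real.rpow_le_rpow hL0.le h1 hε.le)
  rw [le_div_iff₀ (by positivity)]
  calc q * Real.exp (-(lq ^ ε)) * (3 * W) = (18 * L * W) * Real.exp (-(lq ^ ε)) * (q / (6 * L)) := by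
        field_simp; ring
    _ ≤ Real.exp (lq ^ ε) * Real.exp (-(lq ^ ε)) * (q / (6 * L)) := by
        have := e2.trans e3
        gcongr
    _ = q / (6 * L) := by rw [← Real.exp_add]; simp
    _ ≤ φ := e1

/-- the classes with the profile -/
noncomputable def Cl {J : ℕ} (B : Fin J → ℝ) (par : Fin J → ℕ) (δ : ℝ) (C : Finset ℝ) (Q q : ℕ) : Finset ℕ := by
  classical
  exact (Ioc 0 q).filter (fun a => a.Coprime q ∧ ∀ j, ∀ c ∈ C,
    (par j % 2 = 1 → (1 + δ) * ((Ysc c (B j) Q : ℝ) * ((q : ℝ) / (Nat.totient q * Real.log Q))) ≤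
      (Nn (Ysc c (B j) Q) q a : ℝ)) ∧
    (par j % 2 = 0 → (Nn (Ysc c (B j) Q) q a : ℝ) ≤
      (1 - δ) * ((Ysc c (B j) Q : ℝ) * ((q : ℝ) / (Nat.totient q * Real.log Q)))))

section
variable {J : ℕ} {B : Fin J → ℝ} {par : Fin J → ℕ} {v : ℝ} {u : Fin J × Bool → ℝ} {k : Fin J → Fin J × Bool → ℕ}
    {g z c1 β δ1 η0 A : ℝ} {C : Finset ℝ} {Q : ℕ}

theorem Pf.cls (H : Pf B par v u k g z c1 β δ1) (F : Lq B u k g z c1 β δ1 η0 A C Q) (ps : ℕ) {q : ℕ} {Ys : Finset ℕ}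
    (hYs : ∀ j, ∀ c ∈ C, Ysc c (B j) Q ∈ Ys) (hq0 : 0 < q)
    (hq : ∑ p ∈ (PU (Wn u z Q ps)).filter (fun p => p ∣ q), 1 / (p : ℝ) ≤ η0) :
    Gd Q Ys (PU (Wn u z Q ps)) (δ1 / 8) q ⊆ Cl B par (δ1 / 2) C Q q := by
  classical
  obtain ⟨g1, g2, g3, g4, g5⟩ := H.P0 F ps
  have hL := F.hL
  intro a ha
  unfold Gd at ha
  rw [mem_filter] at ha
  obtain ⟨r1, r2, r3, r4, r5⟩ := rows_mem ha.1 le_rfl
  have hsubP : Pq (PU (Wn u z Q ps)) q ⊆ PU (Wn u z Q ps) := filter_subset _ _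
  have hPpr : ∀ p ∈ Pq (PU (Wn u z Q ps)) q, p.Prime := fun p hp => g4 p (hsubP hp)
  have hPr1 : ∏ p ∈ Pq (PU (Wn u z Q ps)) q, (1 - 1 / (p : ℝ)) ≤ 1 := by
    apply prod_le_one
    · intro p hp
      have := (hPpr p hp).one_lt
      have h2 : (1 : ℝ) ≤ p := by exact_mod_cast this.le
      have h3 : 1 / (p : ℝ) ≤ 1 := by rw [div_le_one (by linarith)]; exact h2
      linarith
    · intro p _
      have : (0 : ℝ) ≤ 1 / (p : ℝ) := by positivity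
      linarith
  have hPr0 : 0 < ∏ p ∈ Pq (PU (Wn u z Q ps)) q, (1 - 1 / (p : ℝ)) := by
    apply prod_pos
    intro p hp
    have := (hPpr p hp).one_lt
    have h2 : (1 : ℝ) < p := by exact_mod_cast this
    have h3 : 1 / (p : ℝ) < 1 := by rw [div_lt_one (by linarith)]; exact h2
    linarith
  have hφ : (0 : ℝ) < (Nat.totient q : ℝ) := by exact_mod_cast Nat.totient_pos.2 hq0
  have hδ := H.hδ
  have hδ1 := H.hδ1
  unfold Cl
  rw [mem_filter, mem_Ioc]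
  refine ⟨⟨r1, r2⟩, r5, ?_⟩
  intro j c hc
  have hY := ha.2 _ (hYs j c hc)
  rw [mu_eq hPpr] at hY
  have hdev := H.dev_q F ps q hq j hc
  have hS := (H.SY_q F ps j hc).1
  have hS2 : ((SY (Pq (PU (Wn u z Q ps)) q) (Ysc c (B j) Q)).card : ℝ) ≤ δ1 / 8 * (Ysc c (B j) Q : ℝ) := by
    refine le_trans ?_ hS
    exact_mod_cast SY_mono hsubP _
  have hcnt := count_all_SY _ hPpr (Ysc c (B j) Q)
  have hY0 : (0 : ℝ) < (Ysc c (B j) Q : ℝ) := by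
    have h1 := F.y1 j c hc
    have h2 : 0 < (Real.log Q) ^ (B j - g / 2) := Real.rpow_pos_of_pos (by linarith) _
    linarith
  rw [abs_le] at hcnt hY
  have hq' : 0 ≤ (q : ℝ) / (Nat.totient q * Real.log Q) := by positivity
  constructor
  · intro hp
    have hn : (-1 : ℝ) ^ (∑ i, k j i) = -1 := by
      apply Odd.neg_one_pow
      rw [Nat.odd_iff, H.hpar j, hp]
    rw [hn] at hdev
    have h1 := fin_pos (Nn (Ysc c (B j) Q) q a) (((Ls (∏ p ∈ Pq (PU (Wn u z Q ps)) q, p) (Ysc c (B j) Q)).card : ℝ))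
      (Ysc c (B j) Q) (EY (Pq (PU (Wn u z Q ps)) q) (Ysc c (B j) Q)) (∏ p ∈ Pq (PU (Wn u z Q ps)) q, (1 - 1 / (p : ℝ)))
      ((SY (Pq (PU (Wn u z Q ps)) q) (Ysc c (B j) Q)).card : ℝ) δ1 ((q : ℝ) / (Nat.totient q * Real.log Q)) hY0 hPr0 hPr1
      hδ hδ1 (by linarith) (by linarith [hcnt.1]) hS2 hq' (by linarith [hY.1])
    exact h1
  · intro hp
    have hn : (-1 : ℝ) ^ (∑ i, k j i) = 1 := by
      apply Even.neg_one_pow
      rw [Nat.even_iff, H.hpar j, hp]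
    rw [hn] at hdev
    have h1 := fin_neg (Nn (Ysc c (B j) Q) q a) (((Ls (∏ p ∈ Pq (PU (Wn u z Q ps)) q, p) (Ysc c (B j) Q)).card : ℝ))
      (Ysc c (B j) Q) (EY (Pq (PU (Wn u z Q ps)) q) (Ysc c (B j) Q)) (∏ p ∈ Pq (PU (Wn u z Q ps)) q, (1 - 1 / (p : ℝ)))
      ((SY (Pq (PU (Wn u z Q ps)) q) (Ysc c (B j) Q)).card : ℝ) δ1 ((q : ℝ) / (Nat.totient q * Real.log Q)) hY0 hPr0 hPr1
      hδ (by linarith) (by linarith [hcnt.2]) hS2 hq' (by linarith [hY.2])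
    exact h1

end

/-- **classes with a prescribed profile** -/
theorem profile {J : ℕ} (hJ : 0 < J) (B : Fin J → ℝ) (hB1 : ∀ j, 1 < B j) (hB : StrictMono B) (par : Fin J → ℕ) (ε : ℝ) (hε : 0 < ε) :
    ∃ δ : ℝ, 0 < δ ∧ δ ≤ 1 / 2 ∧ ∀ κ : ℝ, 0 < κ → ∀ C : Finset ℝ, C.Nonempty → (∀ c ∈ C, 0 < c) → ∀ᶠ Q : ℕ in atTop,
      (((Ioc Q (2 * Q)).filter (fun q : ℕ => ¬ ((q : ℝ) * Real.exp (-((Real.log q) ^ ε)) ≤
        ((Cl B par δ C Q q).card : ℝ)))).card : ℝ) ≤ κ * Q := by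
  classical
  obtain ⟨v, hvd⟩ : ∃ v : ℝ, v = min (ε / 2) (1 / 40) := ⟨_, rfl⟩
  have hv : 0 < v := by rw [hvd]; exact lt_min (half_pos hε) (by norm_num)
  have hv1 : v ≤ 1 / 40 := by rw [hvd]; exact min_le_right _ _
  have hvε : v < ε := by
    have : v ≤ ε / 2 := by rw [hvd]; exact min_le_left _ _
    linarith
  obtain ⟨u, k, g, z, c1, β, δ1, H⟩ := exists_Pf B hB1 hB par v hv hv1
  have hδ := H.hδ
  have hδ1 := H.hδ1
  refine ⟨δ1 / 2, by linarith, by linarith, fun κ hκ C hCn hC => ?_⟩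
  obtain ⟨η0, A, hη0, hA, hF⟩ := H.ev C hC
  obtain ⟨N, hN⟩ : ∃ N : ℕ, N = ((univ : Finset (Fin J)) ×ˢ C).card := ⟨_, rfl⟩
  obtain ⟨κ1, hκ1⟩ : ∃ κ1 : ℝ, κ1 = min (κ / (2 * (N + 1))) (1 / (2 * (N + 1))) := ⟨_, rfl⟩
  have hN0 : (0 : ℝ) ≤ N := Nat.cast_nonneg _
  have hκ10 : 0 < κ1 := by rw [hκ1]; exact lt_min (by positivity) (by positivity)
  have hκ1a : κ1 * (N + 1) ≤ κ / 2 := by
    have : κ1 ≤ κ / (2 * (N + 1)) := by rw [hκ1]; exact min_le_left _ _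
    calc κ1 * (N + 1) ≤ κ / (2 * (N + 1)) * (N + 1) := by gcongr
      _ = κ / 2 := by field_simp
  have hκ1b : κ1 * (N + 1) ≤ 1 / 2 := by
    have : κ1 ≤ 1 / (2 * (N + 1)) := by rw [hκ1]; exact min_le_right _ _
    calc κ1 * (N + 1) ≤ 1 / (2 * (N + 1)) * (N + 1) := by gcongr
      _ = 1 / 2 := by field_simp
  obtain ⟨e, he⟩ : ∃ e : ℝ, e = min (1 / 3) ((δ1 / 8) ^ 2 * κ1 ^ 3 / 14400) := ⟨_, rfl⟩
  have he0 : 0 < e := by rw [he]; exact lt_min (by norm_num) (by positivity)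
  have he3 : e ≤ 1 / 3 := by rw [he]; exact min_le_left _ _
  have he4 : 14400 * e ≤ (δ1 / 8) ^ 2 * κ1 ^ 3 := by
    have : e ≤ (δ1 / 8) ^ 2 * κ1 ^ 3 / 14400 := by rw [he]; exact min_le_right _ _
    linarith
  obtain ⟨D, N₀, hvar⟩ := exists_var c1 v A β (Real.exp (Fintype.card (Fin J × Bool))) e H.hc1 H.c1v hv1 H.hβ hA he0 he3
  have t1 : Tendsto (fun Q : ℕ => (Real.log Q) ^ (-c1)) atTop (𝓝 0) := (tendsto_rpow_neg_atTop H.hc1).comp tendsto_logN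
  have e1 : ∀ᶠ Q : ℕ in atTop, (Real.log Q) ^ (-c1) < κ / 2 * η0 := t1.eventually (gt_mem_nhds (by positivity))
  have e2 : ∀ᶠ L : ℝ in atTop, Real.log 18 + Real.log L + 3 / 2 * L ^ v ≤ L ^ ε := by
    filter_upwards [as_pow_pow v ε 6 hvε, as_log_pow ε 4 hε 1, (tendsto_rpow_atTop hε).eventually_ge_atTop (4 * Real.log 18)]
      with L a1 a2 a3
    rw [pow_one] at a2
    have : 0 ≤ Real.log 18 := Real.log_nonneg (by norm_num)
    linarith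
  filter_upwards [hF, hvar, e1, tendsto_logN.eventually e2, eventually_ge_atTop 2] with Q F hvQ f1 f2 hQ2
  obtain ⟨ps, f, hV⟩ := hvQ
  obtain ⟨g1, g2, g3, g4, g5⟩ := H.P0 F ps
  have hL := F.hL
  have hQ0 : (0 : ℝ) < Q := by exact_mod_cast (by omega : 0 < Q)
  obtain ⟨P0, hP0⟩ : ∃ P0, P0 = PU (Wn u z Q ps) := ⟨_, rfl⟩
  obtain ⟨Ys, hYs⟩ : ∃ Ys, Ys = ((univ : Finset (Fin J)) ×ˢ C).image (fun x => Ysc x.2 (B x.1) Q) := ⟨_, rfl⟩
  have hYscard : (Ys.card : ℝ) ≤ N := by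
    rw [hYs, hN]; exact_mod_cast card_image_le
  have hYsm : ∀ j, ∀ c ∈ C, Ysc c (B j) Q ∈ Ys := by
    intro j c hc
    rw [hYs, mem_image]
    exact ⟨(j, c), mem_product.2 ⟨mem_univ j, hc⟩, rfl⟩
  have hSc : ∀ Y ∈ Ys, ∃ Er : ℝ, ∀ g', g' ∣ ∏ p ∈ P0, p → Var Q g' Y (SY P0 Y).card D f N₀ (Pq P0 g') Er e := by
    intro Y hY
    rw [hYs, mem_image] at hY
    obtain ⟨⟨j, c⟩, hjc, rfl⟩ := hY
    rw [mem_product] at hjc
    rw [hP0]
    exact hV (PU (Wn u z Q ps)) g1 g2 g3 _ ⟨F.y3 j c hjc.2, F.y4 j c hjc.2, (H.SY_q F ps j hjc.2).2⟩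
  choose! Er hEr using hSc
  rw [← hP0] at g1 g2 g3 g4 g5
  have hprod : 1 / 2 ≤ ∏ p ∈ P0, (1 - 1 / (p : ℝ)) := by
    have h1 := prod_ge P0 (fun p hp => by exact_mod_cast (g4 p hp).one_lt.le)
    linarith
  have hκY : κ1 * Ys.card ≤ 1 / 2 := by
    calc κ1 * Ys.card ≤ κ1 * (N + 1) := by
          apply mul_le_mul_of_nonneg_left _ hκ10.le
          linarith
      _ ≤ _ := hκ1b
  have hm := multi (k := fun Y => (SY P0 Y).card) g4 hEr (by linarith : 0 < δ1 / 8) hκ10 hprod he4 hκY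
  have hfew := few_div P0 Q ((Real.log Q) ^ (-c1)) η0 g5 g3 hη0 (Real.rpow_nonneg (by linarith) _)
  have hsub : (Ioc Q (2 * Q)).filter (fun q : ℕ => ¬ ((q : ℝ) * Real.exp (-((Real.log q) ^ ε)) ≤ ((Cl B par (δ1 / 2) C Q q).card : ℝ))) ⊆
      ((Ioc Q (2 * Q)).filter (fun q => ¬ ((rows (∏ p ∈ Pq P0 q, p) q 0 q).card : ℝ) / 2 ≤ (Gd Q Ys P0 (δ1 / 8) q).card)) ∪
      ((Ioc Q (2 * Q)).filter (fun q => η0 < ∑ p ∈ P0.filter (fun p => p ∣ q), 1 / (p : ℝ))) := by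
    intro q hq
    rw [mem_filter] at hq
    rw [mem_union]
    by_contra hcon
    rw [not_or, mem_filter, mem_filter] at hcon
    obtain ⟨hc1', hc2⟩ := hcon
    apply hq.2
    have h1 : ((rows (∏ p ∈ Pq P0 q, p) q 0 q).card : ℝ) / 2 ≤ (Gd Q Ys P0 (δ1 / 8) q).card := by
      by_contra h; exact hc1' ⟨hq.1, h⟩
    have h2 : ∑ p ∈ P0.filter (fun p => p ∣ q), 1 / (p : ℝ) ≤ η0 := by
      by_contra h; exact hc2 ⟨hq.1, not_le.1 h⟩
    have hq1 : 0 < q := by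
      have := mem_Ioc.1 hq.1
      omega
    have h3 : Gd Q Ys P0 (δ1 / 8) q ⊆ Cl B par (δ1 / 2) C Q q := by
      rw [hP0] at h2 ⊢
      exact H.cls F ps hYsm hq1 h2
    have h4 : ((Gd Q Ys P0 (δ1 / 8) q).card : ℝ) ≤ (Cl B par (δ1 / 2) C Q q).card := by
      exact_mod_cast card_le_card h3
    refine le_trans ?_ (h1.trans h4)
    -- the number of the rows
    have hqI := hq.1
    rw [mem_Ioc] at hqI
    have hq0 : (0 : ℝ) < q := by exact_mod_cast (by omega : 0 < q)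
    have hcop : q.Coprime (∏ p ∈ Pq P0 q, p) := by
      rw [Nat.coprime_comm]
      apply Nat.Coprime.prod_left
      intro p hp
      unfold Pq at hp
      rw [mem_filter] at hp
      exact (Nat.Prime.coprime_iff_not_dvd (g4 p hp.1)).2 hp.2
    obtain ⟨w1, w2, w3, w4⟩ := win_facts c1 v Q (by linarith) (Pq P0 q) ((filter_subset _ _).trans g1) hv
    have hWp : 0 < ∏ p ∈ Pq P0 q, p := Finset.prod_pos fun p hp => (w1 p hp).pos
    have hW0 : (0 : ℝ) < ((∏ p ∈ Pq P0 q, p : ℕ) : ℝ) := by exact_mod_cast hWp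
    have hlq : Real.log Q ≤ Real.log q := Real.log_le_log hQ0 (by exact_mod_cast hqI.1.le)
    have hlq2 : Real.log q ≤ 2 * Real.log Q := by
      have h5 : Real.log q ≤ Real.log (2 * Q) := Real.log_le_log hq0 (by exact_mod_cast hqI.2)
      rw [Real.log_mul (by norm_num) hQ0.ne'] at h5
      have := Real.log_two_lt_d9
      linarith
    have hsz := size_ok hL hW0 w4 hq0 (tot_low (by omega) (by linarith)) hlq hlq2 hε f2
    refine hsz.trans ?_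
    -- use one of the scales, or count directly
    obtain ⟨c0, hc0⟩ := hCn
    have hV0 := hEr _ (hYsm ⟨0, hJ⟩ c0 hc0) (Nat.gcd q (∏ p ∈ P0, p)) (Nat.gcd_dvd_right _ _)
    rw [Pq_gcd] at hV0
    have hV1 := (hV0.Rbd hq.1 hcop).2
    have hV2 : 2 / 3 * ((Nat.totient q : ℝ) / (∏ p ∈ Pq P0 q, p : ℕ)) ≤ (1 - e) * ((Nat.totient q : ℝ) / (∏ p ∈ Pq P0 q, p : ℕ)) := by
      apply mul_le_mul_of_nonneg_right _ (by positivity)
      linarith
    have e3 : (Nat.totient q : ℝ) / (3 * ((∏ p ∈ Pq P0 q, p : ℕ) : ℝ)) =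
        (2 / 3 * ((Nat.totient q : ℝ) / (∏ p ∈ Pq P0 q, p : ℕ))) / 2 := by
      field_simp
    rw [e3]
    linarith
  have h1 := (card_le_card hsub).trans (card_union_le _ _)
  have h2 : (((Ioc Q (2 * Q)).filter (fun q : ℕ => ¬ ((q : ℝ) * Real.exp (-((Real.log q) ^ ε)) ≤ ((Cl B par (δ1 / 2) C Q q).card : ℝ)))).card : ℝ) ≤
      (((Ioc Q (2 * Q)).filter (fun q => ¬ ((rows (∏ p ∈ Pq P0 q, p) q 0 q).card : ℝ) / 2 ≤ (Gd Q Ys P0 (δ1 / 8) q).card)).card : ℝ) +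
      (((Ioc Q (2 * Q)).filter (fun q => η0 < ∑ p ∈ P0.filter (fun p => p ∣ q), 1 / (p : ℝ))).card : ℝ) := by
    exact_mod_cast h1
  refine h2.trans ?_
  have h3 : κ1 * Ys.card * Q ≤ κ / 2 * Q := by
    apply mul_le_mul_of_nonneg_right _ hQ0.le
    calc κ1 * Ys.card ≤ κ1 * (N + 1) := by
          apply mul_le_mul_of_nonneg_left _ hκ10.le
          linarith
      _ ≤ _ := hκ1a
  have h4 : (Real.log Q) ^ (-c1) / η0 * Q ≤ κ / 2 * Q := by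
    apply mul_le_mul_of_nonneg_right _ hQ0.le
    rw [div_le_iff₀ hη0]
    exact f1.le
  linarith

end Pool.Agent.H527.N
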