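import Mathlib
import Pool.Graph.R_seed8.Helper923.PNT
import Pool.Agent.H527.N.N26

/-! From rows to the counting function of the primes in a class. -/

set_option autoImplicit false

namespace Pool.Agent.H527.N

open Finset Filter Topology Pool.Agent.H527.M Pool.Agent.H527.S

/-- the number of primes `p ≤ x`, `p ≡ a` modulo `q` -/
noncomputable def pc (x : ℝ) (q a : ℕ) : ℕ := ((Icc 1 ⌊x⌋₊).filter (fun p => p.Prime ∧ p ≡ a [MOD q])).card

theorem pc_ge {x : ℝ} {q a Y : ℕ} (haq : a ≤ q) (hq : 0 < q) (h : ((Y : ℝ) + 1) * q ≤ x) : Nn Y q a ≤ pc x q a := by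
  unfold Nn pc
  apply card_le_card_of_injOn (fun l => a + l * q)
  · intro l hl
    rw [mem_coe, mem_filter, mem_Icc] at hl
    rw [mem_coe, mem_filter, mem_Icc]
    refine ⟨⟨?_, ?_⟩, hl.2, ?_⟩
    · exact hl.2.one_lt.le
    · apply Nat.le_floor
      have h1 : a + l * q ≤ (Y + 1) * q := by
        have : l * q ≤ Y * q := Nat.mul_le_mul_right q hl.1.2
        rw [add_mul, one_mul]
        omega
      have h2 : ((a + l * q : ℕ) : ℝ) ≤ (((Y + 1) * q : ℕ) : ℝ) := by exact_mod_cast h1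
      push_cast at h2 ⊢
      linarith
    · show a + l * q ≡ a [MOD q]
      unfold Nat.ModEq
      exact Nat.add_mul_mod_self_right a l q
  · intro l _ l' _ h
    simp only at h
    have : l * q = l' * q := by omega
    exact Nat.eq_of_mul_eq_mul_right hq this

theorem pc_le {x : ℝ} {q a Y : ℕ} (ha : 0 < a) (haq : a ≤ q) (hx : 0 ≤ x) (h : x ≤ (Y : ℝ) * q) : pc x q a ≤ Nn Y q a + 1 := by
  classical
  have hq : 0 < q := by omega
  unfold pc
  have h1 : (Icc 1 ⌊x⌋₊).filter (fun p => p.Prime ∧ p ≡ a [MOD q]) ⊆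
      insert a (((Icc 1 Y).filter (fun l => (a + l * q).Prime)).image (fun l => a + l * q)) := by
    intro p hp
    rw [mem_filter, mem_Icc] at hp
    obtain ⟨⟨h2, h3⟩, h4, h5⟩ := hp
    rw [mem_insert, mem_image]
    by_cases hpa : p ≤ a
    · left
      have h6 := (Nat.modEq_iff_dvd' hpa).1 h5
      by_contra hne
      have h7 := Nat.le_of_dvd (by omega) h6
      omega
    · right
      push Not at hpa
      obtain ⟨l, hl⟩ := (Nat.modEq_iff_dvd' hpa.le).1 h5.symm
      have hpe : p = a + l * q := by rw [mul_comm] at hl; omega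
      have hl1 : 1 ≤ l := by
        rcases Nat.eq_zero_or_pos l with h6 | h6
        · rw [h6, zero_mul] at hpe; omega
        · exact h6
      have hlY : l ≤ Y := by
        have h6 : (p : ℝ) ≤ x := (Nat.cast_le.2 h3).trans (Nat.floor_le hx)
        have h7 : (p : ℝ) ≤ ((Y * q : ℕ) : ℝ) := by push_cast; linarith
        have h8 : p ≤ Y * q := by exact_mod_cast h7
        have h9 : l * q < Y * q := by omega
        exact (Nat.lt_of_mul_lt_mul_right h9).le
      refine ⟨l, ?_, hpe.symm⟩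
      rw [mem_filter, mem_Icc, ← hpe]
      exact ⟨⟨hl1, hlY⟩, h4⟩
  refine (card_le_card h1).trans ((card_insert_le _ _).trans ?_)
  exact Nat.add_le_add_right card_image_le 1

/-- the prime number theorem near `Q` -/
theorem pnt_Q (A η : ℝ) (hη : 0 < η) (hη1 : η ≤ 1 / 2) : ∀ᶠ Q : ℕ in atTop, ∀ x : ℝ, (Q : ℝ) ≤ x →
    x ≤ Q * (Real.log Q) ^ A → (1 - η) * (x / Real.log Q) ≤ (Nat.primeCounting ⌊x⌋₊ : ℝ) ∧
      (Nat.primeCounting ⌊x⌋₊ : ℝ) ≤ (1 + η) * (x / Real.log Q) := by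
  have h1 := Pool.Agent.Helper923.PNT.pi_tendsto
  have e1 : ∀ᶠ x : ℝ in atTop, 1 - η / 2 < (Nat.primeCounting ⌊x⌋₊ : ℝ) * Real.log x / x ∧
      (Nat.primeCounting ⌊x⌋₊ : ℝ) * Real.log x / x < 1 + η / 2 :=
    (h1.eventually (lt_mem_nhds (by linarith))).and (h1.eventually (gt_mem_nhds (by linarith)))
  obtain ⟨x0, hx0⟩ := eventually_atTop.1 e1
  have e2 : ∀ᶠ L : ℝ in atTop, A * Real.log L ≤ η / 4 * L := by
    filter_upwards [as_log_pow 1 (A / (η / 4)) one_pos 1] with L h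
    rw [pow_one, Real.rpow_one, div_mul_eq_mul_div, div_le_iff₀ (by positivity)] at h
    linarith
  filter_upwards [eventually_ge_atTop ⌈x0⌉₊, tendsto_logN.eventually e2, tendsto_logN.eventually_ge_atTop 2,
    eventually_ge_atTop 2] with Q a1 a2 a3 a4 x hx1 hx2
  have hQ0 : (0 : ℝ) < Q := by exact_mod_cast (by omega : 0 < Q)
  have hx0' : x0 ≤ x := by
    have : x0 ≤ Q := (Nat.le_ceil x0).trans (by exact_mod_cast a1)
    linarith
  obtain ⟨b1, b2⟩ := hx0 x hx0'
  have hx : 0 < x := by linarith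
  obtain ⟨L, hL⟩ : ∃ L : ℝ, L = Real.log Q := ⟨_, rfl⟩
  rw [← hL] at a2 a3 hx2 ⊢
  have hL0 : 0 < L := by linarith
  have hl1 : L ≤ Real.log x := by rw [hL]; exact Real.log_le_log hQ0 hx1
  have hl2 : Real.log x ≤ (1 + η / 4) * L := by
    have h2 := Real.log_le_log hx hx2
    rw [Real.log_mul hQ0.ne' (Real.rpow_pos_of_pos hL0 _).ne', Real.log_rpow hL0, ← hL] at h2
    linarith
  have hlx : 0 < Real.log x := by linarith
  rw [lt_div_iff₀ hx] at b1
  rw [div_lt_iff₀ hx] at b2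
  obtain ⟨π, hπ⟩ : ∃ π : ℝ, π = (Nat.primeCounting ⌊x⌋₊ : ℝ) := ⟨_, rfl⟩
  rw [← hπ] at b1 b2 ⊢
  have hπ0 : 0 ≤ π := by rw [hπ]; exact Nat.cast_nonneg _
  constructor
  · rw [← mul_div_assoc, div_le_iff₀ hL0]
    have h2 : π * Real.log x ≤ π * ((1 + η / 4) * L) := by gcongr
    have h3 : (1 - η) * x * (1 + η / 4) ≤ (1 - η / 2) * x := by nlinarith
    have h4 : (1 - η) * x * (1 + η / 4) ≤ π * L * (1 + η / 4) := by
      calc (1 - η) * x * (1 + η / 4) ≤ (1 - η / 2) * x := h3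
        _ ≤ π * ((1 + η / 4) * L) := b1.le.trans h2
        _ = _ := by ring
    exact le_of_mul_le_mul_right h4 (by linarith)
  · rw [← mul_div_assoc, le_div_iff₀ hL0]
    have h2 : π * L ≤ π * Real.log x := by gcongr
    have h3 : 0 ≤ η * x := by positivity
    linarith

end Pool.Agent.H527.N
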