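import Mathlib
import Pool.Agent.H527.N.N27

/-! From the profile to the primes in the classes. -/

set_option autoImplicit false

namespace Pool.Agent.H527.N

open Finset Filter Topology Pool.Agent.H527.M Pool.Agent.H527.S

theorem num_pos (δ η : ℝ) (hδ : 0 < δ) (hδ1 : δ ≤ 1 / 2) (hη : η = δ / 32) :
    (1 + δ / 2) * (1 + η) * (1 + η) ^ 2 ≤ (1 + δ) * (1 - η) := by
  have h0 : 0 < η := by rw [hη]; linarith
  have h1 : η ≤ 1 / 64 := by rw [hη]; linarith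
  have h2 : (1 + η) * (1 + η) ^ 2 ≤ 1 + 4 * η := by
    have a1 : η * η ≤ η * (1 / 64) := mul_le_mul_of_nonneg_left h1 h0.le
    have a2 : η * (η * η) ≤ η * (η * (1 / 64)) := mul_le_mul_of_nonneg_left a1 h0.le
    have a3 : (1 + η) * (1 + η) ^ 2 = 1 + 3 * η + 3 * (η * η) + η * (η * η) := by ring
    rw [a3]
    linarith
  have h3 : (1 + δ / 2) * ((1 + η) * (1 + η) ^ 2) ≤ (1 + δ / 2) * (1 + 4 * η) :=
    mul_le_mul_of_nonneg_left h2 (by linarith)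
  have h4 : (1 + δ / 2) * (1 + 4 * η) ≤ (1 + δ) * (1 - η) := by
    rw [hη]; nlinarith
  linarith

theorem num_neg (δ η : ℝ) (hδ : 0 < δ) (hδ1 : δ ≤ 1 / 2) (hη : η = δ / 32) :
    (1 - δ) * (1 + η) ^ 2 ≤ (1 - δ / 2 - η) * (1 - η) := by
  have h0 : 0 < η := by rw [hη]; linarith
  have h1 : η ≤ 1 / 64 := by rw [hη]; linarith
  have h2 : (1 + η) ^ 2 ≤ 1 + 3 * η := by nlinarith
  have h3 : (1 - δ) * (1 + η) ^ 2 ≤ (1 - δ) * (1 + 3 * η) := mul_le_mul_of_nonneg_left h2 (by linarith)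
  have h4 : (1 - δ) * (1 + 3 * η) ≤ (1 - δ / 2 - η) * (1 - η) := by
    rw [hη]; nlinarith
  linarith

/-- the scale below and above `y` -/
theorem scales {L b η y : ℝ} {n : ℕ} (hL : 0 < L) (hη : 0 < η) (hη1 : η ≤ 1) (hb : 1 ≤ η / 2 * L ^ b)
    (h1 : (1 + η) ^ n * L ^ b ≤ y) (h2 : y < (1 + η) ^ (n + 1) * L ^ b) :
    ((⌊(1 + η) ^ n / (1 + η) * L ^ b⌋₊ : ℝ) + 1 ≤ y) ∧
    ((1 - η) * y ≤ (1 + η) ^ 2 * (⌊(1 + η) ^ n / (1 + η) * L ^ b⌋₊ : ℝ)) ∧
    (y ≤ (⌊(1 + η) ^ (n + 3) / (1 + η) * L ^ b⌋₊ : ℝ)) ∧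
    ((⌊(1 + η) ^ (n + 3) / (1 + η) * L ^ b⌋₊ : ℝ) ≤ (1 + η) ^ 2 * y) := by
  have hr0 : 0 < 1 + η := by linarith
  have hrn : 1 ≤ (1 + η) ^ n := one_le_pow₀ (by linarith)
  have hLb : 0 < L ^ b := Real.rpow_pos_of_pos hL b
  obtain ⟨T, hT⟩ : ∃ T : ℝ, T = (1 + η) ^ n * L ^ b := ⟨_, rfl⟩
  have e1 : (1 + η) ^ n / (1 + η) * L ^ b = T / (1 + η) := by rw [hT]; ring
  have e2 : (1 + η) ^ (n + 3) / (1 + η) * L ^ b = (1 + η) ^ 2 * T := by
    rw [hT, pow_add]; field_simp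
  have e3 : (1 + η) ^ (n + 1) * L ^ b = (1 + η) * T := by rw [hT, pow_succ]; ring
  rw [e1, e2]
  rw [e3] at h2
  rw [← hT] at h1
  have hTL : L ^ b ≤ T := by rw [hT]; exact le_mul_of_one_le_left hLb.le hrn
  have hT1 : 1 ≤ η / 2 * T := hb.trans (by gcongr)
  have hT0 : 0 < T := by linarith
  have hTr : 0 ≤ T / (1 + η) := by positivity
  have f1 := Nat.floor_le hTr
  have f2 := Nat.lt_floor_add_one (T / (1 + η))
  have f3 := Nat.floor_le (show 0 ≤ (1 + η) ^ 2 * T by positivity)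
  have f4 := Nat.lt_floor_add_one ((1 + η) ^ 2 * T)
  have e4 : T / (1 + η) * (1 + η) = T := by field_simp
  refine ⟨?_, ?_, ?_, ?_⟩
  · have h3 : T / (1 + η) + 1 ≤ T := by
      have h4 : (T / (1 + η) + 1) * (1 + η) ≤ T * (1 + η) := by
        rw [add_mul, e4]; nlinarith
      exact le_of_mul_le_mul_right h4 hr0
    linarith
  · have h3 : (1 - η) * y ≤ (1 - η) * ((1 + η) * T) := mul_le_mul_of_nonneg_left h2.le (by linarith)
    have h4 : (1 + η) ^ 2 * (T / (1 + η) - 1) ≤ (1 + η) ^ 2 * (⌊T / (1 + η)⌋₊ : ℝ) :=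
      mul_le_mul_of_nonneg_left (by linarith) (by positivity)
    have h5 : (1 + η) ^ 2 * (T / (1 + η) - 1) = (1 + η) * (T - (1 + η)) := by field_simp
    have h6 : (1 - η) * ((1 + η) * T) ≤ (1 + η) * (T - (1 + η)) := by
      have : (1 - η) * T ≤ T - (1 + η) := by nlinarith
      nlinarith
    linarith
  · have h3 : (1 + η) * T ≤ (1 + η) ^ 2 * T - 1 := by nlinarith
    linarith
  · refine f3.trans ?_
    gcongr

/-- the constants for the scales -/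
noncomputable def Cs (η : ℝ) (N : ℕ) : Finset ℝ := (range (N + 4)).image (fun n => (1 + η) ^ n / (1 + η))

theorem Cs_pos {η : ℝ} (hη : 0 < η) (N : ℕ) : ∀ c ∈ Cs η N, 0 < c := by
  intro c hc
  unfold Cs at hc
  rw [mem_image] at hc
  obtain ⟨n, _, rfl⟩ := hc
  positivity

theorem Cs_mem {η : ℝ} {N n : ℕ} (hn : n < N + 4) : (1 + η) ^ n / (1 + η) ∈ Cs η N := by
  unfold Cs
  rw [mem_image]
  exact ⟨n, mem_range.2 hn, rfl⟩

/-- the classes with a prescribed bias at all the scales -/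
noncomputable def biased {J : ℕ} (B : Fin J → ℝ) (s : Fin J → Bool) (δ Λ : ℝ) (q : ℕ) : Finset ℕ := by
  classical
  exact (Ioc 0 q).filter (fun a => a.Coprime q ∧ ∀ j, ∀ x : ℝ, q * (Real.log q) ^ B j ≤ x →
    x ≤ Λ * (q * (Real.log q) ^ B j) →
      (s j = true → (1 + δ) * ((Nat.primeCounting ⌊x⌋₊ : ℝ) / Nat.totient q) ≤ (pc x q a : ℝ)) ∧
      (s j = false → (pc x q a : ℝ) ≤ (1 - δ) * ((Nat.primeCounting ⌊x⌋₊ : ℝ) / Nat.totient q)))

theorem transfer {J : ℕ} (B : Fin J → ℝ) (hB1 : ∀ j, 1 < B j) (s : Fin J → Bool) (δ Λ : ℝ) (hδ : 0 < δ) (hδ1 : δ ≤ 1 / 2) :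
    ∃ N : ℕ, ∀ᶠ Q : ℕ in atTop, ∀ q ∈ Ioc Q (2 * Q),
      Cl B (fun j => if s j then 1 else 0) δ (Cs (δ / 32) N) Q q ⊆ biased B s (δ / 2) Λ q := by
  classical
  obtain ⟨η, hη⟩ : ∃ η : ℝ, η = δ / 32 := ⟨_, rfl⟩
  have hη0 : 0 < η := by rw [hη]; linarith
  have hη1 : η ≤ 1 / 64 := by rw [hη]; linarith
  obtain ⟨Bm, hBm, hBm1⟩ : ∃ Bm : ℝ, (∀ j, B j ≤ Bm) ∧ 1 ≤ Bm := by
    refine ⟨∑ j, B j + 1, fun j => ?_, ?_⟩
    · have := single_le_sum (f := B) (fun j _ => by linarith [hB1 j]) (mem_univ j)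
      linarith
    · have : 0 ≤ ∑ j, B j := sum_nonneg fun j _ => by linarith [hB1 j]
      linarith
  obtain ⟨T, hT⟩ : ∃ T : ℝ, T = max 1 Λ * 2 ^ Bm := ⟨_, rfl⟩
  have hΛ1 : 1 ≤ max 1 Λ := le_max_left _ _
  have hT1 : 1 ≤ T := by
    rw [hT]
    have : 1 ≤ (2 : ℝ) ^ Bm := Real.one_le_rpow (by norm_num) (by linarith)
    nlinarith
  obtain ⟨N, hN⟩ := pow_unbounded_of_one_lt T (show (1 : ℝ) < 1 + η by linarith)
  refine ⟨N, ?_⟩
  have e1 : ∀ᶠ L : ℝ in atTop, ∀ j, 1 ≤ η / 2 * L ^ B j := by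
    rw [eventually_all]; intro j
    filter_upwards [(tendsto_rpow_atTop (show 0 < B j by linarith [hB1 j])).eventually_ge_atTop (2 / η)] with L h
    rw [div_le_iff₀ hη0] at h
    linarith
  have e2 : ∀ᶠ L : ℝ in atTop, ∀ j, L ≤ η / 2 * L ^ B j := by
    rw [eventually_all]; intro j
    filter_upwards [as_pow_pow 1 (B j) (2 / η) (hB1 j)] with L h
    rw [Real.rpow_one, div_mul_eq_mul_div, div_le_iff₀ hη0] at h
    linarith
  have e3 : ∀ᶠ L : ℝ in atTop, 2 * T * L ^ Bm ≤ L ^ (Bm + 1) := as_pow_pow Bm (Bm + 1) (2 * T) (by linarith)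
  filter_upwards [tendsto_logN.eventually e1, tendsto_logN.eventually e2, tendsto_logN.eventually e3,
    pnt_Q (Bm + 1) η hη0 (by linarith), tendsto_logN.eventually_ge_atTop 2, eventually_ge_atTop 2] with Q a1 a2 a3 a4 a5 a6 q hqQ a ha
  rw [mem_Ioc] at hqQ
  have hq0n : 0 < q := by omega
  have hQ0 : (0 : ℝ) < Q := by exact_mod_cast (by omega : 0 < Q)
  have hq0 : (0 : ℝ) < q := by exact_mod_cast hq0n
  have hQq : (Q : ℝ) ≤ q := by exact_mod_cast hqQ.1.le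
  have hqQ2 : (q : ℝ) ≤ 2 * Q := by exact_mod_cast hqQ.2
  unfold Cl at ha
  rw [mem_filter, mem_Ioc] at ha
  obtain ⟨⟨ha0, haq⟩, hcop, hall⟩ := ha
  unfold biased
  rw [mem_filter, mem_Ioc]
  refine ⟨⟨ha0, haq⟩, hcop, ?_⟩
  intro j x hx1 hx2
  have b1 := a1 j
  have b2 := a2 j
  obtain ⟨L, hL⟩ : ∃ L : ℝ, L = Real.log Q := ⟨_, rfl⟩
  rw [← hL] at b1 b2 a3 a4 a5
  have hL0 : 0 < L := by linarith
  have hlq1 : L ≤ Real.log q := by rw [hL]; exact Real.log_le_log hQ0 hQq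
  have hlq2 : Real.log q ≤ 2 * L := by
    have h5 : Real.log q ≤ Real.log (2 * Q) := Real.log_le_log hq0 hqQ2
    rw [Real.log_mul (by norm_num) hQ0.ne', ← hL] at h5
    have := Real.log_two_lt_d9
    linarith
  have hLb : 0 < L ^ B j := Real.rpow_pos_of_pos hL0 _
  have hB0 : 0 < B j := by linarith [hB1 j]
  obtain ⟨y, hy⟩ : ∃ y : ℝ, y = x / q := ⟨_, rfl⟩
  have hxy : x = y * q := by rw [hy]; field_simp
  have hy1 : L ^ B j ≤ y := by
    rw [hy, le_div_iff₀ hq0, mul_comm]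
    refine le_trans ?_ hx1
    have := Real.rpow_le_rpow hL0.le hlq1 hB0.le
    gcongr
  have hy2 : y ≤ T * L ^ B j := by
    rw [hy, div_le_iff₀ hq0]
    have h1 : (Real.log q) ^ B j ≤ 2 ^ Bm * L ^ B j := by
      calc (Real.log q) ^ B j ≤ (2 * L) ^ B j := Real.rpow_le_rpow (by linarith) hlq2 hB0.le
        _ = 2 ^ B j * L ^ B j := Real.mul_rpow (by norm_num) hL0.le
        _ ≤ 2 ^ Bm * L ^ B j := by
            have := Real.rpow_le_rpow_of_exponent_le (show (1 : ℝ) ≤ 2 by norm_num) (hBm j)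
            gcongr
    have h2 : 0 ≤ (q : ℝ) * (Real.log q) ^ B j := by
      have : 0 ≤ (Real.log q) ^ B j := Real.rpow_nonneg (by linarith) _
      positivity
    calc x ≤ Λ * (q * (Real.log q) ^ B j) := hx2
      _ ≤ max 1 Λ * (q * (Real.log q) ^ B j) := by
          have := le_max_right 1 Λ
          gcongr
      _ ≤ max 1 Λ * (q * (2 ^ Bm * L ^ B j)) := by gcongr
      _ = T * L ^ B j * q := by rw [hT]; ring
  -- the scale
  obtain ⟨n, hn1, hn2⟩ := exists_nat_pow_near (show 1 ≤ y / L ^ B j by rw [le_div_iff₀ hLb]; linarith)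
    (show (1 : ℝ) < 1 + η by linarith)
  rw [le_div_iff₀ hLb] at hn1
  rw [div_lt_iff₀ hLb] at hn2
  have hnN : n < N := by
    by_contra h
    push Not at h
    have h1 : (1 + η) ^ N ≤ (1 + η) ^ n := pow_le_pow_right₀ (by linarith) h
    have h2 : T * L ^ B j < (1 + η) ^ n * L ^ B j := by
      apply mul_lt_mul_of_pos_right _ hLb
      linarith
    linarith
  obtain ⟨s1, s2, s3, s4⟩ := scales hL0 hη0 (by linarith) b1 hn1 hn2
  have hc1 := hall j _ (Cs_mem (η := δ / 32) (N := N) (show n < N + 4 by omega))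
  have hc2 := hall j _ (Cs_mem (η := δ / 32) (N := N) (show n + 3 < N + 4 by omega))
  rw [← hη] at hc1 hc2
  unfold Ysc at hc1 hc2
  rw [← hL] at hc1 hc2
  have hφ : (0 : ℝ) < (Nat.totient q : ℝ) := by exact_mod_cast Nat.totient_pos.2 hq0n
  have hφq : (Nat.totient q : ℝ) ≤ q := by exact_mod_cast Nat.totient_le q
  have hxQ : (Q : ℝ) ≤ x := by
    rw [hxy]
    have h1 : 1 ≤ L ^ B j := Real.one_le_rpow (by linarith) hB0.le
    nlinarith
  have hxQ2 : x ≤ Q * L ^ (Bm + 1) := by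
    have h1 : L ^ B j ≤ L ^ Bm := Real.rpow_le_rpow_of_exponent_le (by linarith) (hBm j)
    have h2 : y ≤ T * L ^ Bm := hy2.trans (by gcongr)
    calc x = y * q := hxy
      _ ≤ (T * L ^ Bm) * (2 * Q) := by
          have : 0 ≤ y := by linarith
          gcongr
      _ = (2 * T * L ^ Bm) * Q := by ring
      _ ≤ L ^ (Bm + 1) * Q := by gcongr
      _ = _ := by ring
  have hx0 : 0 < x := by linarith
  obtain ⟨p1, p2⟩ := a4 x hxQ hxQ2
  obtain ⟨π, hπ⟩ : ∃ π : ℝ, π = (Nat.primeCounting ⌊x⌋₊ : ℝ) := ⟨_, rfl⟩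
  rw [← hπ] at p1 p2 ⊢
  obtain ⟨φ, hφe⟩ : ∃ φ : ℝ, φ = (Nat.totient q : ℝ) := ⟨_, rfl⟩
  rw [← hφe] at hc1 hc2 hφ hφq ⊢
  clear hall a1 a2 a3 a4
  constructor
  · intro hs
    have h1 := hc1.1 (by simp [hs])
    have h2 : (Nn ⌊(1 + η) ^ n / (1 + η) * L ^ B j⌋₊ q a : ℝ) ≤ (pc x q a : ℝ) := by
      have := pc_ge (x := x) haq hq0n (Y := ⌊(1 + η) ^ n / (1 + η) * L ^ B j⌋₊) (by rw [hxy]; gcongr)
      exact_mod_cast this
    refine le_trans ?_ (h1.trans h2)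
    obtain ⟨Y, hY⟩ : ∃ Y : ℝ, Y = (⌊(1 + η) ^ n / (1 + η) * L ^ B j⌋₊ : ℝ) := ⟨_, rfl⟩
    rw [← hY] at s2 ⊢
    have h3 : (1 + δ / 2) * π * (1 + η) ^ 2 ≤ (1 + δ) * (Y * q / L) * (1 + η) ^ 2 := by
      have hr2 : 0 < (1 + η) ^ 2 := by positivity
      have hxL : 0 ≤ x / L := by positivity
      calc (1 + δ / 2) * π * (1 + η) ^ 2 ≤ (1 + δ / 2) * ((1 + η) * (x / L)) * (1 + η) ^ 2 := by gcongr
        _ = ((1 + δ / 2) * (1 + η) * (1 + η) ^ 2) * (x / L) := by ring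
        _ ≤ ((1 + δ) * (1 - η)) * (x / L) := mul_le_mul_of_nonneg_right (num_pos δ η hδ hδ1 hη) hxL
        _ = (1 + δ) * (((1 - η) * y) * (q / L)) := by rw [hxy]; ring
        _ ≤ (1 + δ) * (((1 + η) ^ 2 * Y) * (q / L)) := by gcongr
        _ = _ := by ring
    have h4 := le_of_mul_le_mul_right h3 (by positivity)
    calc (1 + δ / 2) * (π / φ) = ((1 + δ / 2) * π) / φ := by ring
      _ ≤ ((1 + δ) * (Y * q / L)) / φ := by gcongr
      _ = _ := by field_simp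
  · intro hs
    have h1 := hc2.2 (by simp [hs])
    have h2 : (pc x q a : ℝ) ≤ (Nn ⌊(1 + η) ^ (n + 3) / (1 + η) * L ^ B j⌋₊ q a : ℝ) + 1 := by
      have := pc_le (x := x) ha0 haq (by linarith) (Y := ⌊(1 + η) ^ (n + 3) / (1 + η) * L ^ B j⌋₊) (by rw [hxy]; gcongr)
      exact_mod_cast this
    refine h2.trans ?_
    obtain ⟨Y, hY⟩ : ∃ Y : ℝ, Y = (⌊(1 + η) ^ (n + 3) / (1 + η) * L ^ B j⌋₊ : ℝ) := ⟨_, rfl⟩
    rw [← hY] at s4 h1
    have h5 : 1 ≤ η * (π / φ) := by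
      have h6 : x / L ≤ 2 * π := by
        have : (1 / 2) * (x / L) ≤ (1 - η) * (x / L) := by
          apply mul_le_mul_of_nonneg_right _ (by positivity)
          linarith
        linarith
      have h7 : φ ≤ η * π := by
        have h8 : q * L ≤ η / 2 * x := by
          rw [hxy]
          calc q * L ≤ q * (η / 2 * L ^ B j) := by gcongr
            _ ≤ q * (η / 2 * y) := by gcongr
            _ = _ := by ring
        have h9 : (q : ℝ) ≤ η / 2 * (x / L) := by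
          rw [← mul_div_assoc, le_div_iff₀ hL0]; exact h8
        have h10 : η / 2 * (x / L) ≤ η / 2 * (2 * π) := by gcongr
        linarith
      rw [← mul_div_assoc, le_div_iff₀ hφ]
      linarith
    have h3 : (1 - δ) * (Y * q / L) ≤ (1 - δ / 2 - η) * π := by
      have hxL : 0 ≤ x / L := by positivity
      have hδ' : 0 ≤ 1 - δ := by linarith
      calc (1 - δ) * (Y * q / L) ≤ (1 - δ) * (((1 + η) ^ 2 * y) * q / L) := by gcongr
        _ = ((1 - δ) * (1 + η) ^ 2) * (x / L) := by rw [hxy]; ring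
        _ ≤ ((1 - δ / 2 - η) * (1 - η)) * (x / L) := mul_le_mul_of_nonneg_right (num_neg δ η hδ hδ1 hη) hxL
        _ = (1 - δ / 2 - η) * ((1 - η) * (x / L)) := by ring
        _ ≤ _ := mul_le_mul_of_nonneg_left p1 (by linarith)
    have h4 : (1 - δ) * (Y * (q / (φ * L))) ≤ (1 - δ / 2 - η) * (π / φ) := by
      calc (1 - δ) * (Y * (q / (φ * L))) = ((1 - δ) * (Y * q / L)) / φ := by field_simp
        _ ≤ ((1 - δ / 2 - η) * π) / φ := by gcongr
        _ = _ := by ring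
    calc (Nn ⌊(1 + η) ^ (n + 3) / (1 + η) * L ^ B j⌋₊ q a : ℝ) + 1 ≤ (1 - δ / 2 - η) * (π / φ) + η * (π / φ) := by linarith
      _ = _ := by ring

end Pool.Agent.H527.N
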