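import Mathlib
import Pool.Agent.H527.N.N28

/-! All sign patterns, for almost all moduli. -/

set_option autoImplicit false

namespace Pool.Agent.H527.N

open Finset Filter Topology Pool.Agent.H527.M Pool.Agent.H527.S

open Classical in
theorem dyadic (Pr : ℕ → Prop) (h : ∀ κ : ℝ, 0 < κ → ∀ᶠ Q : ℕ in atTop,
    (((Ioc Q (2 * Q)).filter (fun q => ¬ Pr q)).card : ℝ) ≤ κ * Q) :
    Tendsto (fun X : ℕ => (((Icc 1 X).filter (fun q => ¬ Pr q)).card : ℝ) / X) atTop (𝓝 0) := by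
  rw [Metric.tendsto_atTop]
  intro κ hκ
  obtain ⟨Q0, hQ0⟩ := eventually_atTop.1 (h (κ / 4) (by positivity))
  have key : ∀ X : ℕ, (((Icc 1 X).filter (fun q => ¬ Pr q)).card : ℝ) ≤ κ / 2 * X + (2 * Q0 + 4 : ℕ) := by
    intro X
    induction X using Nat.strong_induction_on with
    | _ X ih =>
      by_cases hX : X < 2 * Q0 + 4
      · have h1 : ((Icc 1 X).filter (fun q => ¬ Pr q)).card ≤ X := by
          refine (card_filter_le _ _).trans ?_
          rw [Nat.card_Icc, Nat.add_sub_cancel]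
        have h2 : (((Icc 1 X).filter (fun q => ¬ Pr q)).card : ℝ) ≤ ((2 * Q0 + 4 : ℕ) : ℝ) := by
          exact_mod_cast h1.trans hX.le
        have h3 : 0 ≤ κ / 2 * (X : ℝ) := by positivity
        linarith
      · push Not at hX
        obtain ⟨m, hm⟩ : ∃ m, m = (X + 1) / 2 := ⟨_, rfl⟩
        have hm1 : m < X := by omega
        have hm2 : X ≤ 2 * m := by omega
        have hm3 : Q0 ≤ m := by omega
        have hm4 : 2 * m ≤ X + 1 := by omega
        have h1 := ih m hm1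
        have h2 := hQ0 m hm3
        have h3 : (Icc 1 X).filter (fun q => ¬ Pr q) ⊆ (Icc 1 m).filter (fun q => ¬ Pr q) ∪
            (Ioc m (2 * m)).filter (fun q => ¬ Pr q) := by
          intro q hq
          rw [mem_filter, mem_Icc] at hq
          rw [mem_union, mem_filter, mem_filter, mem_Icc, mem_Ioc]
          by_cases hqm : q ≤ m
          · left; exact ⟨⟨hq.1.1, hqm⟩, hq.2⟩
          · right; exact ⟨⟨by omega, by omega⟩, hq.2⟩
        have h4 := (card_le_card h3).trans (card_union_le _ _)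
        have h5 : (((Icc 1 X).filter (fun q => ¬ Pr q)).card : ℝ) ≤ (((Icc 1 m).filter (fun q => ¬ Pr q)).card : ℝ) +
            (((Ioc m (2 * m)).filter (fun q => ¬ Pr q)).card : ℝ) := by exact_mod_cast h4
        have h6 : 2 * (m : ℝ) ≤ X + 1 := by exact_mod_cast hm4
        have h7 : (4 : ℝ) ≤ X := by exact_mod_cast (by omega : 4 ≤ X)
        have h8 : κ / 2 * (m : ℝ) + κ / 4 * m ≤ κ / 2 * X := by nlinarith
        linarith
  obtain ⟨X0, hX0⟩ := exists_nat_gt (((2 * Q0 + 4 : ℕ) : ℝ) / (κ / 2))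
  refine ⟨max X0 1, fun X hX => ?_⟩
  have hX1 : X0 ≤ X := (le_max_left _ _).trans hX
  have hX2 : 1 ≤ X := (le_max_right _ _).trans hX
  have hXr : (0 : ℝ) < X := by exact_mod_cast hX2
  rw [Real.dist_eq, sub_zero, abs_of_nonneg (by positivity), div_lt_iff₀ hXr]
  have h1 : ((2 * Q0 + 4 : ℕ) : ℝ) < κ / 2 * X := by
    rw [div_lt_iff₀ (by positivity)] at hX0
    have : (X0 : ℝ) ≤ X := by exact_mod_cast hX1
    nlinarith
  have h2 := key X
  linarith

theorem biased_mono {J : ℕ} (B : Fin J → ℝ) (s : Fin J → Bool) {δ δ' : ℝ} (h : δ' ≤ δ) (Λ : ℝ) (q : ℕ) :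
    biased B s δ Λ q ⊆ biased B s δ' Λ q := by
  classical
  intro a ha
  unfold biased at ha ⊢
  rw [mem_filter] at ha ⊢
  refine ⟨ha.1, ha.2.1, fun j x h1 h2 => ?_⟩
  have h3 := ha.2.2 j x h1 h2
  have h4 : 0 ≤ (Nat.primeCounting ⌊x⌋₊ : ℝ) / Nat.totient q := by positivity
  refine ⟨fun hs => ?_, fun hs => ?_⟩
  · refine le_trans ?_ (h3.1 hs)
    exact mul_le_mul_of_nonneg_right (by linarith) h4
  · refine (h3.2 hs).trans ?_
    exact mul_le_mul_of_nonneg_right (by linarith) h4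

/-- every sign pattern has many classes -/
def AllPat {J : ℕ} (B : Fin J → ℝ) (ε δ Λ : ℝ) (q : ℕ) : Prop :=
  ∀ s : Fin J → Bool, (q : ℝ) * Real.exp (-((Real.log q) ^ ε)) ≤ ((biased B s δ Λ q).card : ℝ)

/-- one pattern -/
def OnePat {J : ℕ} (B : Fin J → ℝ) (ε δ Λ : ℝ) (s : Fin J → Bool) (q : ℕ) : Prop :=
  (q : ℝ) * Real.exp (-((Real.log q) ^ ε)) ≤ ((biased B s δ Λ q).card : ℝ)

open Classical in
theorem one_pattern {J : ℕ} (hJ : 0 < J) (B : Fin J → ℝ) (hB1 : ∀ j, 1 < B j) (hB : StrictMono B) (ε : ℝ) (hε : 0 < ε)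
    (s : Fin J → Bool) : ∃ d : ℝ, 0 < d ∧ ∀ δ ≤ d, ∀ Λ κ : ℝ, 0 < κ → ∀ᶠ Q : ℕ in atTop,
      (((Ioc Q (2 * Q)).filter (fun q : ℕ => ¬ OnePat B ε δ Λ s q)).card : ℝ) ≤ κ * Q := by
  obtain ⟨d, hd0, hd1, hd⟩ := profile hJ B hB1 hB (fun j => if s j then 1 else 0) ε hε
  refine ⟨d / 2, by linarith, fun δ hδ Λ κ hκ => ?_⟩
  obtain ⟨N, hN⟩ := transfer B hB1 s d Λ hd0 hd1
  have h1 := hd κ hκ (Cs (d / 32) N) ⟨_, Cs_mem (η := d / 32) (N := N) (show 0 < N + 4 by omega)⟩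
      (Cs_pos (by linarith) N)
  filter_upwards [h1, hN] with Q h2 h3
  refine le_trans ?_ h2
  have h4 : (Ioc Q (2 * Q)).filter (fun q : ℕ => ¬ OnePat B ε δ Λ s q) ⊆
      (Ioc Q (2 * Q)).filter (fun q : ℕ => ¬ ((q : ℝ) * Real.exp (-((Real.log q) ^ ε)) ≤
        ((Cl B (fun j => if s j then 1 else 0) d (Cs (d / 32) N) Q q).card : ℝ))) := by
    intro q hq
    rw [mem_filter] at hq ⊢
    refine ⟨hq.1, fun h5 => hq.2 ?_⟩
    unfold OnePat
    refine h5.trans ?_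
    exact_mod_cast card_le_card ((h3 q hq.1).trans (biased_mono B s hδ Λ q))
  exact_mod_cast card_le_card h4

open Classical in
/-- **all the sign patterns** -/
theorem all_patterns {J : ℕ} (hJ : 0 < J) (B : Fin J → ℝ) (hB1 : ∀ j, 1 < B j) (hB : StrictMono B) (ε : ℝ) (hε : 0 < ε) :
    ∃ δ : ℝ, 0 < δ ∧ ∀ Λ : ℝ, Tendsto (fun X : ℕ => (((Icc 1 X).filter (fun q : ℕ => ¬ AllPat B ε δ Λ q)).card : ℝ) / X)
      atTop (𝓝 0) := by
  choose d hd0 hd using fun s : Fin J → Bool => one_pattern hJ B hB1 hB ε hε s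
  obtain ⟨δ, hδ, hδ'⟩ := fin_gap (Set.univ : Set (Fin J → Bool)) Set.finite_univ d (fun s _ => hd0 s)
  refine ⟨δ, hδ, fun Λ => ?_⟩
  apply dyadic
  intro κ hκ
  obtain ⟨n, hn⟩ : ∃ n : ℝ, n = (Fintype.card (Fin J → Bool) : ℝ) := ⟨_, rfl⟩
  have hn0 : 0 < n := by rw [hn]; exact_mod_cast Fintype.card_pos
  have hall := eventually_all.2 (fun s => hd s δ (hδ' s (Set.mem_univ s)) Λ (κ / n) (by positivity))
  filter_upwards [hall] with Q h1
  have h2 : (Ioc Q (2 * Q)).filter (fun q : ℕ => ¬ AllPat B ε δ Λ q) ⊆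
      (univ : Finset (Fin J → Bool)).biUnion (fun s => (Ioc Q (2 * Q)).filter (fun q : ℕ => ¬ OnePat B ε δ Λ s q)) := by
    intro q hq
    rw [mem_filter] at hq
    unfold AllPat at hq
    obtain ⟨s, hs⟩ := not_forall.1 hq.2
    rw [mem_biUnion]
    exact ⟨s, mem_univ s, mem_filter.2 ⟨hq.1, hs⟩⟩
  have h3 := (card_le_card h2).trans card_biUnion_le
  have h4 : (((Ioc Q (2 * Q)).filter (fun q : ℕ => ¬ AllPat B ε δ Λ q)).card : ℝ) ≤
      ∑ s : Fin J → Bool, (((Ioc Q (2 * Q)).filter (fun q : ℕ => ¬ OnePat B ε δ Λ s q)).card : ℝ) := by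
    exact_mod_cast h3
  refine h4.trans ((sum_le_sum fun s _ => h1 s).trans (le_of_eq ?_))
  rw [sum_const, nsmul_eq_mul, card_univ, ← hn]
  field_simp

end Pool.Agent.H527.N
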