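import Mathlib
import Pool.Agent.H527.N.N28

/-! The ratio of the sifted set to the product depends continuously on the set of primes. -/

set_option autoImplicit false

namespace Pool.Agent.H527.N

open Finset Filter Topology Pool.Agent.H527.M Pool.Agent.H527.S

theorem SY_insert {P : Finset ℕ} {p0 : ℕ} (hp0 : p0 ∉ P) (hpos : 0 < p0) (Y : ℕ) :
    SY (insert p0 P) Y = SY P Y ∪ (SY P (Y / p0)).image (fun t => insert p0 t) := by
  classical
  ext s
  unfold SY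
  simp only [mem_filter, mem_powerset, mem_union, mem_image]
  constructor
  · rintro ⟨h1, h2⟩
    by_cases h3 : p0 ∈ s
    · right
      refine ⟨s.erase p0, ⟨?_, ?_⟩, insert_erase h3⟩
      · intro p hp
        rw [mem_erase] at hp
        rcases mem_insert.1 (h1 hp.2) with h4 | h4
        · exact absurd h4 hp.1
        · exact h4
      · rw [Nat.le_div_iff_mul_le hpos, prod_erase_mul s (fun p => p) h3]
        exact h2
    · left
      refine ⟨?_, h2⟩
      intro p hp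
      rcases mem_insert.1 (h1 hp) with h4 | h4
      · rw [h4] at hp; exact absurd hp h3
      · exact h4
  · rintro (⟨h1, h2⟩ | ⟨t, ⟨h1, h2⟩, rfl⟩)
    · exact ⟨h1.trans (subset_insert _ _), h2⟩
    · refine ⟨insert_subset_insert _ h1, ?_⟩
      have h3 : p0 ∉ t := fun h => hp0 (h1 h)
      rw [prod_insert h3, mul_comm]
      exact (Nat.le_div_iff_mul_le hpos).1 h2

theorem EY_insert {P : Finset ℕ} {p0 : ℕ} (hp0 : p0 ∉ P) (hpos : 0 < p0) (Y : ℕ) :
    EY (insert p0 P) Y = EY P Y - 1 / (p0 : ℝ) * EY P (Y / p0) := by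
  classical
  have hmem : ∀ {Z : ℕ} {t : Finset ℕ}, t ∈ SY P Z → p0 ∉ t := by
    intro Z t ht h
    unfold SY at ht
    rw [mem_filter, mem_powerset] at ht
    exact hp0 (ht.1 h)
  unfold EY
  rw [SY_insert hp0 hpos, sum_union, sum_image]
  · rw [mul_sum, sub_eq_add_neg, ← sum_neg_distrib]
    congr 1
    apply sum_congr rfl
    intro t ht
    rw [card_insert_of_notMem (hmem ht), prod_insert (hmem ht), pow_succ]
    push_cast
    rw [one_div, one_div, one_div, mul_inv]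
    ring
  · intro s hs t ht h
    rw [mem_coe] at hs ht
    simp only at h
    calc s = (insert p0 s).erase p0 := (erase_insert (hmem hs)).symm
      _ = (insert p0 t).erase p0 := by rw [h]
      _ = t := erase_insert (hmem ht)
  · rw [disjoint_left]
    intro s hs hs2
    rw [mem_image] at hs2
    obtain ⟨t, _, rfl⟩ := hs2
    exact hmem hs (mem_insert_self _ _)

theorem EY_abs {P : Finset ℕ} (hs : ∑ p ∈ P, 1 / (p : ℝ) ≤ 1 / 2) (Y : ℕ) : |EY P Y| ≤ 2 := by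
  classical
  unfold EY
  refine (abs_sum_le_sum_abs _ _).trans ?_
  have h1 : ∀ s ∈ SY P Y, |(-1 : ℝ) ^ s.card * (1 / ((∏ p ∈ s, p : ℕ) : ℝ))| = ∏ p ∈ s, 1 / (p : ℝ) := by
    intro s _
    rw [abs_mul, abs_pow, abs_neg, abs_one, one_pow, one_mul, abs_of_nonneg (by positivity)]
    push_cast
    rw [prod_div_distrib, prod_const_one]
  rw [sum_congr rfl h1]
  have h2 : ∑ s ∈ SY P Y, ∏ p ∈ s, 1 / (p : ℝ) ≤ ∑ s ∈ P.powerset, ∏ p ∈ s, 1 / (p : ℝ) := by
    apply sum_le_sum_of_subset_of_nonneg (filter_subset _ _)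
    intro s _ _
    exact prod_nonneg fun p _ => by positivity
  refine h2.trans ?_
  rw [← prod_one_add]
  calc ∏ p ∈ P, (1 + 1 / (p : ℝ)) ≤ ∏ p ∈ P, Real.exp (1 / (p : ℝ)) := by
        apply Finset.prod_le_prod
        · intro p _; positivity
        · intro p _
          have := Real.add_one_le_exp (1 / (p : ℝ))
          linarith
    _ = Real.exp (∑ p ∈ P, 1 / (p : ℝ)) := by rw [Real.exp_sum]
    _ ≤ Real.exp (1 / 2) := Real.exp_le_exp.2 hs
    _ ≤ 2 := by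
        have h3 := Real.exp_one_lt_d9
        have h4 : Real.exp (1 / 2) * Real.exp (1 / 2) = Real.exp 1 := by rw [← Real.exp_add]; norm_num
        by_contra h
        push Not at h
        nlinarith

/-- the ratio -/
noncomputable def Rr (P : Finset ℕ) (Y : ℕ) : ℝ := EY P Y / ∏ p ∈ P, (1 - 1 / (p : ℝ))

theorem Rr_empty {Y : ℕ} (hY : 1 ≤ Y) : Rr ∅ Y = 1 := by
  unfold Rr EY SY
  rw [prod_empty, div_one, powerset_empty, sum_filter, sum_singleton]
  simp [hY]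

theorem Rr_step {P : Finset ℕ} {p0 : ℕ} (hP : ∀ p ∈ insert p0 P, p.Prime) (hp0 : p0 ∉ P)
    (hs : ∑ p ∈ insert p0 P, 1 / (p : ℝ) ≤ 1 / 2) (Y : ℕ) : |Rr (insert p0 P) Y - Rr P Y| ≤ 8 * (1 / (p0 : ℝ)) := by
  classical
  have hpr := hP p0 (mem_insert_self _ _)
  have hs2 : ∑ p ∈ P, 1 / (p : ℝ) ≤ 1 / 2 := by
    rw [sum_insert hp0] at hs
    have : 0 ≤ 1 / (p0 : ℝ) := by positivity
    linarith
  have h1 := prod_ge (insert p0 P) (fun p hp => by exact_mod_cast (hP p hp).one_lt.le)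
  have h2 := prod_ge P (fun p hp => by exact_mod_cast (hP p (mem_insert_of_mem hp)).one_lt.le)
  obtain ⟨Pr, hPr⟩ : ∃ Pr : ℝ, Pr = ∏ p ∈ P, (1 - 1 / (p : ℝ)) := ⟨_, rfl⟩
  obtain ⟨t, ht⟩ : ∃ t : ℝ, t = 1 / (p0 : ℝ) := ⟨_, rfl⟩
  have ht0 : 0 ≤ t := by rw [ht]; positivity
  have e1 : ∏ p ∈ insert p0 P, (1 - 1 / (p : ℝ)) = Pr * (1 - t) := by rw [prod_insert hp0, hPr, ht, mul_comm]
  have a1 := EY_abs hs2 Y
  have a2 := EY_abs hs2 (Y / p0)
  unfold Rr
  rw [EY_insert hp0 hpr.pos, e1, ← hPr, ← ht]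
  rw [e1] at h1
  rw [← hPr] at h2
  obtain ⟨E1, hE1⟩ : ∃ E1 : ℝ, E1 = EY P Y := ⟨_, rfl⟩
  obtain ⟨E2, hE2⟩ : ∃ E2 : ℝ, E2 = EY P (Y / p0) := ⟨_, rfl⟩
  rw [← hE1] at a1 ⊢
  rw [← hE2] at a2 ⊢
  have hq : 1 / 2 ≤ Pr * (1 - t) := by linarith
  have hPr0 : 1 / 2 ≤ Pr := by linarith
  have h3 : (E1 - t * E2) / (Pr * (1 - t)) - E1 / Pr = t * (E1 - E2) / (Pr * (1 - t)) := by
    have hne1 : Pr ≠ 0 := by linarith
    have hne2 : 1 - t ≠ 0 := by
      intro h
      rw [h, mul_zero] at hq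
      linarith
    field_simp
    ring
  rw [h3, abs_div, abs_of_pos (show 0 < Pr * (1 - t) by linarith), div_le_iff₀ (by linarith), abs_mul, abs_of_nonneg ht0]
  have h4 : |E1 - E2| ≤ 4 := by
    rw [abs_le] at a1 a2 ⊢
    constructor <;> linarith [a1.1, a1.2, a2.1, a2.2]
  calc t * |E1 - E2| ≤ t * 4 := by gcongr
    _ = 8 * t * (1 / 2) := by ring
    _ ≤ 8 * t * (Pr * (1 - t)) := by gcongr

theorem Rr_lip (P' : Finset ℕ) (Y : ℕ) : ∀ S : Finset ℕ, Disjoint S P' → (∀ p ∈ S ∪ P', p.Prime) →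
    ∑ p ∈ S ∪ P', 1 / (p : ℝ) ≤ 1 / 2 → |Rr (S ∪ P') Y - Rr P' Y| ≤ 8 * ∑ p ∈ S, 1 / (p : ℝ) := by
  classical
  intro S
  induction S using Finset.induction_on with
  | empty => intro _ _ _; simp
  | insert p0 S hp0 ih =>
    intro hd hpr hs
    rw [insert_union] at hpr hs ⊢
    have hp0P : p0 ∉ P' := fun h => disjoint_left.1 hd (mem_insert_self _ _) h
    have hp0' : p0 ∉ S ∪ P' := by
      rw [mem_union]; push Not; exact ⟨hp0, hp0P⟩
    have h1 := Rr_step hpr hp0' hs Y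
    have hd' : Disjoint S P' := disjoint_of_subset_left (subset_insert _ _) hd
    have hs' : ∑ p ∈ S ∪ P', 1 / (p : ℝ) ≤ 1 / 2 := by
      rw [sum_insert hp0'] at hs
      have : 0 ≤ 1 / (p0 : ℝ) := by positivity
      linarith
    have h2 := ih hd' (fun p hp => hpr p (mem_insert_of_mem hp)) hs'
    rw [sum_insert hp0, mul_add]
    have h3 := abs_sub_le (Rr (insert p0 (S ∪ P')) Y) (Rr (S ∪ P') Y) (Rr P' Y)
    linarith

/-- a discrete intermediate value theorem -/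
theorem Rr_ivt (Y : ℕ) (hY : 1 ≤ Y) (m0 lam : ℝ) (hm0 : 0 ≤ m0) (sg : ℝ) (hsg : sg = 1 ∨ sg = -1) (hlam : sg * 1 ≤ sg * lam) :
    ∀ P : Finset ℕ, (∀ p ∈ P, p.Prime) → ∑ p ∈ P, 1 / (p : ℝ) ≤ 1 / 2 → (∀ p ∈ P, 1 / (p : ℝ) ≤ m0) →
      sg * lam ≤ sg * Rr P Y → ∃ P', P' ⊆ P ∧ |Rr P' Y - lam| ≤ 8 * m0 := by
  classical
  intro P
  induction P using Finset.induction_on with
  | empty =>
    intro _ _ _ h
    rw [Rr_empty hY] at h
    refine ⟨∅, Subset.refl _, ?_⟩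
    rw [Rr_empty hY]
    have h1 : lam = 1 := by
      rcases hsg with h2 | h2 <;> rw [h2] at h hlam <;> linarith
    rw [h1, sub_self, abs_zero]
    positivity
  | insert p0 P hp0 ih =>
    intro hpr hs hm h
    have hs' : ∑ p ∈ P, 1 / (p : ℝ) ≤ 1 / 2 := by
      rw [sum_insert hp0] at hs
      have : 0 ≤ 1 / (p0 : ℝ) := by positivity
      linarith
    by_cases h1 : sg * lam ≤ sg * Rr P Y
    · obtain ⟨P', h2, h3⟩ := ih (fun p hp => hpr p (mem_insert_of_mem hp)) hs' (fun p hp => hm p (mem_insert_of_mem hp)) h1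
      exact ⟨P', h2.trans (subset_insert _ _), h3⟩
    · push Not at h1
      refine ⟨insert p0 P, Subset.refl _, ?_⟩
      have h2 := Rr_step hpr hp0 hs Y
      have h3 := hm p0 (mem_insert_self _ _)
      rw [abs_le] at h2 ⊢
      rcases hsg with h4 | h4 <;> rw [h4] at h h1 <;> constructor <;> linarith [h2.1, h2.2]

end Pool.Agent.H527.N
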