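import Mathlib
import Pool.Agent.H527.N.N30

/-! Classes with a prescribed ratio. -/

set_option autoImplicit false

namespace Pool.Agent.H527.N

open Finset Filter Topology Pool.Agent.H527.AP Pool.Agent.H527.M Pool.Agent.H527.S

section
variable {J : ℕ} {B : Fin J → ℝ} {par : Fin J → ℕ} {v : ℝ} {u : Fin J × Bool → ℝ} {k : Fin J → Fin J × Bool → ℕ}
    {g z c1 β δ1 η0 A : ℝ} {C : Finset ℝ} {Q : ℕ}

theorem Pf.shrink (H : Pf B par v u k g z c1 β δ1) {δ' : ℝ} (h0 : 0 < δ') (h1 : δ' ≤ δ1) : Pf B par v u k g z c1 β δ' :=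
  { H with
    hδ := h0
    hδ1 := h1.trans H.hδ1
    hδj := fun j => h1.trans (H.hδj j) }

theorem Lq.grow {δ' : ℝ} (F : Lq B u k g z c1 β δ' η0 A C Q) (h1 : δ' ≤ δ1) : Lq B u k g z c1 β δ1 η0 A C Q :=
  { F with
    y5 := fun j => (F.y5 j).trans (by
      have := Real.rpow_nonneg (show 0 ≤ Real.log Q by linarith [F.hL]) (B j - g / 2)
      gcongr) }

theorem Lq.eta {η' : ℝ} (F : Lq B u k g z c1 β δ1 η0 A C Q) (h1 : η' ≤ η0) : Lq B u k g z c1 β δ1 η' A C Q :=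
  { F with
    hη := fun i => h1.trans (F.hη i) }

/-- the sets of small products do not depend on the scale -/
theorem Pf.SY_eq (H : Pf B par v u k g z c1 β δ1) (F : Lq B u k g z c1 β δ1 η0 A C Q) (ps : ℕ) (j : Fin J) {c c' : ℝ}
    (hc : c ∈ C) (hc' : c' ∈ C) {P' : Finset ℕ} (hP' : P' ⊆ PU (Wn u z Q ps)) :
    SY P' (Ysc c (B j) Q) = SY P' (Ysc c' (B j) Q) := by
  classical
  have hL := F.hL
  have hR := H.RWn F ps
  have hPe : P' = PU (fun i => Wn u z Q ps i ∩ P') := by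
    unfold PU
    ext p
    rw [mem_biUnion]
    constructor
    · intro hp
      have h1 := hP' hp
      unfold PU at h1
      rw [mem_biUnion] at h1
      obtain ⟨i, hi, h2⟩ := h1
      exact ⟨i, hi, mem_inter.2 ⟨h2, hp⟩⟩
    · rintro ⟨i, _, h2⟩
      exact (mem_inter.1 h2).2
  have hR' : RW u (lo u z) (Real.log Q) z (fun i => Wn u z Q ps i ∩ P') := hR.sub fun i => inter_subset_left
  ext s
  by_cases hs : s ⊆ P'
  · have hs' : s ⊆ PU (fun i => Wn u z Q ps i ∩ P') := by rw [← hPe]; exact hs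
    have h1 := hR'.mem_SY (by linarith) (H.SCj F j hc) hs'
    have h2 := hR'.mem_SY (by linarith) (H.SCj F j hc') hs'
    rw [← hPe] at h1 h2
    rw [h1, h2]
  · unfold SY
    rw [mem_filter, mem_filter, mem_powerset]
    exact ⟨fun h => absurd h.1 hs, fun h => absurd h.1 hs⟩

end

/-- the classes with a prescribed ratio -/
noncomputable def Cl3 (b lam κ' : ℝ) (C : Finset ℝ) (Q q : ℕ) : Finset ℕ := by
  classical
  exact (Ioc 0 q).filter (fun a => a.Coprime q ∧ ∀ c ∈ C,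
    |(Nn (Ysc c b Q) q a : ℝ) - lam * ((Ysc c b Q : ℝ) * ((q : ℝ) / (Nat.totient q * Real.log Q)))| ≤
      κ' * ((Ysc c b Q : ℝ) * ((q : ℝ) / (Nat.totient q * Real.log Q))))

theorem num_cl3 {N l Y E Pr S q' lam κ' η δ' : ℝ} (hY : 0 < Y) (hP0 : 1 / 2 ≤ Pr) (hq : 0 ≤ q')
    (hκ : 0 < κ') (hκ1 : κ' ≤ 1) (hη : η = κ' / 16) (hlam : |lam - 1| ≤ 1) (hR : |E / Pr - lam| ≤ κ' / 4)
    (hl : |l - Y * E| ≤ S) (hS : S ≤ δ' * Y) (hδ' : δ' = κ' / 16) (hN : |N - l / Pr * q'| ≤ η * (l / Pr * q')) :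
    |N - lam * (Y * q')| ≤ κ' * (Y * q') := by
  have hPr : 0 < Pr := by linarith
  have hYq : 0 ≤ Y * q' := by positivity
  -- the ratio
  have h1 : |l / Pr - lam * Y| ≤ (3 / 8 * κ') * Y := by
    have e1 : l / Pr - lam * Y = (l - Y * E) / Pr + Y * (E / Pr - lam) := by field_simp; ring
    rw [e1]
    refine (abs_add_le _ _).trans ?_
    rw [abs_div, abs_of_pos hPr, abs_mul, abs_of_pos hY]
    have e2 : |l - Y * E| / Pr ≤ 2 * (δ' * Y) := by
      rw [div_le_iff₀ hPr]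
      have : 0 ≤ δ' * Y := (abs_nonneg _).trans (hl.trans hS)
      nlinarith [hl.trans hS]
    have e3 : Y * |E / Pr - lam| ≤ Y * (κ' / 4) := mul_le_mul_of_nonneg_left hR hY.le
    rw [hδ'] at e2
    linarith
  have h2 : |l / Pr * q' - lam * (Y * q')| ≤ (3 / 8 * κ') * (Y * q') := by
    have e1 : l / Pr * q' - lam * (Y * q') = (l / Pr - lam * Y) * q' := by ring
    rw [e1, abs_mul, abs_of_nonneg hq]
    calc |l / Pr - lam * Y| * q' ≤ (3 / 8 * κ') * Y * q' := mul_le_mul_of_nonneg_right h1 hq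
      _ = _ := by ring
  have h3 : l / Pr * q' ≤ 3 * (Y * q') := by
    rw [abs_le] at h2 hlam
    have h4 : lam * (Y * q') ≤ 2 * (Y * q') := mul_le_mul_of_nonneg_right (by linarith [hlam.2]) hYq
    have h5 : (3 / 8 * κ') * (Y * q') ≤ 1 * (Y * q') := mul_le_mul_of_nonneg_right (by linarith) hYq
    linarith [h2.2]
  have h4 : |N - l / Pr * q'| ≤ κ' / 4 * (Y * q') := by
    refine hN.trans ?_
    rw [hη]
    have : κ' / 16 * (l / Pr * q') ≤ κ' / 16 * (3 * (Y * q')) := mul_le_mul_of_nonneg_left h3 (by linarith)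
    have h5 : 0 ≤ κ' * (Y * q') := by positivity
    linarith
  have h5 := abs_sub_le N (l / Pr * q') (lam * (Y * q'))
  have h6 : 0 ≤ κ' * (Y * q') := by positivity
  linarith

end Pool.Agent.H527.N
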