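import Mathlib
import Pool.Agent.H527.N.N29
import Pool.Agent.H527.N.N32

/-! Classes with a prescribed ratio: from rows to the primes in the classes. -/

set_option autoImplicit false

namespace Pool.Agent.H527.N

open Finset Filter Topology Pool.Agent.H527.M Pool.Agent.H527.S

theorem num3_lo (lam κ η : ℝ) (h1 : 1 / 2 ≤ lam) (h2 : lam ≤ 2) (hκ : 0 < κ) (hκ1 : κ ≤ 1 / 4) (hη : η = κ / 64) :
    (lam - κ) * (1 + η) * (1 + η) ^ 2 ≤ (lam - κ / 4) * (1 - η) := by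
  have h0 : 0 < η := by rw [hη]; linarith
  have h3 : η ≤ 1 / 64 := by rw [hη]; linarith
  have h4 : (1 + η) * (1 + η) ^ 2 ≤ 1 + 4 * η := by
    have a1 : η * η ≤ η * (1 / 64) := mul_le_mul_of_nonneg_left h3 h0.le
    have a2 : η * (η * η) ≤ η * (η * (1 / 64)) := mul_le_mul_of_nonneg_left a1 h0.le
    have a3 : (1 + η) * (1 + η) ^ 2 = 1 + 3 * η + 3 * (η * η) + η * (η * η) := by ring
    rw [a3]
    linarith
  have h5 : (lam - κ) * ((1 + η) * (1 + η) ^ 2) ≤ (lam - κ) * (1 + 4 * η) := mul_le_mul_of_nonneg_left h4 (by linarith)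
  have h6 : (lam - κ) * η ≤ 2 * η := mul_le_mul_of_nonneg_right (by linarith) h0.le
  have h7 : (lam - κ / 4) * η ≤ 2 * η := mul_le_mul_of_nonneg_right (by linarith) h0.le
  have h8 : (lam - κ) * (1 + η) * (1 + η) ^ 2 = (lam - κ) * ((1 + η) * (1 + η) ^ 2) := by ring
  rw [h8]
  have h9 : (lam - κ) * (1 + 4 * η) = (lam - κ) + 4 * ((lam - κ) * η) := by ring
  have h10 : (lam - κ / 4) * (1 - η) = (lam - κ / 4) - (lam - κ / 4) * η := by ring
  rw [h10]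
  linarith

theorem num3_up (lam κ η : ℝ) (h1 : 1 / 2 ≤ lam) (h2 : lam ≤ 2) (hκ : 0 < κ) (hκ1 : κ ≤ 1 / 4) (hη : η = κ / 64) :
    (lam + κ / 4) * (1 + η) ^ 2 ≤ (lam + κ - η) * (1 - η) := by
  have h0 : 0 < η := by rw [hη]; linarith
  have h3 : η ≤ 1 / 64 := by rw [hη]; linarith
  have h4 : (1 + η) ^ 2 ≤ 1 + 3 * η := by
    have a1 : η * η ≤ η * (1 / 64) := mul_le_mul_of_nonneg_left h3 h0.le
    have a3 : (1 + η) ^ 2 = 1 + 2 * η + η * η := by ring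
    rw [a3]
    linarith
  have h5 : (lam + κ / 4) * (1 + η) ^ 2 ≤ (lam + κ / 4) * (1 + 3 * η) := mul_le_mul_of_nonneg_left h4 (by linarith)
  have h6 : (lam + κ / 4) * η ≤ 3 * η := mul_le_mul_of_nonneg_right (by linarith) h0.le
  have h7 : (lam + κ - η) * η ≤ 3 * η := mul_le_mul_of_nonneg_right (by linarith) h0.le
  have h9 : (lam + κ / 4) * (1 + 3 * η) = (lam + κ / 4) + 3 * ((lam + κ / 4) * η) := by ring
  have h10 : (lam + κ - η) * (1 - η) = (lam + κ - η) - (lam + κ - η) * η := by ring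
  rw [h10]
  linarith

/-- the classes with the ratio near `lam` -/
noncomputable def near (b lam κ Λ : ℝ) (q : ℕ) : Finset ℕ := by
  classical
  exact (Ioc 0 q).filter (fun a => a.Coprime q ∧ ∀ x : ℝ, q * (Real.log q) ^ b ≤ x →
    x ≤ Λ * (q * (Real.log q) ^ b) →
      |(pc x q a : ℝ) - lam * ((Nat.primeCounting ⌊x⌋₊ : ℝ) / Nat.totient q)| ≤
        κ * ((Nat.primeCounting ⌊x⌋₊ : ℝ) / Nat.totient q))

set_option maxHeartbeats 2000000 in
theorem transfer3 (b : ℝ) (hb : 1 < b) (lam κ Λ : ℝ) (hl1 : 1 / 2 ≤ lam) (hl2 : lam ≤ 2) (hκ : 0 < κ) (hκ1 : κ ≤ 1 / 4) :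
    ∃ N : ℕ, ∀ᶠ Q : ℕ in atTop, ∀ q ∈ Ioc Q (2 * Q), Cl3 b lam (κ / 4) (Cs (κ / 64) N) Q q ⊆ near b lam κ Λ q := by
  classical
  obtain ⟨η, hη⟩ : ∃ η : ℝ, η = κ / 64 := ⟨_, rfl⟩
  have hη0 : 0 < η := by rw [hη]; linarith
  have hη1 : η ≤ 1 / 64 := by rw [hη]; linarith
  obtain ⟨T, hT⟩ : ∃ T : ℝ, T = max 1 Λ * 2 ^ b := ⟨_, rfl⟩
  have hΛ1 : 1 ≤ max 1 Λ := le_max_left _ _
  have hT1 : 1 ≤ T := by
    rw [hT]
    have : 1 ≤ (2 : ℝ) ^ b := Real.one_le_rpow (by norm_num) (by linarith)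
    nlinarith
  obtain ⟨N, hN⟩ := pow_unbounded_of_one_lt T (show (1 : ℝ) < 1 + η by linarith)
  refine ⟨N, ?_⟩
  have hB0 : 0 < b := by linarith
  have e1 : ∀ᶠ L : ℝ in atTop, 1 ≤ η / 2 * L ^ b := by
    filter_upwards [(tendsto_rpow_atTop hB0).eventually_ge_atTop (2 / η)] with L h
    rw [div_le_iff₀ hη0] at h
    linarith
  have e2 : ∀ᶠ L : ℝ in atTop, L ≤ η / 2 * L ^ b := by
    filter_upwards [as_pow_pow 1 b (2 / η) hb] with L h
    rw [Real.rpow_one, div_mul_eq_mul_div, div_le_iff₀ hη0] at h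
    linarith
  have e3 : ∀ᶠ L : ℝ in atTop, 2 * T * L ^ b ≤ L ^ (b + 1) := as_pow_pow b (b + 1) (2 * T) (by linarith)
  filter_upwards [tendsto_logN.eventually e1, tendsto_logN.eventually e2, tendsto_logN.eventually e3,
    pnt_Q (b + 1) η hη0 (by linarith), tendsto_logN.eventually_ge_atTop 2, eventually_ge_atTop 2] with Q b1 b2 a3 a4 a5 a6 q hqQ a ha
  rw [mem_Ioc] at hqQ
  have hq0n : 0 < q := by omega
  have hQ0 : (0 : ℝ) < Q := by exact_mod_cast (by omega : 0 < Q)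
  have hq0 : (0 : ℝ) < q := by exact_mod_cast hq0n
  have hQq : (Q : ℝ) ≤ q := by exact_mod_cast hqQ.1.le
  have hqQ2 : (q : ℝ) ≤ 2 * Q := by exact_mod_cast hqQ.2
  unfold Cl3 at ha
  rw [mem_filter, mem_Ioc] at ha
  obtain ⟨⟨ha0, haq⟩, hcop, hall⟩ := ha
  unfold near
  rw [mem_filter, mem_Ioc]
  refine ⟨⟨ha0, haq⟩, hcop, ?_⟩
  intro x hx1 hx2
  obtain ⟨L, hL⟩ : ∃ L : ℝ, L = Real.log Q := ⟨_, rfl⟩
  rw [← hL] at b1 b2 a3 a4 a5
  have hL0 : 0 < L := by linarith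
  have hlq1 : L ≤ Real.log q := by rw [hL]; exact Real.log_le_log hQ0 hQq
  have hlq2 : Real.log q ≤ 2 * L := by
    have h5 : Real.log q ≤ Real.log (2 * Q) := Real.log_le_log hq0 hqQ2
    rw [Real.log_mul (by norm_num) hQ0.ne', ← hL] at h5
    have := Real.log_two_lt_d9
    linarith
  have hLb : 0 < L ^ b := Real.rpow_pos_of_pos hL0 _
  obtain ⟨y, hy⟩ : ∃ y : ℝ, y = x / q := ⟨_, rfl⟩
  have hxy : x = y * q := by rw [hy]; field_simp
  have hy1 : L ^ b ≤ y := by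
    rw [hy, le_div_iff₀ hq0, mul_comm]
    refine le_trans ?_ hx1
    have := Real.rpow_le_rpow hL0.le hlq1 hB0.le
    gcongr
  have hy2 : y ≤ T * L ^ b := by
    rw [hy, div_le_iff₀ hq0]
    have h1 : (Real.log q) ^ b ≤ 2 ^ b * L ^ b := by
      calc (Real.log q) ^ b ≤ (2 * L) ^ b := Real.rpow_le_rpow (by linarith) hlq2 hB0.le
        _ = 2 ^ b * L ^ b := Real.mul_rpow (by norm_num) hL0.le
    have h2 : 0 ≤ (q : ℝ) * (Real.log q) ^ b := by
      have : 0 ≤ (Real.log q) ^ b := Real.rpow_nonneg (by linarith) _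
      positivity
    calc x ≤ Λ * (q * (Real.log q) ^ b) := hx2
      _ ≤ max 1 Λ * (q * (Real.log q) ^ b) := by
          have := le_max_right 1 Λ
          gcongr
      _ ≤ max 1 Λ * (q * (2 ^ b * L ^ b)) := by gcongr
      _ = T * L ^ b * q := by rw [hT]; ring
  -- the scale
  obtain ⟨n, hn1, hn2⟩ := exists_nat_pow_near (show 1 ≤ y / L ^ b by rw [le_div_iff₀ hLb]; linarith)
    (show (1 : ℝ) < 1 + η by linarith)
  rw [le_div_iff₀ hLb] at hn1
  rw [div_lt_iff₀ hLb] at hn2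
  have hnN : n < N := by
    by_contra h
    push Not at h
    have h1 : (1 + η) ^ N ≤ (1 + η) ^ n := pow_le_pow_right₀ (by linarith) h
    have h2 : T * L ^ b < (1 + η) ^ n * L ^ b := by
      apply mul_lt_mul_of_pos_right _ hLb
      linarith
    linarith
  obtain ⟨s1, s2, s3, s4⟩ := scales hL0 hη0 (by linarith) b1 hn1 hn2
  have hc1 := hall _ (Cs_mem (η := κ / 64) (N := N) (show n < N + 4 by omega))
  have hc2 := hall _ (Cs_mem (η := κ / 64) (N := N) (show n + 3 < N + 4 by omega))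
  rw [← hη] at hc1 hc2
  unfold Ysc at hc1 hc2
  rw [← hL] at hc1 hc2
  have hφ : (0 : ℝ) < (Nat.totient q : ℝ) := by exact_mod_cast Nat.totient_pos.2 hq0n
  have hφq : (Nat.totient q : ℝ) ≤ q := by exact_mod_cast Nat.totient_le q
  have hxQ : (Q : ℝ) ≤ x := by
    rw [hxy]
    have h1 : 1 ≤ L ^ b := Real.one_le_rpow (by linarith) hB0.le
    nlinarith
  have hxQ2 : x ≤ Q * L ^ (b + 1) := by
    calc x = y * q := hxy
      _ ≤ (T * L ^ b) * (2 * Q) := by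
          have : 0 ≤ y := by linarith
          gcongr
      _ = (2 * T * L ^ b) * Q := by ring
      _ ≤ L ^ (b + 1) * Q := by gcongr
      _ = _ := by ring
  have hx0 : 0 < x := by linarith
  obtain ⟨p1, p2⟩ := a4 x hxQ hxQ2
  obtain ⟨π, hπ⟩ : ∃ π : ℝ, π = (Nat.primeCounting ⌊x⌋₊ : ℝ) := ⟨_, rfl⟩
  rw [← hπ] at p1 p2 ⊢
  obtain ⟨φ, hφe⟩ : ∃ φ : ℝ, φ = (Nat.totient q : ℝ) := ⟨_, rfl⟩
  rw [← hφe] at hc1 hc2 hφ hφq ⊢
  clear hall a3 a4
  rw [abs_le] at hc1 hc2 ⊢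
  have hxL : 0 ≤ x / L := by positivity
  constructor
  · -- lower bound
    have h1 := hc1.1
    have h2 : (Nn ⌊(1 + η) ^ n / (1 + η) * L ^ b⌋₊ q a : ℝ) ≤ (pc x q a : ℝ) := by
      have := pc_ge (x := x) haq hq0n (Y := ⌊(1 + η) ^ n / (1 + η) * L ^ b⌋₊) (by rw [hxy]; gcongr)
      exact_mod_cast this
    obtain ⟨Y, hY⟩ : ∃ Y : ℝ, Y = (⌊(1 + η) ^ n / (1 + η) * L ^ b⌋₊ : ℝ) := ⟨_, rfl⟩
    rw [← hY] at s2 h1
    have h3 : (lam - κ) * π * (1 + η) ^ 2 ≤ (lam - κ / 4) * (Y * q / L) * (1 + η) ^ 2 := by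
      have hlk : 0 ≤ lam - κ := by linarith
      have hlk' : 0 ≤ lam - κ / 4 := by linarith
      calc (lam - κ) * π * (1 + η) ^ 2 ≤ (lam - κ) * ((1 + η) * (x / L)) * (1 + η) ^ 2 := by gcongr
        _ = ((lam - κ) * (1 + η) * (1 + η) ^ 2) * (x / L) := by ring
        _ ≤ ((lam - κ / 4) * (1 - η)) * (x / L) := mul_le_mul_of_nonneg_right (num3_lo lam κ η hl1 hl2 hκ hκ1 hη) hxL
        _ = (lam - κ / 4) * (((1 - η) * y) * (q / L)) := by rw [hxy]; ring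
        _ ≤ (lam - κ / 4) * (((1 + η) ^ 2 * Y) * (q / L)) := by gcongr
        _ = _ := by ring
    have h4 := le_of_mul_le_mul_right h3 (by positivity)
    have h5 : (lam - κ) * (π / φ) ≤ (lam - κ / 4) * (Y * (q / (φ * L))) := by
      calc (lam - κ) * (π / φ) = ((lam - κ) * π) / φ := by ring
        _ ≤ ((lam - κ / 4) * (Y * q / L)) / φ := by gcongr
        _ = _ := by field_simp
    linarith
  · -- upper bound
    have h1 := hc2.2
    have h2 : (pc x q a : ℝ) ≤ (Nn ⌊(1 + η) ^ (n + 3) / (1 + η) * L ^ b⌋₊ q a : ℝ) + 1 := by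
      have := pc_le (x := x) ha0 haq (by linarith) (Y := ⌊(1 + η) ^ (n + 3) / (1 + η) * L ^ b⌋₊) (by rw [hxy]; gcongr)
      exact_mod_cast this
    obtain ⟨Y, hY⟩ : ∃ Y : ℝ, Y = (⌊(1 + η) ^ (n + 3) / (1 + η) * L ^ b⌋₊ : ℝ) := ⟨_, rfl⟩
    rw [← hY] at s4 h1
    have h5 : 1 ≤ η * (π / φ) := by
      have h6 : x / L ≤ 2 * π := by
        have : (1 / 2) * (x / L) ≤ (1 - η) * (x / L) := by
          apply mul_le_mul_of_nonneg_right _ hxL
          linarith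
        linarith
      have h7 : φ ≤ η * π := by
        have h8 : q * L ≤ η / 2 * x := by
          rw [hxy]
          calc q * L ≤ q * (η / 2 * L ^ b) := by gcongr
            _ ≤ q * (η / 2 * y) := by gcongr
            _ = _ := by ring
        have h9 : (q : ℝ) ≤ η / 2 * (x / L) := by
          rw [← mul_div_assoc, le_div_iff₀ hL0]; exact h8
        have h10 : η / 2 * (x / L) ≤ η / 2 * (2 * π) := by gcongr
        linarith
      rw [← mul_div_assoc, le_div_iff₀ hφ]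
      linarith
    have h3 : (lam + κ / 4) * (Y * q / L) ≤ (lam + κ - η) * π := by
      have hlk : 0 ≤ lam + κ / 4 := by linarith
      calc (lam + κ / 4) * (Y * q / L) ≤ (lam + κ / 4) * (((1 + η) ^ 2 * y) * q / L) := by gcongr
        _ = ((lam + κ / 4) * (1 + η) ^ 2) * (x / L) := by rw [hxy]; ring
        _ ≤ ((lam + κ - η) * (1 - η)) * (x / L) := mul_le_mul_of_nonneg_right (num3_up lam κ η hl1 hl2 hκ hκ1 hη) hxL
        _ = (lam + κ - η) * ((1 - η) * (x / L)) := by ring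
        _ ≤ _ := mul_le_mul_of_nonneg_left p1 (by linarith)
    have h4 : (lam + κ / 4) * (Y * (q / (φ * L))) ≤ (lam + κ - η) * (π / φ) := by
      calc (lam + κ / 4) * (Y * (q / (φ * L))) = ((lam + κ / 4) * (Y * q / L)) / φ := by field_simp
        _ ≤ ((lam + κ - η) * π) / φ := by gcongr
        _ = _ := by ring
    linarith

theorem near_mono (b lam lam' κ κ' Λ : ℝ) (h : κ' + |lam' - lam| ≤ κ) (q : ℕ) : near b lam' κ' Λ q ⊆ near b lam κ Λ q := by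
  classical
  intro a ha
  unfold near at ha ⊢
  rw [mem_filter] at ha ⊢
  refine ⟨ha.1, ha.2.1, fun x h1 h2 => ?_⟩
  have h3 := ha.2.2 x h1 h2
  obtain ⟨M, hM⟩ : ∃ M : ℝ, M = (Nat.primeCounting ⌊x⌋₊ : ℝ) / Nat.totient q := ⟨_, rfl⟩
  have hM0 : 0 ≤ M := by rw [hM]; positivity
  rw [← hM] at h3 ⊢
  have h4 := abs_sub_le (pc x q a : ℝ) (lam' * M) (lam * M)
  have h5 : |lam' * M - lam * M| = |lam' - lam| * M := by rw [← sub_mul, abs_mul, abs_of_nonneg hM0]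
  rw [h5] at h4
  have h6 : (κ' + |lam' - lam|) * M ≤ κ * M := mul_le_mul_of_nonneg_right h hM0
  rw [add_mul] at h6
  linarith

/-- every value is attained -/
def AllVal (b c ε κ Λ : ℝ) (q : ℕ) : Prop :=
  ∀ lam : ℝ, |lam - 1| ≤ c → (q : ℝ) * Real.exp (-((Real.log q) ^ ε)) ≤ ((near b lam κ Λ q).card : ℝ)

/-- one value is attained -/
def OneVal (b lam ε κ Λ : ℝ) (q : ℕ) : Prop :=
  (q : ℝ) * Real.exp (-((Real.log q) ^ ε)) ≤ ((near b lam κ Λ q).card : ℝ)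

open Classical in
theorem one_val (b : ℝ) (hb : 1 < b) (ε : ℝ) (hε : 0 < ε) : ∃ c : ℝ, 0 < c ∧ c ≤ 1 / 2 ∧ ∀ lam : ℝ, |lam - 1| ≤ c →
    ∀ κ' : ℝ, 0 < κ' → κ' ≤ 1 / 4 → ∀ Λ κ : ℝ, 0 < κ → ∀ᶠ Q : ℕ in atTop,
      (((Ioc Q (2 * Q)).filter (fun q : ℕ => ¬ OneVal b lam ε κ' Λ q)).card : ℝ) ≤ κ * Q := by
  obtain ⟨d1, hd1, hd1', h1⟩ := profile3_sg b hb 1 1 (Or.inl ⟨rfl, rfl⟩) ε hε
  obtain ⟨d2, hd2, hd2', h2⟩ := profile3_sg b hb (-1) 0 (Or.inr ⟨rfl, rfl⟩) ε hε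
  refine ⟨min (min d1 d2) (1 / 2), lt_min (lt_min hd1 hd2) (by norm_num), min_le_right _ _, ?_⟩
  intro lam hlam κ' hκ' hκ'1 Λ κ hκ
  have c1 : min (min d1 d2) (1 / 2) ≤ d1 := (min_le_left _ _).trans (min_le_left _ _)
  have c2 : min (min d1 d2) (1 / 2) ≤ d2 := (min_le_left _ _).trans (min_le_right _ _)
  have c3 : min (min d1 d2) (1 / 2) ≤ 1 / 2 := min_le_right _ _
  have hl := abs_le.1 hlam
  obtain ⟨N, hN⟩ := transfer3 b hb lam κ' Λ (by linarith [hl.1]) (by linarith [hl.2]) hκ' hκ'1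
  have hne : (Cs (κ' / 64) N).Nonempty := ⟨_, Cs_mem (η := κ' / 64) (N := N) (show 0 < N + 4 by omega)⟩
  have hpos := Cs_pos (η := κ' / 64) (by linarith) N
  have h3 : ∀ᶠ Q : ℕ in atTop, (((Ioc Q (2 * Q)).filter (fun q : ℕ => ¬ ((q : ℝ) * Real.exp (-((Real.log q) ^ ε)) ≤
        ((Cl3 b lam (κ' / 4) (Cs (κ' / 64) N) Q q).card : ℝ)))).card : ℝ) ≤ κ * Q := by
    rcases le_total 1 lam with h | h
    · exact h1 lam (by linarith) (by linarith [hl.2]) κ (κ' / 4) hκ (by linarith) (by linarith) _ hne hpos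
    · exact h2 lam (by linarith) (by linarith [hl.1]) κ (κ' / 4) hκ (by linarith) (by linarith) _ hne hpos
  filter_upwards [h3, hN] with Q a1 a2
  refine le_trans ?_ a1
  have h4 : (Ioc Q (2 * Q)).filter (fun q : ℕ => ¬ OneVal b lam ε κ' Λ q) ⊆
      (Ioc Q (2 * Q)).filter (fun q : ℕ => ¬ ((q : ℝ) * Real.exp (-((Real.log q) ^ ε)) ≤
        ((Cl3 b lam (κ' / 4) (Cs (κ' / 64) N) Q q).card : ℝ))) := by
    intro q hq
    rw [mem_filter] at hq ⊢
    refine ⟨hq.1, fun h5 => hq.2 ?_⟩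
    unfold OneVal
    refine h5.trans ?_
    exact_mod_cast card_le_card (a2 q hq.1)
  exact_mod_cast card_le_card h4

open Classical in
/-- **all the values near `1`** -/
theorem all_values (b : ℝ) (hb : 1 < b) (ε : ℝ) (hε : 0 < ε) : ∃ c : ℝ, 0 < c ∧ ∀ κ' : ℝ, 0 < κ' → ∀ Λ : ℝ,
    Tendsto (fun X : ℕ => (((Icc 1 X).filter (fun q : ℕ => ¬ AllVal b c ε κ' Λ q)).card : ℝ) / X) atTop (𝓝 0) := by
  obtain ⟨c, hc, hc1, h⟩ := one_val b hb ε hε
  refine ⟨c, hc, fun κ' hκ' Λ => ?_⟩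
  apply dyadic
  intro κ hκ
  obtain ⟨r, hr⟩ : ∃ r : ℝ, r = min (κ' / 2) (1 / 4) := ⟨_, rfl⟩
  have hr0 : 0 < r := by rw [hr]; exact lt_min (by linarith) (by norm_num)
  have hr1 : r ≤ κ' / 2 := by rw [hr]; exact min_le_left _ _
  have hr2 : r ≤ 1 / 4 := by rw [hr]; exact min_le_right _ _
  -- the net
  obtain ⟨m, hm⟩ := exists_nat_gt (2 * c / r)
  have hm0 : 0 < m := by
    have : (0 : ℝ) < m := lt_of_le_of_lt (by positivity) hm
    exact_mod_cast this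
  have hmr : (0 : ℝ) < m := by exact_mod_cast hm0
  have hnet : ∀ lam : ℝ, |lam - 1| ≤ c → ∃ i ∈ range (m + 1), |(1 - c + 2 * c * i / m) - lam| ≤ r ∧
      |(1 - c + 2 * c * i / m) - 1| ≤ c := by
    intro lam hlam
    rw [abs_le] at hlam
    obtain ⟨t, ht⟩ : ∃ t : ℝ, t = (lam - 1 + c) / (2 * c) * m := ⟨_, rfl⟩
    have ht0 : 0 ≤ t := by
      rw [ht]
      have : 0 ≤ lam - 1 + c := by linarith [hlam.1]
      positivity
    have htm : t ≤ m := by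
      rw [ht]
      apply mul_le_of_le_one_left hmr.le
      rw [div_le_one (by linarith)]
      linarith [hlam.2]
    have hl : lam = 1 - c + 2 * c * t / m := by
      rw [ht]; field_simp; ring
    have h1 := Nat.floor_le ht0
    have h2 := Nat.lt_floor_add_one t
    have hfm : (⌊t⌋₊ : ℝ) ≤ m := h1.trans htm
    refine ⟨⌊t⌋₊, ?_, ?_, ?_⟩
    · rw [mem_range]
      have : ⌊t⌋₊ ≤ m := by exact_mod_cast hfm
      omega
    · rw [hl]
      have e1 : (1 - c + 2 * c * (⌊t⌋₊ : ℝ) / m) - (1 - c + 2 * c * t / m) = -(2 * c / m * (t - ⌊t⌋₊)) := by ring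
      rw [e1, abs_neg, abs_of_nonneg (mul_nonneg (by positivity) (by linarith))]
      have e2 : 2 * c / m ≤ r := by
        rw [div_le_iff₀ hmr]
        rw [div_lt_iff₀ hr0] at hm
        linarith
      calc 2 * c / m * (t - ⌊t⌋₊) ≤ r * 1 := by
            apply mul_le_mul e2 (by linarith) (by linarith) hr0.le
        _ = r := mul_one r
    · have e3 : 0 ≤ 2 * c * (⌊t⌋₊ : ℝ) / m := by positivity
      have e4 : 2 * c * (⌊t⌋₊ : ℝ) / m ≤ 2 * c := by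
        rw [div_le_iff₀ hmr]
        have : 2 * c * (⌊t⌋₊ : ℝ) ≤ 2 * c * m := by gcongr
        linarith
      rw [abs_le]
      constructor <;> linarith
  obtain ⟨n, hn⟩ : ∃ n : ℝ, n = ((m + 1 : ℕ) : ℝ) := ⟨_, rfl⟩
  have hn0 : 0 < n := by rw [hn]; positivity
  have hone : ∀ i ∈ range (m + 1), ∀ᶠ Q : ℕ in atTop, |(1 - c + 2 * c * i / m) - 1| ≤ c →
      (((Ioc Q (2 * Q)).filter (fun q : ℕ => ¬ OneVal b (1 - c + 2 * c * i / m) ε r Λ q)).card : ℝ) ≤ κ / n * Q := by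
    intro i _
    by_cases h1 : |(1 - c + 2 * c * (i : ℝ) / m) - 1| ≤ c
    · filter_upwards [h _ h1 r hr0 hr2 Λ (κ / n) (by positivity)] with Q h2 _
      exact h2
    · exact Eventually.of_forall fun Q h2 => absurd h2 h1
  have hall := (eventually_all_finset (range (m + 1))).2 hone
  filter_upwards [hall] with Q h1
  have h2 : (Ioc Q (2 * Q)).filter (fun q : ℕ => ¬ AllVal b c ε κ' Λ q) ⊆
      ((range (m + 1)).filter (fun i : ℕ => |(1 - c + 2 * c * (i : ℝ) / m) - 1| ≤ c)).biUnion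
        (fun i => (Ioc Q (2 * Q)).filter (fun q : ℕ => ¬ OneVal b (1 - c + 2 * c * i / m) ε r Λ q)) := by
    intro q hq
    rw [mem_filter] at hq
    unfold AllVal at hq
    obtain ⟨lam, hlam⟩ := not_forall.1 hq.2
    rw [Classical.not_imp] at hlam
    obtain ⟨i, hi, h3, h4⟩ := hnet lam hlam.1
    rw [mem_biUnion]
    refine ⟨i, mem_filter.2 ⟨hi, h4⟩, mem_filter.2 ⟨hq.1, fun h5 => hlam.2 (le_trans h5 ?_)⟩⟩
    exact_mod_cast card_le_card (near_mono b lam (1 - c + 2 * c * i / m) κ' r Λ (by linarith) q)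
  have h3 := (card_le_card h2).trans card_biUnion_le
  have h4 : (((Ioc Q (2 * Q)).filter (fun q : ℕ => ¬ AllVal b c ε κ' Λ q)).card : ℝ) ≤
      ∑ i ∈ (range (m + 1)).filter (fun i : ℕ => |(1 - c + 2 * c * (i : ℝ) / m) - 1| ≤ c),
        (((Ioc Q (2 * Q)).filter (fun q : ℕ => ¬ OneVal b (1 - c + 2 * c * i / m) ε r Λ q)).card : ℝ) := by
    exact_mod_cast h3
  refine h4.trans ?_
  have h5 : ∑ i ∈ (range (m + 1)).filter (fun i : ℕ => |(1 - c + 2 * c * (i : ℝ) / m) - 1| ≤ c),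
        (((Ioc Q (2 * Q)).filter (fun q : ℕ => ¬ OneVal b (1 - c + 2 * c * i / m) ε r Λ q)).card : ℝ) ≤
      ∑ _i ∈ (range (m + 1)).filter (fun i : ℕ => |(1 - c + 2 * c * (i : ℝ) / m) - 1| ≤ c), κ / n * Q := by
    apply sum_le_sum
    intro i hi
    rw [mem_filter] at hi
    exact h1 i hi.1 hi.2
  refine h5.trans ?_
  rw [sum_const, nsmul_eq_mul]
  have h6 : (((range (m + 1)).filter (fun i : ℕ => |(1 - c + 2 * c * (i : ℝ) / m) - 1| ≤ c)).card : ℝ) ≤ n := by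
    rw [hn]
    have := card_filter_le (range (m + 1)) (fun i : ℕ => |(1 - c + 2 * c * (i : ℝ) / m) - 1| ≤ c)
    rw [card_range] at this
    exact_mod_cast this
  calc _ ≤ n * (κ / n * Q) := by gcongr
    _ = κ * Q := by field_simp

end Pool.Agent.H527.N
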